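import Pool.Agent.Helper632.AAR.NTA

/-!
Common definitions: values of tapes, departure property, excursions, chains.
-/

namespace Pool.Agent.Helper632.AAR

/-- The element of `G` represented by a word of symbols (`$` stands for `1`). -/
def sval {G : Type*} [Monoid G] (π : ℕ → G) (U : List Sym) : G := (U.map fun s => s.elim 1 π).prod

/-- Factors of words in the language of `D` which represent elements of a finite set are short. -/
def Dep {G : Type*} [Monoid G] (π : ℕ → G) (D : NTA) : Prop :=
  ∀ B : Set G, B.Finite → ∃ K : ℕ, ∀ (P Q R : List Sym) (s t : ℕ),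
    Run D.2.2 D.1 P [] s → Run D.2.2 s Q [] t → Run D.2.2 t R [] D.2.1 →
    sval π Q ∈ B → Q.length ≤ K

/-- The values in `G` of the partial words along paths of `W` whose total value lies in `B`. -/
def Exc {G : Type*} [Monoid G] (π : ℕ → G) (W : FAut) (B : Set G) : Set G :=
  {g | ∃ (s m t : ℕ) (q₁ q₂ : List ℕ), (∃ p, FPath W W.1 p s) ∧ FPath W s q₁ m ∧ FPath W m q₂ t ∧
    (∃ r, ∃ f ∈ W.2.1, FPath W t r f) ∧ val π (q₁ ++ q₂) ∈ B ∧ val π q₁ = g}

/-- `v` is obtained from `u` by following the signed letters of `r`. -/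
def ChainRel (R : Option ℕ → List ℕ → List ℕ → Prop) : List SLet → List ℕ → List ℕ → Prop
  | [], u, v => u = v
  | l :: r, u, v => ∃ w, (if l.1 then R l.2 w u else R l.2 u w) ∧ ChainRel R r w v

/-- `r` acts trivially on `W1` modulo `R none`. -/
def Triv (W1 : Set (List ℕ)) (R : Option ℕ → List ℕ → List ℕ → Prop) (r : List SLet) : Prop :=
  ∀ w₀ w₁, w₀ ∈ W1 → w₁ ∈ W1 → ChainRel R r w₀ w₁ → R none w₀ w₁

/-- The value of a signed word. -/
def slval {G : Type*} [Group G] (π : ℕ → G) (r : List SLet) : G :=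
  (r.map fun l => if l.1 then (gen π l.2)⁻¹ else gen π l.2).prod

end Pool.Agent.Helper632.AAR
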