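import Pool.Agent.Helper632.AAR.NTA
import Pool.Agent.Helper632.AAR.Lib

namespace Pool.Agent.Helper632.AAR




theorem slval_append {G : Type*} [Group G] (π : ℕ → G) (r r' : List SLet) :
    slval π (r ++ r') = slval π r * slval π r' := by
  unfold slval
  rw [List.map_append, List.prod_append]

theorem slval_inv' {G : Type*} [Group G] (π : ℕ → G) (r : List SLet) :
    slval π (sinv r) = (slval π r)⁻¹ := by
  induction r with
  | nil => simp [sinv, slval]
  | cons l r ih =>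
    have h1 : sinv (l :: r) = sinv r ++ [(!l.1, l.2)] := by simp [sinv]
    rw [h1, slval_append, ih]
    obtain ⟨b, o⟩ := l
    cases b <;> simp [slval]

theorem slval_map {G G' : Type*} [Group G] [Group G'] (f : G →* G') (π : ℕ → G) (r : List SLet) :
    f (slval π r) = slval (fun a => f (π a)) r := by
  unfold slval
  rw [map_list_prod, List.map_map]
  congr 1
  apply List.map_congr_left
  rintro ⟨b, o⟩ _
  cases b <;> cases o <;> simp [gen]

/-- the values of the signed words -/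
def slG {G : Type*} [Group G] (π : ℕ → G) : Subgroup G where
  carrier := Set.range (slval π)
  one_mem' := ⟨[], by simp [slval]⟩
  mul_mem' := by
    rintro _ _ ⟨r, rfl⟩ ⟨r', rfl⟩
    exact ⟨r ++ r', slval_append π r r'⟩
  inv_mem' := by
    rintro _ ⟨r, rfl⟩
    exact ⟨sinv r, slval_inv' π r⟩

/-- the setoid of the words -/
def wset (W1 : Set (List ℕ)) (R : Option ℕ → List ℕ → List ℕ → Prop)
    (h0 : Triv W1 R []) (h1 : Triv W1 R [(true, none)])
    (h2 : Triv W1 R [(false, none), (false, none)]) : Setoid W1 where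
  r a b := R none a b
  iseqv := {
    refl := fun a => h0 a a a.2 a.2 rfl
    symm := fun {a b} h => h1 b a b.2 a.2 ⟨a, h, rfl⟩
    trans := fun {a b c} h h' => h2 a c a.2 c.2 ⟨b, h, c, h', rfl⟩ }

theorem follow {G : Type*} [Group G] (π : ℕ → G) {X : Type*} (act : X → G → X)
    (cl : List ℕ → X) (W1 : Set (List ℕ)) (R : Option ℕ → List ℕ → List ℕ → Prop)
    (htot : ∀ o, ∀ w ∈ W1, (∃ w' ∈ W1, R o w w') ∧ ∃ w' ∈ W1, R o w' w)
    (a1 : ∀ x, act x 1 = x) (a2 : ∀ x g h, act (act x g) h = act x (g * h))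
    (a3 : ∀ o, ∀ w ∈ W1, ∀ w' ∈ W1, R o w w' → act (cl w) (gen π o) = cl w')
    (r : List SLet) : ∀ w ∈ W1, ∃ w₁ ∈ W1, ChainRel R r w w₁ ∧ cl w₁ = act (cl w) (slval π r) := by
  induction r with
  | nil =>
    intro w hw
    exact ⟨w, hw, rfl, by simp [slval, a1]⟩
  | cons l r ih =>
    intro w hw
    obtain ⟨b, o⟩ := l
    have hs : slval π ((b, o) :: r) = (if b then (gen π o)⁻¹ else gen π o) * slval π r := by
      simp [slval]
    cases b with
    | false =>
      obtain ⟨w', hw', hR⟩ := (htot o w hw).1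
      obtain ⟨w₁, hw₁, hc, he⟩ := ih w' hw'
      refine ⟨w₁, hw₁, ⟨w', by simpa using hR, hc⟩, ?_⟩
      rw [he, ← a3 o w hw w' hw' hR, a2, hs]
      simp
    | true =>
      obtain ⟨w', hw', hR⟩ := (htot o w hw).2
      obtain ⟨w₁, hw₁, hc, he⟩ := ih w' hw'
      refine ⟨w₁, hw₁, ⟨w', by simpa using hR, hc⟩, ?_⟩
      rw [he, ← a3 o w' hw' w hw hR, a2, hs]
      simp

/-- JOB E1. -/
theorem exists_action (W1 : Set (List ℕ)) (R : Option ℕ → List ℕ → List ℕ → Prop)
    (hne : W1.Nonempty)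
    (htot : ∀ o, ∀ w ∈ W1, (∃ w' ∈ W1, R o w w') ∧ ∃ w' ∈ W1, R o w' w)
    (h0 : Triv W1 R []) (h1 : Triv W1 R [(true, none)])
    (h2 : Triv W1 R [(false, none), (false, none)])
    (h3 : ∀ o, Triv W1 R [(true, o), (false, none), (false, o)])
    (h4 : ∀ o, Triv W1 R [(false, o), (false, none), (true, o)]) :
    ∃ (G : Type) (_ : Group G) (π : ℕ → G) (X : Type) (act : X → G → X) (cl : List ℕ → X),
      (∀ x, act x 1 = x) ∧ (∀ x g h, act (act x g) h = act x (g * h)) ∧
      (∀ w ∈ W1, ∀ w' ∈ W1, cl w = cl w' ↔ R none w w') ∧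
      (∀ x, ∃ w ∈ W1, cl w = x) ∧
      (∀ g : G, ∃ r : List SLet, slval π r = g) ∧
      (∀ o, ∀ w ∈ W1, ∀ w' ∈ W1, R o w w' → act (cl w) (gen π o) = cl w') ∧
      (∀ r, Triv W1 R r → slval π r = 1) := by
  classical
  have hF : ∀ o : Option ℕ, ∀ w : W1, ∃ w' : W1, R o w w' := by
    intro o w
    obtain ⟨w', hw', h⟩ := (htot o w w.2).1
    exact ⟨⟨w', hw'⟩, h⟩
  have hB : ∀ o : Option ℕ, ∀ w : W1, ∃ w' : W1, R o w' w := by
    intro o w
    obtain ⟨w', hw', h⟩ := (htot o w w.2).2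
    exact ⟨⟨w', hw'⟩, h⟩
  choose F hF using hF
  choose B hB using hB
  have hrefl : ∀ w ∈ W1, R none w w := fun w hw => h0 w w hw hw rfl
  have k3 : ∀ o : Option ℕ, ∀ w w' u v : List ℕ, u ∈ W1 → v ∈ W1 → R o w u → R none w w' →
      R o w' v → R none u v := by
    intro o w w' u v hu hv h h' h''
    exact h3 o u v hu hv ⟨w, by simpa using h, w', by simpa using h', v, by simpa using h'', rfl⟩
  have k4 : ∀ o : Option ℕ, ∀ w w' u v : List ℕ, u ∈ W1 → v ∈ W1 → R o u w → R none w w' →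
      R o v w' → R none u v := by
    intro o w w' u v hu hv h h' h''
    exact h4 o u v hu hv ⟨w, by simpa using h, w', by simpa using h', v, by simpa using h'', rfl⟩
  let S : Setoid W1 := wset W1 R h0 h1 h2
  let X : Type := Quotient S
  let q : W1 → X := Quotient.mk S
  have hq : ∀ a b : W1, q a = q b ↔ R none a b := fun a b => Quotient.eq (r := S)
  have hqs : ∀ x : X, ∃ a : W1, q a = x := fun x => Quotient.exists_rep x
  let E : Option ℕ → Equiv.Perm X := fun o =>
    { toFun := Quotient.lift (fun w => q (F o w)) (fun a b hab =>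
        (hq _ _).mpr (k3 o a b (F o a) (F o b) (F o a).2 (F o b).2 (hF o a) hab (hF o b)))
      invFun := Quotient.lift (fun w => q (B o w)) (fun a b hab =>
        (hq _ _).mpr (k4 o a b (B o a) (B o b) (B o a).2 (B o b).2 (hB o a) hab (hB o b)))
      left_inv := by
        intro x
        obtain ⟨a, rfl⟩ := hqs x
        change q (B o (F o a)) = q a
        rw [hq]
        exact k4 o (F o a) (F o a) _ _ (B o (F o a)).2 a.2 (hB o (F o a)) (hrefl _ (F o a).2)
          (hF o a)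
      right_inv := by
        intro x
        obtain ⟨a, rfl⟩ := hqs x
        change q (F o (B o a)) = q a
        rw [hq]
        exact k3 o (B o a) (B o a) _ _ (F o (B o a)).2 a.2 (hF o (B o a)) (hrefl _ (B o a).2)
          (hB o a) }
  have hE : ∀ o, ∀ a : W1, E o (q a) = q (F o a) := fun o a => rfl
  let π0 : ℕ → Equiv.Perm X := fun a => (E (some a))⁻¹
  let G : Subgroup (Equiv.Perm X) := slG π0
  have hπ0 : ∀ a, π0 a ∈ G := fun a => ⟨[(false, some a)], by simp [slval, gen]⟩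
  let π : ℕ → G := fun a => ⟨π0 a, hπ0 a⟩
  obtain ⟨w₀, hw₀⟩ := hne
  let cl : List ℕ → X := fun w => if h : w ∈ W1 then q ⟨w, h⟩ else q ⟨w₀, hw₀⟩
  have hcl : ∀ w (h : w ∈ W1), cl w = q ⟨w, h⟩ := fun w h => dif_pos h
  let act : X → G → X := fun x g => (g : Equiv.Perm X)⁻¹ x
  have a1 : ∀ x, act x 1 = x := by
    intro x
    change ((1 : Equiv.Perm X))⁻¹ x = x
    rw [inv_one]
    rfl
  have a2 : ∀ x g h, act (act x g) h = act x (g * h) := by
    intro x g h
    change (h : Equiv.Perm X)⁻¹ ((g : Equiv.Perm X)⁻¹ x) = ((g : Equiv.Perm X) * h)⁻¹ x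
    rw [mul_inv_rev]
    rfl
  have a3 : ∀ o, ∀ w ∈ W1, ∀ w' ∈ W1, R o w w' → act (cl w) (gen π o) = cl w' := by
    intro o w hw w' hw' h
    rw [hcl w hw, hcl w' hw']
    cases o with
    | none =>
      change act _ 1 = _
      rw [a1]
      exact (hq _ _).mpr h
    | some a =>
      change ((E (some a))⁻¹)⁻¹ (q ⟨w, hw⟩) = _
      rw [inv_inv, hE, hq]
      exact k3 (some a) w w _ _ (F (some a) ⟨w, hw⟩).2 hw' (hF (some a) ⟨w, hw⟩) (hrefl w hw) h
  have a4 : ∀ w ∈ W1, ∀ w' ∈ W1, cl w = cl w' ↔ R none w w' := by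
    intro w hw w' hw'
    rw [hcl w hw, hcl w' hw', hq]
  have a5 : ∀ x, ∃ w ∈ W1, cl w = x := by
    intro x
    obtain ⟨a, rfl⟩ := hqs x
    exact ⟨a, a.2, hcl a a.2⟩
  refine ⟨G, inferInstance, π, X, act, cl, a1, a2, a4, a5, ?_, a3, ?_⟩
  · rintro ⟨_, r, rfl⟩
    exact ⟨r, Subtype.ext (slval_map G.subtype π r)⟩
  · intro r hr
    apply Subtype.ext
    apply inv_injective
    apply Equiv.ext
    intro x
    obtain ⟨w, hw, rfl⟩ := a5 x
    obtain ⟨w₁, hw₁, hc, he⟩ := follow π act cl W1 R htot a1 a2 a3 r w hw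
    have h6 := (a4 w hw w₁ hw₁).mpr (hr w w₁ hw hw₁ hc)
    change act (cl w) (slval π r) = _
    rw [← he, ← h6]
    simp

end Pool.Agent.Helper632.AAR
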