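import Pool.Agent.Helper632.AAR.NTA

/-!
The negative side: when the data are not an asynchronous automatic structure of any group.
-/

namespace Pool.Agent.Helper632.AAR

/-- Letters and their formal inverses: `(false, a)` stands for `a` and `(true, a)` for `a⁻¹`. -/
abbrev SL := Bool × ℕ

/-- A positive word. -/
def pos (u : List ℕ) : List SL := u.map fun a => (false, a)

/-- The word of `x ∈ A ∪ {ε}`. -/
def psym : Option ℕ → List SL
  | none => []
  | some a => [(false, a)]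

/-- The defining relations of the group of `d`: free cancellation, letters outside the alphabet
are trivial, and `u x = v` for `(u, v) ∈ L(M_x)`. -/
inductive Rule (d : Data) : List SL → List SL → Prop
  | cancel (s : Bool) (a : ℕ) : Rule d [(s, a), (!s, a)] []
  | big (s : Bool) (a : ℕ) : d.1 ≤ a → Rule d [(s, a)] []
  | mult (x : Option ℕ) (u v : List ℕ) : InA d.1 x → ALang (mult d x) u v →
      Rule d (pos u ++ psym x) (pos v)

/-- One rewriting step. -/
def Step (d : Data) (w w' : List SL) : Prop :=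
  ∃ p q l r, (Rule d l r ∨ Rule d r l) ∧ w = p ++ l ++ q ∧ w' = p ++ r ++ q

/-- Equality of words in the group of `d`. -/
def EqW (d : Data) (w w' : List SL) : Prop := Relation.ReflTransGen (Step d) w w'

/-- Certificate for: there is no `V` with `Rel τ U V`. -/
def NotL (τ : NTA) (U : List Sym) : Prop :=
  ∃ S : List (ℕ × ℕ), (τ.1, 0) ∈ S ∧ (τ.2.1, U.length) ∉ S ∧
    ∀ p ∈ S, ∀ e ∈ τ.2.2, e.1 = p.1 →
      ((e.2.1 = 0 ∨ e.2.1 = 2) → (e.2.2.2, p.2) ∈ S) ∧
      (e.2.1 = 1 → U[p.2]? = some e.2.2.1 → (e.2.2.2, p.2 + 1) ∈ S)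

/-- Certificate for: not `Rel τ U V`. -/
def NotLR (τ : NTA) (U V : List Sym) : Prop :=
  ∃ S : List (ℕ × ℕ × ℕ), (τ.1, 0, 0) ∈ S ∧ (τ.2.1, U.length, V.length) ∉ S ∧
    ∀ p ∈ S, ∀ e ∈ τ.2.2, e.1 = p.1 →
      (e.2.1 = 0 → (e.2.2.2, p.2.1, p.2.2) ∈ S) ∧
      (e.2.1 = 1 → U[p.2.1]? = some e.2.2.1 → (e.2.2.2, p.2.1 + 1, p.2.2) ∈ S) ∧
      (e.2.1 = 2 → V[p.2.2]? = some e.2.2.1 → (e.2.2.2, p.2.1, p.2.2 + 1) ∈ S)

/-- Certificate for: the machine `τ` accepts nothing. -/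
def EmptyOK (τ : NTA) : Prop := ∃ X : List ℕ, DeadOK τ X ∧ τ.1 ∈ X

/-- Certificate for: `d` is not a structure of any group. -/
def Bad (d : Data) : Prop :=
  EmptyOK (wNTA d.2.1) ∨
  ∃ x ∈ none :: (List.range d.1).map some, ∃ u v : List ℕ,
    (Rel (rodM (mult d x)) (em u) (em v) ∧
      (NotL (wNTA d.2.1) (em u) ∨ NotL (wNTA d.2.1) (em v))) ∨
    (Rel (wNTA d.2.1) (em u) [] ∧
      (NotL (rodM (mult d x)) (em u) ∨ NotL (inv (rodM (mult d x))) (em u))) ∨
    (Rel (wNTA d.2.1) (em u) [] ∧ Rel (wNTA d.2.1) (em v) [] ∧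
      NotLR (rodM (mult d x)) (em u) (em v) ∧ EqW d (pos u ++ psym x) (pos v))

end Pool.Agent.Helper632.AAR
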