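import Pool.Agent.Helper632.AAR.NTA
import Pool.Agent.Helper446.RE
import Pool.Agent.Helper632.AAR.No

namespace Pool.Agent.Helper632.AAR

open Pool.Agent.Helper446

/-! JOB I2. -/


theorem re_imp {α : Type} [Primcodable α] {p q : α → Prop} (hp : REPred fun a => ¬ p a)
    (hq : REPred q) : REPred fun a => p a → q a := by
  refine (RE.or hp hq).of_eq fun a => ?_
  constructor
  · rintro (h | h) h2
    exacts [absurd h2 h, h]
  · intro h
    by_cases h2 : p a
    exacts [Or.inr (h h2), Or.inl h2]

theorem re_notL : REPred (fun x : NTA × List Sym => NotL x.1 x.2) := by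
  refine RE.ex (α := NTA × List Sym) (β := List (ℕ × ℕ)) (p := fun x S =>
    (x.1.1, 0) ∈ S ∧ (x.1.2.1, x.2.length) ∉ S ∧
    ∀ p ∈ S, ∀ e ∈ x.1.2.2, e.1 = p.1 →
      ((e.2.1 = 0 ∨ e.2.1 = 2) → (e.2.2.2, p.2) ∈ S) ∧
      (e.2.1 = 1 → x.2[p.2]? = some e.2.2.1 → (e.2.2.2, p.2 + 1) ∈ S)) ?_
  refine RE.and ?_ (RE.and ?_ ?_)
  · refine RE.mem_list (f := fun x : (NTA × List Sym) × List (ℕ × ℕ) => (x.1.1.1, 0)) ?_
      Computable.snd
    exact (Computable.fst.comp (Computable.fst.comp Computable.fst)).pair (Computable.const 0)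
  · refine RE.not_mem_list
      (f := fun x : (NTA × List Sym) × List (ℕ × ℕ) => (x.1.1.2.1, x.1.2.length)) ?_
      Computable.snd
    refine Computable.pair ?_ ?_
    · exact Computable.fst.comp (Computable.snd.comp (Computable.fst.comp Computable.fst))
    · exact Computable.list_length.comp (Computable.snd.comp Computable.fst)
  · refine RE.all_mem (α := (NTA × List Sym) × List (ℕ × ℕ)) (β := ℕ × ℕ)
      (l := fun x => x.2) (p := fun x p => ∀ e ∈ x.1.1.2.2, e.1 = p.1 →
      ((e.2.1 = 0 ∨ e.2.1 = 2) → (e.2.2.2, p.2) ∈ x.2) ∧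
      (e.2.1 = 1 → x.1.2[p.2]? = some e.2.2.1 → (e.2.2.2, p.2 + 1) ∈ x.2)) ?_ Computable.snd
    refine RE.all_mem (α := ((NTA × List Sym) × List (ℕ × ℕ)) × (ℕ × ℕ)) (β := Arr)
      (l := fun x => x.1.1.1.2.2) (p := fun x e => e.1 = x.2.1 →
      ((e.2.1 = 0 ∨ e.2.1 = 2) → (e.2.2.2, x.2.2) ∈ x.1.2) ∧
      (e.2.1 = 1 → x.1.1.2[x.2.2]? = some e.2.2.1 → (e.2.2.2, x.2.2 + 1) ∈ x.1.2)) ?_ ?_
    swap
    · exact Computable.snd.comp (Computable.snd.comp (Computable.fst.comp
        (Computable.fst.comp Computable.fst)))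
    -- the projections
    have cS : Computable fun x : (((NTA × List Sym) × List (ℕ × ℕ)) × (ℕ × ℕ)) × Arr =>
        x.1.1.2 := Computable.snd.comp (Computable.fst.comp Computable.fst)
    have cU : Computable fun x : (((NTA × List Sym) × List (ℕ × ℕ)) × (ℕ × ℕ)) × Arr =>
        x.1.1.1.2 := Computable.snd.comp (Computable.fst.comp (Computable.fst.comp Computable.fst))
    have cp1 : Computable fun x : (((NTA × List Sym) × List (ℕ × ℕ)) × (ℕ × ℕ)) × Arr =>
        x.1.2.1 := Computable.fst.comp (Computable.snd.comp Computable.fst)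
    have cp2 : Computable fun x : (((NTA × List Sym) × List (ℕ × ℕ)) × (ℕ × ℕ)) × Arr =>
        x.1.2.2 := Computable.snd.comp (Computable.snd.comp Computable.fst)
    have ce1 : Computable fun x : (((NTA × List Sym) × List (ℕ × ℕ)) × (ℕ × ℕ)) × Arr =>
        x.2.1 := Computable.fst.comp Computable.snd
    have ce2 : Computable fun x : (((NTA × List Sym) × List (ℕ × ℕ)) × (ℕ × ℕ)) × Arr =>
        x.2.2.1 := Computable.fst.comp (Computable.snd.comp Computable.snd)
    have ce3 : Computable fun x : (((NTA × List Sym) × List (ℕ × ℕ)) × (ℕ × ℕ)) × Arr =>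
        x.2.2.2.1 := Computable.fst.comp (Computable.snd.comp (Computable.snd.comp Computable.snd))
    have ce4 : Computable fun x : (((NTA × List Sym) × List (ℕ × ℕ)) × (ℕ × ℕ)) × Arr =>
        x.2.2.2.2 := Computable.snd.comp (Computable.snd.comp (Computable.snd.comp Computable.snd))
    refine re_imp (RE.ne ce1 cp1) (RE.and ?_ ?_)
    · refine re_imp ?_ (RE.mem_list (ce4.pair cp2) cS)
      refine (RE.and (RE.ne ce2 (Computable.const 0)) (RE.ne ce2 (Computable.const 2))).of_eq
        fun a => ?_
      exact not_or.symm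
    · refine re_imp (RE.ne ce2 (Computable.const 1)) (re_imp (RE.ne ?_ ?_) ?_)
      · exact Computable.list_getElem?.comp cU cp2
      · exact Computable.option_some.comp ce3
      · exact RE.mem_list (ce4.pair (Computable.succ.comp cp2)) cS

theorem re_notLR : REPred (fun x : NTA × List Sym × List Sym => NotLR x.1 x.2.1 x.2.2) := by
  refine RE.ex (α := NTA × List Sym × List Sym) (β := List (ℕ × ℕ × ℕ)) (p := fun x S =>
    (x.1.1, 0, 0) ∈ S ∧ (x.1.2.1, x.2.1.length, x.2.2.length) ∉ S ∧
    ∀ p ∈ S, ∀ e ∈ x.1.2.2, e.1 = p.1 →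
      (e.2.1 = 0 → (e.2.2.2, p.2.1, p.2.2) ∈ S) ∧
      (e.2.1 = 1 → x.2.1[p.2.1]? = some e.2.2.1 → (e.2.2.2, p.2.1 + 1, p.2.2) ∈ S) ∧
      (e.2.1 = 2 → x.2.2[p.2.2]? = some e.2.2.1 → (e.2.2.2, p.2.1, p.2.2 + 1) ∈ S)) ?_
  refine RE.and ?_ (RE.and ?_ ?_)
  · refine RE.mem_list
      (f := fun x : (NTA × List Sym × List Sym) × List (ℕ × ℕ × ℕ) => (x.1.1.1, 0, 0)) ?_
      Computable.snd
    exact (Computable.fst.comp (Computable.fst.comp Computable.fst)).pair (Computable.const (0, 0))
  · refine RE.not_mem_list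
      (f := fun x : (NTA × List Sym × List Sym) × List (ℕ × ℕ × ℕ) =>
        (x.1.1.2.1, x.1.2.1.length, x.1.2.2.length)) ?_
      Computable.snd
    refine Computable.pair ?_ (Computable.pair ?_ ?_)
    · exact Computable.fst.comp (Computable.snd.comp (Computable.fst.comp Computable.fst))
    · exact Computable.list_length.comp (Computable.fst.comp (Computable.snd.comp Computable.fst))
    · exact Computable.list_length.comp (Computable.snd.comp (Computable.snd.comp Computable.fst))
  · refine RE.all_mem (α := (NTA × List Sym × List Sym) × List (ℕ × ℕ × ℕ)) (β := ℕ × ℕ × ℕ)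
      (l := fun x => x.2) (p := fun x p => ∀ e ∈ x.1.1.2.2, e.1 = p.1 →
      (e.2.1 = 0 → (e.2.2.2, p.2.1, p.2.2) ∈ x.2) ∧
      (e.2.1 = 1 → x.1.2.1[p.2.1]? = some e.2.2.1 → (e.2.2.2, p.2.1 + 1, p.2.2) ∈ x.2) ∧
      (e.2.1 = 2 → x.1.2.2[p.2.2]? = some e.2.2.1 → (e.2.2.2, p.2.1, p.2.2 + 1) ∈ x.2))
      ?_ Computable.snd
    refine RE.all_mem (α := ((NTA × List Sym × List Sym) × List (ℕ × ℕ × ℕ)) × (ℕ × ℕ × ℕ))
      (β := Arr)
      (l := fun x => x.1.1.1.2.2) (p := fun x e => e.1 = x.2.1 →
      (e.2.1 = 0 → (e.2.2.2, x.2.2.1, x.2.2.2) ∈ x.1.2) ∧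
      (e.2.1 = 1 → x.1.1.2.1[x.2.2.1]? = some e.2.2.1 →
        (e.2.2.2, x.2.2.1 + 1, x.2.2.2) ∈ x.1.2) ∧
      (e.2.1 = 2 → x.1.1.2.2[x.2.2.2]? = some e.2.2.1 →
        (e.2.2.2, x.2.2.1, x.2.2.2 + 1) ∈ x.1.2)) ?_ ?_
    swap
    · exact Computable.snd.comp (Computable.snd.comp (Computable.fst.comp
        (Computable.fst.comp Computable.fst)))
    -- the projections
    have cS : Computable fun x : (((NTA × List Sym × List Sym) × List (ℕ × ℕ × ℕ)) ×
        (ℕ × ℕ × ℕ)) × Arr => x.1.1.2 := Computable.snd.comp (Computable.fst.comp Computable.fst)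
    have cU : Computable fun x : (((NTA × List Sym × List Sym) × List (ℕ × ℕ × ℕ)) ×
        (ℕ × ℕ × ℕ)) × Arr => x.1.1.1.2.1 :=
      Computable.fst.comp (Computable.snd.comp (Computable.fst.comp
        (Computable.fst.comp Computable.fst)))
    have cV : Computable fun x : (((NTA × List Sym × List Sym) × List (ℕ × ℕ × ℕ)) ×
        (ℕ × ℕ × ℕ)) × Arr => x.1.1.1.2.2 :=
      Computable.snd.comp (Computable.snd.comp (Computable.fst.comp
        (Computable.fst.comp Computable.fst)))
    have cp1 : Computable fun x : (((NTA × List Sym × List Sym) × List (ℕ × ℕ × ℕ)) ×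
        (ℕ × ℕ × ℕ)) × Arr => x.1.2.1 :=
      Computable.fst.comp (Computable.snd.comp Computable.fst)
    have cp2 : Computable fun x : (((NTA × List Sym × List Sym) × List (ℕ × ℕ × ℕ)) ×
        (ℕ × ℕ × ℕ)) × Arr => x.1.2.2.1 :=
      Computable.fst.comp (Computable.snd.comp (Computable.snd.comp Computable.fst))
    have cp3 : Computable fun x : (((NTA × List Sym × List Sym) × List (ℕ × ℕ × ℕ)) ×
        (ℕ × ℕ × ℕ)) × Arr => x.1.2.2.2 :=
      Computable.snd.comp (Computable.snd.comp (Computable.snd.comp Computable.fst))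
    have ce1 : Computable fun x : (((NTA × List Sym × List Sym) × List (ℕ × ℕ × ℕ)) ×
        (ℕ × ℕ × ℕ)) × Arr => x.2.1 := Computable.fst.comp Computable.snd
    have ce2 : Computable fun x : (((NTA × List Sym × List Sym) × List (ℕ × ℕ × ℕ)) ×
        (ℕ × ℕ × ℕ)) × Arr => x.2.2.1 :=
      Computable.fst.comp (Computable.snd.comp Computable.snd)
    have ce3 : Computable fun x : (((NTA × List Sym × List Sym) × List (ℕ × ℕ × ℕ)) ×
        (ℕ × ℕ × ℕ)) × Arr => x.2.2.2.1 :=
      Computable.fst.comp (Computable.snd.comp (Computable.snd.comp Computable.snd))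
    have ce4 : Computable fun x : (((NTA × List Sym × List Sym) × List (ℕ × ℕ × ℕ)) ×
        (ℕ × ℕ × ℕ)) × Arr => x.2.2.2.2 :=
      Computable.snd.comp (Computable.snd.comp (Computable.snd.comp Computable.snd))
    refine re_imp (RE.ne ce1 cp1) (RE.and ?_ (RE.and ?_ ?_))
    · exact re_imp (RE.ne ce2 (Computable.const 0)) (RE.mem_list (ce4.pair (cp2.pair cp3)) cS)
    · refine re_imp (RE.ne ce2 (Computable.const 1)) (re_imp (RE.ne ?_ ?_) ?_)
      · exact Computable.list_getElem?.comp cU cp2
      · exact Computable.option_some.comp ce3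
      · exact RE.mem_list (ce4.pair ((Computable.succ.comp cp2).pair cp3)) cS
    · refine re_imp (RE.ne ce2 (Computable.const 2)) (re_imp (RE.ne ?_ ?_) ?_)
      · exact Computable.list_getElem?.comp cV cp3
      · exact Computable.option_some.comp ce3
      · exact RE.mem_list (ce4.pair (cp2.pair (Computable.succ.comp cp3))) cS

theorem re_emptyOK : REPred (fun τ : NTA => EmptyOK τ) := by
  refine RE.ex (α := NTA) (β := List ℕ) (p := fun τ X =>
    (τ.2.1 ∉ X ∧ ∀ e ∈ τ.2.2, e.1 ∈ X → e.2.2.2 ∈ X) ∧ τ.1 ∈ X) ?_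
  refine RE.and (RE.and ?_ ?_) ?_
  · exact RE.not_mem_list (Computable.fst.comp (Computable.snd.comp Computable.fst)) Computable.snd
  · refine RE.all_mem (α := NTA × List ℕ) (β := Arr) (l := fun x => x.1.2.2)
      (p := fun x e => e.1 ∈ x.2 → e.2.2.2 ∈ x.2) ?_
      (Computable.snd.comp (Computable.snd.comp Computable.fst))
    refine re_imp ?_ ?_
    · exact RE.not_mem_list (Computable.fst.comp Computable.snd)
        (Computable.snd.comp Computable.fst)
    · exact RE.mem_list (Computable.snd.comp (Computable.snd.comp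
        (Computable.snd.comp Computable.snd))) (Computable.snd.comp Computable.fst)
  · exact RE.mem_list (Computable.fst.comp Computable.fst) Computable.snd

theorem reflTransGen_iff_list {β : Type} (r : β → β → Prop) (x y : β) :
    Relation.ReflTransGen r x y ↔ ∃ l : List β, l[0]? = some x ∧ l[l.length - 1]? = some y ∧
      ∀ i < l.length - 1, ∃ b, l[i]? = some b ∧ ∃ c, l[i + 1]? = some c ∧ r b c := by
  constructor
  · intro h
    induction h with
    | refl => exact ⟨[x], rfl, rfl, fun i hi => by simp at hi⟩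
    | @tail b c _ hbc ih =>
      obtain ⟨l, h0, h1, h2⟩ := ih
      have hl : 0 < l.length := by
        by_contra hcon
        have : l = [] := List.length_eq_zero_iff.1 (by omega)
        subst this
        simp at h0
      refine ⟨l ++ [c], ?_, ?_, ?_⟩
      · rw [List.getElem?_append_left hl, h0]
      · simp
      · intro i hi
        rw [List.length_append, List.length_singleton, Nat.add_sub_cancel] at hi
        rcases Nat.lt_or_ge i (l.length - 1) with h3 | h3
        · obtain ⟨b', hb', c', hc', hbc'⟩ := h2 i h3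
          refine ⟨b', ?_, c', ?_, hbc'⟩
          · rw [List.getElem?_append_left hi, hb']
          · rw [List.getElem?_append_left (by omega), hc']
        · have h4 : i = l.length - 1 := by omega
          subst h4
          refine ⟨b, ?_, c, ?_, hbc⟩
          · rw [List.getElem?_append_left hi, h1]
          · have h5 : l.length - 1 + 1 = l.length := by omega
            rw [h5]
            simp
  · rintro ⟨l, h0, h1, h2⟩
    have key : ∀ i, ∀ b, i ≤ l.length - 1 → l[i]? = some b → Relation.ReflTransGen r x b := by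
      intro i
      induction i with
      | zero =>
        intro b _ hb
        rw [h0] at hb
        cases hb
        exact Relation.ReflTransGen.refl
      | succ i ih =>
        intro c hi hc
        obtain ⟨b, hb, c', hc', hbc⟩ := h2 i (by omega)
        rw [hc] at hc'
        cases hc'
        exact (ih b (by omega) hb).tail hbc
    exact key _ y le_rfl h1

/-- Reflexive transitive closures of r.e. relations are r.e. -/
theorem re_reflTransGen {α β : Type} [Primcodable α] [Primcodable β] {r : α → β → β → Prop}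
    (h : REPred (fun x : α × β × β => r x.1 x.2.1 x.2.2)) :
    REPred (fun x : α × β × β => Relation.ReflTransGen (r x.1) x.2.1 x.2.2) := by
  have key : REPred (fun x : α × β × β => ∃ l : List β, l[0]? = some x.2.1 ∧
      l[l.length - 1]? = some x.2.2 ∧
      ∀ i < l.length - 1, ∃ b, l[i]? = some b ∧ ∃ c, l[i + 1]? = some c ∧ r x.1 b c) := by
    refine RE.ex (α := α × β × β) (β := List β) (p := fun x l => l[0]? = some x.2.1 ∧
      l[l.length - 1]? = some x.2.2 ∧
      ∀ i < l.length - 1, ∃ b, l[i]? = some b ∧ ∃ c, l[i + 1]? = some c ∧ r x.1 b c) ?_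
    have clen : Computable fun x : (α × β × β) × List β => x.2.length - 1 :=
      Primrec.pred.to_comp.comp (Computable.list_length.comp Computable.snd)
    refine RE.and ?_ (RE.and ?_ ?_)
    · refine RE.eq ?_ ?_
      · exact Computable.list_getElem?.comp Computable.snd (Computable.const 0)
      · exact Computable.option_some.comp (Computable.fst.comp
          (Computable.snd.comp Computable.fst))
    · refine RE.eq ?_ ?_
      · exact Computable.list_getElem?.comp Computable.snd clen
      · exact Computable.option_some.comp (Computable.snd.comp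
          (Computable.snd.comp Computable.fst))
    · refine RE.all_lt (α := (α × β × β) × List β) (f := fun x => x.2.length - 1)
        (p := fun x i => ∃ b, x.2[i]? = some b ∧ ∃ c, x.2[i + 1]? = some c ∧ r x.1.1 b c)
        ?_ clen
      refine RE.ex (α := ((α × β × β) × List β) × ℕ) (β := β) (p := fun x b =>
        x.1.2[x.2]? = some b ∧ ∃ c, x.1.2[x.2 + 1]? = some c ∧ r x.1.1.1 b c) ?_
      refine RE.and ?_ ?_
      · refine RE.eq ?_ ?_
        · exact Computable.list_getElem?.comp
            (Computable.snd.comp (Computable.fst.comp Computable.fst))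
            (Computable.snd.comp Computable.fst)
        · exact Computable.option_some.comp Computable.snd
      · refine RE.ex (α := (((α × β × β) × List β) × ℕ) × β) (β := β) (p := fun x c =>
          x.1.1.2[x.1.2 + 1]? = some c ∧ r x.1.1.1.1 x.2 c) ?_
        refine RE.and ?_ ?_
        · refine RE.eq ?_ ?_
          · exact Computable.list_getElem?.comp
              (Computable.snd.comp (Computable.fst.comp (Computable.fst.comp Computable.fst)))
              (Computable.succ.comp (Computable.snd.comp (Computable.fst.comp Computable.fst)))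
          · exact Computable.option_some.comp Computable.snd
        · refine RE.comp (f := fun x : ((((α × β × β) × List β) × ℕ) × β) × β =>
            (x.1.1.1.1.1, x.1.2, x.2)) h ?_
          refine Computable.pair ?_ (Computable.pair ?_ Computable.snd)
          · exact Computable.fst.comp (Computable.fst.comp (Computable.fst.comp
              (Computable.fst.comp Computable.fst)))
          · exact Computable.snd.comp Computable.fst
  refine key.of_eq fun x => ?_
  exact (reflTransGen_iff_list (r x.1) x.2.1 x.2.2).symm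

end Pool.Agent.Helper632.AAR
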