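import Pool.Agent.Helper632.AAR.Pres
import Pool.Agent.Helper632.AAR.No

/-!
Rewriting in a finitely presented group; labellings with respect to a predicate.
-/

namespace Pool.Agent.Helper632.AAR

/-- The defining relations of the presentation. -/
inductive RuleP (P : Pres) : List SL → List SL → Prop
  | cancel (s : Bool) (a : ℕ) : RuleP P [(s, a), (!s, a)] []
  | big (s : Bool) (a : ℕ) : P.1 ≤ a → RuleP P [(s, a)] []
  | rel (r : List SL) : r ∈ P.2 → RuleP P r []

/-- One rewriting step. -/
def StepP (P : Pres) (w w' : List SL) : Prop :=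
  ∃ p q l r, (RuleP P l r ∨ RuleP P r l) ∧ w = p ++ l ++ q ∧ w' = p ++ r ++ q

/-- Equality of words in the presented group, by rewriting. -/
def EqP (P : Pres) (w w' : List SL) : Prop := Relation.ReflTransGen (StepP P) w w'

/-- A signed word over `A ∪ {ε}` as a word of signed letters. -/
def toSL (r : List SLet) : List SL := r.flatMap fun l => (psym l.2).map fun m => (l.1, m.2)

/-- The inverse word. -/
def winv (w : List SL) : List SL := w.reverse.map fun l => (!l.1, l.2)

/-- A labelling of the states of `M_x` such that the relation words satisfy `T`. -/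
def LabG (T : List SLet → Prop) (d : Data) (x : Option ℕ) : Prop :=
  ∃ (L : List (ℕ × List SLet)) (X : List ℕ),
    ((mult d x).1, []) ∈ L ∧ DeadOK (rodM (mult d x)) X ∧
    (∀ p ∈ L, ∀ e ∈ (rodM (mult d x)).2.2, e.1 = p.1 → e.2.2.2 ∉ X →
      ∃ p' ∈ L, p'.1 = e.2.2.2 ∧
        (e.2.1 = 1 → T (ssym e.2.2.1 ++ p'.2 ++ sinv p.2)) ∧
        (e.2.1 = 2 → T (p.2 ++ ssym e.2.2.1 ++ sinv p'.2))) ∧
    (∀ p ∈ L, p.1 = (rodM (mult d x)).2.1 → T (p.2 ++ sinv (ssym x)))

/-- Certificate for: `d` is a structure for the group presented by `P`. -/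
def GoodP (P : Pres) (d : Data) : Prop :=
  d.1 = P.1 ∧ Good d ∧ (∀ r ∈ P.2, EqW d r []) ∧
    ∀ x ∈ (none :: (List.range d.1).map some : List (Option ℕ)),
      LabG (fun r => EqP P (toSL r) []) d x

/-- Certificate for: `d` is not a structure for the group presented by `P`; `nt w` says that `w`
is not trivial in this group. -/
def BadP (P : Pres) (nt : List SL → Prop) (d : Data) : Prop :=
  Bad d ∨ (∃ r ∈ P.2, ∃ u v : List ℕ, Rel (wNTA d.2.1) (em u) [] ∧ Rel (wNTA d.2.1) (em v) [] ∧
      EqW d (pos u ++ r) (pos v) ∧ NotLR (rodM (mult d none)) (em u) (em v)) ∨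
    ∃ x ∈ (none :: (List.range d.1).map some : List (Option ℕ)), ∃ u v : List ℕ,
      Rel (rodM (mult d x)) (em u) (em v) ∧ nt (pos u ++ psym x ++ winv (pos v))

end Pool.Agent.Helper632.AAR
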