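import Pool.Agent.Helper632.AAR.NTA
import Pool.Agent.Helper446.RE

namespace Pool.Agent.Helper632.AAR

open Pool.Agent.Helper446

/-! JOB H1a. The table functions are primitive recursive. -/

theorem primrec_em : Primrec em := by
  have h : Primrec fun u : List ℕ => u.map (some : ℕ → Sym) :=
    Primrec.list_map Primrec.id (Primrec.option_some.comp Primrec.snd).to₂
  exact (Primrec.list_append.comp h (Primrec.const [none])).of_eq fun u => rfl

theorem primrec_inv : Primrec inv := by
  have hp : Primrec fun p : NTA × Arr => p.2.1 := Primrec.fst.comp Primrec.snd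
  have ht : Primrec fun p : NTA × Arr => p.2.2.1 :=
    Primrec.fst.comp (Primrec.snd.comp Primrec.snd)
  have hs : Primrec fun p : NTA × Arr => p.2.2.2.1 :=
    Primrec.fst.comp (Primrec.snd.comp (Primrec.snd.comp Primrec.snd))
  have hr : Primrec fun p : NTA × Arr => p.2.2.2.2 :=
    Primrec.snd.comp (Primrec.snd.comp (Primrec.snd.comp Primrec.snd))
  have h2 : Primrec fun p : NTA × Arr =>
      (if p.2.2.1 = 1 then 2 else if p.2.2.1 = 2 then 1 else p.2.2.1 : ℕ) := by
    refine Primrec.ite (Primrec.eq.comp ht (Primrec.const 1)) (Primrec.const 2) ?_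
    exact Primrec.ite (Primrec.eq.comp ht (Primrec.const 2)) (Primrec.const 1) ht
  have h3 : Primrec₂ fun (_ : NTA) (e : Arr) =>
      ((e.1, (if e.2.1 = 1 then 2 else if e.2.1 = 2 then 1 else e.2.1), e.2.2.1, e.2.2.2) : Arr) :=
    (Primrec.pair hp (Primrec.pair h2 (Primrec.pair hs hr)))
  have h4 : Primrec fun τ : NTA => τ.2.2.map fun e =>
      ((e.1, (if e.2.1 = 1 then 2 else if e.2.1 = 2 then 1 else e.2.1), e.2.2.1, e.2.2.2) : Arr) :=
    Primrec.list_map (Primrec.snd.comp Primrec.snd) h3
  exact Primrec.pair Primrec.fst (Primrec.pair (Primrec.fst.comp Primrec.snd) h4)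

theorem primrec_copyN : Primrec copyN := by
  have h1 : Primrec₂ fun (_ : ℕ) (b : ℕ) => ((0, 1, some b, b + 2) : Arr) :=
    Primrec.pair (Primrec.const 0) (Primrec.pair (Primrec.const 1)
      (Primrec.pair (Primrec.option_some.comp Primrec.snd)
        (Primrec.nat_add.comp Primrec.snd (Primrec.const 2))))
  have h2 : Primrec₂ fun (_ : ℕ) (b : ℕ) => ((b + 2, 2, some b, 0) : Arr) :=
    Primrec.pair (Primrec.nat_add.comp Primrec.snd (Primrec.const 2)) (Primrec.pair
      (Primrec.const 2) (Primrec.pair (Primrec.option_some.comp Primrec.snd) (Primrec.const 0)))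
  have h3 : Primrec fun n : ℕ => (List.range n).map fun b => ((0, 1, some b, b + 2) : Arr) :=
    Primrec.list_map Primrec.list_range h1
  have h4 : Primrec fun n : ℕ => (List.range n).map fun b => ((b + 2, 2, some b, 0) : Arr) :=
    Primrec.list_map Primrec.list_range h2
  have h5 : Primrec fun n : ℕ => ((0, 1, none, 1) : Arr) :: ((1, 2, none, 0) : Arr) ::
      ((List.range n).map fun b => ((0, 1, some b, b + 2) : Arr)) :=
    Primrec.list_cons.comp (Primrec.const ((0, 1, none, 1) : Arr))
      (Primrec.list_cons.comp (Primrec.const ((1, 2, none, 0) : Arr)) h3)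
  exact Primrec.pair (Primrec.const 0) (Primrec.pair (Primrec.const 0)
    (Primrec.list_append.comp h5 h4))

theorem primrec_rodM : Primrec rodM := by
  have hp : Primrec fun p : AAut × (ℕ × Sym × ℕ) => p.2.1 := Primrec.fst.comp Primrec.snd
  have hs : Primrec fun p : AAut × (ℕ × Sym × ℕ) => p.2.2.1 :=
    Primrec.fst.comp (Primrec.snd.comp Primrec.snd)
  have ht : Primrec fun p : AAut × (ℕ × Sym × ℕ) => p.2.2.2 :=
    Primrec.snd.comp (Primrec.snd.comp Primrec.snd)
  have hk : Primrec fun p : AAut × (ℕ × Sym × ℕ) => kind p.1 p.2.1 :=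
    Primrec.list_getElem?.comp (Primrec.fst.comp (Primrec.snd.comp Primrec.fst)) hp
  have h2 : Primrec fun p : AAut × (ℕ × Sym × ℕ) =>
      (if kind p.1 p.2.1 = some 0 ∨ kind p.1 p.2.1 = some 3 then 1 else 2 : ℕ) :=
    Primrec.ite (PrimrecPred.or (Primrec.eq.comp hk (Primrec.const (some 0)))
      (Primrec.eq.comp hk (Primrec.const (some 3)))) (Primrec.const 1) (Primrec.const 2)
  have h3 : Primrec₂ fun (M : AAut) (e : ℕ × Sym × ℕ) =>
      ((e.1, (if kind M e.1 = some 0 ∨ kind M e.1 = some 3 then 1 else 2), e.2.1, e.2.2) : Arr) :=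
    Primrec.pair hp (Primrec.pair h2 (Primrec.pair hs ht))
  have h4 : Primrec fun M : AAut => M.2.2.map fun e =>
      ((e.1, (if kind M e.1 = some 0 ∨ kind M e.1 = some 3 then 1 else 2), e.2.1, e.2.2) : Arr) :=
    Primrec.list_map (Primrec.snd.comp Primrec.snd) h3
  have h5 : Primrec fun M : AAut => M.2.1.idxOf 4 :=
    Primrec.list_idxOf.comp (Primrec.const 4) (Primrec.fst.comp Primrec.snd)
  exact Primrec.pair Primrec.fst (Primrec.pair h5 h4)

theorem primrec_wNTA : Primrec wNTA := by
  have h1 : Primrec₂ fun (_ : FAut) (e : ℕ × ℕ × ℕ) =>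
      ((e.1 + 1, 1, some e.2.1, e.2.2 + 1) : Arr) :=
    Primrec.pair (Primrec.succ.comp (Primrec.fst.comp Primrec.snd)) (Primrec.pair
      (Primrec.const 1) (Primrec.pair
        (Primrec.option_some.comp (Primrec.fst.comp (Primrec.snd.comp Primrec.snd)))
        (Primrec.succ.comp (Primrec.snd.comp (Primrec.snd.comp Primrec.snd)))))
  have h2 : Primrec₂ fun (_ : FAut) (f : ℕ) => ((f + 1, 1, none, 0) : Arr) :=
    Primrec.pair (Primrec.succ.comp Primrec.snd) (Primrec.const ((1, none, 0) : ℕ × Sym × ℕ))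
  have h3 : Primrec fun W : FAut => W.2.2.map fun e =>
      ((e.1 + 1, 1, some e.2.1, e.2.2 + 1) : Arr) :=
    Primrec.list_map (Primrec.snd.comp Primrec.snd) h1
  have h4 : Primrec fun W : FAut => W.2.1.map fun f => ((f + 1, 1, none, 0) : Arr) :=
    Primrec.list_map (Primrec.fst.comp Primrec.snd) h2
  exact Primrec.pair (Primrec.succ.comp Primrec.fst) (Primrec.pair (Primrec.const 0)
    (Primrec.list_append.comp h3 h4))

theorem primrec_mult : Primrec₂ mult := by
  have ho : Primrec fun p : Data × Option ℕ => p.2 := Primrec.snd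
  have hf : Primrec fun p : Data × Option ℕ => p.1.2.2.1 :=
    Primrec.fst.comp (Primrec.snd.comp (Primrec.snd.comp Primrec.fst))
  have hg : Primrec₂ fun (p : Data × Option ℕ) (x : ℕ) => (p.1.2.2.2[x]?).getD p.1.2.2.1 := by
    have h1 : Primrec fun q : (Data × Option ℕ) × ℕ => q.1.1.2.2.2 :=
      Primrec.snd.comp (Primrec.snd.comp (Primrec.snd.comp (Primrec.fst.comp Primrec.fst)))
    have h2 : Primrec fun q : (Data × Option ℕ) × ℕ => q.1.1.2.2.1 := hf.comp Primrec.fst
    exact Primrec.option_getD.comp (Primrec.list_getElem?.comp h1 Primrec.snd) h2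
  have h := Primrec.option_casesOn ho hf hg
  refine h.of_eq fun p => ?_
  obtain ⟨d, o⟩ := p
  cases o with
  | none => rfl
  | some x => exact (List.getD_eq_getElem?_getD (l := d.2.2.2) (i := x) (a := d.2.2.1)).symm

end Pool.Agent.Helper632.AAR
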