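import Pool.Agent.Helper632.AAR.NTA
import Pool.Agent.Helper446.RE

namespace Pool.Agent.Helper632.AAR

open Pool.Agent.Helper446

/-! JOB H3. -/

theorem h3_rtg_iff {β : Type*} (r : β → β → Prop) (b c : β) :
    Relation.ReflTransGen r b c ↔ ∃ l : List β, l[0]? = some b ∧ l[l.length - 1]? = some c ∧
      ∀ i < l.length - 1, ∃ p : β × β, l[i]? = some p.1 ∧ l[i + 1]? = some p.2 ∧ r p.1 p.2 := by
  constructor
  · intro h
    induction h using Relation.ReflTransGen.head_induction_on with
    | refl => exact ⟨[c], by simp, by simp, by intro i hi; simp at hi⟩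
    | head h1 h2 ih =>
      rename_i a b'
      obtain ⟨l, hl0, hl1, hl⟩ := ih
      have hlen : 0 < l.length := by
        rcases l with _ | ⟨x, l⟩
        · simp at hl0
        · simp
      refine ⟨a :: l, by simp, ?_, ?_⟩
      · have : (a :: l).length - 1 = (l.length - 1) + 1 := by simp; omega
        rw [this, List.getElem?_cons_succ]
        exact hl1
      · intro i hi
        rcases i with _ | i
        · exact ⟨(a, b'), by simp, by simpa using hl0, h1⟩
        · obtain ⟨p, hp1, hp2, hp3⟩ := hl i (by simp at hi; omega)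
          exact ⟨p, by rw [List.getElem?_cons_succ]; exact hp1, by rw [List.getElem?_cons_succ]; exact hp2, hp3⟩
  · rintro ⟨l, hl0, hl1, hl⟩
    have key : ∀ i, i ≤ l.length - 1 → ∃ u, l[i]? = some u ∧ Relation.ReflTransGen r b u := by
      intro i
      induction i with
      | zero => intro _; exact ⟨b, hl0, .refl⟩
      | succ i ih =>
        intro hi
        obtain ⟨u, hu1, hu2⟩ := ih (by omega)
        obtain ⟨p, hp1, hp2, hp3⟩ := hl i (by omega)
        rw [hu1] at hp1
        have e : u = p.1 := Option.some.inj hp1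
        subst e
        exact ⟨p.2, hp2, hu2.tail hp3⟩
    obtain ⟨u, hu1, hu2⟩ := key _ le_rfl
    rw [hl1] at hu1
    have e : c = u := Option.some.inj hu1
    rw [e]
    exact hu2

theorem h3_rtg {α β : Type*} [Primcodable α] [Primcodable β] {r : α → β → β → Prop}
    (hr : REPred fun x : α × β × β => r x.1 x.2.1 x.2.2) :
    REPred fun x : α × β × β => Relation.ReflTransGen (r x.1) x.2.1 x.2.2 := by
  have h1 : REPred fun x : α × β × β => ∃ l : List β, l[0]? = some x.2.1 ∧
      l[l.length - 1]? = some x.2.2 ∧ ∀ i < l.length - 1, ∃ p : β × β, l[i]? = some p.1 ∧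
        l[i + 1]? = some p.2 ∧ r x.1 p.1 p.2 := by
    refine RE.ex (p := fun (x : α × β × β) (l : List β) => l[0]? = some x.2.1 ∧
      l[l.length - 1]? = some x.2.2 ∧ ∀ i < l.length - 1, ∃ p : β × β, l[i]? = some p.1 ∧
        l[i + 1]? = some p.2 ∧ r x.1 p.1 p.2) ?_
    refine RE.and ?_ (RE.and ?_ ?_)
    · exact RE.eq (Computable.list_getElem?.comp Computable.snd (Computable.const 0))
        (Computable.option_some.comp (Computable.fst.comp (Computable.snd.comp Computable.fst)))
    · exact RE.eq (Computable.list_getElem?.comp Computable.snd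
        (Primrec.nat_sub.to_comp.comp (Computable.list_length.comp Computable.snd) (Computable.const 1)))
        (Computable.option_some.comp (Computable.snd.comp (Computable.snd.comp Computable.fst)))
    · refine RE.all_lt (p := fun (x : (α × β × β) × List β) (i : ℕ) => ∃ p : β × β, x.2[i]? = some p.1 ∧
        x.2[i + 1]? = some p.2 ∧ r x.1.1 p.1 p.2) ?_
        (Primrec.nat_sub.to_comp.comp (Computable.list_length.comp Computable.snd) (Computable.const 1))
      refine RE.ex (p := fun (x : ((α × β × β) × List β) × ℕ) (p : β × β) => x.1.2[x.2]? = some p.1 ∧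
        x.1.2[x.2 + 1]? = some p.2 ∧ r x.1.1.1 p.1 p.2) ?_
      refine RE.and ?_ (RE.and ?_ ?_)
      · exact RE.eq (Computable.list_getElem?.comp (Computable.snd.comp (Computable.fst.comp Computable.fst)) (Computable.snd.comp Computable.fst))
          (Computable.option_some.comp (Computable.fst.comp Computable.snd))
      · exact RE.eq (Computable.list_getElem?.comp (Computable.snd.comp (Computable.fst.comp Computable.fst)) (Computable.succ.comp (Computable.snd.comp Computable.fst)))
          (Computable.option_some.comp (Computable.snd.comp Computable.snd))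
      · exact RE.comp (p := fun x : α × β × β => r x.1 x.2.1 x.2.2) hr
          (f := fun x : (((α × β × β) × List β) × ℕ) × (β × β) => (x.1.1.1.1, x.2.1, x.2.2))
          ((Computable.fst.comp (Computable.fst.comp (Computable.fst.comp Computable.fst))).pair ((Computable.fst.comp Computable.snd).pair (Computable.snd.comp Computable.snd)))
  refine h1.of_eq fun x => ?_
  exact (h3_rtg_iff (r x.1) x.2.1 x.2.2).symm

/-- one step of a two-tape machine -/
def h3step (T : List Arr) (c c' : ℕ × List Sym × List Sym) : Prop :=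
  ∃ e ∈ T, e.1 = c.1 ∧ e.2.2.2 = c'.1 ∧
    ((e.2.1 = 0 ∧ c.2.1 = c'.2.1 ∧ c.2.2 = c'.2.2) ∨
      ((e.2.1 = 1 ∧ c.2.1 = e.2.2.1 :: c'.2.1 ∧ c.2.2 = c'.2.2) ∨
        (e.2.1 = 2 ∧ c.2.1 = c'.2.1 ∧ c.2.2 = e.2.2.1 :: c'.2.2)))

theorem h3_run_iff (T : List Arr) (s : ℕ) (U V : List Sym) (t : ℕ) :
    Run T s U V t ↔ Relation.ReflTransGen (h3step T) (s, U, V) (t, [], []) := by
  constructor
  · intro h
    induction h with
    | nil s => exact .refl
    | @eps s t r b U V he _ ih =>
      refine Relation.ReflTransGen.head (b := (t, U, V)) ?_ ih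
      exact ⟨(s, 0, b, t), he, rfl, rfl, Or.inl ⟨rfl, rfl, rfl⟩⟩
    | @left s t r b U V he _ ih =>
      refine Relation.ReflTransGen.head (b := (t, U, V)) ?_ ih
      exact ⟨(s, 1, b, t), he, rfl, rfl, Or.inr (Or.inl ⟨rfl, rfl, rfl⟩)⟩
    | @right s t r b U V he _ ih =>
      refine Relation.ReflTransGen.head (b := (t, U, V)) ?_ ih
      exact ⟨(s, 2, b, t), he, rfl, rfl, Or.inr (Or.inr ⟨rfl, rfl, rfl⟩)⟩
  · intro h
    have key : ∀ c, Relation.ReflTransGen (h3step T) c (t, [], []) → Run T c.1 c.2.1 c.2.2 t := by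
      intro c hc
      induction hc using Relation.ReflTransGen.head_induction_on with
      | refl => exact Run.nil t
      | head h1 h2 ih =>
        rename_i a b
        obtain ⟨⟨s1, tag, b1, t1⟩, he, hs, ht, h⟩ := h1
        obtain ⟨s2, U2, V2⟩ := a
        obtain ⟨s3, U3, V3⟩ := b
        simp only at hs ht h
        subst hs ht
        rcases h with ⟨h3, h4, h5⟩ | ⟨h3, h4, h5⟩ | ⟨h3, h4, h5⟩
        · subst h3 h4 h5
          exact Run.eps he ih
        · subst h3 h4 h5
          exact Run.left he ih
        · subst h3 h4 h5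
          exact Run.right he ih
    exact key _ h

theorem h3_step_re : REPred fun x : List Arr × (ℕ × List Sym × List Sym) × (ℕ × List Sym × List Sym) =>
    h3step x.1 x.2.1 x.2.2 := by
  refine RE.ex_mem (p := fun (x : List Arr × (ℕ × List Sym × List Sym) × (ℕ × List Sym × List Sym))
    (e : Arr) => e.1 = x.2.1.1 ∧ e.2.2.2 = x.2.2.1 ∧
    ((e.2.1 = 0 ∧ x.2.1.2.1 = x.2.2.2.1 ∧ x.2.1.2.2 = x.2.2.2.2) ∨
      ((e.2.1 = 1 ∧ x.2.1.2.1 = e.2.2.1 :: x.2.2.2.1 ∧ x.2.1.2.2 = x.2.2.2.2) ∨
        (e.2.1 = 2 ∧ x.2.1.2.1 = x.2.2.2.1 ∧ x.2.1.2.2 = e.2.2.1 :: x.2.2.2.2)))) ?_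
    Computable.fst
  refine RE.and (RE.eq (Computable.fst.comp Computable.snd) (Computable.fst.comp (Computable.fst.comp (Computable.snd.comp Computable.fst)))) (RE.and (RE.eq (Computable.snd.comp (Computable.snd.comp (Computable.snd.comp Computable.snd))) (Computable.fst.comp (Computable.snd.comp (Computable.snd.comp Computable.fst)))) (RE.or ?_ (RE.or ?_ ?_)))
  · exact RE.and (RE.eq (Computable.fst.comp (Computable.snd.comp Computable.snd)) (Computable.const 0)) (RE.and (RE.eq (Computable.fst.comp (Computable.snd.comp (Computable.fst.comp (Computable.snd.comp Computable.fst)))) (Computable.fst.comp (Computable.snd.comp (Computable.snd.comp (Computable.snd.comp Computable.fst)))))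
      (RE.eq (Computable.snd.comp (Computable.snd.comp (Computable.fst.comp (Computable.snd.comp Computable.fst)))) (Computable.snd.comp (Computable.snd.comp (Computable.snd.comp (Computable.snd.comp Computable.fst))))))
  · exact RE.and (RE.eq (Computable.fst.comp (Computable.snd.comp Computable.snd)) (Computable.const 1)) (RE.and
      (RE.eq (Computable.fst.comp (Computable.snd.comp (Computable.fst.comp (Computable.snd.comp Computable.fst)))) (Computable.list_cons.comp (Computable.fst.comp (Computable.snd.comp (Computable.snd.comp Computable.snd))) (Computable.fst.comp (Computable.snd.comp (Computable.snd.comp (Computable.snd.comp Computable.fst))))))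
      (RE.eq (Computable.snd.comp (Computable.snd.comp (Computable.fst.comp (Computable.snd.comp Computable.fst)))) (Computable.snd.comp (Computable.snd.comp (Computable.snd.comp (Computable.snd.comp Computable.fst))))))
  · exact RE.and (RE.eq (Computable.fst.comp (Computable.snd.comp Computable.snd)) (Computable.const 2)) (RE.and (RE.eq (Computable.fst.comp (Computable.snd.comp (Computable.fst.comp (Computable.snd.comp Computable.fst)))) (Computable.fst.comp (Computable.snd.comp (Computable.snd.comp (Computable.snd.comp Computable.fst)))))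
      (RE.eq (Computable.snd.comp (Computable.snd.comp (Computable.fst.comp (Computable.snd.comp Computable.fst)))) (Computable.list_cons.comp (Computable.fst.comp (Computable.snd.comp (Computable.snd.comp Computable.snd))) (Computable.snd.comp (Computable.snd.comp (Computable.snd.comp (Computable.snd.comp Computable.fst)))))))

theorem re_run :
    REPred (fun x : List Arr × ℕ × List Sym × List Sym × ℕ =>
      Run x.1 x.2.1 x.2.2.1 x.2.2.2.1 x.2.2.2.2) := by
  have h := RE.comp (p := fun x : List Arr × (ℕ × List Sym × List Sym) × (ℕ × List Sym × List Sym) =>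
      Relation.ReflTransGen (h3step x.1) x.2.1 x.2.2) (h3_rtg h3_step_re)
    (f := fun x : List Arr × ℕ × List Sym × List Sym × ℕ =>
      (x.1, (x.2.1, x.2.2.1, x.2.2.2.1), (x.2.2.2.2, ([] : List Sym), ([] : List Sym))))
    (Computable.fst.pair (((Computable.fst.comp Computable.snd).pair ((Computable.fst.comp (Computable.snd.comp Computable.snd)).pair (Computable.fst.comp (Computable.snd.comp (Computable.snd.comp Computable.snd))))).pair
      ((Computable.snd.comp (Computable.snd.comp (Computable.snd.comp Computable.snd))).pair ((Computable.const []).pair (Computable.const [])))))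
  refine h.of_eq fun x => ?_
  exact (h3_run_iff _ _ _ _ _).symm

theorem h3_imp {α : Type*} [Primcodable α] {p q : α → Prop} (hp : REPred fun a => ¬ p a) (hq : REPred q) :
    REPred fun a => p a → q a := by
  refine (RE.or hp hq).of_eq fun a => ?_
  constructor
  · rintro (h | h) hp
    · exact absurd hp h
    · exact h
  · intro h
    by_cases hp : p a
    · exact Or.inr (h hp)
    · exact Or.inl hp

/-- there is a run with some word on the right tape -/
def h3A (T : List Arr) (s : ℕ) (U : List Sym) (t : ℕ) : Prop := ∃ V, Run T s U V t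

theorem h3A_re : REPred fun x : List Arr × ℕ × List Sym × ℕ => h3A x.1 x.2.1 x.2.2.1 x.2.2.2 := by
  refine RE.ex (p := fun (x : List Arr × ℕ × List Sym × ℕ) (V : List Sym) =>
      Run x.1 x.2.1 x.2.2.1 V x.2.2.2) ?_
  exact RE.comp (p := fun x : List Arr × ℕ × List Sym × List Sym × ℕ =>
      Run x.1 x.2.1 x.2.2.1 x.2.2.2.1 x.2.2.2.2) re_run
      (f := fun x : (List Arr × ℕ × List Sym × ℕ) × List Sym =>
        (x.1.1, x.1.2.1, x.1.2.2.1, x.2, x.1.2.2.2))
      ((Computable.fst.comp Computable.fst).pair ((Computable.fst.comp (Computable.snd.comp Computable.fst)).pair ((Computable.fst.comp (Computable.snd.comp (Computable.snd.comp Computable.fst))).pair (Computable.snd.pair (Computable.snd.comp (Computable.snd.comp (Computable.snd.comp Computable.fst)))))))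

/-- all the states of the second list are reached -/
def h3B (T : List Arr) (S : List ℕ) (b : Sym) (S' : List ℕ) : Prop :=
  ∀ s' ∈ S', ∃ s ∈ S, h3A T s [b] s'

theorem h3B_re : REPred fun x : List Arr × List ℕ × Sym × List ℕ => h3B x.1 x.2.1 x.2.2.1 x.2.2.2 := by
  refine RE.all_mem (p := fun (x : List Arr × List ℕ × Sym × List ℕ) (s' : ℕ) =>
    ∃ s ∈ x.2.1, h3A x.1 s [x.2.2.1] s') ?_ (Computable.snd.comp (Computable.snd.comp Computable.snd))
  refine RE.ex_mem (p := fun (x : (List Arr × List ℕ × Sym × List ℕ) × ℕ) (s : ℕ) =>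
    h3A x.1.1 s [x.1.2.2.1] x.2) ?_ (Computable.fst.comp (Computable.snd.comp Computable.fst))
  exact RE.comp (p := fun x : List Arr × ℕ × List Sym × ℕ => h3A x.1 x.2.1 x.2.2.1 x.2.2.2) h3A_re
    (f := fun x : ((List Arr × List ℕ × Sym × List ℕ) × ℕ) × ℕ => (x.1.1.1, x.2, [x.1.1.2.2.1], x.1.2))
    ((Computable.fst.comp (Computable.fst.comp Computable.fst)).pair (Computable.snd.pair ((Computable.list_cons.comp (Computable.fst.comp (Computable.snd.comp (Computable.snd.comp (Computable.fst.comp Computable.fst)))) (Computable.const [])).pair (Computable.snd.comp Computable.fst))))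

/-- the condition on an arrow -/
def h3C (T : List Arr) (L : List (ℕ × List ℕ)) (e : Arr) (p : ℕ × List ℕ) : Prop :=
  e.1 = p.1 → ((e.2.1 = 0 ∨ e.2.1 = 2) → (e.2.2.2, p.2) ∈ L) ∧
      (e.2.1 = 1 → ∃ p' ∈ L, p'.1 = e.2.2.2 ∧ h3B T p.2 e.2.2.1 p'.2)

theorem h3C_re : REPred fun x : List Arr × List (ℕ × List ℕ) × Arr × (ℕ × List ℕ) =>
    h3C x.1 x.2.1 x.2.2.1 x.2.2.2 := by
  refine h3_imp (RE.ne (α := List Arr × List (ℕ × List ℕ) × Arr × (ℕ × List ℕ)) (Computable.fst.comp (Computable.fst.comp (Computable.snd.comp Computable.snd))) (Computable.fst.comp (Computable.snd.comp (Computable.snd.comp Computable.snd))))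
    (RE.and (h3_imp ?_ ?_) (h3_imp (RE.ne (α := List Arr × List (ℕ × List ℕ) × Arr × (ℕ × List ℕ))
      (Computable.fst.comp (Computable.snd.comp (Computable.fst.comp (Computable.snd.comp Computable.snd)))) (Computable.const 1)) ?_))
  · refine (RE.and (RE.ne (f := fun x : List Arr × List (ℕ × List ℕ) × Arr × (ℕ × List ℕ) => x.2.2.1.2.1)
        (g := fun _ => 0) (Computable.fst.comp (Computable.snd.comp (Computable.fst.comp (Computable.snd.comp Computable.snd)))) (Computable.const 0)) (RE.ne (f := fun x : List Arr × List (ℕ × List ℕ) ×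
        Arr × (ℕ × List ℕ) => x.2.2.1.2.1)
        (g := fun _ => 2) (Computable.fst.comp (Computable.snd.comp (Computable.fst.comp (Computable.snd.comp Computable.snd)))) (Computable.const 2))).of_eq fun x => ?_
    exact not_or.symm
  · exact RE.mem_list (f := fun x : List Arr × List (ℕ × List ℕ) × Arr × (ℕ × List ℕ) =>
      (x.2.2.1.2.2.2, x.2.2.2.2)) (l := fun x => x.2.1) ((Computable.snd.comp (Computable.snd.comp (Computable.snd.comp (Computable.fst.comp (Computable.snd.comp Computable.snd))))).pair (Computable.snd.comp (Computable.snd.comp (Computable.snd.comp Computable.snd)))) (Computable.fst.comp Computable.snd)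
  · refine RE.ex_mem (p := fun (x : List Arr × List (ℕ × List ℕ) × Arr × (ℕ × List ℕ))
        (p' : ℕ × List ℕ) => p'.1 = x.2.2.1.2.2.2 ∧ h3B x.1 x.2.2.2.2 x.2.2.1.2.2.1 p'.2) ?_ (Computable.fst.comp Computable.snd)
    refine RE.and (RE.eq (Computable.fst.comp Computable.snd) (Computable.snd.comp (Computable.snd.comp (Computable.snd.comp (Computable.fst.comp (Computable.snd.comp (Computable.snd.comp Computable.fst))))))) ?_
    exact RE.comp (p := fun x : List Arr × List ℕ × Sym × List ℕ => h3B x.1 x.2.1 x.2.2.1 x.2.2.2) h3B_re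
      (f := fun x : (List Arr × List (ℕ × List ℕ) × Arr × (ℕ × List ℕ)) × (ℕ × List ℕ) =>
        (x.1.1, x.1.2.2.2.2, x.1.2.2.1.2.2.1, x.2.2))
      ((Computable.fst.comp Computable.fst).pair ((Computable.snd.comp (Computable.snd.comp (Computable.snd.comp (Computable.snd.comp Computable.fst)))).pair ((Computable.fst.comp (Computable.snd.comp (Computable.snd.comp (Computable.fst.comp (Computable.snd.comp (Computable.snd.comp Computable.fst)))))).pair (Computable.snd.comp Computable.snd))))

theorem re_projIncl : REPred (fun x : NTA × NTA => ProjIncl x.1 x.2) := by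
  have h : REPred (fun x : NTA × NTA => ∃ L : List (ℕ × List ℕ),
    (∃ p ∈ L, p.1 = x.1.1 ∧ ∀ s ∈ p.2, h3A x.2.2.2 x.2.1 [] s) ∧
    (∀ p ∈ L, ∀ e ∈ x.1.2.2, h3C x.2.2.2 L e p) ∧
    (∀ p ∈ L, p.1 = x.1.2.1 → x.2.2.1 ∈ p.2)) := by
    refine RE.ex (p := fun (x : NTA × NTA) (L : List (ℕ × List ℕ)) =>
      (∃ p ∈ L, p.1 = x.1.1 ∧ ∀ s ∈ p.2, h3A x.2.2.2 x.2.1 [] s) ∧
      (∀ p ∈ L, ∀ e ∈ x.1.2.2, h3C x.2.2.2 L e p) ∧
      (∀ p ∈ L, p.1 = x.1.2.1 → x.2.2.1 ∈ p.2)) ?_
    refine RE.and ?_ (RE.and ?_ ?_)
    · refine RE.ex_mem (p := fun (x : (NTA × NTA) × List (ℕ × List ℕ)) (p : ℕ × List ℕ) =>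
        p.1 = x.1.1.1 ∧ ∀ s ∈ p.2, h3A x.1.2.2.2 x.1.2.1 [] s) ?_ Computable.snd
      refine RE.and (RE.eq (Computable.fst.comp Computable.snd) (Computable.fst.comp (Computable.fst.comp (Computable.fst.comp Computable.fst)))) ?_
      refine RE.all_mem (p := fun (x : ((NTA × NTA) × List (ℕ × List ℕ)) × (ℕ × List ℕ)) (s : ℕ) =>
        h3A x.1.1.2.2.2 x.1.1.2.1 [] s) ?_ (Computable.snd.comp Computable.snd)
      exact RE.comp (p := fun x : List Arr × ℕ × List Sym × ℕ => h3A x.1 x.2.1 x.2.2.1 x.2.2.2) h3A_re
        (f := fun x : (((NTA × NTA) × List (ℕ × List ℕ)) × (ℕ × List ℕ)) × ℕ =>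
          (x.1.1.1.2.2.2, x.1.1.1.2.1, ([] : List Sym), x.2))
        ((Computable.snd.comp (Computable.snd.comp (Computable.snd.comp (Computable.fst.comp (Computable.fst.comp Computable.fst))))).pair ((Computable.fst.comp (Computable.snd.comp (Computable.fst.comp (Computable.fst.comp Computable.fst)))).pair ((Computable.const []).pair Computable.snd)))
    · refine RE.all_mem (p := fun (x : (NTA × NTA) × List (ℕ × List ℕ)) (p : ℕ × List ℕ) =>
        ∀ e ∈ x.1.1.2.2, h3C x.1.2.2.2 x.2 e p) ?_ Computable.snd
      refine RE.all_mem (p := fun (x : ((NTA × NTA) × List (ℕ × List ℕ)) × (ℕ × List ℕ)) (e : Arr) =>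
        h3C x.1.1.2.2.2 x.1.2 e x.2) ?_ (Computable.snd.comp (Computable.snd.comp (Computable.fst.comp (Computable.fst.comp Computable.fst))))
      exact RE.comp (p := fun x : List Arr × List (ℕ × List ℕ) × Arr × (ℕ × List ℕ) =>
        h3C x.1 x.2.1 x.2.2.1 x.2.2.2) h3C_re
        (f := fun x : (((NTA × NTA) × List (ℕ × List ℕ)) × (ℕ × List ℕ)) × Arr =>
          (x.1.1.1.2.2.2, x.1.1.2, x.2, x.1.2))
        ((Computable.snd.comp (Computable.snd.comp (Computable.snd.comp (Computable.fst.comp (Computable.fst.comp Computable.fst))))).pair ((Computable.snd.comp (Computable.fst.comp Computable.fst)).pair (Computable.snd.pair (Computable.snd.comp Computable.fst))))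
    · refine RE.all_mem (p := fun (x : (NTA × NTA) × List (ℕ × List ℕ)) (p : ℕ × List ℕ) =>
        p.1 = x.1.1.2.1 → x.1.2.2.1 ∈ p.2) ?_ Computable.snd
      exact h3_imp (RE.ne (Computable.fst.comp Computable.snd) (Computable.fst.comp (Computable.snd.comp (Computable.fst.comp (Computable.fst.comp Computable.fst))))) (RE.mem_list (Computable.fst.comp (Computable.snd.comp (Computable.snd.comp (Computable.fst.comp Computable.fst)))) (Computable.snd.comp Computable.snd))
  exact h

theorem re_deadOK : REPred (fun x : NTA × List ℕ => DeadOK x.1 x.2) := by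
  refine RE.and (RE.not_mem_list (Computable.fst.comp (Computable.snd.comp Computable.fst)) Computable.snd) ?_
  refine RE.all_mem (p := fun (x : NTA × List ℕ) (e : Arr) => e.1 ∈ x.2 → e.2.2.2 ∈ x.2) ?_ (Computable.snd.comp (Computable.snd.comp Computable.fst))
  exact h3_imp (RE.not_mem_list (Computable.fst.comp Computable.snd) (Computable.snd.comp Computable.fst)) (RE.mem_list (Computable.snd.comp (Computable.snd.comp (Computable.snd.comp Computable.snd))) (Computable.snd.comp Computable.fst))

end Pool.Agent.Helper632.AAR
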