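import Pool.Agent.Helper632.AAR.NTA
import Pool.Agent.Helper446.RE
import Pool.Agent.Helper632.AAR.PresEq
import Pool.Agent.Helper632.AAR.NoRE
import Pool.Agent.Helper632.AAR.PrimA
import Pool.Agent.Helper632.AAR.RunRE

namespace Pool.Agent.Helper632.AAR

open Pool.Agent.Helper446


theorem primrec_posB : Primrec pos := by
  unfold pos
  exact Primrec.list_map Primrec.id ((Primrec.pair (Primrec.const false) Primrec.snd).to₂)

theorem primrec_psymB : Primrec psym := by
  have h : Primrec (fun o : Option ℕ =>
      (o.elim ([] : List SL) (fun a => [(false, a)]) : List SL)) := by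
    have h1 : Primrec₂ (fun (_ : Option ℕ) (a : ℕ) => ([(false, a)] : List SL)) :=
      (Primrec.list_cons.comp (Primrec.pair (Primrec.const false) Primrec.snd)
        (Primrec.const []))
    refine (Primrec.option_casesOn Primrec.id (Primrec.const ([] : List SL)) h1).of_eq ?_
    intro o; cases o <;> rfl
  refine h.of_eq ?_
  intro o; cases o <;> rfl

theorem primrec_winv : Primrec winv := by
  unfold winv
  exact Primrec.list_map Primrec.list_reverse
    ((Primrec.pair (Primrec.not.comp (Primrec.fst.comp Primrec.snd))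
      (Primrec.snd.comp Primrec.snd)).to₂)

theorem re_rel : REPred (fun x : NTA × List Sym × List Sym => Rel x.1 x.2.1 x.2.2) := by
  have h := RE.comp (p := fun x : List Arr × ℕ × List Sym × List Sym × ℕ =>
      Run x.1 x.2.1 x.2.2.1 x.2.2.2.1 x.2.2.2.2) re_run
    (f := fun x : NTA × List Sym × List Sym => (x.1.2.2, x.1.1, x.2.1, x.2.2, x.1.2.1)) ?_
  · exact h
  · have h1 : Primrec (fun x : NTA × List Sym × List Sym =>
        (x.1.2.2, x.1.1, x.2.1, x.2.2, x.1.2.1)) :=
      Primrec.pair (Primrec.snd.comp (Primrec.snd.comp Primrec.fst))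
        (Primrec.pair (Primrec.fst.comp Primrec.fst)
          (Primrec.pair (Primrec.fst.comp Primrec.snd)
            (Primrec.pair (Primrec.snd.comp Primrec.snd)
              (Primrec.fst.comp (Primrec.snd.comp Primrec.fst)))))
    exact h1.to_comp

theorem re_rel_of {α : Type} [Primcodable α] {τ : α → NTA} {U V : α → List Sym}
    (hτ : Primrec τ) (hU : Primrec U) (hV : Primrec V) :
    REPred (fun a => Rel (τ a) (U a) (V a)) :=
  RE.comp (p := fun x : NTA × List Sym × List Sym => Rel x.1 x.2.1 x.2.2) re_rel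
    (f := fun a => (τ a, U a, V a)) (Primrec.pair hτ (Primrec.pair hU hV)).to_comp

theorem re_notLR_of {α : Type} [Primcodable α] {τ : α → NTA} {U V : α → List Sym}
    (hτ : Primrec τ) (hU : Primrec U) (hV : Primrec V) :
    REPred (fun a => NotLR (τ a) (U a) (V a)) :=
  RE.comp (p := fun x : NTA × List Sym × List Sym => NotLR x.1 x.2.1 x.2.2) re_notLR
    (f := fun a => (τ a, U a, V a)) (Primrec.pair hτ (Primrec.pair hU hV)).to_comp

/-- JOB P5. `E` is a r.e. form of `EqW`, `B` of `Bad`, `NT P w` says that `w` is nontrivial. -/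
theorem re_badP (E : Data → List SL → List SL → Prop) (B : Data → Prop)
    (NT : Pres → List SL → Prop)
    (hE : REPred (fun x : Data × List SL × List SL => E x.1 x.2.1 x.2.2)) (hB : REPred B)
    (hNT : REPred (fun x : Pres × List SL => NT x.1 x.2)) :
    REPred (fun y : Pres × Data => B y.2 ∨
      (∃ r ∈ y.1.2, ∃ u v : List ℕ,
        Rel (wNTA y.2.2.1) (em u) [] ∧ Rel (wNTA y.2.2.1) (em v) [] ∧
        E y.2 (pos u ++ r) (pos v) ∧ NotLR (rodM (mult y.2 none)) (em u) (em v)) ∨
      ∃ x ∈ (none :: (List.range y.2.1).map some : List (Option ℕ)), ∃ u v : List ℕ,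
        Rel (rodM (mult y.2 x)) (em u) (em v) ∧
          NT y.1 (pos u ++ psym x ++ winv (pos v))) := by
  refine RE.or (RE.comp hB Computable.snd) (RE.or ?_ ?_)
  · refine RE.ex_mem (p := fun (y : Pres × Data) (r : List SL) => ∃ u v : List ℕ,
        Rel (wNTA y.2.2.1) (em u) [] ∧ Rel (wNTA y.2.2.1) (em v) [] ∧
        E y.2 (pos u ++ r) (pos v) ∧ NotLR (rodM (mult y.2 none)) (em u) (em v))
      (l := fun y : Pres × Data => y.1.2) ?_ (Computable.snd.comp Computable.fst)
    refine RE.ex (p := fun (z : (Pres × Data) × List SL) (u : List ℕ) => ∃ v : List ℕ,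
        Rel (wNTA z.1.2.2.1) (em u) [] ∧ Rel (wNTA z.1.2.2.1) (em v) [] ∧
        E z.1.2 (pos u ++ z.2) (pos v) ∧ NotLR (rodM (mult z.1.2 none)) (em u) (em v)) ?_
    refine RE.ex (p := fun (z : ((Pres × Data) × List SL) × List ℕ) (v : List ℕ) =>
        Rel (wNTA z.1.1.2.2.1) (em z.2) [] ∧ Rel (wNTA z.1.1.2.2.1) (em v) [] ∧
        E z.1.1.2 (pos z.2 ++ z.1.2) (pos v) ∧
          NotLR (rodM (mult z.1.1.2 none)) (em z.2) (em v)) ?_
    have hd : Primrec (fun z : (((Pres × Data) × List SL) × List ℕ) × List ℕ => z.1.1.1.2) :=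
      Primrec.snd.comp (Primrec.fst.comp (Primrec.fst.comp Primrec.fst))
    have hr : Primrec (fun z : (((Pres × Data) × List SL) × List ℕ) × List ℕ => z.1.1.2) :=
      Primrec.snd.comp (Primrec.fst.comp Primrec.fst)
    have hu : Primrec (fun z : (((Pres × Data) × List SL) × List ℕ) × List ℕ => z.1.2) :=
      Primrec.snd.comp Primrec.fst
    have hv : Primrec (fun z : (((Pres × Data) × List SL) × List ℕ) × List ℕ => z.2) :=
      Primrec.snd
    have hW : Primrec (fun z : (((Pres × Data) × List SL) × List ℕ) × List ℕ =>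
        wNTA z.1.1.1.2.2.1) := primrec_wNTA.comp (Primrec.fst.comp (Primrec.snd.comp hd))
    have hM : Primrec (fun z : (((Pres × Data) × List SL) × List ℕ) × List ℕ =>
        rodM (mult z.1.1.1.2 none)) :=
      primrec_rodM.comp (primrec_mult.comp hd (Primrec.const none))
    refine RE.and (re_rel_of hW (primrec_em.comp hu) (Primrec.const [])) (RE.and
      (re_rel_of hW (primrec_em.comp hv) (Primrec.const [])) (RE.and ?_
      (re_notLR_of hM (primrec_em.comp hu) (primrec_em.comp hv))))
    exact RE.comp (p := fun x : Data × List SL × List SL => E x.1 x.2.1 x.2.2) hE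
      (f := fun z : (((Pres × Data) × List SL) × List ℕ) × List ℕ =>
        (z.1.1.1.2, pos z.1.2 ++ z.1.1.2, pos z.2))
      (Primrec.pair hd (Primrec.pair (Primrec.list_append.comp (primrec_posB.comp hu) hr)
        (primrec_posB.comp hv))).to_comp
  · refine RE.ex_mem (p := fun (y : Pres × Data) (x : Option ℕ) => ∃ u v : List ℕ,
        Rel (rodM (mult y.2 x)) (em u) (em v) ∧
          NT y.1 (pos u ++ psym x ++ winv (pos v)))
      (l := fun y : Pres × Data => (none :: (List.range y.2.1).map some : List (Option ℕ)))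
      ?_ ?_
    · refine RE.ex (p := fun (z : (Pres × Data) × Option ℕ) (u : List ℕ) => ∃ v : List ℕ,
        Rel (rodM (mult z.1.2 z.2)) (em u) (em v) ∧
          NT z.1.1 (pos u ++ psym z.2 ++ winv (pos v))) ?_
      refine RE.ex (p := fun (z : ((Pres × Data) × Option ℕ) × List ℕ) (v : List ℕ) =>
        Rel (rodM (mult z.1.1.2 z.1.2)) (em z.2) (em v) ∧
          NT z.1.1.1 (pos z.2 ++ psym z.1.2 ++ winv (pos v))) ?_
      have hP : Primrec (fun z : (((Pres × Data) × Option ℕ) × List ℕ) × List ℕ =>
          z.1.1.1.1) :=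
        Primrec.fst.comp (Primrec.fst.comp (Primrec.fst.comp Primrec.fst))
      have hd : Primrec (fun z : (((Pres × Data) × Option ℕ) × List ℕ) × List ℕ =>
          z.1.1.1.2) :=
        Primrec.snd.comp (Primrec.fst.comp (Primrec.fst.comp Primrec.fst))
      have hx : Primrec (fun z : (((Pres × Data) × Option ℕ) × List ℕ) × List ℕ =>
          z.1.1.2) :=
        Primrec.snd.comp (Primrec.fst.comp Primrec.fst)
      have hu : Primrec (fun z : (((Pres × Data) × Option ℕ) × List ℕ) × List ℕ => z.1.2) :=
        Primrec.snd.comp Primrec.fst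
      have hv : Primrec (fun z : (((Pres × Data) × Option ℕ) × List ℕ) × List ℕ => z.2) :=
        Primrec.snd
      refine RE.and (re_rel_of (primrec_rodM.comp (primrec_mult.comp hd hx))
        (primrec_em.comp hu) (primrec_em.comp hv)) ?_
      exact RE.comp (p := fun x : Pres × List SL => NT x.1 x.2) hNT
        (f := fun z : (((Pres × Data) × Option ℕ) × List ℕ) × List ℕ =>
          (z.1.1.1.1, pos z.1.2 ++ psym z.1.1.2 ++ winv (pos z.2)))
        (Primrec.pair hP (Primrec.list_append.comp
          (Primrec.list_append.comp (primrec_posB.comp hu) (primrec_psymB.comp hx))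
          (primrec_winv.comp (primrec_posB.comp hv)))).to_comp
    · have h1 : Primrec (fun y : Pres × Data =>
          (none :: (List.range y.2.1).map some : List (Option ℕ))) :=
        Primrec.list_cons.comp (Primrec.const none) (Primrec.list_map
          (Primrec.list_range.comp (Primrec.fst.comp Primrec.snd))
          ((Primrec.option_some.comp Primrec.snd).to₂))
      exact h1.to_comp

end Pool.Agent.Helper632.AAR
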