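import Pool.Agent.Helper632.AAR.NTA
import Pool.Agent.Helper446.RE
import Pool.Agent.Helper632.AAR.No
import Pool.Agent.Helper632.AAR.NoRE
import Pool.Agent.Helper632.AAR.PrimA
import Pool.Agent.Helper632.AAR.RunRE

namespace Pool.Agent.Helper632.AAR

open Pool.Agent.Helper446

/-- JOB I5: the only target (the three theorems above are known). `E` is a recursively
enumerable form of `EqW`. -/
theorem re_bad (E : Data → List SL → List SL → Prop)
    (hE : REPred (fun x : Data × List SL × List SL => E x.1 x.2.1 x.2.2)) :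
    REPred (fun d : Data => EmptyOK (wNTA d.2.1) ∨
      ∃ x ∈ none :: (List.range d.1).map some, ∃ u v : List ℕ,
        (Rel (rodM (mult d x)) (em u) (em v) ∧
          (NotL (wNTA d.2.1) (em u) ∨ NotL (wNTA d.2.1) (em v))) ∨
        (Rel (wNTA d.2.1) (em u) [] ∧
          (NotL (rodM (mult d x)) (em u) ∨ NotL (inv (rodM (mult d x))) (em u))) ∨
        (Rel (wNTA d.2.1) (em u) [] ∧ Rel (wNTA d.2.1) (em v) [] ∧
          NotLR (rodM (mult d x)) (em u) (em v) ∧ E d (pos u ++ psym x) (pos v))) := by
  have cW : Computable (fun d : Data => wNTA d.2.1) :=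
    primrec_wNTA.to_comp.comp (Computable.fst.comp Computable.snd)
  have cL : Computable (fun d : Data => (none :: (List.range d.1).map some : List (Option ℕ))) := by
    refine Computable.list_cons.comp (Computable.const none) ?_
    refine (Primrec.list_map (Primrec.list_range.comp Primrec.fst)
      (Primrec.option_some.comp Primrec.snd).to₂).to_comp
  refine RE.or (RE.comp re_emptyOK cW) ?_
  refine RE.ex_mem (p := fun (d : Data) (x : Option ℕ) => ∃ u v : List ℕ,
        (Rel (rodM (mult d x)) (em u) (em v) ∧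
          (NotL (wNTA d.2.1) (em u) ∨ NotL (wNTA d.2.1) (em v))) ∨
        (Rel (wNTA d.2.1) (em u) [] ∧
          (NotL (rodM (mult d x)) (em u) ∨ NotL (inv (rodM (mult d x))) (em u))) ∨
        (Rel (wNTA d.2.1) (em u) [] ∧ Rel (wNTA d.2.1) (em v) [] ∧
          NotLR (rodM (mult d x)) (em u) (em v) ∧ E d (pos u ++ psym x) (pos v))) ?_ cL
  refine RE.ex (p := fun (y : Data × Option ℕ) (u : List ℕ) => ∃ v : List ℕ,
        (Rel (rodM (mult y.1 y.2)) (em u) (em v) ∧
          (NotL (wNTA y.1.2.1) (em u) ∨ NotL (wNTA y.1.2.1) (em v))) ∨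
        (Rel (wNTA y.1.2.1) (em u) [] ∧
          (NotL (rodM (mult y.1 y.2)) (em u) ∨ NotL (inv (rodM (mult y.1 y.2))) (em u))) ∨
        (Rel (wNTA y.1.2.1) (em u) [] ∧ Rel (wNTA y.1.2.1) (em v) [] ∧
          NotLR (rodM (mult y.1 y.2)) (em u) (em v) ∧ E y.1 (pos u ++ psym y.2) (pos v))) ?_
  refine RE.ex (p := fun (z : (Data × Option ℕ) × List ℕ) (v : List ℕ) =>
        (Rel (rodM (mult z.1.1 z.1.2)) (em z.2) (em v) ∧
          (NotL (wNTA z.1.1.2.1) (em z.2) ∨ NotL (wNTA z.1.1.2.1) (em v))) ∨
        (Rel (wNTA z.1.1.2.1) (em z.2) [] ∧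
          (NotL (rodM (mult z.1.1 z.1.2)) (em z.2) ∨
            NotL (inv (rodM (mult z.1.1 z.1.2))) (em z.2))) ∨
        (Rel (wNTA z.1.1.2.1) (em z.2) [] ∧ Rel (wNTA z.1.1.2.1) (em v) [] ∧
          NotLR (rodM (mult z.1.1 z.1.2)) (em z.2) (em v) ∧
            E z.1.1 (pos z.2 ++ psym z.1.2) (pos v))) ?_
  have cd : Computable (fun t : ((Data × Option ℕ) × List ℕ) × List ℕ => t.1.1.1) :=
    Computable.fst.comp (Computable.fst.comp Computable.fst)
  have cx : Computable (fun t : ((Data × Option ℕ) × List ℕ) × List ℕ => t.1.1.2) :=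
    Computable.snd.comp (Computable.fst.comp Computable.fst)
  have cu : Computable (fun t : ((Data × Option ℕ) × List ℕ) × List ℕ => t.1.2) :=
    Computable.snd.comp Computable.fst
  have cv : Computable (fun t : ((Data × Option ℕ) × List ℕ) × List ℕ => t.2) :=
    Computable.snd
  have cw : Computable (fun t : ((Data × Option ℕ) × List ℕ) × List ℕ => wNTA t.1.1.1.2.1) :=
    cW.comp cd
  have cm : Computable (fun t : ((Data × Option ℕ) × List ℕ) × List ℕ =>
      rodM (mult t.1.1.1 t.1.1.2)) :=
    primrec_rodM.to_comp.comp (primrec_mult.to_comp.comp cd cx)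
  have ci : Computable (fun t : ((Data × Option ℕ) × List ℕ) × List ℕ =>
      inv (rodM (mult t.1.1.1 t.1.1.2))) :=
    primrec_inv.to_comp.comp cm
  have ceu : Computable (fun t : ((Data × Option ℕ) × List ℕ) × List ℕ => em t.1.2) :=
    primrec_em.to_comp.comp cu
  have cev : Computable (fun t : ((Data × Option ℕ) × List ℕ) × List ℕ => em t.2) :=
    primrec_em.to_comp.comp cv
  have cnil : Computable (fun _ : ((Data × Option ℕ) × List ℕ) × List ℕ => ([] : List Sym)) :=
    Computable.const []
  have hpos : Computable pos := by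
    have h : Primrec (fun u : List ℕ => u.map fun a => ((false, a) : SL)) :=
      Primrec.list_map Primrec.id ((Primrec.pair (Primrec.const false) Primrec.snd).to₂)
    exact h.to_comp
  have hpsym : Computable psym := by
    have h : Primrec (fun o : Option ℕ => (o.elim [] fun a => [((false, a) : SL)])) := by
      have h1 : Primrec (fun o : Option ℕ => o.map fun a => [((false, a) : SL)]) :=
        Primrec.option_map Primrec.id ((Primrec.list_cons.comp
          (Primrec.pair (Primrec.const false) Primrec.snd) (Primrec.const [])).to₂)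
      refine (Primrec.option_getD.comp h1 (Primrec.const [])).of_eq fun o => ?_
      cases o <;> rfl
    refine h.to_comp.of_eq fun o => ?_
    cases o <;> rfl
  have hrel : ∀ (f : ((Data × Option ℕ) × List ℕ) × List ℕ → NTA)
      (g h : ((Data × Option ℕ) × List ℕ) × List ℕ → List Sym), Computable f → Computable g →
      Computable h → REPred (fun t => Rel (f t) (g t) (h t)) := by
    intro f g h hf hg hh
    have := RE.comp re_run (f := fun t => ((f t).2.2, (f t).1, g t, h t, (f t).2.1))
      ((Computable.snd.comp (Computable.snd.comp hf)).pair ((Computable.fst.comp hf).pair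
        (hg.pair (hh.pair (Computable.fst.comp (Computable.snd.comp hf))))))
    exact this
  have hnl : ∀ (f : ((Data × Option ℕ) × List ℕ) × List ℕ → NTA)
      (g : ((Data × Option ℕ) × List ℕ) × List ℕ → List Sym), Computable f → Computable g →
      REPred (fun t => NotL (f t) (g t)) := by
    intro f g hf hg
    exact RE.comp re_notL (f := fun t => (f t, g t)) (hf.pair hg)
  refine RE.or (RE.and (hrel _ _ _ cm ceu cev) (RE.or (hnl _ _ cw ceu) (hnl _ _ cw cev))) ?_
  refine RE.or (RE.and (hrel _ _ _ cw ceu cnil) (RE.or (hnl _ _ cm ceu) (hnl _ _ ci ceu))) ?_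
  refine RE.and (hrel _ _ _ cw ceu cnil) (RE.and (hrel _ _ _ cw cev cnil) (RE.and ?_ ?_))
  · exact RE.comp re_notLR (f := fun t : ((Data × Option ℕ) × List ℕ) × List ℕ =>
      (rodM (mult t.1.1.1 t.1.1.2), em t.1.2, em t.2)) (cm.pair (ceu.pair cev))
  · exact RE.comp hE (f := fun t : ((Data × Option ℕ) × List ℕ) × List ℕ =>
      (t.1.1.1, pos t.1.2 ++ psym t.1.1.2, pos t.2))
      (cd.pair ((Computable.list_append.comp (hpos.comp cu) (hpsym.comp cx)).pair (hpos.comp cv)))

end Pool.Agent.Helper632.AAR
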