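import Pool.Agent.Helper632.AAR.NTA

namespace Pool.Agent.Helper632.AAR

theorem comp_inv {τ₁ τ₂ : NTA} {x g y : ℕ} {b : Sym} (h : (x, g, b, y) ∈ (comp τ₁ τ₂).2.2) :
    (∃ s t q, x = Nat.pair s q ∧ y = Nat.pair t q ∧ g ≠ 2 ∧ (s, g, b, t) ∈ τ₁.2.2) ∨
    (∃ s q t, x = Nat.pair s q ∧ y = Nat.pair s t ∧ g ≠ 1 ∧ (q, g, b, t) ∈ τ₂.2.2) ∨
    (∃ s q t t' c, x = Nat.pair s q ∧ y = Nat.pair t t' ∧ g = 0 ∧ (s, 2, c, t) ∈ τ₁.2.2 ∧
      (q, 1, c, t') ∈ τ₂.2.2) := by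
  simp only [comp, List.mem_append, List.mem_flatMap] at h
  rcases h with (⟨e, he, h⟩ | ⟨e, he, h⟩) | ⟨e, he, e', he', h⟩
  · left
    split_ifs at h with h2
    · simp at h
    · obtain ⟨q, hq, heq⟩ := List.mem_map.mp h
      simp only [Prod.mk.injEq] at heq
      obtain ⟨h3, h4, h5, h6⟩ := heq
      refine ⟨e.1, e.2.2.2, q, h3.symm, h6.symm, ?_, ?_⟩
      · rw [← h4]; exact h2
      · rw [← h4, ← h5]; exact he
  · right; left
    split_ifs at h with h2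
    · simp at h
    · obtain ⟨q, hq, heq⟩ := List.mem_map.mp h
      simp only [Prod.mk.injEq] at heq
      obtain ⟨h3, h4, h5, h6⟩ := heq
      refine ⟨q, e.1, e.2.2.2, h3.symm, h6.symm, ?_, ?_⟩
      · rw [← h4]; exact h2
      · rw [← h4, ← h5]; exact he
  · right; right
    split_ifs at h with h2
    · obtain ⟨h3, h4, h5⟩ := h2
      simp only [List.mem_singleton, Prod.mk.injEq] at h
      obtain ⟨h6, h7, h8, h9⟩ := h
      refine ⟨e.1, e'.1, e.2.2.2, e'.2.2.2, e.2.2.1, h6, h9, h7, ?_, ?_⟩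
      · rw [← h3]; exact he
      · rw [← h4, h5]; exact he'
    · simp at h

theorem comp_memA {τ₁ τ₂ : NTA} {s g t q : ℕ} {b : Sym} (h : (s, g, b, t) ∈ τ₁.2.2) (hg : g ≠ 2)
    (hq : q ∈ sts τ₂) : (Nat.pair s q, g, b, Nat.pair t q) ∈ (comp τ₁ τ₂).2.2 := by
  simp only [comp, List.mem_append, List.mem_flatMap]
  left; left
  refine ⟨_, h, ?_⟩
  rw [if_neg hg]
  exact List.mem_map.mpr ⟨q, hq, rfl⟩

theorem comp_memB {τ₁ τ₂ : NTA} {s g t q : ℕ} {b : Sym} (h : (q, g, b, t) ∈ τ₂.2.2) (hg : g ≠ 1)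
    (hs : s ∈ sts τ₁) : (Nat.pair s q, g, b, Nat.pair s t) ∈ (comp τ₁ τ₂).2.2 := by
  simp only [comp, List.mem_append, List.mem_flatMap]
  left; right
  refine ⟨_, h, ?_⟩
  rw [if_neg hg]
  exact List.mem_map.mpr ⟨s, hs, rfl⟩

theorem comp_memC {τ₁ τ₂ : NTA} {s t q t' : ℕ} {b : Sym} (h : (s, 2, b, t) ∈ τ₁.2.2)
    (h' : (q, 1, b, t') ∈ τ₂.2.2) : (Nat.pair s q, 0, none, Nat.pair t t') ∈ (comp τ₁ τ₂).2.2 := by
  simp only [comp, List.mem_append, List.mem_flatMap]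
  right
  refine ⟨_, h, _, h', ?_⟩
  simp

theorem sts_target {τ : NTA} {s g t : ℕ} {b : Sym} (h : (s, g, b, t) ∈ τ.2.2) : t ∈ sts τ := by
  simp only [sts, List.mem_cons, List.mem_append, List.mem_map]
  right; right; right
  exact ⟨_, h, rfl⟩

theorem comp_forward {τ₁ τ₂ : NTA} {x r : ℕ} {U V : List Sym} (h : Run (comp τ₁ τ₂).2.2 x U V r) :
    ∀ s q, x = Nat.pair s q → ∃ s2 q2 W, r = Nat.pair s2 q2 ∧ Run τ₁.2.2 s U W s2 ∧ Run τ₂.2.2 q W V q2 := by
  induction h with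
  | nil x => intro s q hx; exact ⟨s, q, [], hx, Run.nil _, Run.nil _⟩
  | eps ha _ ih =>
    intro s q hx
    rcases comp_inv ha with ⟨s', t', q', h1, h2, h3, h4⟩ | ⟨s', q', t', h1, h2, h3, h4⟩ | ⟨s', q', t', t'', c, h1, h2, h3, h4, h5⟩
    · rw [hx, Nat.pair_eq_pair] at h1
      obtain ⟨rfl, rfl⟩ := h1
      obtain ⟨s2, q2, W, e1, e2, e3⟩ := ih _ _ h2
      exact ⟨s2, q2, W, e1, Run.eps h4 e2, e3⟩
    · rw [hx, Nat.pair_eq_pair] at h1
      obtain ⟨rfl, rfl⟩ := h1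
      obtain ⟨s2, q2, W, e1, e2, e3⟩ := ih _ _ h2
      exact ⟨s2, q2, W, e1, e2, Run.eps h4 e3⟩
    · rw [hx, Nat.pair_eq_pair] at h1
      obtain ⟨rfl, rfl⟩ := h1
      obtain ⟨s2, q2, W, e1, e2, e3⟩ := ih _ _ h2
      exact ⟨s2, q2, c :: W, e1, Run.right h4 e2, Run.left h5 e3⟩
  | left ha _ ih =>
    intro s q hx
    rcases comp_inv ha with ⟨s', t', q', h1, h2, h3, h4⟩ | ⟨s', q', t', h1, h2, h3, h4⟩ | ⟨s', q', t', t'', c, h1, h2, h3, h4, h5⟩
    · rw [hx, Nat.pair_eq_pair] at h1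
      obtain ⟨rfl, rfl⟩ := h1
      obtain ⟨s2, q2, W, e1, e2, e3⟩ := ih _ _ h2
      exact ⟨s2, q2, W, e1, Run.left h4 e2, e3⟩
    · exact absurd rfl h3
    · exact absurd h3 (by norm_num)
  | right ha _ ih =>
    intro s q hx
    rcases comp_inv ha with ⟨s', t', q', h1, h2, h3, h4⟩ | ⟨s', q', t', h1, h2, h3, h4⟩ | ⟨s', q', t', t'', c, h1, h2, h3, h4, h5⟩
    · exact absurd rfl h3
    · rw [hx, Nat.pair_eq_pair] at h1
      obtain ⟨rfl, rfl⟩ := h1
      obtain ⟨s2, q2, W, e1, e2, e3⟩ := ih _ _ h2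
      exact ⟨s2, q2, W, e1, e2, Run.right h4 e3⟩
    · exact absurd h3 (by norm_num)

theorem comp_back0 {τ₁ τ₂ : NTA} {s q q2 : ℕ} {W V : List Sym} (h : Run τ₂.2.2 q W V q2) (hW : W = [])
    (hs : s ∈ sts τ₁) : Run (comp τ₁ τ₂).2.2 (Nat.pair s q) [] V (Nat.pair s q2) := by
  induction h with
  | nil x => exact Run.nil _
  | eps ha _ ih => exact Run.eps (comp_memB ha (by norm_num) hs) (ih hW)
  | left ha _ ih => exact absurd hW (by simp)
  | right ha _ ih => exact Run.right (comp_memB ha (by norm_num) hs) (ih hW)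

theorem comp_back1 {τ₁ τ₂ : NTA} {s t s2 q q2 : ℕ} {b : Sym} {U W V : List Sym}
    (ha : (s, 2, b, t) ∈ τ₁.2.2) (hs : s ∈ sts τ₁)
    (ih : ∀ q V q2, Run τ₂.2.2 q W V q2 → q ∈ sts τ₂ → Run (comp τ₁ τ₂).2.2 (Nat.pair t q) U V (Nat.pair s2 q2))
    {W' : List Sym} (h : Run τ₂.2.2 q W' V q2) (hW : W' = b :: W) (hq : q ∈ sts τ₂) :
    Run (comp τ₁ τ₂).2.2 (Nat.pair s q) U V (Nat.pair s2 q2) := by
  induction h with
  | nil x => exact absurd hW (by simp)
  | eps hb _ ih2 => exact Run.eps (comp_memB hb (by norm_num) hs) (ih2 hW (sts_target hb))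
  | left hb hr ih2 =>
    rw [List.cons.injEq] at hW
    obtain ⟨rfl, rfl⟩ := hW
    exact Run.eps (comp_memC ha hb) (ih _ _ _ hr (sts_target hb))
  | right hb _ ih2 => exact Run.right (comp_memB hb (by norm_num) hs) (ih2 hW (sts_target hb))

theorem comp_backward {τ₁ τ₂ : NTA} {s s2 : ℕ} {U W : List Sym} (h : Run τ₁.2.2 s U W s2) :
    s ∈ sts τ₁ → ∀ q V q2, Run τ₂.2.2 q W V q2 → q ∈ sts τ₂ →
      Run (comp τ₁ τ₂).2.2 (Nat.pair s q) U V (Nat.pair s2 q2) := by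
  induction h with
  | nil x => intro hs q V q2 hr hq; exact comp_back0 hr rfl hs
  | eps ha _ ih =>
    intro hs q V q2 hr hq
    exact Run.eps (comp_memA ha (by norm_num) hq) (ih (sts_target ha) _ _ _ hr hq)
  | left ha _ ih =>
    intro hs q V q2 hr hq
    exact Run.left (comp_memA ha (by norm_num) hq) (ih (sts_target ha) _ _ _ hr hq)
  | right ha _ ih =>
    intro hs q V q2 hr hq
    exact comp_back1 ha hs (ih (sts_target ha)) hr rfl hq

/-- JOB A2, part 1. -/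
theorem rel_comp {τ₁ τ₂ : NTA} {U V : List Sym} :
    Rel (comp τ₁ τ₂) U V ↔ ∃ W, Rel τ₁ U W ∧ Rel τ₂ W V := by
  constructor
  · intro h
    obtain ⟨s2, q2, W, h1, h2, h3⟩ := comp_forward h _ _ rfl
    have h4 : Nat.pair τ₁.2.1 τ₂.2.1 = Nat.pair s2 q2 := h1
    rw [Nat.pair_eq_pair] at h4
    obtain ⟨h5, h6⟩ := h4
    refine ⟨W, ?_, ?_⟩
    · unfold Rel; rw [h5]; exact h2
    · unfold Rel; rw [h6]; exact h3
  · rintro ⟨W, h1, h2⟩
    exact comp_backward h1 (by simp [sts]) _ _ _ h2 (by simp [sts])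

theorem line_mem {k g : ℕ} {X : List Sym} {x g' y : ℕ} {b : Sym} :
    (x, g', b, y) ∈ line k g X ↔ ∃ i < X.length, x = Nat.pair k i ∧ g' = g ∧ b = X.getD i none ∧ y = Nat.pair k (i + 1) := by
  simp only [line, List.mem_map, List.mem_range, Prod.mk.injEq]
  constructor
  · rintro ⟨i, hi, h1, h2, h3, h4⟩
    exact ⟨i, hi, h1.symm, h2.symm, h3.symm, h4.symm⟩
  · rintro ⟨i, hi, h1, h2, h3, h4⟩
    exact ⟨i, hi, h1.symm, h2.symm, h3.symm, h4.symm⟩

theorem pref_inv {D : NTA} {q : ℕ} {X Y : List Sym} {z g w : ℕ} {c : Sym}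
    (h : (z, g, c, w) ∈ (pref D q X Y).2.2) :
    (∃ s t, z = Nat.pair 0 s ∧ g = 1 ∧ w = Nat.pair 1 (Nat.pair t (Encodable.encode c)) ∧ (s, 1, c, t) ∈ D.2.2) ∨
    (∃ t, z = Nat.pair 1 (Nat.pair t (Encodable.encode c)) ∧ g = 2 ∧ w = Nat.pair 0 t) ∨
    (z = Nat.pair 0 q ∧ g = 0 ∧ w = Nat.pair 2 0) ∨
    (z = Nat.pair 2 X.length ∧ g = 0 ∧ w = Nat.pair 3 0) ∨
    (∃ i < X.length, z = Nat.pair 2 i ∧ g = 1 ∧ c = X.getD i none ∧ w = Nat.pair 2 (i + 1)) ∨
    (∃ i < Y.length, z = Nat.pair 3 i ∧ g = 2 ∧ c = Y.getD i none ∧ w = Nat.pair 3 (i + 1)) := by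
  simp only [pref, List.mem_append, List.mem_flatMap, line_mem] at h
  rcases h with ((⟨e, he, h⟩ | h) | h) | h
  · split_ifs at h with h2
    · simp only [List.mem_cons, List.not_mem_nil, or_false, Prod.mk.injEq] at h
      rcases h with ⟨h3, h4, h5, h6⟩ | ⟨h3, h4, h5, h6⟩
      · left
        refine ⟨e.1, e.2.2.2, h3, h4, ?_, ?_⟩
        · rw [h6, h5]
        · rw [h5, ← h2]; exact he
      · right; left
        refine ⟨e.2.2.2, ?_, h4, h6⟩
        rw [h3, h5]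
    · simp at h
  · simp only [List.mem_cons, List.not_mem_nil, or_false, Prod.mk.injEq] at h
    rcases h with ⟨h3, h4, h5, h6⟩ | ⟨h3, h4, h5, h6⟩
    · exact Or.inr (Or.inr (Or.inl ⟨h3, h4, h6⟩))
    · exact Or.inr (Or.inr (Or.inr (Or.inl ⟨h3, h4, h6⟩)))
  · exact Or.inr (Or.inr (Or.inr (Or.inr (Or.inl h))))
  · exact Or.inr (Or.inr (Or.inr (Or.inr (Or.inr h))))

theorem pref_P1 {D : NTA} {q : ℕ} {X Y : List Sym} {s t : ℕ} {b : Sym} (h : (s, 1, b, t) ∈ D.2.2) :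
    (Nat.pair 0 s, 1, b, Nat.pair 1 (Nat.pair t (Encodable.encode b))) ∈ (pref D q X Y).2.2 := by
  simp only [pref, List.mem_append, List.mem_flatMap]
  left; left; left
  exact ⟨_, h, by simp⟩

theorem pref_P2 {D : NTA} {q : ℕ} {X Y : List Sym} {s t : ℕ} {b : Sym} (h : (s, 1, b, t) ∈ D.2.2) :
    (Nat.pair 1 (Nat.pair t (Encodable.encode b)), 2, b, Nat.pair 0 t) ∈ (pref D q X Y).2.2 := by
  simp only [pref, List.mem_append, List.mem_flatMap]
  left; left; left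
  exact ⟨_, h, by simp⟩

theorem pref_M1 {D : NTA} {q : ℕ} {X Y : List Sym} :
    (Nat.pair 0 q, 0, none, Nat.pair 2 0) ∈ (pref D q X Y).2.2 := by
  simp only [pref, List.mem_append]
  left; left; right
  simp

theorem pref_M2 {D : NTA} {q : ℕ} {X Y : List Sym} :
    (Nat.pair 2 X.length, 0, none, Nat.pair 3 0) ∈ (pref D q X Y).2.2 := by
  simp only [pref, List.mem_append]
  left; left; right
  simp

theorem pref_L2 {D : NTA} {q : ℕ} {X Y : List Sym} {i : ℕ} (hi : i < X.length) :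
    (Nat.pair 2 i, 1, X.getD i none, Nat.pair 2 (i + 1)) ∈ (pref D q X Y).2.2 := by
  simp only [pref, List.mem_append]
  left; right
  exact line_mem.mpr ⟨i, hi, rfl, rfl, rfl, rfl⟩

theorem pref_L3 {D : NTA} {q : ℕ} {X Y : List Sym} {i : ℕ} (hi : i < Y.length) :
    (Nat.pair 3 i, 2, Y.getD i none, Nat.pair 3 (i + 1)) ∈ (pref D q X Y).2.2 := by
  simp only [pref, List.mem_append]
  right
  exact line_mem.mpr ⟨i, hi, rfl, rfl, rfl, rfl⟩

theorem drop_getD {X : List Sym} {i : ℕ} (hi : i < X.length) : X.drop i = X.getD i none :: X.drop (i + 1) := by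
  rw [List.drop_eq_getElem_cons hi, List.getD_eq_getElem _ _ hi]

theorem run_L3 {D : NTA} {q : ℕ} {X Y : List Sym} (n : ℕ) : ∀ i, i + n = Y.length →
    Run (pref D q X Y).2.2 (Nat.pair 3 i) [] (Y.drop i) (Nat.pair 3 Y.length) := by
  induction n with
  | zero =>
    intro i hi
    rw [add_zero] at hi
    subst hi
    rw [List.drop_length]
    exact Run.nil _
  | succ n ih =>
    intro i hi
    have hlt : i < Y.length := by omega
    rw [drop_getD hlt]
    exact Run.right (pref_L3 hlt) (ih (i + 1) (by omega))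

theorem run_L2 {D : NTA} {q : ℕ} {X Y : List Sym} (n : ℕ) : ∀ i, i + n = X.length →
    Run (pref D q X Y).2.2 (Nat.pair 2 i) (X.drop i) Y (Nat.pair 3 Y.length) := by
  induction n with
  | zero =>
    intro i hi
    rw [add_zero] at hi
    subst hi
    rw [List.drop_length]
    exact Run.eps pref_M2 (run_L3 Y.length 0 (by simp))
  | succ n ih =>
    intro i hi
    have hlt : i < X.length := by omega
    rw [drop_getD hlt]
    exact Run.left (pref_L2 hlt) (ih (i + 1) (by omega))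

theorem pref_backward {D : NTA} (hD : ∀ e ∈ D.2.2, e.2.1 = 1) {q : ℕ} {X Y : List Sym} {s : ℕ} {P Z : List Sym}
    (h : Run D.2.2 s P Z q) (hZ : Z = []) :
    Run (pref D q X Y).2.2 (Nat.pair 0 s) (P ++ X) (P ++ Y) (Nat.pair 3 Y.length) := by
  induction h with
  | nil s => exact Run.eps pref_M1 (run_L2 X.length 0 (by simp))
  | eps ha _ _ => exact absurd (hD _ ha) (by simp)
  | left ha _ ih => exact Run.left (pref_P1 ha) (Run.right (pref_P2 ha) (ih hZ))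
  | right ha _ _ => exact absurd (hD _ ha) (by simp)

theorem pref_forward {D : NTA} {q : ℕ} {X Y : List Sym} {z r : ℕ} {U V : List Sym}
    (h : Run (pref D q X Y).2.2 z U V r) (hr : r = Nat.pair 3 Y.length) :
    (∀ s, z = Nat.pair 0 s → ∃ P, Run D.2.2 s P [] q ∧ U = P ++ X ∧ V = P ++ Y) ∧
    (∀ s (b : Sym), z = Nat.pair 1 (Nat.pair s (Encodable.encode b)) →
      ∃ P, Run D.2.2 s P [] q ∧ U = P ++ X ∧ V = b :: (P ++ Y)) ∧
    (∀ i, z = Nat.pair 2 i → i ≤ X.length → U = X.drop i ∧ V = Y) ∧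
    (∀ i, z = Nat.pair 3 i → i ≤ Y.length → U = [] ∧ V = Y.drop i) := by
  induction h with
  | nil z =>
    subst hr
    refine ⟨?_, ?_, ?_, ?_⟩
    · intro s h; rw [Nat.pair_eq_pair] at h; exact absurd h.1 (by norm_num)
    · intro s b h; rw [Nat.pair_eq_pair] at h; exact absurd h.1 (by norm_num)
    · intro s h; rw [Nat.pair_eq_pair] at h; exact absurd h.1 (by norm_num)
    · intro i h _
      rw [Nat.pair_eq_pair] at h
      rw [← h.2, List.drop_length]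
      exact ⟨rfl, rfl⟩
  | eps ha _ ih =>
    obtain ⟨i0, i1, i2, i3⟩ := ih hr
    rcases pref_inv ha with ⟨s', t', h1, h2, h3, h4⟩ | ⟨t', h1, h2, h3⟩ | ⟨h1, h2, h3⟩ | ⟨h1, h2, h3⟩ |
      ⟨i', hi', h1, h2, h3, h4⟩ | ⟨i', hi', h1, h2, h3, h4⟩
    · exact absurd h2 (by norm_num)
    · exact absurd h2 (by norm_num)
    · obtain ⟨e1, e2⟩ := i2 0 h3 (Nat.zero_le _)
      refine ⟨?_, ?_, ?_, ?_⟩
      · intro s h
        rw [h1, Nat.pair_eq_pair] at h
        rw [← h.2]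
        exact ⟨[], Run.nil _, by simpa using e1, by simpa using e2⟩
      · intro s b h; rw [h1, Nat.pair_eq_pair] at h; exact absurd h.1 (by norm_num)
      · intro s h; rw [h1, Nat.pair_eq_pair] at h; exact absurd h.1 (by norm_num)
      · intro s h; rw [h1, Nat.pair_eq_pair] at h; exact absurd h.1 (by norm_num)
    · obtain ⟨e1, e2⟩ := i3 0 h3 (Nat.zero_le _)
      refine ⟨?_, ?_, ?_, ?_⟩
      · intro s h; rw [h1, Nat.pair_eq_pair] at h; exact absurd h.1 (by norm_num)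
      · intro s b h; rw [h1, Nat.pair_eq_pair] at h; exact absurd h.1 (by norm_num)
      · intro i h _
        rw [h1, Nat.pair_eq_pair] at h
        rw [← h.2, List.drop_length]
        exact ⟨e1, by simpa using e2⟩
      · intro s h; rw [h1, Nat.pair_eq_pair] at h; exact absurd h.1 (by norm_num)
    · exact absurd h2 (by norm_num)
    · exact absurd h2 (by norm_num)
  | left ha _ ih =>
    obtain ⟨i0, i1, i2, i3⟩ := ih hr
    rcases pref_inv ha with ⟨s', t', h1, h2, h3, h4⟩ | ⟨t', h1, h2, h3⟩ | ⟨h1, h2, h3⟩ | ⟨h1, h2, h3⟩ |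
      ⟨i', hi', h1, h2, h3, h4⟩ | ⟨i', hi', h1, h2, h3, h4⟩
    · obtain ⟨P, e1, e2, e3⟩ := i1 _ _ h3
      refine ⟨?_, ?_, ?_, ?_⟩
      · intro s h
        rw [h1, Nat.pair_eq_pair] at h
        rw [← h.2]
        exact ⟨_ :: P, Run.left h4 e1, by rw [e2]; rfl, e3⟩
      · intro s b h; rw [h1, Nat.pair_eq_pair] at h; exact absurd h.1 (by norm_num)
      · intro s h; rw [h1, Nat.pair_eq_pair] at h; exact absurd h.1 (by norm_num)
      · intro s h; rw [h1, Nat.pair_eq_pair] at h; exact absurd h.1 (by norm_num)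
    · exact absurd h2 (by norm_num)
    · exact absurd h2 (by norm_num)
    · exact absurd h2 (by norm_num)
    · obtain ⟨e1, e2⟩ := i2 _ h4 hi'
      refine ⟨?_, ?_, ?_, ?_⟩
      · intro s h; rw [h1, Nat.pair_eq_pair] at h; exact absurd h.1 (by norm_num)
      · intro s b h; rw [h1, Nat.pair_eq_pair] at h; exact absurd h.1 (by norm_num)
      · intro i h _
        rw [h1, Nat.pair_eq_pair] at h
        rw [← h.2, drop_getD hi', ← e1, h3]
        exact ⟨rfl, e2⟩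
      · intro s h; rw [h1, Nat.pair_eq_pair] at h; exact absurd h.1 (by norm_num)
    · exact absurd h2 (by norm_num)
  | right ha _ ih =>
    obtain ⟨i0, i1, i2, i3⟩ := ih hr
    rcases pref_inv ha with ⟨s', t', h1, h2, h3, h4⟩ | ⟨t', h1, h2, h3⟩ | ⟨h1, h2, h3⟩ | ⟨h1, h2, h3⟩ |
      ⟨i', hi', h1, h2, h3, h4⟩ | ⟨i', hi', h1, h2, h3, h4⟩
    · exact absurd h2 (by norm_num)
    · obtain ⟨P, e1, e2, e3⟩ := i0 _ h3
      refine ⟨?_, ?_, ?_, ?_⟩
      · intro s h; rw [h1, Nat.pair_eq_pair] at h; exact absurd h.1 (by norm_num)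
      · intro s b h
        rw [h1, Nat.pair_eq_pair, Nat.pair_eq_pair] at h
        obtain ⟨_, h5, h6⟩ := h
        have h7 := Encodable.encode_injective h6
        rw [← h5, ← h7]
        exact ⟨P, e1, e2, by rw [e3]⟩
      · intro s h; rw [h1, Nat.pair_eq_pair] at h; exact absurd h.1 (by norm_num)
      · intro s h; rw [h1, Nat.pair_eq_pair] at h; exact absurd h.1 (by norm_num)
    · exact absurd h2 (by norm_num)
    · exact absurd h2 (by norm_num)
    · exact absurd h2 (by norm_num)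
    · obtain ⟨e1, e2⟩ := i3 _ h4 hi'
      refine ⟨?_, ?_, ?_, ?_⟩
      · intro s h; rw [h1, Nat.pair_eq_pair] at h; exact absurd h.1 (by norm_num)
      · intro s b h; rw [h1, Nat.pair_eq_pair] at h; exact absurd h.1 (by norm_num)
      · intro s h; rw [h1, Nat.pair_eq_pair] at h; exact absurd h.1 (by norm_num)
      · intro i h _
        rw [h1, Nat.pair_eq_pair] at h
        rw [← h.2, drop_getD hi', ← e2, h3]
        exact ⟨e1, rfl⟩

/-- JOB A2, part 2. -/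
theorem rel_pref {D : NTA} (hD : ∀ e ∈ D.2.2, e.2.1 = 1) {q : ℕ} {X Y U V : List Sym} :
    Rel (pref D q X Y) U V ↔ ∃ P, Run D.2.2 D.1 P [] q ∧ U = P ++ X ∧ V = P ++ Y := by
  constructor
  · intro h
    exact (pref_forward h rfl).1 _ rfl
  · rintro ⟨P, h1, rfl, rfl⟩
    exact pref_backward hD h1 rfl

end Pool.Agent.Helper632.AAR
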