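import Pool.Agent.Helper632.AAR.NTA
import Pool.Agent.Helper632.AAR.Lib

namespace Pool.Agent.Helper632.AAR



theorem sval_append_c {G : Type*} [Monoid G] (π : ℕ → G) (U V : List Sym) :
    sval π (U ++ V) = sval π U * sval π V := by
  simp [sval]

theorem run_append_c {T : List Arr} {s t r : ℕ} {U V U' V' : List Sym}
    (h : Run T s U V t) (h' : Run T t U' V' r) : Run T s (U ++ U') (V ++ V') r := by
  induction h with
  | nil s => exact h'
  | eps h1 _ ih => exact Run.eps h1 (ih h')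
  | left h1 _ ih => exact Run.left h1 (ih h')
  | right h1 _ ih => exact Run.right h1 (ih h')

theorem run_split_c {T : List Arr} (hT : ∀ e ∈ T, e.2.1 = 1) (P : List Sym) :
    ∀ {Q : List Sym} {s t : ℕ}, Run T s (P ++ Q) [] t →
      ∃ m, Run T s P [] m ∧ Run T m Q [] t := by
  induction P with
  | nil =>
    intro Q s t h
    exact ⟨s, Run.nil s, h⟩
  | cons a P ih =>
    intro Q s t h
    rw [List.cons_append] at h
    cases h with
    | eps h1 _ => exact absurd (hT _ h1) (by simp)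
    | left h1 h2 =>
      obtain ⟨m, hm1, hm2⟩ := ih h2
      exact ⟨m, Run.left h1 hm1, hm2⟩

theorem run_letters_c {T : List Arr} {s t : ℕ} {U V : List Sym} (h : Run T s U V t) :
    ∀ x ∈ U, x ∈ T.map (fun e => e.2.2.1) := by
  induction h with
  | nil s => simp
  | eps _ _ ih => exact ih
  | left h1 _ ih =>
    intro x hx
    rcases List.mem_cons.1 hx with rfl | hx
    · exact List.mem_map.2 ⟨_, h1, rfl⟩
    · exact ih x hx
  | right _ _ ih => exact ih

theorem src_mem_c {τ : NTA} {e : Arr} (h : e ∈ τ.2.2) : e.1 ∈ sts τ := by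
  unfold sts
  refine List.mem_cons_of_mem _ (List.mem_cons_of_mem _ (List.mem_append_left _ ?_))
  exact List.mem_map.2 ⟨e, h, rfl⟩

theorem tgt_mem_c {τ : NTA} {e : Arr} (h : e ∈ τ.2.2) : e.2.2.2 ∈ sts τ := by
  unfold sts
  refine List.mem_cons_of_mem _ (List.mem_cons_of_mem _ (List.mem_append_right _ ?_))
  exact List.mem_map.2 ⟨e, h, rfl⟩

theorem run_sts_c {τ : NTA} {s t : ℕ} {U V : List Sym} (h : Run τ.2.2 s U V t)
    (hs : s ∈ sts τ) : t ∈ sts τ := by
  induction h with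
  | nil s => exact hs
  | eps h1 _ ih => exact ih (tgt_mem_c h1)
  | left h1 _ ih => exact ih (tgt_mem_c h1)
  | right h1 _ ih => exact ih (tgt_mem_c h1)

/-- Prefix runs of an asynchronous automaton. -/
inductive ARun (M : AAut) : ℕ → List Sym → List Sym → ℕ → Prop
  | nil (s : ℕ) : ARun M s [] [] s
  | left {s t r : ℕ} {a : Sym} {U V : List Sym} : readsL M s → (s, a, t) ∈ M.2.2 →
      ARun M t U V r → ARun M s (a :: U) V r
  | right {s t r : ℕ} {a : Sym} {U V : List Sym} : readsR M s → (s, a, t) ∈ M.2.2 →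
      ARun M t U V r → ARun M s U (a :: V) r

theorem arun_append_c {M : AAut} {s t r : ℕ} {U V U' V' : List Sym}
    (h : ARun M s U V t) (h' : ARun M t U' V' r) : ARun M s (U ++ U') (V ++ V') r := by
  induction h with
  | nil s => exact h'
  | left h0 h1 _ ih => exact ARun.left h0 h1 (ih h')
  | right h0 h1 _ ih => exact ARun.right h0 h1 (ih h')

theorem acc_append_c {M : AAut} {s t : ℕ} {U V U' V' : List Sym}
    (h : ARun M s U V t) (h' : Acc M t U' V') : Acc M s (U ++ U') (V ++ V') := by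
  induction h with
  | nil s => exact h'
  | left h0 h1 _ ih => exact Acc.left h0 h1 (ih h')
  | right h0 h1 _ ih => exact Acc.right h0 h1 (ih h')

theorem acc_inv_left_c {M : AAut} {s : ℕ} {X Y : List Sym} (hs : readsL M s)
    (h : Acc M s X Y) : ∃ a t U, X = a :: U ∧ (s, a, t) ∈ M.2.2 ∧ Acc M t U Y := by
  cases h with
  | done hk =>
    exfalso
    rcases hs with h | h <;> rw [hk] at h <;> simp at h
  | left _ h1 h2 => exact ⟨_, _, _, rfl, h1, h2⟩
  | right hr _ _ =>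
    exfalso
    rcases hs with h | h <;> rcases hr with h' | h' <;> rw [h'] at h <;> simp at h

theorem acc_inv_right_c {M : AAut} {s : ℕ} {X Y : List Sym} (hs : readsR M s)
    (h : Acc M s X Y) : ∃ a t V, Y = a :: V ∧ (s, a, t) ∈ M.2.2 ∧ Acc M t X V := by
  cases h with
  | done hk =>
    exfalso
    rcases hs with h | h <;> rw [hk] at h <;> simp at h
  | right _ h1 h2 => exact ⟨_, _, _, rfl, h1, h2⟩
  | left hr _ _ =>
    exfalso
    rcases hs with h | h <;> rcases hr with h' | h' <;> rw [h'] at h <;> simp at h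

theorem acc_det_c {n : ℕ} {M : AAut} (hM : AWF n M) {s t : ℕ} {U V U' V' : List Sym}
    (h : ARun M s U V t) (h' : Acc M s (U ++ U') (V ++ V')) : Acc M t U' V' := by
  induction h with
  | nil s => exact h'
  | left h0 h1 _ ih =>
    obtain ⟨a', t', U2, e1, e2, e3⟩ := acc_inv_left_c h0 h'
    rw [List.cons_append] at e1
    injection e1 with e4 e5
    subst e4
    subst e5
    have := hM.det _ h1 _ e2 rfl rfl
    dsimp only at this
    subst this
    exact ih e3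
  | right h0 h1 _ ih =>
    obtain ⟨a', t', V2, e1, e2, e3⟩ := acc_inv_right_c h0 h'
    rw [List.cons_append] at e1
    injection e1 with e4 e5
    subst e4
    subst e5
    have := hM.det _ h1 _ e2 rfl rfl
    dsimp only at this
    subst this
    exact ih e3

/-- States of `M` which can be reached. -/
def stM (M : AAut) : List ℕ := M.1 :: M.2.2.map fun e => e.2.2

theorem arun_stM_c {M : AAut} {s t : ℕ} {U V : List Sym} (h : ARun M s U V t)
    (hs : s ∈ stM M) : t ∈ stM M := by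
  induction h with
  | nil s => exact hs
  | left _ h1 _ ih => exact ih (List.mem_cons_of_mem _ (List.mem_map.2 ⟨_, h1, rfl⟩))
  | right _ h1 _ ih => exact ih (List.mem_cons_of_mem _ (List.mem_map.2 ⟨_, h1, rfl⟩))

theorem label_c {G : Type*} [Group G] (π : ℕ → G) {τ : NTA} (g : G)
    (r : ∀ U V, Rel τ U V → sval π U * g = sval π V) :
    ∃ lam : ℕ → G, ∀ c U V U' V', Run τ.2.2 τ.1 U V c → Run τ.2.2 c U' V' τ.2.1 →
      sval π U * lam c = sval π V := by
  classical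
  refine ⟨fun c => if h : ∃ p : List Sym × List Sym, Run τ.2.2 c p.1 p.2 τ.2.1 then
    sval π h.choose.1 * g * (sval π h.choose.2)⁻¹ else 1, ?_⟩
  intro c U V U' V' h1 h2
  have h : ∃ p : List Sym × List Sym, Run τ.2.2 c p.1 p.2 τ.2.1 := ⟨(U', V'), h2⟩
  have h3 := r _ _ (run_append_c h1 h.choose_spec)
  rw [sval_append_c, sval_append_c] at h3
  simp only [dif_pos h]
  rw [← mul_assoc, ← mul_assoc, h3, mul_inv_cancel_right]

theorem labelM_c {G : Type*} [Group G] (π : ℕ → G) {M : AAut} (g : G)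
    (r : ∀ U V, Acc M M.1 U V → sval π U * g = sval π V) :
    ∃ lam : ℕ → G, ∀ c U V U' V', ARun M M.1 U V c → Acc M c U' V' →
      sval π U * lam c = sval π V := by
  classical
  refine ⟨fun c => if h : ∃ p : List Sym × List Sym, Acc M c p.1 p.2 then
    sval π h.choose.1 * g * (sval π h.choose.2)⁻¹ else 1, ?_⟩
  intro c U V U' V' h1 h2
  have h : ∃ p : List Sym × List Sym, Acc M c p.1 p.2 := ⟨(U', V'), h2⟩
  have h3 := r _ _ (acc_append_c h1 h.choose_spec)
  rw [sval_append_c, sval_append_c] at h3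
  simp only [dif_pos h]
  rw [← mul_assoc, ← mul_assoc, h3, mul_inv_cancel_right]

/-- A configuration with a completion. -/
def Hope (τ₁ τ₂ D : NTA) (c : Cfg) : Prop :=
  ∃ U V R, Run τ₁.2.2 c.1 U (c.2.2.2.2 ++ R) τ₁.2.1 ∧
    Run τ₂.2.2 c.2.1 (c.2.2.2.1 ++ R) V τ₂.2.1 ∧ Run D.2.2 c.2.2.1 R [] D.2.1

/-- A reachable configuration. -/
def Reach (τ₁ τ₂ D : NTA) (M : AAut) (s : ℕ) (c : Cfg) : Prop :=
  (c.2.2.2.1 = [] ∨ c.2.2.2.2 = []) ∧ ∃ U V W1 W2, ARun M M.1 U V s ∧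
    Run τ₁.2.2 τ₁.1 U W1 c.1 ∧ Run τ₂.2.2 τ₂.1 W2 V c.2.1 ∧
    W1 ++ c.2.2.2.2 = W2 ++ c.2.2.2.1 ∧ Run D.2.2 D.1 (W1 ++ c.2.2.2.2) [] c.2.2.1

/-- Buffers. -/
def Buf (D : NTA) (n : ℕ) (b : List Sym) : Prop :=
  b.length ≤ n ∧ ∀ x ∈ b, x ∈ D.2.2.map (fun e => e.2.2.1)

/-- Finitely many configurations. -/
def FinC (τ₁ τ₂ D : NTA) (n : ℕ) (c : Cfg) : Prop :=
  c.1 ∈ sts τ₁ ∧ c.2.1 ∈ sts τ₂ ∧ c.2.2.1 ∈ sts D ∧ Buf D n c.2.2.2.1 ∧ Buf D n c.2.2.2.2

theorem buf_finite_c (D : NTA) (n : ℕ) : {b | Buf D n b}.Finite := by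
  induction n with
  | zero =>
    refine (Set.finite_singleton ([] : List Sym)).subset ?_
    rintro b ⟨h, -⟩
    exact List.length_eq_zero_iff.1 (Nat.le_zero.1 h)
  | succ n ih =>
    have h1 : {x | x ∈ D.2.2.map (fun e => e.2.2.1)}.Finite := List.finite_toSet _
    refine ((Set.finite_singleton ([] : List Sym)).union
      (h1.image2 (fun x l => x :: l) ih)).subset ?_
    rintro b ⟨h, h'⟩
    cases b with
    | nil => exact Or.inl rfl
    | cons x l =>
      refine Or.inr ⟨x, h' x (List.mem_cons_self ..), l, ⟨?_, ?_⟩, rfl⟩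
      · simpa using h
      · exact fun y hy => h' y (List.mem_cons_of_mem _ hy)

theorem finC_finite_c (τ₁ τ₂ D : NTA) (n : ℕ) : {c | FinC τ₁ τ₂ D n c}.Finite := by
  have h1 : {x | x ∈ sts τ₁}.Finite := List.finite_toSet _
  have h2 : {x | x ∈ sts τ₂}.Finite := List.finite_toSet _
  have h3 : {x | x ∈ sts D}.Finite := List.finite_toSet _
  have hb := buf_finite_c D n
  refine (h1.prod (h2.prod (h3.prod (hb.prod hb)))).subset ?_
  rintro c ⟨a1, a2, a3, a4, a5⟩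
  exact ⟨a1, a2, a3, a4, a5⟩

theorem buf_mono_c {D : NTA} {m n : ℕ} (h : m ≤ n) {b : List Sym} (hb : Buf D m b) : Buf D n b :=
  ⟨hb.1.trans h, hb.2⟩

theorem buf_tail_c {D : NTA} {n : ℕ} {b : List Sym} (hb : Buf D n b) : Buf D n b.tail :=
  ⟨(by simpa using (Nat.sub_le _ _).trans hb.1), fun x hx => hb.2 x (List.mem_of_mem_tail hx)⟩

theorem buf_snoc_c {D : NTA} {n : ℕ} {b : List Sym} {x : Sym} (hb : Buf D n b)
    (hx : x ∈ D.2.2.map (fun e => e.2.2.1)) : Buf D (n + 1) (b ++ [x]) := by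
  refine ⟨by simpa using hb.1, fun y hy => ?_⟩
  rcases List.mem_append.1 hy with hy | hy
  · exact hb.2 y hy
  · rw [List.mem_singleton.1 hy]
    exact hx

theorem buf_nil_c (D : NTA) (n : ℕ) : Buf D n [] := ⟨Nat.zero_le _, by simp⟩

theorem head_tail_c {b : List Sym} {x : Sym} (h : b.head? = some x) : b = x :: b.tail := by
  cases b with
  | nil => simp at h
  | cons y l =>
    simp only [List.head?_cons, Option.some.injEq] at h
    rw [h, List.tail_cons]

theorem closed2_c {τ₁ τ₂ D : NTA} {n : ℕ} {N : List Cfg}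
    (hN : ∀ c, c ∈ N ↔ FinC τ₁ τ₂ D n c ∧ ¬ Hope τ₁ τ₂ D c) (c : Cfg) (hc : c ∈ N) :
    Closed2 τ₁ τ₂ D N c := by
  obtain ⟨⟨f1, f2, f3, f4, f5⟩, hn⟩ := (hN c).1 hc
  obtain ⟨c1, c2, sg, b1, b2⟩ := c
  dsimp only at f1 f2 f3 f4 f5
  refine ⟨?_, ?_, ?_, ?_, ?_, ?_⟩
  · rintro ⟨es, et, ea, er⟩ he h1 h2
    dsimp only at h1 h2 ⊢
    subst h1
    refine (hN _).2 ⟨⟨tgt_mem_c he, f2, f3, f4, f5⟩, ?_⟩
    rintro ⟨U, V, R, a1, a2, a3⟩
    rcases h2 with h2 | h2 <;> subst h2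
    · exact hn ⟨U, V, R, Run.eps he a1, a2, a3⟩
    · exact hn ⟨_, V, R, Run.left he a1, a2, a3⟩
  · rintro ⟨es, et, ea, er⟩ he h1 h2
    dsimp only at h1 h2 ⊢
    subst h1
    refine (hN _).2 ⟨⟨f1, tgt_mem_c he, f3, f4, f5⟩, ?_⟩
    rintro ⟨U, V, R, a1, a2, a3⟩
    rcases h2 with h2 | h2 <;> subst h2
    · exact hn ⟨U, V, R, a1, Run.eps he a2, a3⟩
    · exact hn ⟨U, _, R, a1, Run.right he a2, a3⟩
  · rintro ⟨es, et, ea, er⟩ he h1 h2 h3
    dsimp only at h1 h2 h3 ⊢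
    subst h1
    subst h2
    refine (hN _).2 ⟨⟨tgt_mem_c he, f2, f3, f4, buf_tail_c f5⟩, ?_⟩
    rintro ⟨U, V, R, a1, a2, a3⟩
    dsimp only at a1 a2 a3
    refine hn ⟨U, V, R, ?_, a2, a3⟩
    dsimp only
    rw [head_tail_c h3]
    exact Run.right he a1
  · rintro ⟨es, et, ea, er⟩ he h1 h2 h3
    dsimp only at h1 h2 h3 ⊢
    subst h1
    subst h2
    refine (hN _).2 ⟨⟨f1, tgt_mem_c he, f3, buf_tail_c f4, f5⟩, ?_⟩
    rintro ⟨U, V, R, a1, a2, a3⟩
    dsimp only at a1 a2 a3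
    refine hn ⟨U, V, R, a1, ?_, a3⟩
    dsimp only
    rw [head_tail_c h3]
    exact Run.left he a2
  · intro hb1 hb2
    rintro ⟨es, et, ea, er⟩ he h1 h2 ⟨es', et', ea', er'⟩ he' h1' h2' h3'
      ⟨gs, gt, ga, gr⟩ hg hg1 hg2 hg3
    dsimp only at hb1 hb2 h1 h2 h1' h2' h3' hg1 hg2 hg3 ⊢
    subst hb1 hb2 h1 h2 h1' h2' h3' hg1 hg2 hg3
    refine (hN _).2 ⟨⟨tgt_mem_c he, tgt_mem_c he', tgt_mem_c hg, buf_nil_c _ _, buf_nil_c _ _⟩, ?_⟩
    rintro ⟨U, V, R, a1, a2, a3⟩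
    dsimp only at a1 a2 a3
    exact hn ⟨U, V, _ :: R, Run.right he a1, Run.left he' a2, Run.left hg a3⟩
  · rintro ⟨h1, h2, h3, h4, h5⟩
    dsimp only at h1 h2 h3 h4 h5
    subst h1 h2 h3 h4 h5
    exact hn ⟨[], [], [], Run.nil _, Run.nil _, Run.nil _⟩

theorem reach_finC_c {τ₁ τ₂ D : NTA} {M : AAut} {s : ℕ} {c : Cfg} {K : ℕ}
    (h : Reach τ₁ τ₂ D M s c) (h1 : c.2.2.2.1.length ≤ K) (h2 : c.2.2.2.2.length ≤ K) :
    s ∈ stM M ∧ FinC τ₁ τ₂ D K c := by
  obtain ⟨-, U, V, W1, W2, a1, a2, a3, a4, a5⟩ := h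
  refine ⟨arun_stM_c a1 (List.mem_cons_self ..), run_sts_c a2 (List.mem_cons_self ..),
    run_sts_c a3 (List.mem_cons_self ..), run_sts_c a5 (List.mem_cons_self ..), ⟨h1, ?_⟩, ⟨h2, ?_⟩⟩
  · intro x hx
    apply run_letters_c a5
    rw [a4]
    exact List.mem_append_right _ hx
  · intro x hx
    apply run_letters_c a5
    exact List.mem_append_right _ hx

theorem bound_c {G : Type*} [Group G] (π : ℕ → G) {n : ℕ} {τ₁ τ₂ D : NTA} {M : AAut}
    (hM : AWF n M) (g₁ g₂ g : G)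
    (r1 : ∀ U V, Rel τ₁ U V → sval π U * g₁ = sval π V)
    (r2 : ∀ U V, Rel τ₂ U V → sval π U * g₂ = sval π V)
    (rM : ∀ U V, Acc M M.1 U V → sval π U * g = sval π V)
    (hD1 : ∀ e ∈ D.2.2, e.2.1 = 1) (dep : Dep π D)
    (hinc : ∀ U W V, Rel τ₁ U W → Rel τ₂ W V → Rel D W [] → Acc M M.1 U V) :
    ∃ K : ℕ, ∀ s c, Reach τ₁ τ₂ D M s c → Hope τ₁ τ₂ D c →
      c.2.2.2.1.length ≤ K ∧ c.2.2.2.2.length ≤ K := by
  obtain ⟨l1, hl1⟩ := label_c π g₁ r1
  obtain ⟨l2, hl2⟩ := label_c π g₂ r2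
  obtain ⟨lM, hlM⟩ := labelM_c π g rM
  have f1 : {x | x ∈ sts τ₁}.Finite := List.finite_toSet _
  have f2 : {x | x ∈ sts τ₂}.Finite := List.finite_toSet _
  have fM : {x | x ∈ stM M}.Finite := List.finite_toSet _
  set P : Set (ℕ × ℕ × ℕ) := {x | x ∈ sts τ₁} ×ˢ ({x | x ∈ sts τ₂} ×ˢ {x | x ∈ stM M}) with hP
  have fP : P.Finite := f1.prod (f2.prod fM)
  obtain ⟨K, hK⟩ := dep ((fun q : ℕ × ℕ × ℕ => l2 q.2.1 * (lM q.2.2)⁻¹ * l1 q.1) '' P ∪
    (fun q : ℕ × ℕ × ℕ => (l1 q.1)⁻¹ * lM q.2.2 * (l2 q.2.1)⁻¹) '' P)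
    ((fP.image _).union (fP.image _))
  refine ⟨K, fun s c hr hh => ?_⟩
  obtain ⟨hb, U, V, W1, W2, a1, a2, a3, a4, a5⟩ := hr
  obtain ⟨U', V', R, d1, d2, d3⟩ := hh
  have hacc : Acc M s U' V' := by
    apply acc_det_c hM a1
    refine hinc _ (W1 ++ (c.2.2.2.2 ++ R)) _ (run_append_c a2 d1) ?_ ?_
    · have := run_append_c a3 d2
      rw [← List.append_assoc, ← a4, List.append_assoc] at this
      exact this
    · have := run_append_c a5 d3
      rw [List.append_assoc] at this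
      exact this
  have e1 := hl1 _ _ _ _ _ a2 d1
  have e2 := hl2 _ _ _ _ _ a3 d2
  have e3 := hlM _ _ _ _ _ a1 hacc
  have hmem : (c.1, c.2.1, s) ∈ P :=
    ⟨run_sts_c a2 (List.mem_cons_self ..), run_sts_c a3 (List.mem_cons_self ..),
      arun_stM_c a1 (List.mem_cons_self ..)⟩
  have e4 : sval π W1 * sval π c.2.2.2.2 = sval π W2 * sval π c.2.2.2.1 := by
    rw [← sval_append_c, ← sval_append_c, a4]
  have e2' : sval π W2 = sval π V * (l2 c.2.1)⁻¹ := by
    rw [← e2, mul_inv_cancel_right]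
  rcases hb with hb | hb
  · -- the buffer `b1` is empty
    refine ⟨by rw [hb]; exact Nat.zero_le _, ?_⟩
    obtain ⟨m, m1, m2⟩ := run_split_c hD1 W1 a5
    refine hK _ _ _ _ _ m1 m2 d3 (Or.inr ⟨_, hmem, ?_⟩)
    dsimp only
    rw [hb] at e4
    have : sval π c.2.2.2.2 = (sval π W1)⁻¹ * sval π W2 := by
      rw [eq_inv_mul_iff_mul_eq, e4]
      simp [sval]
    rw [this, e2', ← e1, ← e3]
    group
  · refine ⟨?_, by rw [hb]; exact Nat.zero_le _⟩
    rw [a4] at a5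
    obtain ⟨m, m1, m2⟩ := run_split_c hD1 W2 a5
    refine hK _ _ _ _ _ m1 m2 d3 (Or.inl ⟨_, hmem, ?_⟩)
    dsimp only
    rw [hb] at e4
    have : sval π c.2.2.2.1 = (sval π W2)⁻¹ * sval π W1 := by
      rw [eq_inv_mul_iff_mul_eq, ← e4]
      simp [sval]
    rw [this, e2', ← e1, ← e3]
    group

theorem closed1_c {n : ℕ} {τ₁ τ₂ D : NTA} {M : AAut} (hM : AWF n M)
    (hD1 : ∀ e ∈ D.2.2, e.2.1 = 1)
    (hinc : ∀ U W V, Rel τ₁ U W → Rel τ₂ W V → Rel D W [] → Acc M M.1 U V)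
    {K : ℕ} {I : List (ℕ × Cfg)} {N : List Cfg}
    (hN : ∀ c, c ∈ N ↔ FinC τ₁ τ₂ D (K + 1) c ∧ ¬ Hope τ₁ τ₂ D c)
    (hI : ∀ p : ℕ × Cfg, Reach τ₁ τ₂ D M p.1 p.2 → Hope τ₁ τ₂ D p.2 → p ∈ I)
    (s : ℕ) (c : Cfg) (hr : Reach τ₁ τ₂ D M s c)
    (h1 : c.2.2.2.1.length ≤ K) (h2 : c.2.2.2.2.length ≤ K) :
    Closed1 τ₁ τ₂ D M I N s c := by
  have hf := (reach_finC_c hr h1 h2).2
  obtain ⟨hb, U, V, W1, W2, a1, a2, a3, a4, a5⟩ := hr
  obtain ⟨f1, f2, f3, f4, f5⟩ := hf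
  obtain ⟨c1, c2, sg, b1, b2⟩ := c
  dsimp only at hb a2 a3 a4 a5 f1 f2 f3 f4 f5 h1 h2
  have hok : ∀ c', Reach τ₁ τ₂ D M s c' → FinC τ₁ τ₂ D (K + 1) c' → Ok I N s c' := by
    intro c' h3 h4
    by_cases h5 : Hope τ₁ τ₂ D c'
    · exact Or.inl (hI (s, c') h3 h5)
    · exact Or.inr ((hN c').2 ⟨h4, h5⟩)
  have f4' := buf_mono_c (Nat.le_succ K) f4
  have f5' := buf_mono_c (Nat.le_succ K) f5
  refine ⟨?_, ?_, ?_, ?_, ?_, ?_, ?_, ?_⟩
  · rintro ⟨es, et, ea, er⟩ he e1 e2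
    dsimp only at e1 e2 ⊢
    subst e1 e2
    refine hok _ ⟨hb, U, V, W1, W2, a1, ?_, a3, a4, a5⟩ ⟨tgt_mem_c he, f2, f3, f4', f5'⟩
    have := run_append_c a2 (Run.eps he (Run.nil _))
    rw [List.append_nil, List.append_nil] at this
    exact this
  · rintro ⟨es, et, ea, er⟩ he e1 e2
    dsimp only at e1 e2 ⊢
    subst e1 e2
    refine hok _ ⟨hb, U, V, W1, W2, a1, a2, ?_, a4, a5⟩ ⟨f1, tgt_mem_c he, f3, f4', f5'⟩
    have := run_append_c a3 (Run.eps he (Run.nil _))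
    rw [List.append_nil, List.append_nil] at this
    exact this
  · rintro ⟨es, et, ea, er⟩ he e1 e2 e3
    dsimp only at e1 e2 e3 ⊢
    subst e1 e2
    have h3 := head_tail_c e3
    refine hok _ ⟨?_, U, V, W1 ++ [ea], W2, a1, ?_, a3, ?_, ?_⟩
      ⟨tgt_mem_c he, f2, f3, f4', buf_tail_c f5'⟩
    · rcases hb with hb | hb
      · exact Or.inl hb
      · right
        dsimp only
        rw [hb, List.tail_nil]
    · have := run_append_c a2 (Run.right he (Run.nil _))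
      rw [List.append_nil] at this
      exact this
    · dsimp only
      rw [List.append_assoc, List.singleton_append, ← h3]
      exact a4
    · dsimp only
      rw [List.append_assoc, List.singleton_append, ← h3]
      exact a5
  · rintro ⟨es, et, ea, er⟩ he e1 e2 e3
    dsimp only at e1 e2 e3 ⊢
    subst e1 e2
    have h3 := head_tail_c e3
    refine hok _ ⟨?_, U, V, W1, W2 ++ [ea], a1, a2, ?_, ?_, a5⟩
      ⟨f1, tgt_mem_c he, f3, buf_tail_c f4', f5'⟩
    · rcases hb with hb | hb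
      · left
        dsimp only
        rw [hb, List.tail_nil]
      · exact Or.inr hb
    · have := run_append_c a3 (Run.left he (Run.nil _))
      rw [List.append_nil] at this
      exact this
    · dsimp only
      rw [List.append_assoc, List.singleton_append, ← h3]
      exact a4
  · intro hb2
    rintro ⟨es, et, ea, er⟩ he e1 e2 ⟨gs, gt, ga, gr⟩ hg e3 e4 e5
    dsimp only at hb2 e1 e2 e3 e4 e5 ⊢
    subst hb2 e1 e2 e3 e4 e5
    rw [List.append_nil] at a4 a5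
    refine hok _ ⟨Or.inr rfl, U, V, W1 ++ [ga], W2, a1, ?_, a3, ?_, ?_⟩
      ⟨tgt_mem_c he, f2, tgt_mem_c hg, buf_snoc_c f4 (List.mem_map.2 ⟨_, hg, rfl⟩),
        buf_nil_c _ _⟩
    · have := run_append_c a2 (Run.right he (Run.nil _))
      rw [List.append_nil] at this
      exact this
    · dsimp only
      rw [List.append_nil, a4, List.append_assoc]
    · dsimp only
      rw [List.append_nil]
      have := run_append_c a5 (Run.left hg (Run.nil _))
      rw [List.append_nil] at this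
      exact this
  · intro hb1
    rintro ⟨es, et, ea, er⟩ he e1 e2 ⟨gs, gt, ga, gr⟩ hg e3 e4 e5
    dsimp only at hb1 e1 e2 e3 e4 e5 ⊢
    subst hb1 e1 e2 e3 e4 e5
    rw [List.append_nil] at a4
    refine hok _ ⟨Or.inl rfl, U, V, W1, W2 ++ [ga], a1, a2, ?_, ?_, ?_⟩
      ⟨f1, tgt_mem_c he, tgt_mem_c hg, buf_nil_c _ _,
        buf_snoc_c f5 (List.mem_map.2 ⟨_, hg, rfl⟩)⟩
    · have := run_append_c a3 (Run.left he (Run.nil _))
      rw [List.append_nil] at this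
      exact this
    · dsimp only
      rw [List.append_nil, ← a4, List.append_assoc]
    · dsimp only
      rw [← List.append_assoc]
      have := run_append_c a5 (Run.left hg (Run.nil _))
      rw [List.append_nil] at this
      exact this
  · intro hs
    rintro ⟨es, et, ea, er⟩ he e1 e2
    dsimp only at e1 e2 ⊢
    subst e1 e2
    by_cases h5 : Hope τ₁ τ₂ D (er, c2, sg, b1, b2)
    · left
      obtain ⟨U', V', R, d1, d2, d3⟩ := h5
      dsimp only at d1 d2 d3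
      have hacc : Acc M s (ea :: U') V' := by
        apply acc_det_c hM a1
        refine hinc _ (W1 ++ (b2 ++ R)) _ (run_append_c a2 (Run.left he d1)) ?_ ?_
        · have := run_append_c a3 d2
          rw [← List.append_assoc, ← a4, List.append_assoc] at this
          exact this
        · have := run_append_c a5 d3
          rw [List.append_assoc] at this
          exact this
      obtain ⟨a', t', U2, q1, q2, q3⟩ := acc_inv_left_c hs hacc
      injection q1 with q4 q5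
      subst q4
      refine ⟨_, q2, rfl, rfl, hI _ ⟨hb, U ++ [ea], V, W1, W2, ?_, ?_, a3, a4, a5⟩
        ⟨U', V', R, d1, d2, d3⟩⟩
      · have := arun_append_c a1 (ARun.left hs q2 (ARun.nil _))
        rw [List.append_nil] at this
        exact this
      · have := run_append_c a2 (Run.left he (Run.nil _))
        rw [List.append_nil] at this
        exact this
    · exact Or.inr ((hN _).2 ⟨⟨tgt_mem_c he, f2, f3, f4', f5'⟩, h5⟩)
  · intro hs
    rintro ⟨es, et, ea, er⟩ he e1 e2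
    dsimp only at e1 e2 ⊢
    subst e1 e2
    by_cases h5 : Hope τ₁ τ₂ D (c1, er, sg, b1, b2)
    · left
      obtain ⟨U', V', R, d1, d2, d3⟩ := h5
      dsimp only at d1 d2 d3
      have hacc : Acc M s U' (ea :: V') := by
        apply acc_det_c hM a1
        refine hinc _ (W1 ++ (b2 ++ R)) _ (run_append_c a2 d1) ?_ ?_
        · have := run_append_c a3 (Run.right he d2)
          rw [← List.append_assoc, ← a4, List.append_assoc] at this
          exact this
        · have := run_append_c a5 d3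
          rw [List.append_assoc] at this
          exact this
      obtain ⟨a', t', V2, q1, q2, q3⟩ := acc_inv_right_c hs hacc
      injection q1 with q4 q5
      subst q4
      refine ⟨_, q2, rfl, rfl, hI _ ⟨hb, U, V ++ [ea], W1, W2, ?_, a2, ?_, a4, a5⟩
        ⟨U', V', R, d1, d2, d3⟩⟩
      · have := arun_append_c a1 (ARun.right hs q2 (ARun.nil _))
        rw [List.append_nil] at this
        exact this
      · have := run_append_c a3 (Run.right he (Run.nil _))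
        rw [List.append_nil] at this
        exact this
    · exact Or.inr ((hN _).2 ⟨⟨f1, tgt_mem_c he, f3, f4', f5'⟩, h5⟩)

/-- JOB C. Completeness of the inclusion check. -/
theorem check_complete {G : Type*} [Group G] (π : ℕ → G) {n : ℕ} {τ₁ τ₂ D : NTA} {M : AAut}
    (hM : AWF n M) (g₁ g₂ g : G)
    (r1 : ∀ U V, Rel τ₁ U V → sval π U * g₁ = sval π V)
    (r2 : ∀ U V, Rel τ₂ U V → sval π U * g₂ = sval π V)
    (rM : ∀ U V, Acc M M.1 U V → sval π U * g = sval π V)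
    (hD1 : ∀ e ∈ D.2.2, e.2.1 = 1) (dep : Dep π D)
    (hinc : ∀ U W V, Rel τ₁ U W → Rel τ₂ W V → Rel D W [] → Acc M M.1 U V) :
    CheckOK τ₁ τ₂ D M := by
  obtain ⟨K, hK⟩ := bound_c π hM g₁ g₂ g r1 r2 rM hD1 dep hinc
  have fN : {c | FinC τ₁ τ₂ D (K + 1) c ∧ ¬ Hope τ₁ τ₂ D c}.Finite :=
    (finC_finite_c τ₁ τ₂ D (K + 1)).subset fun c hc => hc.1
  have fM : {x | x ∈ stM M}.Finite := List.finite_toSet _
  set start : Cfg := (τ₁.1, τ₂.1, D.1, [], []) with hstart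
  have hstartR : Reach τ₁ τ₂ D M M.1 start :=
    ⟨Or.inl rfl, [], [], [], [], ARun.nil _, Run.nil _, Run.nil _, rfl, Run.nil _⟩
  have hlen : ∀ p : ℕ × Cfg, (Hope τ₁ τ₂ D p.2 ∨ p.2 = start) → Reach τ₁ τ₂ D M p.1 p.2 →
      p.2.2.2.2.1.length ≤ K ∧ p.2.2.2.2.2.length ≤ K := by
    rintro p (h | h) hp
    · exact hK _ _ hp h
    · rw [h, hstart]
      exact ⟨Nat.zero_le _, Nat.zero_le _⟩
  have fI : {p : ℕ × Cfg | Reach τ₁ τ₂ D M p.1 p.2 ∧
      (Hope τ₁ τ₂ D p.2 ∨ p.2 = start)}.Finite := by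
    refine (fM.prod (finC_finite_c τ₁ τ₂ D K)).subset ?_
    rintro p ⟨h1, h2⟩
    have h3 := hlen p h2 h1
    exact reach_finC_c h1 h3.1 h3.2
  refine ⟨fI.toFinset.toList, fN.toFinset.toList, ?_, ?_, ?_⟩
  · rw [Finset.mem_toList, Set.Finite.mem_toFinset]
    exact ⟨hstartR, Or.inr rfl⟩
  · intro c hc
    refine closed2_c (n := K + 1) (fun c => ?_) c hc
    rw [Finset.mem_toList, Set.Finite.mem_toFinset]
    exact Iff.rfl
  · intro p hp
    rw [Finset.mem_toList, Set.Finite.mem_toFinset] at hp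
    have h3 := hlen p hp.2 hp.1
    refine closed1_c hM hD1 hinc (K := K) (fun c => ?_) (fun p h1 h2 => ?_) p.1 p.2 hp.1 h3.1 h3.2
    · rw [Finset.mem_toList, Set.Finite.mem_toFinset]
      exact Iff.rfl
    · rw [Finset.mem_toList, Set.Finite.mem_toFinset]
      exact ⟨h1, Or.inl h2⟩

end Pool.Agent.Helper632.AAR
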