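import Pool.Agent.Helper632.AAR.NTA
import Pool.Agent.Helper632.AAR.Lib

namespace Pool.Agent.Helper632.AAR


/-- Partial runs of an asynchronous automaton. -/
inductive ARunE (M : AAut) : ℕ → List Sym → List Sym → ℕ → Prop
  | nil (s : ℕ) : ARunE M s [] [] s
  | left {s t r : ℕ} {a : Sym} {U V : List Sym} : readsL M s → (s, a, t) ∈ M.2.2 →
      ARunE M t U V r → ARunE M s (a :: U) V r
  | right {s t r : ℕ} {a : Sym} {U V : List Sym} : readsR M s → (s, a, t) ∈ M.2.2 →
      ARunE M t U V r → ARunE M s U (a :: V) r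

theorem Acc.split {M : AAut} {s : ℕ} {U V : List Sym} (h : Acc M s U V) :
    ∀ U1 U2, U = U1 ++ U2 → ∃ V1 V2 t, V = V1 ++ V2 ∧ ARunE M s U1 V1 t ∧ Acc M t U2 V2 := by
  induction h with
  | @done s hk =>
    intro U1 U2 hU
    obtain ⟨rfl, rfl⟩ := List.append_eq_nil_iff.mp hU.symm
    exact ⟨[], [], s, rfl, ARunE.nil s, Acc.done hk⟩
  | @left s t a U V hs he hA ih =>
    intro U1 U2 hU
    cases U1 with
    | nil =>
      refine ⟨[], V, s, rfl, ARunE.nil s, ?_⟩
      rw [List.nil_append] at hU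
      rw [← hU]
      exact Acc.left hs he hA
    | cons b U1 =>
      rw [List.cons_append] at hU
      obtain ⟨rfl, hU'⟩ := List.cons_eq_cons.mp hU
      obtain ⟨V1, V2, t', hV, h1, h2⟩ := ih U1 U2 hU'
      exact ⟨V1, V2, t', hV, ARunE.left hs he h1, h2⟩
  | @right s t a U V hs he hA ih =>
    intro U1 U2 hU
    obtain ⟨V1, V2, t', hV, h1, h2⟩ := ih U1 U2 hU
    exact ⟨a :: V1, V2, t', by rw [hV, List.cons_append], ARunE.right hs he h1, h2⟩

theorem ARunE.join {M : AAut} {s t : ℕ} {U1 V1 : List Sym} (h : ARunE M s U1 V1 t) :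
    ∀ {U2 V2 : List Sym}, Acc M t U2 V2 → Acc M s (U1 ++ U2) (V1 ++ V2) := by
  induction h with
  | nil s => intro U2 V2 h2; exact h2
  | left hs he _ ih => intro U2 V2 h2; exact Acc.left hs he (ih h2)
  | right hs he _ ih => intro U2 V2 h2; exact Acc.right hs he (ih h2)

theorem ARunE.target {M : AAut} {s t : ℕ} {U V : List Sym} (h : ARunE M s U V t) :
    t = s ∨ ∃ e ∈ M.2.2, e.2.2 = t := by
  induction h with
  | nil s => exact Or.inl rfl
  | left hs he _ ih =>
    rcases ih with rfl | ih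
    · exact Or.inr ⟨_, he, rfl⟩
    · exact Or.inr ih
  | right hs he _ ih =>
    rcases ih with rfl | ih
    · exact Or.inr ⟨_, he, rfl⟩
    · exact Or.inr ih

theorem FPath.target {W : FAut} {s t : ℕ} {u : List ℕ} (h : FPath W s u t) :
    t = s ∨ ∃ e ∈ W.2.2, e.2.2 = t := by
  induction h with
  | nil s => exact Or.inl rfl
  | cons he _ ih =>
    rcases ih with rfl | ih
    · exact Or.inr ⟨_, he, rfl⟩
    · exact Or.inr ih

theorem FPath.append {W : FAut} {s t : ℕ} {u : List ℕ} (h : FPath W s u t) :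
    ∀ {v : List ℕ} {r : ℕ}, FPath W t v r → FPath W s (u ++ v) r := by
  induction h with
  | nil s => intro v r h2; exact h2
  | cons he _ ih => intro v r h2; exact FPath.cons he (ih h2)

theorem val_append' {G : Type*} [Monoid G] (π : ℕ → G) (u v : List ℕ) :
    val π (u ++ v) = val π u * val π v := by
  simp [val]

theorem em_split (a b : List ℕ) : em (a ++ b) = a.map some ++ em b := by
  simp [em]

/-- JOB F1. -/
theorem exc_finite {G : Type*} [Group G] (π : ℕ → G) (d : Data) (hd : DWF d)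
    (hs : IsStructure G π d) (B : Set G) (hB : B.Finite) : (Exc π d.2.1 B).Finite := by
  classical
  set W := d.2.1 with hW
  set M := mult d none with hM
  set S : Set ℕ := insert W.1 ((fun e : ℕ × ℕ × ℕ => e.2.2) '' {e | e ∈ W.2.2}) with hS
  have hSf : S.Finite := ((List.finite_toSet W.2.2).image _).insert _
  set SM : Set ℕ := insert M.1 ((fun e : ℕ × Sym × ℕ => e.2.2) '' {e | e ∈ M.2.2}) with hSM
  have hSMf : SM.Finite := ((List.finite_toSet M.2.2).image _).insert _
  have hmult : ∀ u v : List ℕ, ALang M u v ↔ u ∈ FLang W ∧ v ∈ FLang W ∧ val π u = val π v := by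
    intro u v
    have := hs.mult none trivial u v
    rw [this]
    simp only [AAR.gen, mul_one]
    exact Iff.rfl
  let Q : ℕ → ℕ → G → (List ℕ × List ℕ × List ℕ) → Prop := fun s t h x =>
    FPath W W.1 x.1 s ∧ FPath W s x.2.1 t ∧ val π x.2.1 = h ∧ ∃ f ∈ W.2.1, FPath W t x.2.2 f
  let X : ℕ → ℕ → G → (List ℕ × List ℕ × List ℕ) := fun s t h =>
    if e : ∃ x, Q s t h x then Classical.choose e else ([], [], [])
  let v : ℕ → ℕ → G → List ℕ := fun s t h => (X s t h).1 ++ (X s t h).2.1 ++ (X s t h).2.2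
  have hX : ∀ s t h, (∃ x, Q s t h x) → Q s t h (X s t h) := by
    intro s t h e
    simp only [X, dif_pos e]
    exact Classical.choose_spec e
  let Z : ℕ → ℕ → G → ℕ → ℕ → Set G := fun s t h k m =>
    {g | (∃ x, Q s t h x) ∧ ∃ q1 q2, FPath W s (q1 ++ q2) t ∧ val π (q1 ++ q2) = h ∧
      val π q1 = g ∧ ARunE M M.1 (((X s t h).1 ++ q1).map some) ((em (v s t h)).take k) m ∧
      Acc M m (em (q2 ++ (X s t h).2.2)) ((em (v s t h)).drop k)}
  have hZ : ∀ s t h k m, (Z s t h k m).Subsingleton := by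
    intro s t h k m
    rintro g ⟨_, q1, q2, h1, h2, h3, h4, h5⟩ g' ⟨_, q1', q2', h1', h2', h3', h4', h5'⟩
    have hj := h4.join h5'
    have hj' := h4'.join h5'
    rw [List.take_append_drop, ← em_split] at hj hj'
    have e1 := ((hmult _ _).mp hj).2.2
    have e2 := ((hmult _ _).mp hj').2.2
    have e3 := e1.trans e2.symm
    simp only [val_append'] at e3
    rw [← h3, ← h3']
    exact mul_left_cancel (mul_right_cancel e3)
  have hfin : (⋃ s ∈ S, ⋃ t ∈ S, ⋃ h ∈ B, ⋃ k ∈ Set.Iic ((em (v s t h)).length), ⋃ m ∈ SM,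
      Z s t h k m).Finite :=
    hSf.biUnion fun s _ => hSf.biUnion fun t _ => hB.biUnion fun h _ =>
      (Set.finite_Iic _).biUnion fun k _ => hSMf.biUnion fun m _ => (hZ s t h k m).finite
  refine hfin.subset ?_
  rintro g ⟨s, m, t, q1, q2, ⟨p, hp⟩, h1, h2, ⟨r, f, hf, hr⟩, hB', hg⟩
  have h12 : FPath W s (q1 ++ q2) t := h1.append h2
  have hsS : s ∈ S := by
    rcases hp.target with h | ⟨e, he, h⟩
    · exact Or.inl h
    · exact Or.inr ⟨e, he, h⟩
  have htS : t ∈ S := by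
    rcases (hp.append h12).target with h | ⟨e, he, h⟩
    · exact Or.inl h
    · exact Or.inr ⟨e, he, h⟩
  have e : ∃ x, Q s t (val π (q1 ++ q2)) x := ⟨(p, q1 ++ q2, r), hp, h12, rfl, f, hf, hr⟩
  obtain ⟨a1, a2, a3, f', hf', a4⟩ := hX _ _ _ e
  set x0 := X s t (val π (q1 ++ q2)) with hx0
  have hA : ALang M ((x0.1 ++ q1) ++ (q2 ++ x0.2.2)) (v s t (val π (q1 ++ q2))) := by
    rw [hmult]
    refine ⟨⟨f', hf', ?_⟩, ⟨f', hf', ?_⟩, ?_⟩
    · have := a1.append (h12.append a4)
      simpa [List.append_assoc] using this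
    · exact (a1.append a2).append a4
    · show _ = val π (x0.1 ++ x0.2.1 ++ x0.2.2)
      rw [val_append' π (x0.1 ++ x0.2.1), val_append' π x0.1 x0.2.1, a3]
      simp only [val_append', mul_assoc]
  unfold ALang at hA
  rw [em_split] at hA
  obtain ⟨V1, V2, m', hV, hr1, hr2⟩ := hA.split _ _ rfl
  have hm' : m' ∈ SM := by
    rcases hr1.target with h | ⟨e, he, h⟩
    · exact Or.inl h
    · exact Or.inr ⟨e, he, h⟩
  have hk : V1.length ≤ (em (v s t (val π (q1 ++ q2)))).length := by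
    rw [hV, List.length_append]; omega
  refine Set.mem_iUnion₂.mpr ⟨s, hsS, Set.mem_iUnion₂.mpr ⟨t, htS, Set.mem_iUnion₂.mpr
    ⟨val π (q1 ++ q2), hB', Set.mem_iUnion₂.mpr ⟨V1.length, hk, Set.mem_iUnion₂.mpr
      ⟨m', hm', e, q1, q2, h12, rfl, hg, ?_, ?_⟩⟩⟩⟩⟩
  · rw [hV, List.take_left]
    exact hr1
  · rw [hV, List.drop_left]
    exact hr2

end Pool.Agent.Helper632.AAR
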