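import Pool.Agent.Helper632.AAR.NTA

namespace Pool.Agent.Helper632.AAR

theorem jobD_trans {T : List Arr} {s t r : ℕ} {U V U' V' : List Sym} (h : Run T s U V t)
    (h' : Run T t U' V' r) : Run T s (U ++ U') (V ++ V') r := by
  induction h with
  | nil s => exact h'
  | eps he _ ih => exact Run.eps he (ih h')
  | left he _ ih => exact Run.left he (ih h')
  | right he _ ih => exact Run.right he (ih h')

theorem jobD_reach {T : List Arr} {s t : ℕ} {U V : List Sym} (h : Run T s U V t) :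
    t = s ∨ t ∈ T.map (fun e => e.2.2.2) := by
  induction h with
  | nil s => exact Or.inl rfl
  | eps he _ ih =>
    rcases ih with ih | ih
    · right; rw [ih]; exact List.mem_map.2 ⟨_, he, rfl⟩
    · exact Or.inr ih
  | left he _ ih =>
    rcases ih with ih | ih
    · right; rw [ih]; exact List.mem_map.2 ⟨_, he, rfl⟩
    · exact Or.inr ih
  | right he _ ih =>
    rcases ih with ih | ih
    · right; rw [ih]; exact List.mem_map.2 ⟨_, he, rfl⟩
    · exact Or.inr ih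

theorem jobD_mem_sts {τ : NTA} {t : ℕ} {U V : List Sym} (h : Run τ.2.2 τ.1 U V t) :
    t ∈ sts τ := by
  rcases jobD_reach h with h | h
  · rw [h]; simp [sts]
  · unfold sts
    exact List.mem_cons_of_mem _ (List.mem_cons_of_mem _ (List.mem_append.2 (Or.inr h)))

theorem jobD_split {T : List Arr} {s t : ℕ} {W V : List Sym} (h : Run T s W V t) :
    ∀ U U' : List Sym, W = U ++ U' → ∃ m V1 V2, Run T s U V1 m ∧ Run T m U' V2 t := by
  induction h with
  | nil s =>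
    intro U U' hW
    obtain ⟨h1, h2⟩ := List.append_eq_nil_iff.1 hW.symm
    subst h1; subst h2
    exact ⟨s, [], [], Run.nil s, Run.nil s⟩
  | eps he _ ih =>
    intro U U' hW
    obtain ⟨m, V1, V2, h1, h2⟩ := ih U U' hW
    exact ⟨m, V1, V2, Run.eps he h1, h2⟩
  | @left s t r b W V he hr ih =>
    intro U U' hW
    cases U with
    | nil =>
      rw [List.nil_append] at hW
      subst hW
      exact ⟨s, [], V, Run.nil s, Run.left he hr⟩
    | cons a U =>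
      rw [List.cons_append, List.cons.injEq] at hW
      obtain ⟨hb, hW⟩ := hW
      subst hb
      obtain ⟨m, V1, V2, h1, h2⟩ := ih U U' hW
      exact ⟨m, V1, V2, Run.left he h1, h2⟩
  | right he _ ih =>
    intro U U' hW
    obtain ⟨m, V1, V2, h1, h2⟩ := ih U U' hW
    exact ⟨m, _ :: V1, V2, Run.right he h1, h2⟩

theorem jobD_gen {τ₁ τ₂ : NTA} {L : List (ℕ × List ℕ)}
    (hL : ∀ p ∈ L, ∀ e ∈ τ₁.2.2, e.1 = p.1 →
      ((e.2.1 = 0 ∨ e.2.1 = 2) → (e.2.2.2, p.2) ∈ L) ∧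
      (e.2.1 = 1 → ∃ p' ∈ L, p'.1 = e.2.2.2 ∧
        ∀ s' ∈ p'.2, ∃ s ∈ p.2, ∃ V, Run τ₂.2.2 s [e.2.2.1] V s'))
    {s t : ℕ} {U V : List Sym} (h : Run τ₁.2.2 s U V t) :
    ∀ (S : List ℕ) (U0 : List Sym), (s, S) ∈ L → (∀ x ∈ S, ∃ V, Run τ₂.2.2 τ₂.1 U0 V x) →
      ∃ S', (t, S') ∈ L ∧ ∀ x ∈ S', ∃ V, Run τ₂.2.2 τ₂.1 (U0 ++ U) V x := by
  induction h with
  | nil s =>
    intro S U0 h1 h2
    exact ⟨S, h1, by simpa using h2⟩
  | eps he _ ih =>
    intro S U0 h1 h2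
    exact ih S U0 ((hL _ h1 _ he rfl).1 (Or.inl rfl)) h2
  | @left s t r b U V he hr ih =>
    intro S U0 h1 h2
    obtain ⟨⟨c, S'⟩, hp', hc, hS⟩ := (hL _ h1 _ he rfl).2 rfl
    have hc' : c = t := hc
    subst hc'
    obtain ⟨S'', h3, h4⟩ := ih S' (U0 ++ [b]) hp' (by
      intro x' hx'
      obtain ⟨x, hx, V', hV'⟩ := hS x' hx'
      obtain ⟨V0, hV0⟩ := h2 x hx
      exact ⟨V0 ++ V', jobD_trans hV0 hV'⟩)
    refine ⟨S'', h3, ?_⟩
    intro x hx
    obtain ⟨V', hV'⟩ := h4 x hx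
    refine ⟨V', ?_⟩
    simpa using hV'
  | right he _ ih =>
    intro S U0 h1 h2
    exact ih S U0 ((hL _ h1 _ he rfl).1 (Or.inr rfl)) h2

/-- JOB D, part 1. -/
theorem proj_sound {τ₁ τ₂ : NTA} (h : ProjIncl τ₁ τ₂) {U V : List Sym} (h1 : Rel τ₁ U V) :
    ∃ V', Rel τ₂ U V' := by
  obtain ⟨L, ⟨⟨c, S⟩, hp, hp1, hp2⟩, hL, hacc⟩ := h
  have hc : c = τ₁.1 := hp1
  subst hc
  obtain ⟨S', h3, h4⟩ := jobD_gen (τ₂ := τ₂) hL h1 S [] hp hp2
  obtain ⟨V', hV'⟩ := h4 _ (hacc _ h3 rfl)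
  exact ⟨V', by simpa [Rel] using hV'⟩

/-- JOB D, part 2. -/
theorem proj_complete {τ₁ τ₂ : NTA} (h : ∀ U V, Rel τ₁ U V → ∃ V', Rel τ₂ U V') :
    ProjIncl τ₁ τ₂ := by
  classical
  let S : List Sym → List ℕ := fun U =>
    (sts τ₂).filter (fun s => decide (∃ V, Run τ₂.2.2 τ₂.1 U V s))
  have hS : ∀ U s, s ∈ S U ↔ s ∈ sts τ₂ ∧ ∃ V, Run τ₂.2.2 τ₂.1 U V s := by
    intro U s
    simp only [S, List.mem_filter, decide_eq_true_eq]
  let L : List (ℕ × List ℕ) := ((sts τ₁).flatMap fun c => ((sts τ₂).sublists).map fun X =>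
    (c, X)).filter (fun p => decide (∃ U V, Run τ₁.2.2 τ₁.1 U V p.1 ∧ p.2 = S U))
  have hL : ∀ c X, (c, X) ∈ L ↔ ∃ U V, Run τ₁.2.2 τ₁.1 U V c ∧ X = S U := by
    intro c X
    simp only [L, List.mem_filter, decide_eq_true_eq, List.mem_flatMap, List.mem_map,
      Prod.mk.injEq]
    constructor
    · intro h1
      exact h1.2
    · rintro ⟨U, V, h1, h2⟩
      refine ⟨⟨c, jobD_mem_sts h1, X, ?_, rfl, rfl⟩, U, V, h1, h2⟩
      rw [h2, List.mem_sublists]
      exact List.filter_sublist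
  refine ⟨L, ⟨(τ₁.1, S []), (hL _ _).2 ⟨[], [], Run.nil _, rfl⟩, rfl, ?_⟩, ?_, ?_⟩
  · intro s hs
    exact ((hS _ _).1 hs).2
  · rintro ⟨c, X⟩ hp ⟨c', tag, b, t⟩ he hc
    have hc' : c' = c := hc
    subst hc'
    obtain ⟨U, V, h1, h2⟩ := (hL _ _).1 hp
    refine ⟨?_, ?_⟩
    · intro ht
      have ht' : tag = 0 ∨ tag = 2 := ht
      refine (hL _ _).2 ?_
      rcases ht' with ht' | ht'
      · subst ht'
        exact ⟨U, V, by simpa using jobD_trans h1 (Run.eps he (Run.nil t)), h2⟩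
      · subst ht'
        exact ⟨U, V ++ [b], by simpa using jobD_trans h1 (Run.right he (Run.nil t)), h2⟩
    · intro ht
      have ht' : tag = 1 := ht
      subst ht'
      refine ⟨(t, S (U ++ [b])), (hL _ _).2 ⟨U ++ [b], V, ?_, rfl⟩, rfl, ?_⟩
      · simpa using jobD_trans h1 (Run.left he (Run.nil t))
      · intro s' hs'
        obtain ⟨_, V', hV'⟩ := (hS _ _).1 hs'
        obtain ⟨m, V1, V2, h3, h4⟩ := jobD_split hV' U [b] rfl
        refine ⟨m, ?_, V2, h4⟩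
        show m ∈ X
        rw [h2]
        exact (hS _ _).2 ⟨jobD_mem_sts h3, V1, h3⟩
  · rintro ⟨c, X⟩ hp hc
    have hc' : c = τ₁.2.1 := hc
    subst hc'
    obtain ⟨U, V, h1, h2⟩ := (hL _ _).1 hp
    obtain ⟨V', hV'⟩ := h U V h1
    show τ₂.2.1 ∈ X
    rw [h2]
    exact (hS _ _).2 ⟨by simp [sts], V', hV'⟩

/-- JOB D, part 3. -/
theorem dead_sound {τ : NTA} {X : List ℕ} (h : DeadOK τ X) {s : ℕ} (hs : s ∈ X) (U V : List Sym) :
    ¬ Run τ.2.2 s U V τ.2.1 := by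
  have key : ∀ {s t : ℕ} {U V : List Sym}, Run τ.2.2 s U V t → s ∈ X → t ∈ X := by
    intro s t U V hr
    induction hr with
    | nil s => exact fun h => h
    | eps he _ ih => exact fun h' => ih (h.2 _ he h')
    | left he _ ih => exact fun h' => ih (h.2 _ he h')
    | right he _ ih => exact fun h' => ih (h.2 _ he h')
  exact fun hr => h.1 (key hr hs)

/-- JOB D, part 4, corrected: the arrows must have tags 0, 1, 2 (arrows with other tags are
ignored by `Run` but not by `DeadOK`). -/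
theorem dead_complete (τ : NTA) (htag : ∀ e ∈ τ.2.2, e.2.1 = 0 ∨ e.2.1 = 1 ∨ e.2.1 = 2) :
    ∃ X : List ℕ, DeadOK τ X ∧
    ∀ s, s ∈ τ.2.2.map (fun e => e.2.2.2) → s ∉ X → ∃ U V, Run τ.2.2 s U V τ.2.1 := by
  classical
  let X : List ℕ := (sts τ).filter (fun s => decide (¬ ∃ U V, Run τ.2.2 s U V τ.2.1))
  have hX : ∀ s, s ∈ X ↔ s ∈ sts τ ∧ ¬ ∃ U V, Run τ.2.2 s U V τ.2.1 := by
    intro s
    simp only [X, List.mem_filter, decide_eq_true_eq]
  have hsts : ∀ e ∈ τ.2.2, e.2.2.2 ∈ sts τ := by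
    intro e he
    unfold sts
    exact List.mem_cons_of_mem _ (List.mem_cons_of_mem _ (List.mem_append.2
      (Or.inr (List.mem_map.2 ⟨e, he, rfl⟩))))
  refine ⟨X, ⟨?_, ?_⟩, ?_⟩
  · intro h
    exact ((hX _).1 h).2 ⟨[], [], Run.nil _⟩
  · rintro ⟨c, tag, b, t⟩ he hc
    obtain ⟨_, hc2⟩ := (hX _).1 hc
    refine (hX _).2 ⟨hsts _ he, ?_⟩
    rintro ⟨U, V, hr⟩
    apply hc2
    have ht : tag = 0 ∨ tag = 1 ∨ tag = 2 := htag _ he
    rcases ht with ht | ht | ht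
    · subst ht
      exact ⟨U, V, Run.eps he hr⟩
    · subst ht
      exact ⟨b :: U, V, Run.left he hr⟩
    · subst ht
      exact ⟨U, b :: V, Run.right he hr⟩
  · intro s hs hsX
    by_contra hcon
    apply hsX
    refine (hX _).2 ⟨?_, hcon⟩
    obtain ⟨e, he, rfl⟩ := List.mem_map.1 hs
    exact hsts e he

/-- Part 4 as originally stated (without the hypothesis on the tags) is false. -/
theorem dead_complete_false : ¬ ∀ τ : NTA, ∃ X : List ℕ, DeadOK τ X ∧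
    ∀ s, s ∈ τ.2.2.map (fun e => e.2.2.2) → s ∉ X → ∃ U V, Run τ.2.2 s U V τ.2.1 := by
  intro h
  obtain ⟨X, ⟨h1, h2⟩, h3⟩ := h (0, 2, [(0, 0, none, 1), (1, 3, none, 2)])
  have h4 : (1 : ℕ) ∉ X := fun h5 => h1 (h2 (1, 3, none, 2) (by simp) h5)
  obtain ⟨U, V, h5⟩ := h3 1 (by simp) h4
  generalize ht : ((0, 2, [(0, 0, none, 1), (1, 3, none, 2)]) : NTA).2.1 = t at h5
  have ht' : t = 2 := ht.symm
  cases h5 with
  | nil => exact absurd ht' (by decide)
  | eps he _ => simp at he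
  | left he _ => simp at he
  | right he _ => simp at he

end Pool.Agent.Helper632.AAR
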