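import Pool.Agent.Helper632.AAR.NTA

namespace Pool.Agent.Helper632.AAR

/-- `Run` with the number of arrows. -/
inductive RunN (T : List Arr) : ℕ → ℕ → List Sym → List Sym → ℕ → Prop
  | nil (s : ℕ) : RunN T 0 s [] [] s
  | eps {k s t r : ℕ} {b : Sym} {U V : List Sym} : (s, 0, b, t) ∈ T → RunN T k t U V r →
      RunN T (k + 1) s U V r
  | left {k s t r : ℕ} {b : Sym} {U V : List Sym} : (s, 1, b, t) ∈ T → RunN T k t U V r →
      RunN T (k + 1) s (b :: U) V r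
  | right {k s t r : ℕ} {b : Sym} {U V : List Sym} : (s, 2, b, t) ∈ T → RunN T k t U V r →
      RunN T (k + 1) s U (b :: V) r

theorem Run.toN {T : List Arr} {s t : ℕ} {U V : List Sym} (h : Run T s U V t) :
    ∃ k, RunN T k s U V t := by
  induction h with
  | nil s => exact ⟨0, .nil s⟩
  | eps h _ ih => obtain ⟨k, hk⟩ := ih; exact ⟨k + 1, .eps h hk⟩
  | left h _ ih => obtain ⟨k, hk⟩ := ih; exact ⟨k + 1, .left h hk⟩
  | right h _ ih => obtain ⟨k, hk⟩ := ih; exact ⟨k + 1, .right h hk⟩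

theorem runD_nil {D : NTA} (hD1 : ∀ e ∈ D.2.2, e.2.1 = 1) {s t : ℕ}
    (h : Run D.2.2 s [] [] t) : s = t := by
  cases h with
  | nil => rfl
  | eps h _ => exact absurd (hD1 _ h) (by simp)

theorem runD_cons {D : NTA} (hD1 : ∀ e ∈ D.2.2, e.2.1 = 1) {s t : ℕ} {b : Sym} {R : List Sym}
    (h : Run D.2.2 s (b :: R) [] t) : ∃ s', (s, 1, b, s') ∈ D.2.2 ∧ Run D.2.2 s' R [] t := by
  cases h with
  | eps h _ => exact absurd (hD1 _ h) (by simp)
  | left h h' => exact ⟨_, h, h'⟩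

theorem phase2 {τ₁ τ₂ D : NTA} {N : List Cfg} (hN : ∀ c ∈ N, Closed2 τ₁ τ₂ D N c)
    (hD1 : ∀ e ∈ D.2.2, e.2.1 = 1) :
    ∀ (m k₁ k₂ : ℕ), k₁ + k₂ ≤ m → ∀ (c1 c2 s : ℕ) (b1 b2 R U W1 W2 V : List Sym),
      (c1, c2, s, b1, b2) ∈ N → (b1 = [] ∨ b2 = []) → RunN τ₁.2.2 k₁ c1 U W1 τ₁.2.1 →
      RunN τ₂.2.2 k₂ c2 W2 V τ₂.2.1 → W1 = b2 ++ R → W2 = b1 ++ R →
      Run D.2.2 s R [] D.2.1 → False := by
  intro m
  induction m with
  | zero =>
    intro k₁ k₂ hk c1 c2 s b1 b2 R U W1 W2 V hc hb hr1 hr2 hW1 hW2 hRD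
    obtain rfl : k₁ = 0 := by omega
    obtain rfl : k₂ = 0 := by omega
    obtain ⟨-, -, -, -, -, q6⟩ := hN _ hc
    cases hr1
    cases hr2
    simp only [List.nil_eq, List.append_eq_nil_iff] at hW1 hW2
    obtain ⟨rfl, rfl⟩ := hW1
    obtain ⟨rfl, -⟩ := hW2
    exact q6 ⟨rfl, rfl, runD_nil hD1 hRD, rfl, rfl⟩
  | succ m ih =>
    intro k₁ k₂ hk c1 c2 s b1 b2 R U W1 W2 V hc hb hr1 hr2 hW1 hW2 hRD
    obtain ⟨q1, q2, q3, q4, q5, q6⟩ := hN _ hc
    simp only at q1 q2 q3 q4 q5 q6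
    cases hr1 with
    | nil =>
      simp only [List.nil_eq, List.append_eq_nil_iff] at hW1
      obtain ⟨rfl, rfl⟩ := hW1
      cases hr2 with
      | nil =>
        simp only [List.nil_eq, List.append_eq_nil_iff] at hW2
        obtain ⟨rfl, -⟩ := hW2
        exact q6 ⟨rfl, rfl, runD_nil hD1 hRD, rfl, rfl⟩
      | eps h hr2 =>
        exact ih 0 _ (by omega) _ _ _ _ _ _ _ _ _ _ (q2 _ h rfl (Or.inl rfl)) (Or.inr rfl)
          (.nil _) hr2 rfl hW2 hRD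
      | left h hr2 =>
        cases b1 with
        | nil => simp at hW2
        | cons b b1 =>
          simp only [List.cons_append, List.cons.injEq] at hW2
          obtain ⟨rfl, hW2⟩ := hW2
          exact ih 0 _ (by omega) _ _ _ _ _ _ _ _ _ _ (q4 _ h rfl rfl rfl) (Or.inr rfl)
            (.nil _) hr2 rfl hW2 hRD
      | right h hr2 =>
        exact ih 0 _ (by omega) _ _ _ _ _ _ _ _ _ _ (q2 _ h rfl (Or.inr rfl)) (Or.inr rfl)
          (.nil _) hr2 rfl hW2 hRD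
    | eps h hr1 =>
      exact ih _ _ (by omega) _ _ _ _ _ _ _ _ _ _ (q1 _ h rfl (Or.inl rfl)) hb hr1 hr2 hW1 hW2 hRD
    | left h hr1 =>
      exact ih _ _ (by omega) _ _ _ _ _ _ _ _ _ _ (q1 _ h rfl (Or.inr rfl)) hb hr1 hr2 hW1 hW2 hRD
    | right h hr1 =>
      cases b2 with
      | cons b' b2 =>
        simp only [List.cons_append, List.cons.injEq] at hW1
        obtain ⟨rfl, hW1⟩ := hW1
        have hb1 : b1 = [] := by
          rcases hb with hb | hb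
          · exact hb
          · simp at hb
        exact ih _ _ (by omega) _ _ _ _ _ _ _ _ _ _ (q3 _ h rfl rfl rfl) (Or.inl hb1)
            hr1 hr2 hW1 hW2 hRD
      | nil =>
        simp only [List.nil_append] at hW1
        subst hW1
        cases hr2 with
        | nil => simp at hW2
        | eps h' hr2 =>
          exact ih _ _ (by omega) _ _ _ _ _ _ _ _ _ _ (q2 _ h' rfl (Or.inl rfl))
            (Or.inr rfl) (.right h hr1) hr2 rfl hW2 hRD
        | right h' hr2 =>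
          exact ih _ _ (by omega) _ _ _ _ _ _ _ _ _ _ (q2 _ h' rfl (Or.inr rfl))
            (Or.inr rfl) (.right h hr1) hr2 rfl hW2 hRD
        | left h' hr2 =>
          cases b1 with
          | nil =>
            simp only [List.nil_append, List.cons.injEq] at hW2
            obtain ⟨rfl, rfl⟩ := hW2
            obtain ⟨s', hs', hRD'⟩ := runD_cons hD1 hRD
            exact ih _ _ (by omega) _ _ _ _ _ _ _ _ _ _
              (q5 rfl rfl _ h rfl rfl _ h' rfl rfl rfl _ hs' rfl rfl rfl)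
              (Or.inr rfl) hr1 hr2 rfl rfl hRD'
          | cons b' b1 =>
            simp only [List.cons_append, List.cons.injEq] at hW2
            obtain ⟨rfl, hW2⟩ := hW2
            exact ih _ _ (by omega) _ _ _ _ _ _ _ _ _ _ (q4 _ h' rfl rfl rfl) (Or.inr rfl)
              (.right h hr1) hr2 rfl hW2 hRD

/-- The remaining tapes fit the kind of the state. -/
def Status (M : AAut) (s : ℕ) (U V : List Sym) : Prop :=
  ((kind M s = some 0 ∨ kind M s = some 1) ∧ (∃ u, U = em u) ∧ ∃ v, V = em v) ∨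
  (kind M s = some 2 ∧ U = [] ∧ ∃ v, V = em v) ∨
  (kind M s = some 3 ∧ (∃ u, U = em u) ∧ V = []) ∨
  (kind M s = some 4 ∧ U = [] ∧ V = [])

theorem em_cons_inv {b : Sym} {U : List Sym} {u : List ℕ} (h : b :: U = em u) :
    (b = none ∧ U = []) ∨ ((∃ a, b = some a) ∧ ∃ u', U = em u') := by
  cases u with
  | nil =>
    simp only [em, List.map_nil, List.nil_append, List.cons.injEq] at h
    exact Or.inl h
  | cons a u =>
    simp only [em, List.map_cons, List.cons_append, List.cons.injEq] at h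
    exact Or.inr ⟨⟨a, h.1⟩, u, h.2⟩

theorem em_ne_nil (u : List ℕ) : em u ≠ [] := by simp [em]

theorem Status.left {n : ℕ} {M : AAut} (hM : AWF n M) {s t : ℕ} {b : Sym} {U V : List Sym}
    (h : Status M s (b :: U) V) (hs : readsL M s) (ha : (s, b, t) ∈ M.2.2) : Status M t U V := by
  have hA := hM.arrows _ ha
  simp only [ArrowOK] at hA
  rcases h with ⟨h1, ⟨u, hu⟩, hv⟩ | ⟨h1, h2, hv⟩ | ⟨h1, ⟨u, hu⟩, hv⟩ | ⟨h1, h2, h3⟩
  · have h0 : kind M s = some 0 := by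
      rcases hs with hs | hs
      · exact hs
      · rw [hs] at h1; simp at h1
    rcases em_cons_inv hu with ⟨rfl, rfl⟩ | ⟨⟨a, rfl⟩, hu'⟩
    · rcases hA with ⟨⟨b, -, hb⟩, -⟩ | ⟨-, ⟨-, h⟩ | ⟨h, -⟩ | ⟨h, -⟩⟩
      · simp at hb
      · exact Or.inr (Or.inl ⟨h, rfl, hv⟩)
      · rw [h0] at h; simp at h
      · rw [h0] at h; simp at h
    · rcases hA with ⟨-, ⟨-, h⟩ | ⟨h, -⟩ | ⟨h, -⟩⟩ | ⟨h, -⟩
      · exact Or.inl ⟨h, hu', hv⟩
      · rw [h0] at h; simp at h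
      · rw [h0] at h; simp at h
      · simp at h
  · simp at h2
  · rcases em_cons_inv hu with ⟨rfl, rfl⟩ | ⟨⟨a, rfl⟩, hu'⟩
    · rcases hA with ⟨⟨b, -, hb⟩, -⟩ | ⟨-, ⟨h, -⟩ | ⟨h, -⟩ | ⟨-, h⟩⟩
      · simp at hb
      · rw [h1] at h; simp at h
      · rw [h1] at h; simp at h
      · exact Or.inr (Or.inr (Or.inr ⟨h, rfl, hv⟩))
    · rcases hA with ⟨-, ⟨h, -⟩ | ⟨h, -⟩ | ⟨-, h⟩⟩ | ⟨h, -⟩
      · rw [h1] at h; simp at h
      · rw [h1] at h; simp at h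
      · exact Or.inr (Or.inr (Or.inl ⟨h, hu', hv⟩))
      · simp at h
  · simp at h2

theorem Status.right {n : ℕ} {M : AAut} (hM : AWF n M) {s t : ℕ} {b : Sym} {U V : List Sym}
    (h : Status M s U (b :: V)) (hs : readsR M s) (ha : (s, b, t) ∈ M.2.2) : Status M t U V := by
  have hA := hM.arrows _ ha
  simp only [ArrowOK] at hA
  rcases h with ⟨h1, hu, ⟨v, hv⟩⟩ | ⟨h1, hu, ⟨v, hv⟩⟩ | ⟨h1, h2, hv⟩ | ⟨h1, h2, h3⟩
  · have h0 : kind M s = some 1 := by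
      rcases hs with hs | hs
      · exact hs
      · rw [hs] at h1; simp at h1
    rcases em_cons_inv hv with ⟨rfl, rfl⟩ | ⟨⟨a, rfl⟩, hv'⟩
    · rcases hA with ⟨⟨b, -, hb⟩, -⟩ | ⟨-, ⟨h, -⟩ | ⟨-, h⟩ | ⟨h, -⟩⟩
      · simp at hb
      · rw [h0] at h; simp at h
      · exact Or.inr (Or.inr (Or.inl ⟨h, hu, rfl⟩))
      · rw [h0] at h; simp at h
    · rcases hA with ⟨-, ⟨-, h⟩ | ⟨h, -⟩ | ⟨h, -⟩⟩ | ⟨h, -⟩
      · exact Or.inl ⟨h, hu, hv'⟩
      · rw [h0] at h; simp at h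
      · rw [h0] at h; simp at h
      · simp at h
  · rcases em_cons_inv hv with ⟨rfl, rfl⟩ | ⟨⟨a, rfl⟩, hv'⟩
    · rcases hA with ⟨⟨b, -, hb⟩, -⟩ | ⟨-, ⟨h, -⟩ | ⟨h, -⟩ | ⟨-, h⟩⟩
      · simp at hb
      · rw [h1] at h; simp at h
      · rw [h1] at h; simp at h
      · exact Or.inr (Or.inr (Or.inr ⟨h, hu, rfl⟩))
    · rcases hA with ⟨-, ⟨h, -⟩ | ⟨-, h⟩ | ⟨h, -⟩⟩ | ⟨h, -⟩
      · rw [h1] at h; simp at h
      · exact Or.inr (Or.inl ⟨h, hu, hv'⟩)
      · rw [h1] at h; simp at h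
      · simp at h
  · simp at hv
  · simp at h3

theorem phase1 {n : ℕ} {τ₁ τ₂ D : NTA} {M : AAut} (hM : AWF n M) {I : List (ℕ × Cfg)}
    {N : List Cfg} (hN : ∀ c ∈ N, Closed2 τ₁ τ₂ D N c)
    (hI : ∀ p ∈ I, Closed1 τ₁ τ₂ D M I N p.1 p.2)
    (hD1 : ∀ e ∈ D.2.2, e.2.1 = 1) :
    ∀ (m k₁ k₂ : ℕ), k₁ + k₂ = m → ∀ (st c1 c2 s : ℕ) (b1 b2 R U W1 W2 V : List Sym),
      (st, c1, c2, s, b1, b2) ∈ I → (b1 = [] ∨ b2 = []) → RunN τ₁.2.2 k₁ c1 U W1 τ₁.2.1 →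
      RunN τ₂.2.2 k₂ c2 W2 V τ₂.2.1 → W1 = b2 ++ R → W2 = b1 ++ R →
      Run D.2.2 s R [] D.2.1 → Status M st U V → Acc M st U V := by
  intro m
  induction m with
  | zero =>
    intro k₁ k₂ hk st c1 c2 s b1 b2 R U W1 W2 V hc hb hr1 hr2 hW1 hW2 hRD hS
    obtain rfl : k₁ = 0 := by omega
    obtain rfl : k₂ = 0 := by omega
    cases hr1
    cases hr2
    rcases hS with ⟨h1, ⟨u, hu⟩, hv⟩ | ⟨h1, h2, ⟨v, hv⟩⟩ | ⟨h1, ⟨u, hu⟩, hv⟩ | ⟨h1, h2, h3⟩
    · exact absurd hu.symm (em_ne_nil u)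
    · exact absurd hv.symm (em_ne_nil v)
    · exact absurd hu.symm (em_ne_nil u)
    · exact .done h1
  | succ m ih =>
    intro k₁ k₂ hk st c1 c2 s b1 b2 R U W1 W2 V hc hb hr1 hr2 hW1 hW2 hRD hS
    obtain ⟨q1, q2, q3, q4, q5, q6, q7, q8⟩ := hI _ hc
    simp only at q1 q2 q3 q4 q5 q6 q7 q8
    -- the combined continuation
    have key : ∀ (k₁ k₂ : ℕ), k₁ + k₂ = m → ∀ (c1 c2 s : ℕ) (b1 b2 R W1 W2 : List Sym),
        Ok I N st (c1, c2, s, b1, b2) → (b1 = [] ∨ b2 = []) → RunN τ₁.2.2 k₁ c1 U W1 τ₁.2.1 →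
        RunN τ₂.2.2 k₂ c2 W2 V τ₂.2.1 → W1 = b2 ++ R → W2 = b1 ++ R →
        Run D.2.2 s R [] D.2.1 → Acc M st U V := by
      intro k₁ k₂ hk c1 c2 s b1 b2 R W1 W2 hok hb hr1 hr2 hW1 hW2 hRD
      rcases hok with hok | hok
      · exact ih _ _ hk _ _ _ _ _ _ _ _ _ _ _ hok hb hr1 hr2 hW1 hW2 hRD hS
      · exact (phase2 hN hD1 _ _ _ le_rfl _ _ _ _ _ _ _ _ _ _ hok hb hr1 hr2 hW1 hW2 hRD).elim
    have hcases : (kind M st = some 4 ∧ U = [] ∧ V = []) ∨ (readsL M st ∧ U ≠ []) ∨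
        (readsR M st ∧ V ≠ []) := by
      rcases hS with ⟨h1 | h1, ⟨u, hu⟩, ⟨v, hv⟩⟩ | ⟨h1, h2, ⟨v, hv⟩⟩ | ⟨h1, ⟨u, hu⟩, hv⟩ | h
      · exact Or.inr (Or.inl ⟨Or.inl h1, by rw [hu]; exact em_ne_nil u⟩)
      · exact Or.inr (Or.inr ⟨Or.inl h1, by rw [hv]; exact em_ne_nil v⟩)
      · exact Or.inr (Or.inr ⟨Or.inr h1, by rw [hv]; exact em_ne_nil v⟩)
      · exact Or.inr (Or.inl ⟨Or.inr h1, by rw [hu]; exact em_ne_nil u⟩)
      · exact Or.inl h
    rcases hcases with ⟨h4, rfl, rfl⟩ | ⟨hL, hU⟩ | ⟨hR, hV⟩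
    · exact .done h4
    · cases hr1 with
      | nil => exact absurd rfl hU
      | eps h hr1 => exact key _ _ (by omega) _ _ _ _ _ _ _ _ (q1 _ h rfl rfl) hb hr1 hr2 hW1 hW2 hRD
      | left h hr1 =>
        rcases q7 hL _ h rfl rfl with ⟨e, he, he1, he2, he3⟩ | hh
        · obtain ⟨e1, e2, e3⟩ := e
          simp only at he1 he2 he3
          subst he1
          subst he2
          exact .left hL he (ih _ _ (by omega) _ _ _ _ _ _ _ _ _ _ _ he3 hb hr1 hr2 hW1 hW2 hRD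
            (hS.left hM hL he))
        · exact (phase2 hN hD1 _ _ _ le_rfl _ _ _ _ _ _ _ _ _ _ hh hb hr1 hr2 hW1 hW2 hRD).elim
      | right h hr1 =>
        cases b2 with
        | cons b' b2 =>
          simp only [List.cons_append, List.cons.injEq] at hW1
          obtain ⟨rfl, hW1⟩ := hW1
          have hb1 : b1 = [] := by
            rcases hb with hb | hb
            · exact hb
            · simp at hb
          exact key _ _ (by omega) _ _ _ _ _ _ _ _ (q3 _ h rfl rfl rfl) (Or.inl hb1) hr1 hr2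
            hW1 hW2 hRD
        | nil =>
          simp only [List.nil_append] at hW1
          subst hW1
          obtain ⟨s', hs', hRD'⟩ := runD_cons hD1 hRD
          exact key _ _ (by omega) _ _ _ _ _ _ _ _ (q5 rfl _ h rfl rfl _ hs' rfl rfl rfl)
            (Or.inr rfl) hr1 hr2 (List.nil_append _).symm (by rw [hW2]; simp) hRD'
    · cases hr2 with
      | nil => exact absurd rfl hV
      | eps h hr2 => exact key _ _ (by omega) _ _ _ _ _ _ _ _ (q2 _ h rfl rfl) hb hr1 hr2 hW1 hW2 hRD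
      | right h hr2 =>
        rcases q8 hR _ h rfl rfl with ⟨e, he, he1, he2, he3⟩ | hh
        · obtain ⟨e1, e2, e3⟩ := e
          simp only at he1 he2 he3
          subst he1
          subst he2
          exact .right hR he (ih _ _ (by omega) _ _ _ _ _ _ _ _ _ _ _ he3 hb hr1 hr2 hW1 hW2 hRD
            (hS.right hM hR he))
        · exact (phase2 hN hD1 _ _ _ le_rfl _ _ _ _ _ _ _ _ _ _ hh hb hr1 hr2 hW1 hW2 hRD).elim
      | left h hr2 =>
        cases b1 with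
        | cons b' b1 =>
          simp only [List.cons_append, List.cons.injEq] at hW2
          obtain ⟨rfl, hW2⟩ := hW2
          have hb2 : b2 = [] := by
            rcases hb with hb | hb
            · simp at hb
            · exact hb
          exact key _ _ (by omega) _ _ _ _ _ _ _ _ (q4 _ h rfl rfl rfl) (Or.inr hb2) hr1 hr2
            hW1 hW2 hRD
        | nil =>
          simp only [List.nil_append] at hW2
          subst hW2
          obtain ⟨s', hs', hRD'⟩ := runD_cons hD1 hRD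
          exact key _ _ (by omega) _ _ _ _ _ _ _ _ (q6 rfl _ h rfl rfl _ hs' rfl rfl rfl)
            (Or.inl rfl) hr1 hr2 (by rw [hW1]; simp) (List.nil_append _).symm hRD'

/-- JOB B. Soundness of the inclusion check. -/
theorem check_sound {n : ℕ} {τ₁ τ₂ D : NTA} {M : AAut} (hM : AWF n M) (h : CheckOK τ₁ τ₂ D M)
    {u v : List ℕ} {W : List Sym} (h1 : Rel τ₁ (em u) W) (h2 : Rel τ₂ W (em v))
    (hD : Rel D W []) (hD1 : ∀ e ∈ D.2.2, e.2.1 = 1) : ALang M u v := by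
  obtain ⟨I, N, h0, hN, hI⟩ := h
  obtain ⟨k₁, hk₁⟩ := Run.toN h1
  obtain ⟨k₂, hk₂⟩ := Run.toN h2
  exact phase1 hM hN hI hD1 _ _ _ rfl _ _ _ _ _ _ _ _ _ _ _ h0 (Or.inl rfl) hk₁ hk₂
    (List.nil_append _).symm (List.nil_append _).symm hD
    (Or.inl ⟨hM.start, ⟨u, rfl⟩, ⟨v, rfl⟩⟩)

end Pool.Agent.Helper632.AAR
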