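import Pool.Agent.Helper632.AAR.NTA
import Pool.Agent.Helper632.AAR.Lib

namespace Pool.Agent.Helper632.AAR




/-! ### auxiliary lemmas -/

theorem FPath_append (W : FAut) {s t m : ℕ} {u v : List ℕ} (h1 : FPath W s u m)
    (h2 : FPath W m v t) : FPath W s (u ++ v) t := by
  induction h1 with
  | nil => exact h2
  | cons e _ ih => exact FPath.cons e (ih h2)

theorem FPath_split (W : FAut) {t : ℕ} {v : List ℕ} : ∀ {s : ℕ} {u : List ℕ},
    FPath W s (u ++ v) t → ∃ m, FPath W s u m ∧ FPath W m v t := by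
  intro s u
  induction u generalizing s with
  | nil => intro h; exact ⟨s, FPath.nil s, h⟩
  | cons a u ih =>
    intro h
    rw [List.cons_append] at h
    cases h with
    | cons e h' =>
      obtain ⟨m, h1, h2⟩ := ih h'
      exact ⟨m, FPath.cons e h1, h2⟩

theorem val_append {G : Type*} [Monoid G] (π : ℕ → G) (u v : List ℕ) :
    val π (u ++ v) = val π u * val π v := by
  simp [val]

theorem val_cons {G : Type*} [Monoid G] (π : ℕ → G) (a : ℕ) (v : List ℕ) :
    val π (a :: v) = π a * val π v := by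
  simp [val]

theorem val_nil {G : Type*} [Monoid G] (π : ℕ → G) : val π [] = 1 := by simp [val]

theorem sval_map {G : Type*} [Monoid G] (π : ℕ → G) (u : List ℕ) :
    sval π (u.map some) = val π u := by
  simp [sval, val, Function.comp_def]

theorem sval_em {G : Type*} [Monoid G] (π : ℕ → G) (u : List ℕ) :
    sval π (u.map some ++ [none]) = val π u := by
  simp [sval, val, Function.comp_def]

section main
open Classical

variable {G : Type*} [Group G] (π : ℕ → G) (W : FAut) (E : Finset G) (S : Finset ℕ)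

abbrev St (G : Type*) := ℕ × Finset (G × ℕ)

noncomputable def upd (mem : Finset (G × ℕ)) (a s1 : ℕ) : Finset (G × ℕ) :=
  insert (1, s1) ((mem.image (fun p => (p.1 * π a, p.2))).filter (fun p => p.1 ∈ E))

def allowed (mem : Finset (G × ℕ)) (a s1 : ℕ) : Prop :=
  ∀ p ∈ mem, ¬ (p.1 * π a = 1 ∧ p.2 = s1)

def StepD (x : St G) (a : ℕ) (y : St G) : Prop :=
  (x.1, a, y.1) ∈ W.2.2 ∧ allowed π x.2 a y.1 ∧ y.2 = upd π E x.2 a y.1

def DPath : St G → List ℕ → St G → Prop
  | x, [], y => x = y
  | x, a :: u, y => ∃ z, StepD π W E x a z ∧ DPath z u y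

theorem DPath_append {y z : St G} {v : List ℕ} : ∀ {u : List ℕ} {x : St G},
    DPath π W E x u y → DPath π W E y v z → DPath π W E x (u ++ v) z := by
  intro u
  induction u with
  | nil => intro x h1 h2; cases h1; exact h2
  | cons a u ih =>
    rintro x ⟨w, hw, h1⟩ h2
    exact ⟨w, hw, ih h1 h2⟩

theorem DPath_split {z : St G} {v : List ℕ} : ∀ {u : List ℕ} {x : St G},
    DPath π W E x (u ++ v) z → ∃ y, DPath π W E x u y ∧ DPath π W E y v z := by
  intro u
  induction u with
  | nil => intro x h; exact ⟨x, rfl, h⟩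
  | cons a u ih =>
    rintro x ⟨w, hw, h1⟩
    obtain ⟨y, h2, h3⟩ := ih h1
    exact ⟨y, ⟨w, hw, h2⟩, h3⟩

theorem DPath_toF {y : St G} : ∀ {u : List ℕ} {x : St G},
    DPath π W E x u y → FPath W x.1 u y.1 := by
  intro u
  induction u with
  | nil => intro x h; cases h; exact FPath.nil _
  | cons a u ih =>
    rintro x ⟨w, hw, h1⟩
    exact FPath.cons hw.1 (ih h1)

theorem DPath_one {y : St G} : ∀ {u : List ℕ} {x : St G},
    DPath π W E x u y → (1, x.1) ∈ x.2 → (1, y.1) ∈ y.2 := by
  intro u
  induction u with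
  | nil => intro x h hx; cases h; exact hx
  | cons a u ih =>
    rintro x ⟨w, hw, h1⟩ hx
    apply ih h1
    rw [hw.2.2]
    exact Finset.mem_insert_self _ _

theorem keep {y : St G} : ∀ {u : List ℕ} {x : St G}, DPath π W E x u y →
    ∀ (h : G) (q₀ : ℕ), (h, q₀) ∈ x.2 →
    (∀ u₁ u₂ : List ℕ, u = u₁ ++ u₂ → u₁ ≠ [] → h * val π u₁ ∈ E) →
    (h * val π u, q₀) ∈ y.2 := by
  intro u
  induction u with
  | nil =>
    intro x hx h q₀ hm _
    cases hx
    rw [val_nil, mul_one]; exact hm
  | cons a u ih =>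
    rintro x ⟨w, hw, h1⟩ h q₀ hm hE
    rw [val_cons, ← mul_assoc]
    apply ih h1
    · rw [hw.2.2]
      apply Finset.mem_insert_of_mem
      rw [Finset.mem_filter]
      refine ⟨Finset.mem_image.2 ⟨(h, q₀), hm, rfl⟩, ?_⟩
      have := hE [a] u rfl (by simp)
      rw [val_cons, val_nil, mul_one] at this
      exact this
    · intro u₁ u₂ hu _
      have := hE (a :: u₁) u₂ (by rw [hu, List.cons_append]) (by simp)
      rw [val_cons, ← mul_assoc] at this
      exact this

theorem no_null {x y : St G} {w : List ℕ} (hw : DPath π W E x w y) (hne : w ≠ [])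
    (hval : val π w = 1) (hxy : x.1 = y.1) (h1 : (1, x.1) ∈ x.2)
    (hE : ∀ u₁ u₂ : List ℕ, w = u₁ ++ u₂ → u₁ ≠ [] → val π u₁ ∈ E) : False := by
  obtain ⟨c, a, rfl⟩ : ∃ c a, w = c ++ [a] := by
    rcases List.eq_nil_or_concat w with h | ⟨c, a, h⟩
    · exact absurd h hne
    · exact ⟨c, a, by simpa using h⟩
  obtain ⟨z, hz1, z', hz2, hz3⟩ := DPath_split π W E hw
  cases hz3
  have hk := keep π W E hz1 1 x.1 h1 (by
    intro u₁ u₂ hu hu1
    rw [one_mul]
    exact hE u₁ (u₂ ++ [a]) (by rw [hu, List.append_assoc]) hu1)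
  rw [one_mul] at hk
  refine hz2.2.1 _ hk ⟨?_, hxy⟩
  rw [val_append, val_cons, val_nil, mul_one] at hval
  exact hval

theorem exists_seq {y : St G} : ∀ {u : List ℕ} {x : St G}, DPath π W E x u y →
    ∃ st : ℕ → St G, st 0 = x ∧ st u.length = y ∧
      ∀ i j, i ≤ j → j ≤ u.length → DPath π W E (st i) ((u.take j).drop i) (st j) := by
  intro u
  induction u with
  | nil =>
    intro x h
    cases h
    refine ⟨fun _ => y, rfl, rfl, fun i j _ _ => ?_⟩
    simp [DPath]
  | cons a u ih =>
    rintro x ⟨z, hz, h1⟩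
    obtain ⟨st, h0, hl, hst⟩ := ih h1
    refine ⟨fun n => Nat.casesOn n x st, rfl, hl, ?_⟩
    intro i j hij hj
    cases j with
    | zero =>
      have : i = 0 := by omega
      subst this
      simp [DPath]
    | succ j =>
      have hj' : j ≤ u.length := by simpa using hj
      cases i with
      | zero =>
        have h2 := hst 0 j (Nat.zero_le _) hj'
        rw [h0, List.drop_zero] at h2
        show DPath π W E x (((a :: u).take (j + 1)).drop 0) (st j)
        rw [List.take_succ_cons, List.drop_zero]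
        exact ⟨z, hz, h2⟩
      | succ i =>
        show DPath π W E (st i) (((a :: u).take (j + 1)).drop (i + 1)) (st j)
        rw [List.take_succ_cons, List.drop_succ_cons]
        exact hst i j (by omega) hj'

end main

/-- JOB F2. -/
theorem exists_D {G : Type*} [Group G] (π : ℕ → G) (W : FAut)
    (hfin : ∀ B : Set G, B.Finite → (Exc π W B).Finite) :
    ∃ D : NTA, (∀ e ∈ D.2.2, e.2.1 = 1) ∧
      (∀ U, Rel D U [] → ∃ w ∈ FLang W, U = em w) ∧
      (∀ w ∈ FLang W, ∃ w' ∈ FLang W, val π w' = val π w ∧ Rel D (em w') []) ∧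
      Dep π D := by
  classical
  set E : Finset G := insert 1 (hfin {1} (Set.finite_singleton 1)).toFinset with hE
  have hE1 : (1 : G) ∈ E := Finset.mem_insert_self _ _
  have hEx : ∀ g, g ∈ Exc π W {1} → g ∈ E := by
    intro g hg
    exact Finset.mem_insert_of_mem ((Set.Finite.mem_toFinset _).2 hg)
  set S : Finset ℕ := insert W.1 (W.2.2.toFinset.image (fun e => e.2.2)) with hS
  have hSt : ∀ e ∈ W.2.2, e.2.2 ∈ S := by
    intro e he
    exact Finset.mem_insert_of_mem (Finset.mem_image.2 ⟨e, by simpa using he, rfl⟩)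
  set XF : Finset (St G) := S ×ˢ (E ×ˢ S).powerset with hXF
  have hXFm : ∀ x : St G, x ∈ XF ↔ x.1 ∈ S ∧ x.2 ⊆ E ×ˢ S := by
    intro x
    rw [hXF, Finset.mem_product, Finset.mem_powerset]
  obtain ⟨f, hf⟩ := Set.countable_iff_exists_injOn.1 (XF : Set (St G)).to_countable
  -- closure of the states
  have hstep : ∀ x a y, x ∈ XF → StepD π W E x a y → y ∈ XF := by
    intro x a y hx hxy
    rw [hXFm] at hx ⊢
    refine ⟨hSt _ hxy.1, ?_⟩
    rw [hxy.2.2]
    intro p hp
    rcases Finset.mem_insert.1 hp with rfl | hp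
    · exact Finset.mem_product.2 ⟨hE1, hSt _ hxy.1⟩
    · obtain ⟨hp1, hp2⟩ := Finset.mem_filter.1 hp
      obtain ⟨p', hp', rfl⟩ := Finset.mem_image.1 hp1
      exact Finset.mem_product.2 ⟨hp2, (Finset.mem_product.1 (hx.2 hp')).2⟩
  have hpath : ∀ (u : List ℕ) (x y : St G), x ∈ XF → DPath π W E x u y → y ∈ XF := by
    intro u
    induction u with
    | nil => intro x y hx h; cases h; exact hx
    | cons a u ih =>
      rintro x y hx ⟨z, hz, h⟩
      exact ih z y (hstep x a z hx hz) h
  -- the arrows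
  set T1 : Finset Arr := ((XF ×ˢ W.2.2.toFinset).filter
    (fun p => p.1.1 = p.2.1 ∧ allowed π p.1.2 p.2.2.1 p.2.2.2)).image
    (fun p => (f p.1 + 1, 1, some p.2.2.1, f (p.2.2.2, upd π E p.1.2 p.2.2.1 p.2.2.2) + 1)) with hT1
  set T2 : Finset Arr := (XF.filter (fun x => x.1 ∈ W.2.1)).image
    (fun x => (f x + 1, 1, none, 0)) with hT2
  set T : List Arr := (T1 ∪ T2).toList with hT
  have hTm : ∀ e : Arr, e ∈ T ↔
      (∃ x ∈ XF, ∃ a y, StepD π W E x a y ∧ e = (f x + 1, 1, some a, f y + 1)) ∨
      (∃ x ∈ XF, x.1 ∈ W.2.1 ∧ e = (f x + 1, 1, none, 0)) := by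
    intro e
    rw [hT, Finset.mem_toList, Finset.mem_union]
    apply or_congr
    · rw [hT1, Finset.mem_image]
      constructor
      · rintro ⟨⟨x, e1⟩, hp, rfl⟩
        obtain ⟨hp1, hp2, hp3⟩ := Finset.mem_filter.1 hp
        obtain ⟨hx, he1⟩ := Finset.mem_product.1 hp1
        refine ⟨x, hx, e1.2.1, (e1.2.2, upd π E x.2 e1.2.1 e1.2.2), ⟨?_, hp3, rfl⟩, rfl⟩
        have : e1 ∈ W.2.2 := by simpa using he1
        have h2 : (x.1, e1.2.1, e1.2.2) = e1 := by
          have : x.1 = e1.1 := hp2
          rw [this]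
        show (x.1, e1.2.1, e1.2.2) ∈ W.2.2
        rw [h2]; exact this
      · rintro ⟨x, hx, a, y, hxy, rfl⟩
        refine ⟨(x, (x.1, a, y.1)), ?_, ?_⟩
        · rw [Finset.mem_filter, Finset.mem_product]
          exact ⟨⟨hx, by simpa using hxy.1⟩, rfl, hxy.2.1⟩
        · show (f x + 1, 1, some a, f (y.1, upd π E x.2 a y.1) + 1) = (f x + 1, 1, some a, f y + 1)
          rw [← hxy.2.2]
    · rw [hT2, Finset.mem_image]
      constructor
      · rintro ⟨x, hx, rfl⟩
        obtain ⟨h1, h2⟩ := Finset.mem_filter.1 hx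
        exact ⟨x, h1, h2, rfl⟩
      · rintro ⟨x, hx, h1, rfl⟩
        exact ⟨x, Finset.mem_filter.2 ⟨hx, h1⟩, rfl⟩
  have htag : ∀ e ∈ T, e.2.1 = 1 := by
    intro e he
    rcases (hTm e).1 he with ⟨x, _, a, y, _, rfl⟩ | ⟨x, _, _, rfl⟩ <;> rfl
  -- analysis of the runs
  have hrun : ∀ s U V t, Run T s U V t → V = [] ∧ (s = 0 → U = [] ∧ t = 0) ∧
      ∀ x ∈ XF, s = f x + 1 → ∃ u y, y ∈ XF ∧ DPath π W E x u y ∧
        ((U = u.map some ∧ t = f y + 1) ∨ (U = u.map some ++ [none] ∧ t = 0 ∧ y.1 ∈ W.2.1)) := by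
    intro s U V t h
    induction h with
    | nil s =>
      refine ⟨rfl, fun h => ⟨rfl, h⟩, fun x hx hs => ⟨[], x, hx, rfl, Or.inl ⟨rfl, hs⟩⟩⟩
    | eps he _ _ => exact absurd (htag _ he) (by simp)
    | right he _ _ => exact absurd (htag _ he) (by simp)
    | @left s t r b U V he _ ih =>
      obtain ⟨ih1, ih2, ih3⟩ := ih
      refine ⟨ih1, ?_, ?_⟩
      · intro hs
        rcases (hTm _).1 he with ⟨x, _, a, y, _, h⟩ | ⟨x, _, _, h⟩
        · have := congrArg Prod.fst h
          simp only at this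
          omega
        · have := congrArg Prod.fst h
          simp only at this
          omega
      · intro x hx hs
        rcases (hTm _).1 he with ⟨x', hx', a, y, hxy, h⟩ | ⟨x', hx', hacc, h⟩
        · simp only [Prod.mk.injEq, true_and] at h
          obtain ⟨h1, h2, h3⟩ := h
          have hxx : x = x' := hf hx hx' (by omega)
          subst hxx
          obtain ⟨u, z, hz, hp, hcase⟩ := ih3 y (hstep x a y hx hxy) h3
          refine ⟨a :: u, z, hz, ⟨y, hxy, hp⟩, ?_⟩
          rw [h2]
          rcases hcase with ⟨h4, h5⟩ | ⟨h4, h5, h6⟩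
          · left; exact ⟨by rw [h4]; rfl, h5⟩
          · right; exact ⟨by rw [h4]; rfl, h5, h6⟩
        · simp only [Prod.mk.injEq, true_and] at h
          obtain ⟨h1, h2, h3⟩ := h
          have hxx : x = x' := hf hx hx' (by omega)
          subst hxx
          obtain ⟨h4, h5⟩ := ih2 h3
          refine ⟨[], x, hx, rfl, Or.inr ⟨?_, h5, hacc⟩⟩
          rw [h2, h4]; rfl
  have hrun' : ∀ (u : List ℕ) (x y : St G), x ∈ XF → DPath π W E x u y → y.1 ∈ W.2.1 →
      Run T (f x + 1) (em u) [] 0 := by
    intro u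
    induction u with
    | nil =>
      intro x y hx h hy
      cases h
      exact Run.left ((hTm _).2 (Or.inr ⟨x, hx, hy, rfl⟩)) (Run.nil 0)
    | cons a u ih =>
      rintro x y hx ⟨z, hz, h⟩ hy
      exact Run.left ((hTm _).2 (Or.inl ⟨x, hx, a, z, hz, rfl⟩)) (ih z y (hstep x a z hx hz) h hy)
  -- the start state
  set x₀ : St G := (W.1, {(1, W.1)}) with hx₀
  have hx₀X : x₀ ∈ XF := by
    rw [hXFm]
    refine ⟨Finset.mem_insert_self _ _, ?_⟩
    intro p hp
    rw [Finset.mem_singleton] at hp
    rw [hp]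
    exact Finset.mem_product.2 ⟨hE1, Finset.mem_insert_self _ _⟩
  have hx₀1 : ((1 : G), x₀.1) ∈ x₀.2 := Finset.mem_singleton_self _
  refine ⟨(f x₀ + 1, 0, T), htag, ?_, ?_, ?_⟩
  · intro U hU
    obtain ⟨_, _, h3⟩ := hrun _ _ _ _ hU
    obtain ⟨u, y, _, hp, hc⟩ := h3 x₀ hx₀X rfl
    rcases hc with ⟨_, h5⟩ | ⟨h4, _, h6⟩
    · exact absurd h5 (by simp)
    · exact ⟨u, ⟨y.1, h6, DPath_toF π W E hp⟩, h4⟩
  · intro w hw
    -- minimal length
    have hex : ∃ n, ∃ w₁ ∈ FLang W, val π w₁ = val π w ∧ w₁.length = n := ⟨_, w, hw, rfl, rfl⟩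
    obtain ⟨w₁, hw₁, hv, hl⟩ := Nat.find_spec hex
    have hmin : ∀ w₂ ∈ FLang W, val π w₂ = val π w → w₁.length ≤ w₂.length := by
      intro w₂ h2 h2v
      rw [hl]
      exact Nat.find_min' hex ⟨w₂, h2, h2v, rfl⟩
    refine ⟨w₁, hw₁, hv, ?_⟩
    obtain ⟨t, ht, hp⟩ := hw₁
    have key : ∀ (v u : List ℕ) (s : ℕ) (mem : Finset (G × ℕ)), w₁ = u ++ v → FPath W W.1 u s →
        FPath W s v t → (∀ p ∈ mem, ∃ u₁ u₂, u = u₁ ++ u₂ ∧ FPath W W.1 u₁ p.2 ∧
          FPath W p.2 u₂ s ∧ val π u₂ = p.1) →
        ∃ y : St G, DPath π W E (s, mem) v y ∧ y.1 = t := by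
      intro v
      induction v with
      | nil =>
        intro u s mem _ _ h _
        cases h
        exact ⟨(t, mem), rfl, rfl⟩
      | cons a v ih =>
        intro u s mem hw hu h hmem
        cases h with
        | @cons _ _ s1 _ _ he h' =>
          have hall : allowed π mem a s1 := by
            rintro p hp ⟨h1, h2⟩
            obtain ⟨u₁, u₂, hu12, hp1, hp2, hp3⟩ := hmem p hp
            have hacc : u₁ ++ v ∈ FLang W := by
              refine ⟨t, ht, FPath_append W hp1 ?_⟩
              rw [h2]; exact h'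
            have hval : val π (u₁ ++ v) = val π w := by
              rw [← hv, hw, hu12, val_append, val_append, val_append, val_cons, hp3]
              rw [mul_assoc, ← mul_assoc p.1, h1, one_mul]
            have := hmin _ hacc hval
            rw [hw, hu12] at this
            simp at this
            omega
          obtain ⟨y, hy, hyt⟩ := ih (u ++ [a]) s1 (upd π E mem a s1) (by rw [hw]; simp)
            (FPath_append W hu (FPath.cons he (FPath.nil _))) h' (by
              intro p hp
              rcases Finset.mem_insert.1 hp with rfl | hp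
              · exact ⟨u ++ [a], [], by simp, FPath_append W hu (FPath.cons he (FPath.nil _)),
                  FPath.nil _, val_nil π⟩
              · obtain ⟨hp1, _⟩ := Finset.mem_filter.1 hp
                obtain ⟨p', hp', rfl⟩ := Finset.mem_image.1 hp1
                obtain ⟨u₁, u₂, hu12, hq1, hq2, hq3⟩ := hmem p' hp'
                refine ⟨u₁, u₂ ++ [a], by rw [hu12]; simp, hq1,
                  FPath_append W hq2 (FPath.cons he (FPath.nil _)), ?_⟩
                rw [val_append, val_cons, val_nil, mul_one, hq3])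
          exact ⟨y, ⟨(s1, upd π E mem a s1), ⟨he, hall, rfl⟩, hy⟩, hyt⟩
    obtain ⟨y, hy, hyt⟩ := key w₁ [] W.1 {(1, W.1)} rfl (FPath.nil _) hp (by
      intro p hp
      rw [Finset.mem_singleton] at hp
      subst hp
      exact ⟨[], [], rfl, FPath.nil _, FPath.nil _, val_nil π⟩)
    exact hrun' w₁ x₀ y hx₀X hy (by rw [hyt]; exact ht)
  · intro B hB
    set EB : Finset G := (hfin B hB).toFinset with hEB
    refine ⟨(EB ×ˢ S).card + 1, ?_⟩
    intro P Q R s t h1 h2 h3 hv
    obtain ⟨_, _, r1⟩ := hrun _ _ _ _ h1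
    obtain ⟨p, x, hx, hpx, hc1⟩ := r1 x₀ hx₀X rfl
    rcases hc1 with ⟨_, hs⟩ | ⟨_, hs, _⟩
    · obtain ⟨_, _, r2⟩ := hrun _ _ _ _ h2
      obtain ⟨q, y, hy, hqy, hc2⟩ := r2 x hx hs
      -- the path is completed
      obtain ⟨r, z, hrz, hz, hval, hlen⟩ : ∃ (r : List ℕ) (z : St G), DPath π W E y r z ∧
          z.1 ∈ W.2.1 ∧ val π q ∈ B ∧ Q.length ≤ q.length + 1 := by
        rcases hc2 with ⟨hQ, ht⟩ | ⟨hQ, ht, hy1⟩
        · obtain ⟨_, _, r3⟩ := hrun _ _ _ _ h3
          obtain ⟨r, z, _, hrz, hc3⟩ := r3 y hy ht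
          rcases hc3 with ⟨_, h0⟩ | ⟨_, _, hz⟩
          · exact absurd h0 (by simp)
          · refine ⟨r, z, hrz, hz, ?_, ?_⟩
            · rw [hQ, sval_map] at hv; exact hv
            · rw [hQ]; simp
        · refine ⟨[], y, rfl, hy1, ?_, ?_⟩
          · rw [hQ, sval_em] at hv; exact hv
          · rw [hQ]; simp
      refine hlen.trans ?_
      apply Nat.succ_le_succ
      -- the pairs
      obtain ⟨st, hst0, hstl, hst⟩ := exists_seq π W E hqy
      have hone : ∀ i, i ≤ q.length → ((1 : G), (st i).1) ∈ (st i).2 := by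
        intro i hi
        have ha := hst 0 i (Nat.zero_le _) hi
        rw [hst0] at ha
        exact DPath_one π W E (DPath_append π W E hpx ha) hx₀1
      let F : ℕ → G × ℕ := fun i => (val π (q.take i), (st i).1)
      have hmaps : ∀ i ∈ Finset.range (q.length + 1), F i ∈ EB ×ˢ S := by
        intro i hi
        have hi' : i ≤ q.length := by
          have := Finset.mem_range.1 hi; omega
        have ha := hst 0 i (Nat.zero_le _) hi'
        have hb := hst i q.length hi' le_rfl
        rw [hst0, List.drop_zero] at ha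
        rw [hstl, List.take_length] at hb
        rw [Finset.mem_product]
        constructor
        · rw [hEB, Set.Finite.mem_toFinset]
          refine ⟨x.1, (st i).1, y.1, q.take i, q.drop i, ⟨p, DPath_toF π W E hpx⟩,
            DPath_toF π W E ha, DPath_toF π W E hb, ⟨r, z.1, hz, DPath_toF π W E hrz⟩, ?_, rfl⟩
          rw [List.take_append_drop]; exact hval
        · exact ((hXFm _).1 (hpath _ _ _ hx ha)).1
      have hinj : Set.InjOn F (Finset.range (q.length + 1)) := by
        have hlt : ∀ i j, i < j → j ≤ q.length → F i ≠ F j := by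
          intro i j hij hj hF
          have hF1 : val π (q.take i) = val π (q.take j) := congrArg Prod.fst hF
          have hF2 : (st i).1 = (st j).1 := congrArg Prod.snd hF
          have hseg := hst i j hij.le hj
          have htk : q.take i ++ (q.take j).drop i = q.take j := by
            have h5 : (q.take j).take i = q.take i := by
              rw [List.take_take, min_eq_left hij.le]
            rw [← h5, List.take_append_drop]
          have hv1 : val π ((q.take j).drop i) = 1 := by
            rw [← htk, val_append] at hF1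
            exact (mul_eq_left.1 hF1.symm)
          have hne : (q.take j).drop i ≠ [] := by
            intro h0
            have := congrArg List.length h0
            simp at this
            omega
          have ha := hst 0 i (Nat.zero_le _) (by omega)
          rw [hst0, List.drop_zero] at ha
          have hb := hst j q.length hj le_rfl
          rw [hstl, List.take_length] at hb
          refine no_null π W E hseg hne hv1 hF2 (hone i (by omega)) ?_
          intro u₁ u₂ hu _
          apply hEx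
          rw [hu] at hseg
          obtain ⟨m, hm1, hm2⟩ := DPath_split π W E hseg
          refine ⟨(st i).1, m.1, (st j).1, u₁, u₂,
            ⟨p ++ q.take i, DPath_toF π W E (DPath_append π W E hpx ha)⟩,
            DPath_toF π W E hm1, DPath_toF π W E hm2,
            ⟨q.drop j ++ r, z.1, hz, DPath_toF π W E (DPath_append π W E hb hrz)⟩, ?_, rfl⟩
          rw [← hu, hv1]; rfl
        intro i hi j hj hF
        have hi' : i ≤ q.length := by
          have := Finset.mem_range.1 (Finset.mem_coe.1 hi); omega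
        have hj' : j ≤ q.length := by
          have := Finset.mem_range.1 (Finset.mem_coe.1 hj); omega
        rcases lt_trichotomy i j with h | h | h
        · exact absurd hF (hlt i j h hj')
        · exact h
        · exact absurd hF.symm (hlt j i h hi')
      have hcard := Finset.card_le_card_of_injOn F hmaps hinj
      rw [Finset.card_range] at hcard
      omega
    · obtain ⟨_, r2, _⟩ := hrun _ _ _ _ h2
      obtain ⟨hQ, _⟩ := r2 hs
      rw [hQ]; simp

end Pool.Agent.Helper632.AAR
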