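import Pool.Agent.Helper632.AAR.Elem
import Pool.Agent.Helper632.AAR.Comp
import Pool.Agent.Helper632.AAR.Sound
import Pool.Agent.Helper632.AAR.Complete
import Pool.Agent.Helper632.AAR.Proj
import Pool.Agent.Helper632.AAR.Exc
import Pool.Agent.Helper632.AAR.SubAut
import Pool.Agent.Helper632.AAR.Action
import Pool.Agent.Helper632.AAR.No
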