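import Pool.Agent.Helper632.AAR.NTA
import Pool.Agent.Helper446.RE

namespace Pool.Agent.Helper632.AAR

open Pool.Agent.Helper446

section ReH2

variable {α : Type*} {β : Type*} [Primcodable α] [Primcodable β]

theorem re_impEq {f g : α → β} (hf : Computable f) (hg : Computable g) {q : α → Prop}
    (hq : REPred q) : REPred fun a => (f a = g a → q a) :=
  (RE.or (RE.ne hf hg) hq).of_eq fun a => by
    by_cases h : f a = g a <;> simp [h]

variable {T T' DD : α → List Arr} {M : α → AAut} {I : α → List (ℕ × Cfg)} {N : α → List Cfg}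
  {s : α → ℕ} {c : α → Cfg} {e e' g : α → Arr} {z : α → ℕ}

theorem e1 (h : Computable e) : Computable fun a => (e a).1 := Computable.fst.comp h
theorem e2 (h : Computable e) : Computable fun a => (e a).2.1 :=
  Computable.fst.comp (Computable.snd.comp h)
theorem e3 (h : Computable e) : Computable fun a => (e a).2.2.1 :=
  Computable.fst.comp (Computable.snd.comp (Computable.snd.comp h))
theorem e4 (h : Computable e) : Computable fun a => (e a).2.2.2 :=
  Computable.snd.comp (Computable.snd.comp (Computable.snd.comp h))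
theorem c1 (h : Computable c) : Computable fun a => (c a).1 := Computable.fst.comp h
theorem c2 (h : Computable c) : Computable fun a => (c a).2.1 :=
  Computable.fst.comp (Computable.snd.comp h)
theorem c3 (h : Computable c) : Computable fun a => (c a).2.2.1 :=
  Computable.fst.comp (Computable.snd.comp (Computable.snd.comp h))
theorem c4 (h : Computable c) : Computable fun a => (c a).2.2.2.1 :=
  Computable.fst.comp (Computable.snd.comp (Computable.snd.comp (Computable.snd.comp h)))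
theorem c5 (h : Computable c) : Computable fun a => (c a).2.2.2.2 :=
  Computable.snd.comp (Computable.snd.comp (Computable.snd.comp (Computable.snd.comp h)))
theorem cs1 (h : Computable c) : Computable fun a => (c a).2 := Computable.snd.comp h
theorem cs2 (h : Computable c) : Computable fun a => (c a).2.2 :=
  Computable.snd.comp (Computable.snd.comp h)
theorem hd {l : α → List Sym} (h : Computable l) : Computable fun a => (l a).head? :=
  Primrec.list_head?.to_comp.comp h
theorem tl {l : α → List Sym} (h : Computable l) : Computable fun a => (l a).tail :=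
  Primrec.list_tail.to_comp.comp h
theorem app {l : α → List Sym} {b : α → Sym} (h : Computable l) (hb : Computable b) :
    Computable fun a => l a ++ [b a] :=
  Computable.list_append.comp h (Computable.list_cons.comp hb (Computable.const []))
theorem sm {b : α → Sym} (hb : Computable b) : Computable fun a => (some (b a) : Option Sym) :=
  Computable.option_some.comp hb

/-- Quantification over the arrows of a list. -/
theorem re_all {p : α → Arr → Prop} (hT : Computable T)
    (hp : REPred fun x : α × Arr => p x.1 x.2) : REPred fun a => ∀ e ∈ T a, p a e :=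
  RE.all_mem (p := p) hp hT

theorem re_ok (hI : Computable I) (hN : Computable N) (hs : Computable s) (hc : Computable c) :
    REPred fun a => Ok (I a) (N a) (s a) (c a) :=
  RE.or (RE.mem_list (hs.pair hc) hI) (RE.mem_list hc hN)

theorem re_readsL {q : α → Prop} (hM : Computable M) (hs : Computable s) (hq : REPred q) :
    REPred fun a => (readsL (M a) (s a) → q a) := by
  have hk : Computable fun a => kind (M a) (s a) :=
    Computable.list_getElem?.comp (Computable.fst.comp (Computable.snd.comp hM)) hs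
  refine (RE.and (re_impEq hk (Computable.const (some 0)) hq)
    (re_impEq hk (Computable.const (some 3)) hq)).of_eq fun a => ?_
  exact or_imp.symm

theorem re_readsR {q : α → Prop} (hM : Computable M) (hs : Computable s) (hq : REPred q) :
    REPred fun a => (readsR (M a) (s a) → q a) := by
  have hk : Computable fun a => kind (M a) (s a) :=
    Computable.list_getElem?.comp (Computable.fst.comp (Computable.snd.comp hM)) hs
  refine (RE.and (re_impEq hk (Computable.const (some 1)) hq)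
    (re_impEq hk (Computable.const (some 2)) hq)).of_eq fun a => ?_
  exact or_imp.symm

end ReH2

section Cl2

variable {α : Type*} [Primcodable α]
variable {τ₁ τ₂ D : α → NTA} {M : α → AAut} {I : α → List (ℕ × Cfg)} {N : α → List Cfg}
  {s : α → ℕ} {c : α → Cfg}

theorem arr {τ : α → NTA} (h : Computable τ) : Computable fun a => (τ a).2.2 :=
  Computable.snd.comp (Computable.snd.comp h)

abbrev F {α β : Type*} [Primcodable α] [Primcodable β] : Computable (@Prod.fst α β) :=
  Computable.fst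
abbrev S {α β : Type*} [Primcodable α] [Primcodable β] : Computable (@Prod.snd α β) :=
  Computable.snd

theorem re_closed2 (h1 : Computable τ₁) (h2 : Computable τ₂) (hD : Computable D)
    (hN : Computable N) (hc : Computable c) :
    REPred fun a => Closed2 (τ₁ a) (τ₂ a) (D a) (N a) (c a) := by
  unfold Closed2
  refine RE.and ?_ (RE.and ?_ (RE.and ?_ (RE.and ?_ (RE.and ?_ ?_))))
  · refine re_all (p := fun a e => e.1 = (c a).1 → (e.2.1 = 0 ∨ e.2.1 = 1) →
      (e.2.2.2, (c a).2) ∈ N a) (arr h1) ?_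
    have hm : REPred fun x : α × Arr => (x.2.2.2.2, (c x.1).2) ∈ N x.1 :=
      RE.mem_list ((e4 S).pair (cs1 (hc.comp F))) (hN.comp F)
    refine re_impEq (e1 S) (c1 (hc.comp F)) ?_
    exact (RE.and (re_impEq (e2 S) (Computable.const 0) hm)
      (re_impEq (e2 S) (Computable.const 1) hm)).of_eq fun a => or_imp.symm
  · refine re_all (p := fun a e => e.1 = (c a).2.1 → (e.2.1 = 0 ∨ e.2.1 = 2) →
      ((c a).1, e.2.2.2, (c a).2.2) ∈ N a) (arr h2) ?_
    have hm : REPred fun x : α × Arr => ((c x.1).1, x.2.2.2.2, (c x.1).2.2) ∈ N x.1 :=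
      RE.mem_list ((c1 (hc.comp F)).pair ((e4 S).pair (cs2 (hc.comp F)))) (hN.comp F)
    refine re_impEq (e1 S) (c2 (hc.comp F)) ?_
    exact (RE.and (re_impEq (e2 S) (Computable.const 0) hm)
      (re_impEq (e2 S) (Computable.const 2) hm)).of_eq fun a => or_imp.symm
  · refine re_all (p := fun a e => e.1 = (c a).1 → e.2.1 = 2 →
      (c a).2.2.2.2.head? = some e.2.2.1 →
      (e.2.2.2, (c a).2.1, (c a).2.2.1, (c a).2.2.2.1, (c a).2.2.2.2.tail) ∈ N a) (arr h1) ?_
    refine re_impEq (e1 S) (c1 (hc.comp F)) ?_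
    refine re_impEq (e2 S) (Computable.const 2) ?_
    refine re_impEq (hd (c5 (hc.comp F))) (sm (e3 S)) ?_
    exact RE.mem_list ((e4 S).pair ((c2 (hc.comp F)).pair ((c3 (hc.comp F)).pair
      ((c4 (hc.comp F)).pair (tl (c5 (hc.comp F))))))) (hN.comp F)
  · refine re_all (p := fun a e => e.1 = (c a).2.1 → e.2.1 = 1 →
      (c a).2.2.2.1.head? = some e.2.2.1 →
      ((c a).1, e.2.2.2, (c a).2.2.1, (c a).2.2.2.1.tail, (c a).2.2.2.2) ∈ N a) (arr h2) ?_
    refine re_impEq (e1 S) (c2 (hc.comp F)) ?_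
    refine re_impEq (e2 S) (Computable.const 1) ?_
    refine re_impEq (hd (c4 (hc.comp F))) (sm (e3 S)) ?_
    exact RE.mem_list ((c1 (hc.comp F)).pair ((e4 S).pair ((c3 (hc.comp F)).pair
      ((tl (c4 (hc.comp F))).pair (c5 (hc.comp F)))))) (hN.comp F)
  · refine re_impEq (c4 hc) (Computable.const []) ?_
    refine re_impEq (c5 hc) (Computable.const []) ?_
    refine re_all (p := fun a e => e.1 = (c a).1 → e.2.1 = 2 →
      ∀ e' ∈ (τ₂ a).2.2, e'.1 = (c a).2.1 → e'.2.1 = 1 → e'.2.2.1 = e.2.2.1 →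
      ∀ g ∈ (D a).2.2, g.1 = (c a).2.2.1 → g.2.1 = 1 → g.2.2.1 = e.2.2.1 →
      (e.2.2.2, e'.2.2.2, g.2.2.2, [], []) ∈ N a) (arr h1) ?_
    refine re_impEq (e1 S) (c1 (hc.comp F)) ?_
    refine re_impEq (e2 S) (Computable.const 2) ?_
    refine re_all (p := fun (x : α × Arr) e' => e'.1 = (c x.1).2.1 → e'.2.1 = 1 →
      e'.2.2.1 = x.2.2.2.1 →
      ∀ g ∈ (D x.1).2.2, g.1 = (c x.1).2.2.1 → g.2.1 = 1 → g.2.2.1 = x.2.2.2.1 →
      (x.2.2.2.2, e'.2.2.2, g.2.2.2, [], []) ∈ N x.1) (arr (h2.comp F)) ?_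
    refine re_impEq (e1 S) (c2 (hc.comp (F.comp F))) ?_
    refine re_impEq (e2 S) (Computable.const 1) ?_
    refine re_impEq (e3 S) (e3 (S.comp F)) ?_
    refine re_all (p := fun (x : (α × Arr) × Arr) g => g.1 = (c x.1.1).2.2.1 → g.2.1 = 1 →
      g.2.2.1 = x.1.2.2.2.1 →
      (x.1.2.2.2.2, x.2.2.2.2, g.2.2.2, [], []) ∈ N x.1.1) (arr (hD.comp (F.comp F))) ?_
    refine re_impEq (e1 S) (c3 (hc.comp (F.comp (F.comp F)))) ?_
    refine re_impEq (e2 S) (Computable.const 1) ?_
    refine re_impEq (e3 S) (e3 (S.comp (F.comp F))) ?_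
    exact RE.mem_list ((e4 (S.comp (F.comp F))).pair ((e4 (S.comp F)).pair ((e4 S).pair
      ((Computable.const []).pair (Computable.const []))))) (hN.comp (F.comp (F.comp F)))
  · refine (RE.or (RE.ne (c1 hc) (Computable.fst.comp (Computable.snd.comp h1))) (RE.or
      (RE.ne (c2 hc) (Computable.fst.comp (Computable.snd.comp h2))) (RE.or
      (RE.ne (c3 hc) (Computable.fst.comp (Computable.snd.comp hD))) (RE.or
      (RE.ne (c4 hc) (Computable.const [])) (RE.ne (c5 hc) (Computable.const [])))))).of_eq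
      fun a => ?_
    simp only [not_and_or]

theorem re_closed1 (h1 : Computable τ₁) (h2 : Computable τ₂) (hD : Computable D)
    (hM : Computable M) (hI : Computable I)
    (hN : Computable N) (hs : Computable s) (hc : Computable c) :
    REPred fun a => Closed1 (τ₁ a) (τ₂ a) (D a) (M a) (I a) (N a) (s a) (c a) := by
  unfold Closed1
  refine RE.and ?_ (RE.and ?_ (RE.and ?_ (RE.and ?_ (RE.and ?_ (RE.and ?_ (RE.and ?_ ?_))))))
  · refine re_all (p := fun a e => e.1 = (c a).1 → e.2.1 = 0 →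
      Ok (I a) (N a) (s a) (e.2.2.2, (c a).2)) (arr h1) ?_
    refine re_impEq (e1 S) (c1 (hc.comp F)) ?_
    refine re_impEq (e2 S) (Computable.const 0) ?_
    exact re_ok (hI.comp F) (hN.comp F) (hs.comp F) ((e4 S).pair (cs1 (hc.comp F)))
  · refine re_all (p := fun a e => e.1 = (c a).2.1 → e.2.1 = 0 →
      Ok (I a) (N a) (s a) ((c a).1, e.2.2.2, (c a).2.2)) (arr h2) ?_
    refine re_impEq (e1 S) (c2 (hc.comp F)) ?_
    refine re_impEq (e2 S) (Computable.const 0) ?_
    exact re_ok (hI.comp F) (hN.comp F) (hs.comp F)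
      ((c1 (hc.comp F)).pair ((e4 S).pair (cs2 (hc.comp F))))
  · refine re_all (p := fun a e => e.1 = (c a).1 → e.2.1 = 2 →
      (c a).2.2.2.2.head? = some e.2.2.1 →
      Ok (I a) (N a) (s a)
        (e.2.2.2, (c a).2.1, (c a).2.2.1, (c a).2.2.2.1, (c a).2.2.2.2.tail)) (arr h1) ?_
    refine re_impEq (e1 S) (c1 (hc.comp F)) ?_
    refine re_impEq (e2 S) (Computable.const 2) ?_
    refine re_impEq (hd (c5 (hc.comp F))) (sm (e3 S)) ?_
    exact re_ok (hI.comp F) (hN.comp F) (hs.comp F)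
      ((e4 S).pair ((c2 (hc.comp F)).pair ((c3 (hc.comp F)).pair
      ((c4 (hc.comp F)).pair (tl (c5 (hc.comp F)))))))
  · refine re_all (p := fun a e => e.1 = (c a).2.1 → e.2.1 = 1 →
      (c a).2.2.2.1.head? = some e.2.2.1 →
      Ok (I a) (N a) (s a)
        ((c a).1, e.2.2.2, (c a).2.2.1, (c a).2.2.2.1.tail, (c a).2.2.2.2)) (arr h2) ?_
    refine re_impEq (e1 S) (c2 (hc.comp F)) ?_
    refine re_impEq (e2 S) (Computable.const 1) ?_
    refine re_impEq (hd (c4 (hc.comp F))) (sm (e3 S)) ?_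
    exact re_ok (hI.comp F) (hN.comp F) (hs.comp F)
      ((c1 (hc.comp F)).pair ((e4 S).pair ((c3 (hc.comp F)).pair
      ((tl (c4 (hc.comp F))).pair (c5 (hc.comp F))))))
  · refine re_impEq (c5 hc) (Computable.const []) ?_
    refine re_all (p := fun a e => e.1 = (c a).1 → e.2.1 = 2 →
      ∀ g ∈ (D a).2.2, g.1 = (c a).2.2.1 → g.2.1 = 1 → g.2.2.1 = e.2.2.1 →
      Ok (I a) (N a) (s a)
        (e.2.2.2, (c a).2.1, g.2.2.2, (c a).2.2.2.1 ++ [e.2.2.1], [])) (arr h1) ?_
    refine re_impEq (e1 S) (c1 (hc.comp F)) ?_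
    refine re_impEq (e2 S) (Computable.const 2) ?_
    refine re_all (p := fun (x : α × Arr) g => g.1 = (c x.1).2.2.1 → g.2.1 = 1 →
      g.2.2.1 = x.2.2.2.1 →
      Ok (I x.1) (N x.1) (s x.1)
        (x.2.2.2.2, (c x.1).2.1, g.2.2.2, (c x.1).2.2.2.1 ++ [x.2.2.2.1], []))
      (arr (hD.comp F)) ?_
    refine re_impEq (e1 S) (c3 (hc.comp (F.comp F))) ?_
    refine re_impEq (e2 S) (Computable.const 1) ?_
    refine re_impEq (e3 S) (e3 (S.comp F)) ?_
    exact re_ok (hI.comp (F.comp F)) (hN.comp (F.comp F)) (hs.comp (F.comp F))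
      ((e4 (S.comp F)).pair ((c2 (hc.comp (F.comp F))).pair ((e4 S).pair
      ((app (c4 (hc.comp (F.comp F))) (e3 (S.comp F))).pair (Computable.const [])))))
  · refine re_impEq (c4 hc) (Computable.const []) ?_
    refine re_all (p := fun a e => e.1 = (c a).2.1 → e.2.1 = 1 →
      ∀ g ∈ (D a).2.2, g.1 = (c a).2.2.1 → g.2.1 = 1 → g.2.2.1 = e.2.2.1 →
      Ok (I a) (N a) (s a)
        ((c a).1, e.2.2.2, g.2.2.2, [], (c a).2.2.2.2 ++ [e.2.2.1])) (arr h2) ?_
    refine re_impEq (e1 S) (c2 (hc.comp F)) ?_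
    refine re_impEq (e2 S) (Computable.const 1) ?_
    refine re_all (p := fun (x : α × Arr) g => g.1 = (c x.1).2.2.1 → g.2.1 = 1 →
      g.2.2.1 = x.2.2.2.1 →
      Ok (I x.1) (N x.1) (s x.1)
        ((c x.1).1, x.2.2.2.2, g.2.2.2, [], (c x.1).2.2.2.2 ++ [x.2.2.2.1]))
      (arr (hD.comp F)) ?_
    refine re_impEq (e1 S) (c3 (hc.comp (F.comp F))) ?_
    refine re_impEq (e2 S) (Computable.const 1) ?_
    refine re_impEq (e3 S) (e3 (S.comp F)) ?_
    exact re_ok (hI.comp (F.comp F)) (hN.comp (F.comp F)) (hs.comp (F.comp F))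
      ((c1 (hc.comp (F.comp F))).pair ((e4 (S.comp F)).pair ((e4 S).pair
      ((Computable.const []).pair (app (c5 (hc.comp (F.comp F))) (e3 (S.comp F)))))))
  · refine re_readsL hM hs ?_
    refine re_all (p := fun a e => e.1 = (c a).1 → e.2.1 = 1 →
      ((∃ m ∈ (M a).2.2, m.1 = s a ∧ m.2.1 = e.2.2.1 ∧ (m.2.2, e.2.2.2, (c a).2) ∈ I a) ∨
      (e.2.2.2, (c a).2) ∈ N a)) (arr h1) ?_
    refine re_impEq (e1 S) (c1 (hc.comp F)) ?_
    refine re_impEq (e2 S) (Computable.const 1) ?_
    refine RE.or ?_ (RE.mem_list ((e4 S).pair (cs1 (hc.comp F))) (hN.comp F))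
    refine RE.ex_mem (p := fun (x : α × Arr) (m : ℕ × Sym × ℕ) => m.1 = s x.1 ∧
      m.2.1 = x.2.2.2.1 ∧ (m.2.2, x.2.2.2.2, (c x.1).2) ∈ I x.1) ?_
      (Computable.snd.comp (Computable.snd.comp (hM.comp F)))
    refine RE.and (RE.eq (Computable.fst.comp S) (hs.comp (F.comp F)))
      (RE.and (RE.eq (Computable.fst.comp (Computable.snd.comp S)) (e3 (S.comp F))) ?_)
    exact RE.mem_list ((Computable.snd.comp (Computable.snd.comp S)).pair
      ((e4 (S.comp F)).pair (cs1 (hc.comp (F.comp F))))) (hI.comp (F.comp F))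
  · refine re_readsR hM hs ?_
    refine re_all (p := fun a e => e.1 = (c a).2.1 → e.2.1 = 2 →
      ((∃ m ∈ (M a).2.2, m.1 = s a ∧ m.2.1 = e.2.2.1 ∧
        (m.2.2, (c a).1, e.2.2.2, (c a).2.2) ∈ I a) ∨
      ((c a).1, e.2.2.2, (c a).2.2) ∈ N a)) (arr h2) ?_
    refine re_impEq (e1 S) (c2 (hc.comp F)) ?_
    refine re_impEq (e2 S) (Computable.const 2) ?_
    refine RE.or ?_ (RE.mem_list ((c1 (hc.comp F)).pair ((e4 S).pair (cs2 (hc.comp F))))
      (hN.comp F))
    refine RE.ex_mem (p := fun (x : α × Arr) (m : ℕ × Sym × ℕ) => m.1 = s x.1 ∧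
      m.2.1 = x.2.2.2.1 ∧ (m.2.2, (c x.1).1, x.2.2.2.2, (c x.1).2.2) ∈ I x.1) ?_
      (Computable.snd.comp (Computable.snd.comp (hM.comp F)))
    refine RE.and (RE.eq (Computable.fst.comp S) (hs.comp (F.comp F)))
      (RE.and (RE.eq (Computable.fst.comp (Computable.snd.comp S)) (e3 (S.comp F))) ?_)
    exact RE.mem_list ((Computable.snd.comp (Computable.snd.comp S)).pair
      ((c1 (hc.comp (F.comp F))).pair ((e4 (S.comp F)).pair (cs2 (hc.comp (F.comp F))))))
      (hI.comp (F.comp F))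

/-- The body of the check, with parameters from an arbitrary type. -/
theorem re_body {α : Type} [Primcodable α] {τ₁ τ₂ D : α → NTA} {M : α → AAut}
    {I : α → List (ℕ × Cfg)} {N : α → List Cfg}
    (h1 : Computable τ₁) (h2 : Computable τ₂) (hD : Computable D)
    (hM : Computable M) (hI : Computable I) (hN : Computable N) :
    REPred fun a => ((M a).1, (τ₁ a).1, (τ₂ a).1, (D a).1, [], []) ∈ I a ∧
      (∀ c ∈ N a, Closed2 (τ₁ a) (τ₂ a) (D a) (N a) c) ∧
      (∀ p ∈ I a, Closed1 (τ₁ a) (τ₂ a) (D a) (M a) (I a) (N a) p.1 p.2) := by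
  refine RE.and ?_ (RE.and ?_ ?_)
  · exact RE.mem_list ((Computable.fst.comp hM).pair ((Computable.fst.comp h1).pair
      ((Computable.fst.comp h2).pair ((Computable.fst.comp hD).pair
      ((Computable.const []).pair (Computable.const [])))))) hI
  · refine RE.all_mem (p := fun (z : α) (c : Cfg) => Closed2 (τ₁ z) (τ₂ z) (D z) (N z) c) ?_ hN
    exact re_closed2 (h1.comp F) (h2.comp F) (hD.comp F) (hN.comp F) S
  · refine RE.all_mem (p := fun (z : α) (p : ℕ × Cfg) =>
      Closed1 (τ₁ z) (τ₂ z) (D z) (M z) (I z) (N z) p.1 p.2) ?_ hI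
    exact re_closed1 (h1.comp F) (h2.comp F) (hD.comp F) (hM.comp F) (hI.comp F) (hN.comp F)
      (Computable.fst.comp S) (Computable.snd.comp S)

end Cl2

/-- JOB H2. The inclusion check is recursively enumerable. -/
theorem re_checkOK :
    REPred (fun x : NTA × NTA × NTA × AAut => CheckOK x.1 x.2.1 x.2.2.1 x.2.2.2) := by
  unfold CheckOK
  refine RE.ex (p := fun (x : NTA × NTA × NTA × AAut) (I : List (ℕ × Cfg)) =>
    ∃ N : List Cfg,
    (x.2.2.2.1, x.1.1, x.2.1.1, x.2.2.1.1, [], []) ∈ I ∧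
    (∀ c ∈ N, Closed2 x.1 x.2.1 x.2.2.1 N c) ∧
    (∀ p ∈ I, Closed1 x.1 x.2.1 x.2.2.1 x.2.2.2 I N p.1 p.2)) ?_
  refine RE.ex (p := fun (y : (NTA × NTA × NTA × AAut) × List (ℕ × Cfg)) (N : List Cfg) =>
    (y.1.2.2.2.1, y.1.1.1, y.1.2.1.1, y.1.2.2.1.1, [], []) ∈ y.2 ∧
    (∀ c ∈ N, Closed2 y.1.1 y.1.2.1 y.1.2.2.1 N c) ∧
    (∀ p ∈ y.2, Closed1 y.1.1 y.1.2.1 y.1.2.2.1 y.1.2.2.2 y.2 N p.1 p.2)) ?_
  have hx : Computable fun z : ((NTA × NTA × NTA × AAut) × List (ℕ × Cfg)) × List Cfg =>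
      z.1.1 := F.comp F
  have t1 : Computable fun z : ((NTA × NTA × NTA × AAut) × List (ℕ × Cfg)) × List Cfg =>
      z.1.1.1 := Computable.fst.comp hx
  have t2 : Computable fun z : ((NTA × NTA × NTA × AAut) × List (ℕ × Cfg)) × List Cfg =>
      z.1.1.2.1 := Computable.fst.comp (Computable.snd.comp hx)
  have t3 : Computable fun z : ((NTA × NTA × NTA × AAut) × List (ℕ × Cfg)) × List Cfg =>
      z.1.1.2.2.1 := Computable.fst.comp (Computable.snd.comp (Computable.snd.comp hx))
  have t4 : Computable fun z : ((NTA × NTA × NTA × AAut) × List (ℕ × Cfg)) × List Cfg =>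
      z.1.1.2.2.2 := Computable.snd.comp (Computable.snd.comp (Computable.snd.comp hx))
  have hI : Computable fun z : ((NTA × NTA × NTA × AAut) × List (ℕ × Cfg)) × List Cfg =>
      z.1.2 := S.comp F
  exact re_body t1 t2 t3 t4 hI S

end Pool.Agent.Helper632.AAR
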