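import Pool.Agent.Helper632.AAR.NTA
import Pool.Agent.Helper632.AAR.Base

namespace Pool.Agent.Helper632.AAR

theorem fpath_lt {n : ℕ} {W : FAut} (hW : FWF n W) {s t : ℕ} {u : List ℕ} (h : FPath W s u t) :
    ∀ a ∈ u, a < n := by
  induction h with
  | nil s => intro a ha; simp at ha
  | cons he _ ih =>
    intro b hb
    rcases List.mem_cons.1 hb with rfl | hb
    · exact hW _ he
    · exact ih b hb

theorem run_right_nil {T : List Arr} (hT : ∀ e ∈ T, e.2.1 = 1) {s t : ℕ} {U V : List Sym}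
    (h : Run T s U V t) : V = [] := by
  induction h with
  | nil s => rfl
  | eps he _ ih => exact ih
  | left he _ ih => exact ih
  | right he _ _ =>
    have := hT _ he
    simp at this

theorem em_splitC {A U : List Sym} {a : ℕ} : ∀ {w : List ℕ}, A ++ some a :: U = em w →
    ∃ c₁, U = em c₁ ∧ a ∈ w ∧ ∀ b ∈ c₁, b ∈ w := by
  induction A with
  | nil =>
    intro w h
    cases w with
    | nil => simp [em] at h
    | cons b w =>
      have h' : some a :: U = some b :: em w := h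
      rw [List.cons.injEq] at h'
      obtain ⟨h1, h2⟩ := h'
      rw [Option.some.injEq] at h1
      subst h1
      exact ⟨w, h2, List.mem_cons_self, fun x hx => List.mem_cons_of_mem _ hx⟩
  | cons x A ih =>
    intro w h
    cases w with
    | nil => simp [em] at h
    | cons b w =>
      have h' : x :: (A ++ some a :: U) = some b :: em w := h
      rw [List.cons.injEq] at h'
      obtain ⟨h1, h2⟩ := h'
      obtain ⟨c₁, h3, h4, h5⟩ := ih h2
      exact ⟨c₁, h3, List.mem_cons_of_mem _ h4, fun x hx => List.mem_cons_of_mem _ (h5 x hx)⟩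

theorem mem_em_some {b : ℕ} {c : List ℕ} : some b ∈ em c ↔ b ∈ c := by
  simp [em]

/-- JOB G2c. -/
theorem complOK_of (d : Data) (hd : DWF d) (D : NTA) (hD1 : ∀ e ∈ D.2.2, e.2.1 = 1)
    (hDW : ∀ U, Rel D U [] → ∃ w ∈ FLang d.2.1, U = em w) (hne : ∃ U, Rel D U [])
    (hP : ∀ (q : ℕ) (c : List ℕ) (a : ℕ) (c' : List ℕ), (∀ b ∈ c, b < d.1) → (∀ b ∈ c', b < d.1) →
      a < d.1 → Run D.2.2 q (em c) [] D.2.1 → (∃ P, Run D.2.2 D.1 P [] q) →
      (∀ P, Run D.2.2 D.1 P [] q → Run D.2.2 D.1 (P ++ some a :: em c') [] D.2.1) →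
      PrefCheck d D q c a c') : ComplOK d D := by
  classical
  obtain ⟨X, hX, hXc⟩ := dead_complete D (fun e he => Or.inr (Or.inl (hD1 e he)))
  -- letters of accepted words
  have hlet : ∀ U, Run D.2.2 D.1 U [] D.2.1 → ∀ b, some b ∈ U → b < d.1 := by
    intro U hU b hb
    obtain ⟨w, hw, rfl⟩ := hDW U hU
    obtain ⟨f, _, hf⟩ := hw
    exact fpath_lt hd.W hf b (mem_em_some.1 hb)
  let Pq : ℕ → Prop := fun q => (∃ P, Run D.2.2 D.1 P [] q) ∧ ∃ c, Run D.2.2 q (em c) [] D.2.1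
  have hc : ∀ q : ℕ, ∃ c : List ℕ, (Pq q → Run D.2.2 q (em c) [] D.2.1) ∧
      (Run D.2.2 q (em []) [] D.2.1 → c = []) := by
    intro q
    by_cases h1 : Run D.2.2 q (em []) [] D.2.1
    · exact ⟨[], fun _ => h1, fun _ => rfl⟩
    · by_cases h2 : Pq q
      · obtain ⟨_, c, hc⟩ := h2
        exact ⟨c, fun _ => hc, fun h => absurd h h1⟩
      · exact ⟨[], fun h => absurd h h2, fun _ => rfl⟩
  choose c hc1 hc2 using hc
  have hmemC : ∀ q, q ∈ sts D → Pq q →
      (q, c q) ∈ ((sts D).filter (fun q => decide (Pq q))).map (fun q => (q, c q)) := by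
    intro q hq hp
    exact List.mem_map.2 ⟨q, List.mem_filter.2 ⟨hq, by simpa using hp⟩, rfl⟩
  have hofC : ∀ p ∈ ((sts D).filter (fun q => decide (Pq q))).map (fun q => (q, c q)),
      Pq p.1 ∧ p.2 = c p.1 := by
    intro p hp
    obtain ⟨q, hq, rfl⟩ := List.mem_map.1 hp
    have := (List.mem_filter.1 hq).2
    exact ⟨by simpa using this, rfl⟩
  refine ⟨((sts D).filter (fun q => decide (Pq q))).map (fun q => (q, c q)), X, hX, ?_, ?_, ?_, ?_⟩
  · refine ⟨(D.1, c D.1), hmemC D.1 (by simp [sts]) ?_, rfl⟩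
    refine ⟨⟨[], Run.nil _⟩, ?_⟩
    obtain ⟨U, hU⟩ := hne
    obtain ⟨w, _, rfl⟩ := hDW U hU
    exact ⟨w, hU⟩
  · intro p hp
    obtain ⟨h1, h2⟩ := hofC p hp
    rw [h2]
    exact hc1 _ h1
  · intro p hp e he h1 h2 h3 h4
    obtain ⟨h5, h6⟩ := hofC p hp
    rw [h6]
    refine hc2 _ ?_
    have he' : (p.1, 1, none, D.2.1) ∈ D.2.2 := by
      rw [← h1, ← h2, ← h3, ← h4]; exact he
    exact Run.left he' (Run.nil _)
  · intro p hp e he h1 h2 h3 a ha
    obtain ⟨⟨⟨P, hPr⟩, h5⟩, h6⟩ := hofC p hp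
    have ha' : e.2.2.1 = some a := ha
    have he' : (p.1, 1, some a, e.2.2.2) ∈ D.2.2 := by
      rw [← h1, ← h2, ← ha']; exact he
    have hstep : ∀ R, Run D.2.2 e.2.2.2 R [] D.2.1 → ∀ P, Run D.2.2 D.1 P [] p.1 →
        Run D.2.2 D.1 (P ++ some a :: R) [] D.2.1 := by
      intro R hR P hP'
      have := run_append hP' (Run.left he' hR)
      simpa using this
    obtain ⟨R, V, hRV⟩ := hXc e.2.2.2 (List.mem_map.2 ⟨e, he, rfl⟩) h3
    have hV : V = [] := run_right_nil hD1 hRV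
    subst hV
    obtain ⟨w, hw, hw2⟩ := hDW _ (hstep R hRV P hPr)
    obtain ⟨c₁, hR1, _, _⟩ := em_splitC hw2
    subst hR1
    have hPt : Pq e.2.2.2 := by
      refine ⟨⟨P ++ [some a], ?_⟩, c₁, hRV⟩
      have := run_append hPr (Run.left he' (Run.nil _))
      simpa using this
    have hts : e.2.2.2 ∈ sts D := by
      refine List.mem_cons_of_mem _ (List.mem_cons_of_mem _ (List.mem_append_right _ ?_))
      exact List.mem_map.2 ⟨e, he, rfl⟩
    refine ⟨(e.2.2.2, c e.2.2.2), hmemC _ hts hPt, rfl, ?_⟩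
    rw [h6]
    have hcq : Run D.2.2 p.1 (em (c p.1)) [] D.2.1 := hc1 _ ⟨⟨P, hPr⟩, h5⟩
    have hct : Run D.2.2 e.2.2.2 (em (c e.2.2.2)) [] D.2.1 := hc1 _ hPt
    refine hP p.1 (c p.1) a (c e.2.2.2) ?_ ?_ ?_ hcq ⟨P, hPr⟩ (hstep _ hct)
    · intro b hb
      have h7 := run_append hPr hcq
      refine hlet _ (by simpa using h7) b ?_
      exact List.mem_append_right _ (mem_em_some.2 hb)
    · intro b hb
      refine hlet _ (hstep _ hct P hPr) b ?_
      exact List.mem_append_right _ (List.mem_cons_of_mem _ (mem_em_some.2 hb))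
    · refine hlet _ (hstep _ hct P hPr) a ?_
      exact List.mem_append_right _ List.mem_cons_self

end Pool.Agent.Helper632.AAR
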