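import Mathlib

/-!
Asynchronous automatic structures: tables for finite state automata and for asynchronous
(deterministic two-tape) automata, and the definition of an asynchronous automatic structure.
Letters and states are natural numbers.
-/

namespace Pool.Agent.Helper632.AAR

/-- A symbol on a tape: `some a` is the letter `a`, `none` is the end-of-string symbol `$`. -/
abbrev Sym := Option ℕ

/-- The word `u` followed by the end-of-string symbol. -/
def em (u : List ℕ) : List Sym := u.map some ++ [none]

/-- A (possibly nondeterministic) finite state automaton, given by its start state, the list of its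
accept states and the list of its arrows `(source, letter, target)`. -/
abbrev FAut := ℕ × List ℕ × List (ℕ × ℕ × ℕ)

/-- `FPath W s u t`: some path of `W` from the state `s` to the state `t` reads `u`. -/
inductive FPath (W : FAut) : ℕ → List ℕ → ℕ → Prop
  | nil (s : ℕ) : FPath W s [] s
  | cons {s a t r : ℕ} {u : List ℕ} : (s, a, t) ∈ W.2.2 → FPath W t u r → FPath W s (a :: u) r

/-- The language accepted by a finite state automaton. -/
def FLang (W : FAut) : Set (List ℕ) := {u | ∃ f ∈ W.2.1, FPath W W.1 u f}

/-- All arrows of `W` are labelled by letters of the alphabet `{0, ..., n - 1}`. -/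
def FWF (n : ℕ) (W : FAut) : Prop := ∀ e ∈ W.2.2, e.2.1 < n

/-- The table of an asynchronous two-tape automaton: start state, list of kinds (the `s`-th entry
is the kind of the state `s`), list of arrows `(source, symbol, target)`.
The kinds are
`0` for `S_L` (nothing has ended, the left tape is read next),
`1` for `S_R` (nothing has ended, the right tape is read next),
`2` for `S_L^$` (the symbol `$` of the left tape has been read, the right tape is read next),
`3` for `S_R^$` (the symbol `$` of the right tape has been read, the left tape is read next),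
`4` for `S^$` (both symbols `$` have been read). -/
abbrev AAut := ℕ × List (Fin 5) × List (ℕ × Sym × ℕ)

/-- The kind of a state (`none` if it is not a state). -/
def kind (M : AAut) (s : ℕ) : Option (Fin 5) := M.2.1[s]?

/-- The arrow `(s, a, t)` obeys the rules for arrows of an asynchronous automaton
over the alphabet `{0, ..., n - 1}`. -/
def ArrowOK (n : ℕ) (M : AAut) (e : ℕ × Sym × ℕ) : Prop :=
  ((∃ b < n, e.2.1 = some b) ∧
      (((kind M e.1 = some 0 ∨ kind M e.1 = some 1) ∧
          (kind M e.2.2 = some 0 ∨ kind M e.2.2 = some 1)) ∨
        (kind M e.1 = some 2 ∧ kind M e.2.2 = some 2) ∨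
        (kind M e.1 = some 3 ∧ kind M e.2.2 = some 3))) ∨
    (e.2.1 = none ∧
      ((kind M e.1 = some 0 ∧ kind M e.2.2 = some 2) ∨
        (kind M e.1 = some 1 ∧ kind M e.2.2 = some 3) ∨
        ((kind M e.1 = some 2 ∨ kind M e.1 = some 3) ∧ kind M e.2.2 = some 4)))

/-- `M` is (the table of) an asynchronous automaton over the alphabet `{0, ..., n - 1}`. -/
structure AWF (n : ℕ) (M : AAut) : Prop where
  start : kind M M.1 = some 0 ∨ kind M M.1 = some 1
  accept : ∃! s, kind M s = some 4
  arrows : ∀ e ∈ M.2.2, ArrowOK n M e
  det : ∀ e ∈ M.2.2, ∀ e' ∈ M.2.2, e.1 = e'.1 → e.2.1 = e'.2.1 → e.2.2 = e'.2.2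

/-- The states from which a symbol of the left tape is read next. -/
def readsL (M : AAut) (s : ℕ) : Prop := kind M s = some 0 ∨ kind M s = some 3

/-- The states from which a symbol of the right tape is read next. -/
def readsR (M : AAut) (s : ℕ) : Prop := kind M s = some 1 ∨ kind M s = some 2

/-- `Acc M s U V`: starting in the state `s`, the automaton can read the tapes `U` (left) and `V`
(right) completely, each symbol from the tape that the current state prescribes, and then be
in the accept state. -/
inductive Acc (M : AAut) : ℕ → List Sym → List Sym → Prop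
  | done {s : ℕ} : kind M s = some 4 → Acc M s [] []
  | left {s t : ℕ} {a : Sym} {U V : List Sym} : readsL M s → (s, a, t) ∈ M.2.2 → Acc M t U V →
      Acc M s (a :: U) V
  | right {s t : ℕ} {a : Sym} {U V : List Sym} : readsR M s → (s, a, t) ∈ M.2.2 → Acc M t U V →
      Acc M s U (a :: V)

/-- The pair of words `(u, v)` is accepted by the asynchronous automaton `M`. -/
def ALang (M : AAut) (u v : List ℕ) : Prop := Acc M M.1 (em u) (em v)

/-- The input: the size `n` of the alphabet `A = {0, ..., n - 1}`, the finite state automaton `W`,
the automaton `M_ε` and the list of the automata `M_x`, `x ∈ A`. -/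
abbrev Data := ℕ × FAut × AAut × List AAut

/-- The automaton `M_x` for `x ∈ A ∪ {ε}` (`none` stands for `ε`). -/
def mult (d : Data) : Option ℕ → AAut
  | none => d.2.2.1
  | some x => d.2.2.2.getD x d.2.2.1

/-- The input consists of automata over `A`. -/
structure DWF (d : Data) : Prop where
  W : FWF d.1 d.2.1
  eps : AWF d.1 d.2.2.1
  len : d.2.2.2.length = d.1
  mults : ∀ M ∈ d.2.2.2, AWF d.1 M

/-- The element of `G` represented by a word, `π a` being the generator `a`. -/
def val {G : Type*} [Monoid G] (π : ℕ → G) (u : List ℕ) : G := (u.map π).prod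

/-- The element of `G` added by `x ∈ A ∪ {ε}`. -/
def gen {G : Type*} [Monoid G] (π : ℕ → G) : Option ℕ → G
  | none => 1
  | some x => π x

/-- `x` is an element of `A ∪ {ε}`, `A = {0, ..., n - 1}`. -/
def InA (n : ℕ) : Option ℕ → Prop
  | none => True
  | some x => x < n

/-- The automata in `d` form an asynchronous automatic structure for the group `G` with respect to
the finite set of monoid generators `π 0, ..., π (n - 1)`. -/
structure IsStructure (G : Type*) [Group G] (π : ℕ → G) (d : Data) : Prop where
  /-- `A` generates `G` as a monoid -/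
  gen : ∀ g : G, ∃ u : List ℕ, (∀ a ∈ u, a < d.1) ∧ val π u = g
  /-- `L(W)` maps onto `G` -/
  onto : ∀ g : G, ∃ u ∈ FLang d.2.1, val π u = g
  /-- `(u, v) ∈ L(M_x)` iff `u, v ∈ L(W)` and `u x = v` in `G`, for all `x ∈ A ∪ {ε}` -/
  mult : ∀ x, InA d.1 x → ∀ u v : List ℕ,
    ALang (mult d x) u v ↔ u ∈ FLang d.2.1 ∧ v ∈ FLang d.2.1 ∧ val π u * AAR.gen π x = val π v

end Pool.Agent.Helper632.AAR
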