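import Pool.Agent.Helper632.AAR.NTA

namespace Pool.Agent.Helper632.AAR

/-- JOB A1, part 1. -/
theorem run_append {T : List Arr} {s t r : ℕ} {U V U' V' : List Sym} (h : Run T s U V t)
    (h' : Run T t U' V' r) : Run T s (U ++ U') (V ++ V') r := by
  induction h with
  | nil s => simpa using h'
  | eps hm _ ih => exact Run.eps hm (ih h')
  | left hm _ ih => exact Run.left hm (ih h')
  | right hm _ ih => exact Run.right hm (ih h')

/-- the arrow map of `inv` -/
def ivA (e : Arr) : Arr :=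
  (e.1, (if e.2.1 = 1 then 2 else if e.2.1 = 2 then 1 else e.2.1), e.2.2.1, e.2.2.2)

theorem run_inv_of {T : List Arr} {s t : ℕ} {U V : List Sym} (h : Run T s U V t) :
    Run (T.map ivA) s V U t := by
  induction h with
  | nil s => exact Run.nil s
  | eps hm _ ih => exact Run.eps (List.mem_map.2 ⟨_, hm, rfl⟩) ih
  | left hm _ ih => exact Run.right (List.mem_map.2 ⟨_, hm, rfl⟩) ih
  | right hm _ ih => exact Run.left (List.mem_map.2 ⟨_, hm, rfl⟩) ih

theorem mem_map_ivA {T : List Arr} {s k t : ℕ} {b : Sym} (h : (s, k, b, t) ∈ T.map ivA) :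
    ∃ k', (s, k', b, t) ∈ T ∧ (if k' = 1 then 2 else if k' = 2 then 1 else k') = k := by
  rw [List.mem_map] at h
  obtain ⟨⟨s', k', b', t'⟩, he, h2⟩ := h
  unfold ivA at h2
  simp only [Prod.mk.injEq] at h2
  obtain ⟨rfl, h3, rfl, rfl⟩ := h2
  exact ⟨k', he, h3⟩

theorem run_of_inv {T : List Arr} {s t : ℕ} {U V : List Sym} (h : Run (T.map ivA) s U V t) :
    Run T s V U t := by
  induction h with
  | nil s => exact Run.nil s
  | eps hm _ ih =>
    obtain ⟨k', h1, h2⟩ := mem_map_ivA hm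
    have : k' = 0 := by split_ifs at h2 <;> omega
    subst this
    exact Run.eps h1 ih
  | left hm _ ih =>
    obtain ⟨k', h1, h2⟩ := mem_map_ivA hm
    have : k' = 2 := by split_ifs at h2 <;> omega
    subst this
    exact Run.right h1 ih
  | right hm _ ih =>
    obtain ⟨k', h1, h2⟩ := mem_map_ivA hm
    have : k' = 1 := by split_ifs at h2 <;> omega
    subst this
    exact Run.left h1 ih

/-- JOB A1, part 2. -/
theorem rel_inv {τ : NTA} {U V : List Sym} : Rel (inv τ) U V ↔ Rel τ V U := by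
  constructor
  · intro h
    exact run_of_inv h
  · intro h
    exact run_inv_of h

theorem mem_copyN {n s k t : ℕ} {b : Sym} (h : (s, k, b, t) ∈ (copyN n).2.2) :
    (s = 0 ∧ k = 1 ∧ b = none ∧ t = 1) ∨ (s = 1 ∧ k = 2 ∧ b = none ∧ t = 0) ∨
    (∃ c, c < n ∧ s = 0 ∧ k = 1 ∧ b = some c ∧ t = c + 2) ∨
    (∃ c, c < n ∧ s = c + 2 ∧ k = 2 ∧ b = some c ∧ t = 0) := by
  unfold copyN at h
  simp only [List.cons_append, List.mem_cons, List.mem_append, List.mem_map, List.mem_range,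
    Prod.mk.injEq] at h
  rcases h with h | h | h | h
  · exact Or.inl h
  · exact Or.inr (Or.inl h)
  · obtain ⟨c, hc, h1, h2, h3, h4⟩ := h
    exact Or.inr (Or.inr (Or.inl ⟨c, hc, h1.symm, h2.symm, h3.symm, h4.symm⟩))
  · obtain ⟨c, hc, h1, h2, h3, h4⟩ := h
    exact Or.inr (Or.inr (Or.inr ⟨c, hc, h1.symm, h2.symm, h3.symm, h4.symm⟩))

theorem copyN_run {n : ℕ} {s t : ℕ} {U V : List Sym} (h : Run (copyN n).2.2 s U V t) (ht : t = 0) :
    (s = 0 → U = V ∧ ∀ b, some b ∈ U → b < n) ∧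
    (s = 1 → V = none :: U ∧ ∀ b, some b ∈ U → b < n) ∧
    (∀ c, s = c + 2 → V = some c :: U ∧ ∀ b, some b ∈ U → b < n) := by
  induction h with
  | nil s =>
    subst ht
    refine ⟨fun _ => ⟨rfl, by simp⟩, fun h => by omega, fun c h => by omega⟩
  | eps hm _ ih =>
    rcases mem_copyN hm with h | h | h | h
    · omega
    · omega
    · obtain ⟨c, _, _, h, _⟩ := h; omega
    · obtain ⟨c, _, _, h, _⟩ := h; omega
  | left hm _ ih =>
    obtain ⟨i0, i1, i2⟩ := ih ht
    rcases mem_copyN hm with h | h | h | h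
    · obtain ⟨rfl, _, rfl, rfl⟩ := h
      obtain ⟨j1, j2⟩ := i1 rfl
      refine ⟨fun _ => ⟨j1.symm, ?_⟩, fun h => by omega, fun c h => by omega⟩
      intro b hb
      rw [List.mem_cons] at hb
      rcases hb with hb | hb
      · cases hb
      · exact j2 b hb
    · obtain ⟨_, h, _⟩ := h; omega
    · obtain ⟨c, hc, rfl, _, rfl, rfl⟩ := h
      obtain ⟨j1, j2⟩ := i2 c rfl
      refine ⟨fun _ => ⟨j1.symm, ?_⟩, fun h => by omega, fun c h => by omega⟩
      intro b hb
      rw [List.mem_cons] at hb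
      rcases hb with hb | hb
      · cases hb; exact hc
      · exact j2 b hb
    · obtain ⟨c, _, _, h, _⟩ := h; omega
  | right hm _ ih =>
    obtain ⟨i0, i1, i2⟩ := ih ht
    rcases mem_copyN hm with h | h | h | h
    · obtain ⟨_, h, _⟩ := h; omega
    · obtain ⟨rfl, _, rfl, rfl⟩ := h
      obtain ⟨j1, j2⟩ := i0 rfl
      refine ⟨fun h => by omega, fun _ => ⟨by rw [j1], j2⟩, fun c h => by omega⟩
    · obtain ⟨c, _, _, h, _⟩ := h; omega
    · obtain ⟨c, hc, rfl, _, rfl, rfl⟩ := h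
      obtain ⟨j1, j2⟩ := i0 rfl
      refine ⟨fun h => by omega, fun h => by omega, fun c' h => ?_⟩
      have : c' = c := by omega
      subst this
      exact ⟨by rw [j1], j2⟩

theorem copyN_mk {n : ℕ} (U : List Sym) (hU : ∀ b, some b ∈ U → b < n) :
    Run (copyN n).2.2 0 U U 0 := by
  induction U with
  | nil => exact Run.nil 0
  | cons a U ih =>
    have ih' := ih (fun b hb => hU b (List.mem_cons_of_mem _ hb))
    cases a with
    | none =>
      refine Run.left (t := 1) ?_ (Run.right (t := 0) ?_ ih')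
      · unfold copyN; simp
      · unfold copyN; simp
    | some c =>
      have hc : c < n := hU c List.mem_cons_self
      refine Run.left (t := c + 2) ?_ (Run.right (t := 0) ?_ ih')
      · unfold copyN; simp [hc]
      · unfold copyN; simp [hc]

/-- JOB A1, part 3. -/
theorem rel_copyN {n : ℕ} {U V : List Sym} :
    Rel (copyN n) U V ↔ U = V ∧ ∀ b, some b ∈ U → b < n := by
  constructor
  · intro h
    exact (copyN_run h rfl).1 rfl
  · rintro ⟨rfl, h⟩
    exact copyN_mk U h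

theorem mem_wNTA {W : FAut} {s k t : ℕ} {b : Sym} (h : (s, k, b, t) ∈ (wNTA W).2.2) :
    (∃ p a q, (p, a, q) ∈ W.2.2 ∧ s = p + 1 ∧ k = 1 ∧ b = some a ∧ t = q + 1) ∨
    (∃ f ∈ W.2.1, s = f + 1 ∧ k = 1 ∧ b = none ∧ t = 0) := by
  unfold wNTA at h
  simp only [List.mem_append, List.mem_map, Prod.mk.injEq] at h
  rcases h with ⟨⟨p, a, q⟩, he, h1, h2, h3, h4⟩ | ⟨f, hf, h1, h2, h3, h4⟩
  · exact Or.inl ⟨p, a, q, he, h1.symm, h2.symm, h3.symm, h4.symm⟩
  · exact Or.inr ⟨f, hf, h1.symm, h2.symm, h3.symm, h4.symm⟩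

theorem wNTA_run {W : FAut} {s t : ℕ} {U V : List Sym} (h : Run (wNTA W).2.2 s U V t)
    (ht : t = 0) : V = [] ∧ (s = 0 → U = []) ∧
      (∀ p, s = p + 1 → ∃ u, ∃ f ∈ W.2.1, FPath W p u f ∧ U = em u) := by
  induction h with
  | nil s =>
    subst ht
    exact ⟨rfl, fun _ => rfl, fun p hp => by omega⟩
  | eps hm _ ih =>
    rcases mem_wNTA hm with ⟨_, _, _, _, _, h, _⟩ | ⟨_, _, _, h, _⟩ <;> omega
  | left hm _ ih =>
    obtain ⟨i0, i1, i2⟩ := ih ht
    rcases mem_wNTA hm with ⟨p, a, q, he, rfl, _, rfl, rfl⟩ | ⟨f, hf, rfl, _, rfl, rfl⟩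
    · refine ⟨i0, fun h => by omega, fun p' hp' => ?_⟩
      have : p' = p := by omega
      subst this
      obtain ⟨u, f, hf, hpath, rfl⟩ := i2 q rfl
      exact ⟨a :: u, f, hf, FPath.cons he hpath, rfl⟩
    · refine ⟨i0, fun h => by omega, fun p' hp' => ?_⟩
      have : p' = f := by omega
      subst this
      refine ⟨[], p', hf, FPath.nil _, ?_⟩
      rw [i1 rfl]
      rfl
  | right hm _ ih =>
    rcases mem_wNTA hm with ⟨_, _, _, _, _, h, _⟩ | ⟨_, _, _, h, _⟩ <;> omega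

theorem wNTA_mk {W : FAut} {p : ℕ} {u : List ℕ} {f : ℕ} (h : FPath W p u f) (hf : f ∈ W.2.1) :
    Run (wNTA W).2.2 (p + 1) (em u) [] 0 := by
  induction h with
  | nil s =>
    refine Run.left (t := 0) ?_ (Run.nil 0)
    unfold wNTA
    simp only [List.mem_append, List.mem_map]
    exact Or.inr ⟨s, hf, rfl⟩
  | cons he _ ih =>
    refine Run.left (t := _ + 1) ?_ (ih hf)
    unfold wNTA
    simp only [List.mem_append, List.mem_map]
    exact Or.inl ⟨_, he, rfl⟩

/-- JOB A1, part 4. -/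
theorem rel_wNTA {W : FAut} {U V : List Sym} :
    Rel (wNTA W) U V ↔ V = [] ∧ ∃ u ∈ FLang W, U = em u := by
  constructor
  · intro h
    obtain ⟨h1, _, h2⟩ := wNTA_run h rfl
    obtain ⟨u, f, hf, hp, hu⟩ := h2 W.1 rfl
    exact ⟨h1, u, ⟨f, hf, hp⟩, hu⟩
  · rintro ⟨rfl, u, ⟨f, hf, hp⟩, rfl⟩
    exact wNTA_mk hp hf

theorem kind_idx {n : ℕ} {M : AAut} (hM : AWF n M) : kind M (M.2.1.idxOf 4) = some 4 := by
  obtain ⟨s, hs, _⟩ := hM.accept
  have hmem : (4 : Fin 5) ∈ M.2.1 := List.mem_of_getElem? hs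
  unfold kind
  rw [List.getElem?_eq_getElem (List.idxOf_lt_length_of_mem hmem)]
  congr 1
  exact List.getElem_idxOf _

theorem rodM_run {n : ℕ} {M : AAut} (hM : AWF n M) {s t : ℕ} {U V : List Sym}
    (h : Run (rodM M).2.2 s U V t) (ht : t = M.2.1.idxOf 4) : Acc M s U V := by
  have key : ∀ {s k t : ℕ} {b : Sym}, (s, k, b, t) ∈ (rodM M).2.2 →
      (s, b, t) ∈ M.2.2 ∧ ((k = 1 ∧ readsL M s) ∨ (k = 2 ∧ readsR M s)) := by
    intro s k t b hm
    unfold rodM at hm
    simp only [List.mem_map, Prod.mk.injEq] at hm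
    obtain ⟨⟨s', b', t'⟩, he, rfl, h2, rfl, rfl⟩ := hm
    refine ⟨he, ?_⟩
    simp only at h2
    split_ifs at h2 with h3
    · exact Or.inl ⟨h2.symm, h3⟩
    · refine Or.inr ⟨h2.symm, ?_⟩
      have hk := hM.arrows _ he
      unfold ArrowOK at hk
      simp only at hk
      unfold readsR
      rcases hk with ⟨_, (⟨h4 | h4, _⟩ | ⟨h4, _⟩ | ⟨h4, _⟩)⟩ | ⟨_, (⟨h4, _⟩ | ⟨h4, _⟩ | ⟨h4 | h4, _⟩)⟩
      · exact absurd (Or.inl h4) h3
      · exact Or.inl h4
      · exact Or.inr h4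
      · exact absurd (Or.inr h4) h3
      · exact absurd (Or.inl h4) h3
      · exact Or.inl h4
      · exact Or.inr h4
      · exact absurd (Or.inr h4) h3
  induction h with
  | nil s =>
    subst ht
    exact Acc.done (kind_idx hM)
  | eps hm _ ih =>
    obtain ⟨_, ⟨h, _⟩ | ⟨h, _⟩⟩ := key hm <;> omega
  | left hm _ ih =>
    obtain ⟨h1, ⟨_, h2⟩ | ⟨h, _⟩⟩ := key hm
    · exact Acc.left h2 h1 (ih ht)
    · omega
  | right hm _ ih =>
    obtain ⟨h1, ⟨h, _⟩ | ⟨_, h2⟩⟩ := key hm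
    · omega
    · exact Acc.right h2 h1 (ih ht)

theorem rodM_mk {n : ℕ} {M : AAut} (hM : AWF n M) {s : ℕ} {U V : List Sym}
    (h : Acc M s U V) : Run (rodM M).2.2 s U V (M.2.1.idxOf 4) := by
  induction h with
  | done hs =>
    have := hM.accept.unique hs (kind_idx hM)
    rw [← this]
    exact Run.nil _
  | left hr hm _ ih =>
    refine Run.left ?_ ih
    unfold rodM
    simp only [List.mem_map]
    refine ⟨_, hm, ?_⟩
    simp only
    unfold readsL at hr
    rw [if_pos hr]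
  | right hr hm _ ih =>
    refine Run.right ?_ ih
    unfold rodM
    simp only [List.mem_map]
    refine ⟨_, hm, ?_⟩
    simp only
    rw [if_neg]
    intro h
    rcases hr with hr | hr <;> rcases h with h | h <;> rw [hr] at h <;> simp at h

/-- JOB A1, part 5. -/
theorem rel_rodM {n : ℕ} {M : AAut} (hM : AWF n M) {U V : List Sym} :
    Rel (rodM M) U V ↔ Acc M M.1 U V := by
  constructor
  · intro h
    exact rodM_run hM h rfl
  · intro h
    exact rodM_mk hM h

/-- words over the first `n` letters, with the end symbol -/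
def EW (n : ℕ) (U : List Sym) : Prop := ∃ u : List ℕ, U = em u ∧ ∀ a ∈ u, a < n

theorem EW_none (n : ℕ) : EW n [none] := ⟨[], rfl, by simp⟩

theorem EW_cons {n b : ℕ} {U : List Sym} (hb : b < n) (h : EW n U) : EW n (some b :: U) := by
  obtain ⟨u, rfl, hu⟩ := h
  refine ⟨b :: u, rfl, ?_⟩
  intro a ha
  rw [List.mem_cons] at ha
  rcases ha with rfl | ha
  · exact hb
  · exact hu a ha

theorem acc_inv {n : ℕ} {M : AAut} (hM : AWF n M) {s : ℕ} {U V : List Sym} (h : Acc M s U V) :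
    ((kind M s = some 0 ∨ kind M s = some 1) → EW n U ∧ EW n V) ∧
    (kind M s = some 2 → U = [] ∧ EW n V) ∧
    (kind M s = some 3 → EW n U ∧ V = []) ∧
    (kind M s = some 4 → U = [] ∧ V = []) := by
  induction h with
  | done hs =>
    refine ⟨?_, ?_, ?_, fun _ => ⟨rfl, rfl⟩⟩
    · intro h
      rcases h with h | h <;> rw [hs] at h <;> simp at h
    · intro h
      rw [hs] at h; simp at h
    · intro h
      rw [hs] at h; simp at h
  | @left s t a U V hr hm _ ih =>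
    obtain ⟨i0, i2, i3, i4⟩ := ih
    have hk := hM.arrows _ hm
    unfold ArrowOK at hk
    simp only at hk
    rcases hr with hr | hr
    · -- kind 0
      have hEW : EW n (a :: U) ∧ EW n V := by
        rcases hk with ⟨⟨b, hb, rfl⟩, (⟨_, h4⟩ | ⟨h4, _⟩ | ⟨h4, _⟩)⟩ | ⟨rfl, (⟨_, h4⟩ | ⟨h4, _⟩ | ⟨h4 | h4, _⟩)⟩
        · obtain ⟨j1, j2⟩ := i0 h4
          exact ⟨EW_cons hb j1, j2⟩
        · rw [hr] at h4; simp at h4
        · rw [hr] at h4; simp at h4
        · obtain ⟨j1, j2⟩ := i2 h4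
          rw [j1]
          exact ⟨EW_none n, j2⟩
        · rw [hr] at h4; simp at h4
        · rw [hr] at h4; simp at h4
        · rw [hr] at h4; simp at h4
      refine ⟨fun _ => hEW, ?_, ?_, ?_⟩
      · intro h; rw [hr] at h; simp at h
      · intro h; rw [hr] at h; simp at h
      · intro h; rw [hr] at h; simp at h
    · -- kind 3
      have hEW : EW n (a :: U) ∧ V = [] := by
        rcases hk with ⟨⟨b, hb, rfl⟩, (⟨h4 | h4, _⟩ | ⟨h4, _⟩ | ⟨_, h4⟩)⟩ | ⟨rfl, (⟨h4, _⟩ | ⟨h4, _⟩ | ⟨_, h4⟩)⟩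
        · rw [hr] at h4; simp at h4
        · rw [hr] at h4; simp at h4
        · rw [hr] at h4; simp at h4
        · obtain ⟨j1, j2⟩ := i3 h4
          exact ⟨EW_cons hb j1, j2⟩
        · rw [hr] at h4; simp at h4
        · rw [hr] at h4; simp at h4
        · obtain ⟨j1, j2⟩ := i4 h4
          rw [j1]
          exact ⟨EW_none n, j2⟩
      refine ⟨?_, ?_, fun _ => hEW, ?_⟩
      · intro h; rcases h with h | h <;> rw [hr] at h <;> simp at h
      · intro h; rw [hr] at h; simp at h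
      · intro h; rw [hr] at h; simp at h
  | @right s t a U V hr hm _ ih =>
    obtain ⟨i0, i2, i3, i4⟩ := ih
    have hk := hM.arrows _ hm
    unfold ArrowOK at hk
    simp only at hk
    rcases hr with hr | hr
    · -- kind 1
      have hEW : EW n U ∧ EW n (a :: V) := by
        rcases hk with ⟨⟨b, hb, rfl⟩, (⟨_, h4⟩ | ⟨h4, _⟩ | ⟨h4, _⟩)⟩ | ⟨rfl, (⟨h4, _⟩ | ⟨_, h4⟩ | ⟨h4 | h4, _⟩)⟩
        · obtain ⟨j1, j2⟩ := i0 h4
          exact ⟨j1, EW_cons hb j2⟩
        · rw [hr] at h4; simp at h4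
        · rw [hr] at h4; simp at h4
        · rw [hr] at h4; simp at h4
        · obtain ⟨j1, j2⟩ := i3 h4
          rw [j2]
          exact ⟨j1, EW_none n⟩
        · rw [hr] at h4; simp at h4
        · rw [hr] at h4; simp at h4
      refine ⟨fun _ => hEW, ?_, ?_, ?_⟩
      · intro h; rw [hr] at h; simp at h
      · intro h; rw [hr] at h; simp at h
      · intro h; rw [hr] at h; simp at h
    · -- kind 2
      have hEW : U = [] ∧ EW n (a :: V) := by
        rcases hk with ⟨⟨b, hb, rfl⟩, (⟨h4 | h4, _⟩ | ⟨_, h4⟩ | ⟨h4, _⟩)⟩ | ⟨rfl, (⟨h4, _⟩ | ⟨h4, _⟩ | ⟨_, h4⟩)⟩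
        · rw [hr] at h4; simp at h4
        · rw [hr] at h4; simp at h4
        · obtain ⟨j1, j2⟩ := i2 h4
          exact ⟨j1, EW_cons hb j2⟩
        · rw [hr] at h4; simp at h4
        · rw [hr] at h4; simp at h4
        · rw [hr] at h4; simp at h4
        · obtain ⟨j1, j2⟩ := i4 h4
          rw [j2]
          exact ⟨j1, EW_none n⟩
      refine ⟨?_, fun _ => hEW, ?_, ?_⟩
      · intro h; rcases h with h | h <;> rw [hr] at h <;> simp at h
      · intro h; rw [hr] at h; simp at h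
      · intro h; rw [hr] at h; simp at h

/-- JOB A1, part 6. -/
theorem acc_em {n : ℕ} {M : AAut} (hM : AWF n M) {U V : List Sym} (h : Acc M M.1 U V) :
    ∃ u v, U = em u ∧ V = em v ∧ (∀ a ∈ u, a < n) ∧ ∀ a ∈ v, a < n := by
  obtain ⟨⟨u, hu, hu'⟩, v, hv, hv'⟩ := (acc_inv hM h).1 hM.start
  exact ⟨u, v, hu, hv, hu', hv'⟩

end Pool.Agent.Helper632.AAR
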