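import Pool.Agent.Helper632.AAR.NTA
import Pool.Agent.Helper446.RE
import Pool.Agent.Helper632.AAR.PresEq
import Pool.Agent.Helper632.AAR.NoRE

namespace Pool.Agent.Helper632.AAR

open Pool.Agent.Helper446

theorem re_ruleP : REPred (fun x : Pres × List SL × List SL => RuleP x.1 x.2.1 x.2.2) := by
  have h1 : REPred (fun x : Pres × List SL × List SL => ∃ y : SL,
      x.2.1 = [(y.1, y.2), (!y.1, y.2)] ∧ x.2.2 = []) := by
    refine RE.ex (p := fun (x : Pres × List SL × List SL) (y : SL) =>
      x.2.1 = [(y.1, y.2), (!y.1, y.2)] ∧ x.2.2 = []) ?_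
    refine RE.and (RE.eq ?_ ?_) (RE.eq ?_ (Computable.const []))
    · exact Computable.fst.comp (Computable.snd.comp Computable.fst)
    · have h : Primrec (fun y : SL => [(y.1, y.2), (!y.1, y.2)]) :=
        Primrec.list_cons.comp (Primrec.fst.pair Primrec.snd)
          (Primrec.list_cons.comp ((Primrec.not.comp Primrec.fst).pair Primrec.snd)
            (Primrec.const []))
      exact h.to_comp.comp Computable.snd
    · exact Computable.snd.comp (Computable.snd.comp Computable.fst)
  have h2 : REPred (fun x : Pres × List SL × List SL => ∃ y : SL,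
      x.1.1 ≤ y.2 ∧ x.2.1 = [y] ∧ x.2.2 = []) := by
    refine RE.ex (p := fun (x : Pres × List SL × List SL) (y : SL) =>
      x.1.1 ≤ y.2 ∧ x.2.1 = [y] ∧ x.2.2 = []) ?_
    refine RE.and (RE.le ?_ ?_) (RE.and (RE.eq ?_ ?_) (RE.eq ?_ (Computable.const [])))
    · exact Computable.fst.comp (Computable.fst.comp Computable.fst)
    · exact Computable.snd.comp Computable.snd
    · exact Computable.fst.comp (Computable.snd.comp Computable.fst)
    · have h : Primrec (fun y : SL => [y]) :=
        Primrec.list_cons.comp Primrec.id (Primrec.const [])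
      exact h.to_comp.comp Computable.snd
    · exact Computable.snd.comp (Computable.snd.comp Computable.fst)
  have h3 : REPred (fun x : Pres × List SL × List SL => x.2.1 ∈ x.1.2 ∧ x.2.2 = []) :=
    RE.and (RE.mem_list (Computable.fst.comp Computable.snd) (Computable.snd.comp Computable.fst))
      (RE.eq (Computable.snd.comp Computable.snd) (Computable.const []))
  refine (RE.or h1 (RE.or h2 h3)).of_eq ?_
  rintro ⟨P, l, r⟩
  constructor
  · rintro (⟨⟨s, a⟩, h, h'⟩ | ⟨⟨s, a⟩, h, h', h''⟩ | ⟨h, h'⟩)
    · simp only at h h'
      subst h h'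
      exact RuleP.cancel s a
    · simp only at h h' h''
      subst h' h''
      exact RuleP.big s a h
    · simp only at h h'
      subst h'
      exact RuleP.rel l h
  · intro h
    cases h with
    | cancel s a => exact Or.inl ⟨(s, a), rfl, rfl⟩
    | big s a h => exact Or.inr (Or.inl ⟨(s, a), h, rfl, rfl⟩)
    | rel r h => exact Or.inr (Or.inr ⟨h, rfl⟩)

theorem re_stepP : REPred (fun x : Pres × List SL × List SL => StepP x.1 x.2.1 x.2.2) := by
  have h1 : REPred (fun x : Pres × List SL × List SL =>
      ∃ z : List SL × List SL × List SL × List SL,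
        (RuleP x.1 z.2.2.1 z.2.2.2 ∨ RuleP x.1 z.2.2.2 z.2.2.1) ∧
          x.2.1 = z.1 ++ z.2.2.1 ++ z.2.1 ∧ x.2.2 = z.1 ++ z.2.2.2 ++ z.2.1) := by
    refine RE.ex (p := fun (x : Pres × List SL × List SL)
      (z : List SL × List SL × List SL × List SL) =>
        (RuleP x.1 z.2.2.1 z.2.2.2 ∨ RuleP x.1 z.2.2.2 z.2.2.1) ∧
          x.2.1 = z.1 ++ z.2.2.1 ++ z.2.1 ∧ x.2.2 = z.1 ++ z.2.2.2 ++ z.2.1) ?_
    have hP : Computable fun x : (Pres × List SL × List SL) ×
        (List SL × List SL × List SL × List SL) => x.1.1 := Computable.fst.comp Computable.fst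
    have hw : Computable fun x : (Pres × List SL × List SL) ×
        (List SL × List SL × List SL × List SL) => x.1.2.1 :=
      Computable.fst.comp (Computable.snd.comp Computable.fst)
    have hw' : Computable fun x : (Pres × List SL × List SL) ×
        (List SL × List SL × List SL × List SL) => x.1.2.2 :=
      Computable.snd.comp (Computable.snd.comp Computable.fst)
    have hp : Computable fun x : (Pres × List SL × List SL) ×
        (List SL × List SL × List SL × List SL) => x.2.1 := Computable.fst.comp Computable.snd
    have hq : Computable fun x : (Pres × List SL × List SL) ×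
        (List SL × List SL × List SL × List SL) => x.2.2.1 :=
      Computable.fst.comp (Computable.snd.comp Computable.snd)
    have hl : Computable fun x : (Pres × List SL × List SL) ×
        (List SL × List SL × List SL × List SL) => x.2.2.2.1 :=
      Computable.fst.comp (Computable.snd.comp (Computable.snd.comp Computable.snd))
    have hr : Computable fun x : (Pres × List SL × List SL) ×
        (List SL × List SL × List SL × List SL) => x.2.2.2.2 :=
      Computable.snd.comp (Computable.snd.comp (Computable.snd.comp Computable.snd))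
    have happ : Computable₂ (fun a b : List SL => a ++ b) := Primrec.list_append.to_comp
    refine RE.and (RE.or ?_ ?_) (RE.and (RE.eq hw ?_) (RE.eq hw' ?_))
    · exact RE.comp re_ruleP (hP.pair (hl.pair hr))
    · exact RE.comp re_ruleP (hP.pair (hr.pair hl))
    · exact happ.comp (happ.comp hp hl) hq
    · exact happ.comp (happ.comp hp hr) hq
  refine h1.of_eq ?_
  rintro ⟨P, w, w'⟩
  constructor
  · rintro ⟨⟨p, q, l, r⟩, h, h', h''⟩
    exact ⟨p, q, l, r, h, h', h''⟩
  · rintro ⟨p, q, l, r, h, h', h''⟩
    exact ⟨(p, q, l, r), h, h', h''⟩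

/-- JOB P2. -/
theorem re_eqP : REPred (fun x : Pres × List SL × List SL => EqP x.1 x.2.1 x.2.2) := by
  exact re_reflTransGen re_stepP

end Pool.Agent.Helper632.AAR
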