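import Pool.Agent.Helper632.AAR.NTA
import Pool.Agent.Helper446.RE
import Pool.Agent.Helper632.AAR.No

namespace Pool.Agent.Helper632.AAR

open Pool.Agent.Helper446

/-! JOB I4. -/

namespace EqWAux
open Pool.Agent.Helper446

/-- The rules, with the machines instead of the automata. -/
def Rule' (d : Data) (l r : List SL) : Prop :=
  (∃ y : Bool × ℕ, l = [(y.1, y.2), (!y.1, y.2)] ∧ r = []) ∨
  (∃ y : Bool × ℕ, d.1 ≤ y.2 ∧ l = [y] ∧ r = []) ∨
  (∃ y : Option ℕ × List ℕ × List ℕ, (y.1 = none ∨ ∃ b, b < d.1 ∧ y.1 = some b) ∧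
    Rel (rodM (mult d y.1)) (em y.2.1) (em y.2.2) ∧ l = pos y.2.1 ++ psym y.1 ∧ r = pos y.2.2)

/-- One step, with the machines instead of the automata. -/
def Step' (d : Data) (w w' : List SL) : Prop :=
  ∃ y : (List SL × List SL) × (List SL × List SL),
    (Rule' d y.2.1 y.2.2 ∨ Rule' d y.2.2 y.2.1) ∧
    w = y.1.1 ++ y.2.1 ++ y.1.2 ∧ w' = y.1.1 ++ y.2.2 ++ y.1.2

theorem awf_multE {d : Data} (hd : DWF d) {x : Option ℕ} (hx : InA d.1 x) : AWF d.1 (mult d x) := by
  rcases x with _ | a
  · exact hd.eps
  · have ha : a < d.2.2.2.length := by rw [hd.len]; exact hx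
    show AWF d.1 (d.2.2.2.getD a d.2.2.1)
    rw [List.getD_eq_getElem _ _ ha]
    exact hd.mults _ (List.getElem_mem ha)

theorem rule_iff (hrod : ∀ {n : ℕ} {M : AAut}, AWF n M → ∀ U V, Rel (rodM M) U V ↔ Acc M M.1 U V)
    {d : Data} (hd : DWF d) (l r : List SL) : Rule' d l r ↔ Rule d l r := by
  constructor
  · rintro (⟨⟨s, a⟩, rfl, rfl⟩ | ⟨⟨s, a⟩, h, rfl, rfl⟩ | ⟨⟨x, u, v⟩, hx, h, rfl, rfl⟩)
    · exact Rule.cancel s a
    · exact Rule.big s a h
    · have hx' : InA d.1 x := by
        rcases hx with hx | ⟨b, hb, hx⟩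
        · have hx : x = none := hx
          subst hx; exact trivial
        · have hx : x = some b := hx
          subst hx; exact hb
      exact Rule.mult x u v hx' ((hrod (awf_multE hd hx') _ _).1 h)
  · intro h
    cases h with
    | cancel s a => exact Or.inl ⟨(s, a), rfl, rfl⟩
    | big s a h => exact Or.inr (Or.inl ⟨(s, a), h, rfl, rfl⟩)
    | mult x u v hx h =>
      refine Or.inr (Or.inr ⟨(x, u, v), ?_, (hrod (awf_multE hd hx) _ _).2 h, rfl, rfl⟩)
      rcases x with _ | a
      · exact Or.inl rfl
      · exact Or.inr ⟨a, hx, rfl⟩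

theorem step_iff (hrod : ∀ {n : ℕ} {M : AAut}, AWF n M → ∀ U V, Rel (rodM M) U V ↔ Acc M M.1 U V)
    {d : Data} (hd : DWF d) (w w' : List SL) : Step' d w w' ↔ Step d w w' := by
  constructor
  · rintro ⟨⟨⟨p, q⟩, l, r⟩, h, h1, h2⟩
    refine ⟨p, q, l, r, ?_, h1, h2⟩
    rcases h with h | h
    · exact Or.inl ((rule_iff hrod hd _ _).1 h)
    · exact Or.inr ((rule_iff hrod hd _ _).1 h)
  · rintro ⟨p, q, l, r, h, h1, h2⟩
    refine ⟨((p, q), l, r), ?_, h1, h2⟩
    rcases h with h | h
    · exact Or.inl ((rule_iff hrod hd _ _).2 h)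
    · exact Or.inr ((rule_iff hrod hd _ _).2 h)

theorem primrec_pos : Primrec pos := by
  unfold pos
  refine Primrec.list_map Primrec.id ?_
  exact Primrec.pair (Primrec.const false) Primrec.snd

theorem primrec_psym : Primrec psym := by
  have h : Primrec fun x : Option ℕ => (Option.casesOn x ([] : List SL)
      (fun a => [((false, a) : SL)]) : List SL) := by
    refine Primrec.option_casesOn Primrec.id (Primrec.const _) ?_
    refine Primrec.list_cons.comp ?_ (Primrec.const _)
    exact Primrec.pair (Primrec.const false) Primrec.snd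
  refine h.of_eq fun x => ?_
  cases x <;> rfl

theorem re_rule (hrun : REPred (fun x : List Arr × ℕ × List Sym × List Sym × ℕ =>
      Run x.1 x.2.1 x.2.2.1 x.2.2.2.1 x.2.2.2.2))
    (hem : Primrec em) (hrodM : Primrec rodM) (hmult : Primrec₂ mult) :
    REPred (fun x : Data × List SL × List SL => Rule' x.1 x.2.1 x.2.2) := by
  unfold Rule'
  refine RE.or ?_ (RE.or ?_ ?_)
  · refine RE.ex (p := fun (x : Data × List SL × List SL) (y : Bool × ℕ) =>
      x.2.1 = [(y.1, y.2), (!y.1, y.2)] ∧ x.2.2 = []) ?_
    refine RE.and (RE.eq ?_ ?_) (RE.eq ?_ ?_)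
    · exact Computable.fst.comp (Computable.snd.comp Computable.fst)
    · refine Primrec.to_comp ?_
      refine Primrec.list_cons.comp ?_ (Primrec.list_cons.comp ?_ (Primrec.const _))
      · exact Primrec.pair (Primrec.fst.comp Primrec.snd) (Primrec.snd.comp Primrec.snd)
      · exact Primrec.pair (Primrec.not.comp (Primrec.fst.comp Primrec.snd))
          (Primrec.snd.comp Primrec.snd)
    · exact Computable.snd.comp (Computable.snd.comp Computable.fst)
    · exact Computable.const _
  · refine RE.ex (p := fun (x : Data × List SL × List SL) (y : Bool × ℕ) =>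
      x.1.1 ≤ y.2 ∧ x.2.1 = [y] ∧ x.2.2 = []) ?_
    refine RE.and (RE.le ?_ ?_) (RE.and (RE.eq ?_ ?_) (RE.eq ?_ ?_))
    · exact Computable.fst.comp (Computable.fst.comp Computable.fst)
    · exact Computable.snd.comp Computable.snd
    · exact Computable.fst.comp (Computable.snd.comp Computable.fst)
    · refine Primrec.to_comp ?_
      exact Primrec.list_cons.comp Primrec.snd (Primrec.const _)
    · exact Computable.snd.comp (Computable.snd.comp Computable.fst)
    · exact Computable.const _
  · refine RE.ex (p := fun (x : Data × List SL × List SL) (y : Option ℕ × List ℕ × List ℕ) =>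
      (y.1 = none ∨ ∃ b, b < x.1.1 ∧ y.1 = some b) ∧
      Rel (rodM (mult x.1 y.1)) (em y.2.1) (em y.2.2) ∧ x.2.1 = pos y.2.1 ++ psym y.1 ∧
      x.2.2 = pos y.2.2) ?_
    have hy1 : Computable fun z : (Data × List SL × List SL) × (Option ℕ × List ℕ × List ℕ) =>
        z.2.1 := Computable.fst.comp Computable.snd
    have hy2 : Computable fun z : (Data × List SL × List SL) × (Option ℕ × List ℕ × List ℕ) =>
        z.2.2.1 := Computable.fst.comp (Computable.snd.comp Computable.snd)
    have hy3 : Computable fun z : (Data × List SL × List SL) × (Option ℕ × List ℕ × List ℕ) =>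
        z.2.2.2 := Computable.snd.comp (Computable.snd.comp Computable.snd)
    have hd : Computable fun z : (Data × List SL × List SL) × (Option ℕ × List ℕ × List ℕ) =>
        z.1.1 := Computable.fst.comp Computable.fst
    have hl : Computable fun z : (Data × List SL × List SL) × (Option ℕ × List ℕ × List ℕ) =>
        z.1.2.1 := Computable.fst.comp (Computable.snd.comp Computable.fst)
    have hr : Computable fun z : (Data × List SL × List SL) × (Option ℕ × List ℕ × List ℕ) =>
        z.1.2.2 := Computable.snd.comp (Computable.snd.comp Computable.fst)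
    refine RE.and (RE.or (RE.eq hy1 (Computable.const _)) ?_) (RE.and ?_ (RE.and ?_ ?_))
    · refine RE.ex (p := fun (z : (Data × List SL × List SL) × (Option ℕ × List ℕ × List ℕ))
        (b : ℕ) => b < z.1.1.1 ∧ z.2.1 = some b) ?_
      refine RE.and (RE.lt Computable.snd ?_) (RE.eq ?_ ?_)
      · exact Computable.fst.comp (hd.comp Computable.fst)
      · exact hy1.comp Computable.fst
      · exact Computable.option_some.comp Computable.snd
    · have hM : Computable fun z : (Data × List SL × List SL) × (Option ℕ × List ℕ × List ℕ) =>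
          rodM (mult z.1.1 z.2.1) := hrodM.to_comp.comp (hmult.to_comp.comp hd hy1)
      refine RE.comp hrun (f := fun z : (Data × List SL × List SL) ×
        (Option ℕ × List ℕ × List ℕ) => ((rodM (mult z.1.1 z.2.1)).2.2, (rodM (mult z.1.1 z.2.1)).1,
          em z.2.2.1, em z.2.2.2, (rodM (mult z.1.1 z.2.1)).2.1)) ?_
      refine Computable.pair (Computable.snd.comp (Computable.snd.comp hM)) (Computable.pair
        (Computable.fst.comp hM) (Computable.pair (hem.to_comp.comp hy2)
          (Computable.pair (hem.to_comp.comp hy3) ?_)))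
      exact Computable.fst.comp (Computable.snd.comp hM)
    · refine RE.eq hl ?_
      exact Primrec.list_append.to_comp.comp (primrec_pos.to_comp.comp hy2)
        (primrec_psym.to_comp.comp hy1)
    · exact RE.eq hr (primrec_pos.to_comp.comp hy3)

theorem re_step (hrun : REPred (fun x : List Arr × ℕ × List Sym × List Sym × ℕ =>
      Run x.1 x.2.1 x.2.2.1 x.2.2.2.1 x.2.2.2.2))
    (hem : Primrec em) (hrodM : Primrec rodM) (hmult : Primrec₂ mult) :
    REPred (fun x : Data × List SL × List SL => Step' x.1 x.2.1 x.2.2) := by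
  have hR := re_rule hrun hem hrodM hmult
  unfold Step'
  refine RE.ex (p := fun (x : Data × List SL × List SL)
    (y : (List SL × List SL) × (List SL × List SL)) =>
    (Rule' x.1 y.2.1 y.2.2 ∨ Rule' x.1 y.2.2 y.2.1) ∧
    x.2.1 = y.1.1 ++ y.2.1 ++ y.1.2 ∧ x.2.2 = y.1.1 ++ y.2.2 ++ y.1.2) ?_
  have hd : Computable fun z : (Data × List SL × List SL) ×
      ((List SL × List SL) × (List SL × List SL)) => z.1.1 := Computable.fst.comp Computable.fst
  have hw : Computable fun z : (Data × List SL × List SL) ×
      ((List SL × List SL) × (List SL × List SL)) => z.1.2.1 :=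
    Computable.fst.comp (Computable.snd.comp Computable.fst)
  have hw' : Computable fun z : (Data × List SL × List SL) ×
      ((List SL × List SL) × (List SL × List SL)) => z.1.2.2 :=
    Computable.snd.comp (Computable.snd.comp Computable.fst)
  have hp : Computable fun z : (Data × List SL × List SL) ×
      ((List SL × List SL) × (List SL × List SL)) => z.2.1.1 :=
    Computable.fst.comp (Computable.fst.comp Computable.snd)
  have hq : Computable fun z : (Data × List SL × List SL) ×
      ((List SL × List SL) × (List SL × List SL)) => z.2.1.2 :=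
    Computable.snd.comp (Computable.fst.comp Computable.snd)
  have hl : Computable fun z : (Data × List SL × List SL) ×
      ((List SL × List SL) × (List SL × List SL)) => z.2.2.1 :=
    Computable.fst.comp (Computable.snd.comp Computable.snd)
  have hr : Computable fun z : (Data × List SL × List SL) ×
      ((List SL × List SL) × (List SL × List SL)) => z.2.2.2 :=
    Computable.snd.comp (Computable.snd.comp Computable.snd)
  refine RE.and (RE.or ?_ ?_) (RE.and ?_ ?_)
  · exact RE.comp hR (f := fun z : (Data × List SL × List SL) ×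
      ((List SL × List SL) × (List SL × List SL)) => (z.1.1, z.2.2.1, z.2.2.2))
      (hd.pair (hl.pair hr))
  · exact RE.comp hR (f := fun z : (Data × List SL × List SL) ×
      ((List SL × List SL) × (List SL × List SL)) => (z.1.1, z.2.2.2, z.2.2.1))
      (hd.pair (hr.pair hl))
  · exact RE.eq hw (Primrec.list_append.to_comp.comp
      (Primrec.list_append.to_comp.comp hp hl) hq)
  · exact RE.eq hw' (Primrec.list_append.to_comp.comp
      (Primrec.list_append.to_comp.comp hp hr) hq)

end EqWAux

/-- Equality of words in the group of `d` is r.e. -/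
theorem re_eqW (hrun : REPred (fun x : List Arr × ℕ × List Sym × List Sym × ℕ =>
      Run x.1 x.2.1 x.2.2.1 x.2.2.2.1 x.2.2.2.2))
    (hstar : ∀ {r : Data → List SL → List SL → Prop},
      REPred (fun x : Data × List SL × List SL => r x.1 x.2.1 x.2.2) →
      REPred (fun x : Data × List SL × List SL => Relation.ReflTransGen (r x.1) x.2.1 x.2.2))
    (hrod : ∀ {n : ℕ} {M : AAut}, AWF n M → ∀ U V, Rel (rodM M) U V ↔ Acc M M.1 U V)
    (hem : Primrec em) (hrodM : Primrec rodM) (hmult : Primrec₂ mult) :
    ∃ E : Data → List SL → List SL → Prop,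
      (∀ d, DWF d → ∀ w w', E d w w' ↔ EqW d w w') ∧
      REPred (fun x : Data × List SL × List SL => E x.1 x.2.1 x.2.2) := by
  refine ⟨fun d => Relation.ReflTransGen (EqWAux.Step' d), ?_,
    hstar (r := EqWAux.Step') (EqWAux.re_step hrun hem hrodM hmult)⟩
  intro d hd w w'
  unfold EqW
  have h : EqWAux.Step' d = Step d := by
    funext a b
    exact propext (EqWAux.step_iff hrod hd a b)
  show Relation.ReflTransGen (EqWAux.Step' d) w w' ↔ _
  rw [h]

end Pool.Agent.Helper632.AAR
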