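import Pool.Agent.Helper632.AAR.PresDecide

/-!
The group of an asynchronous automatic structure is finitely presented; a finite presentation is
computed from the automata.  The question for a presented group is reduced to finitely many
instances of its word problem.
-/

namespace Pool.Agent.Helper632.AAR

open Pool.Agent.Helper446

theorem labG_mono {T T' : List SLet → Prop} {d : Data} {x : Option ℕ} (hTT : ∀ r, T r → T' r)
    (h : LabG T d x) : LabG T' d x := by
  obtain ⟨L, X, h1, h2, h3, h4⟩ := h
  refine ⟨L, X, h1, h2, ?_, fun p hp hq => hTT _ (h4 p hp hq)⟩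
  intro p hp e he h5 h6
  obtain ⟨p', hp', k1, k2, k3⟩ := h3 p hp e he h5 h6
  exact ⟨p', hp', k1, fun h => hTT _ (k2 h), fun h => hTT _ (k3 h)⟩

theorem labG_fin {T : List SLet → Prop} {d : Data} {x : Option ℕ} (h : LabG T d x) :
    ∃ R : List (List SLet), (∀ r ∈ R, T r) ∧ LabG (fun r => r ∈ R) d x := by
  classical
  obtain ⟨L, X, h1, h2, h3, h4⟩ := h
  let R0 : List (List SLet) := (L.flatMap fun p => (rodM (mult d x)).2.2.flatMap fun e =>
    L.flatMap fun p' => [ssym e.2.2.1 ++ p'.2 ++ sinv p.2, p.2 ++ ssym e.2.2.1 ++ sinv p'.2]) ++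
    L.map fun p => p.2 ++ sinv (ssym x)
  refine ⟨R0.filter (fun r => decide (T r)), ?_, L, X, h1, h2, ?_, ?_⟩
  · intro r hr
    have := (List.mem_filter.1 hr).2
    simpa using this
  · intro p hp e he h5 h6
    obtain ⟨p', hp', k1, k2, k3⟩ := h3 p hp e he h5 h6
    refine ⟨p', hp', k1, fun h => ?_, fun h => ?_⟩
    · refine List.mem_filter.2 ⟨?_, by simpa using k2 h⟩
      refine List.mem_append_left _ ?_
      exact List.mem_flatMap.2 ⟨p, hp, List.mem_flatMap.2 ⟨e, he, List.mem_flatMap.2
        ⟨p', hp', by simp⟩⟩⟩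
    · refine List.mem_filter.2 ⟨?_, by simpa using k3 h⟩
      refine List.mem_append_left _ ?_
      exact List.mem_flatMap.2 ⟨p, hp, List.mem_flatMap.2 ⟨e, he, List.mem_flatMap.2
        ⟨p', hp', by simp⟩⟩⟩
  · intro p hp hq
    refine List.mem_filter.2 ⟨?_, by simpa using h4 p hp hq⟩
    exact List.mem_append_right _ (List.mem_map.2 ⟨p, hp, rfl⟩)

theorem labG_fin_list {T : List SLet → Prop} {d : Data} (xs : List (Option ℕ))
    (h : ∀ x ∈ xs, LabG T d x) :
    ∃ R : List (List SLet), (∀ r ∈ R, T r) ∧ ∀ x ∈ xs, LabG (fun r => r ∈ R) d x := by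
  induction xs with
  | nil => exact ⟨[], by simp, by simp⟩
  | cons x xs ih =>
    obtain ⟨R1, h1, h2⟩ := ih fun y hy => h y (List.mem_cons_of_mem _ hy)
    obtain ⟨R2, h3, h4⟩ := labG_fin (h x (List.mem_cons_self ..))
    refine ⟨R1 ++ R2, ?_, ?_⟩
    · intro r hr
      rcases List.mem_append.1 hr with h | h
      · exact h1 r h
      · exact h3 r h
    · intro y hy
      rcases List.mem_cons.1 hy with rfl | hy
      · exact labG_mono (fun r hr => List.mem_append_right _ hr) h4
      · exact labG_mono (fun r hr => List.mem_append_left _ hr) (h2 y hy)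

/-- The group of an asynchronous automatic structure is finitely presented. -/
theorem fp_of_structure {d : Data} (h : IsStr d) :
    ∃ R : List (List SL), IsStrP ((d.1, R), d) := by
  obtain ⟨hd, G, _, π, hs⟩ := h
  obtain ⟨π', hs', hbig⟩ := normalise hd hs
  obtain ⟨R, hR1, hR2⟩ := labG_fin_list (T := fun r => wval π' (toSL r) = 1) (d := d)
    (none :: (List.range d.1).map some) (by
      intro x hx
      refine labG_of π' d hd hs' _ ?_ x (mem_rng.1 hx)
      intro r _ hr
      rw [← wval_toSL] at hr
      exact hr)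
  refine ⟨R.map toSL, ?_⟩
  refine (goodP_iff (d.1, R.map toSL) d).1 ⟨rfl, good_of_structure hd hs, ?_, ?_⟩
  · intro w hw
    obtain ⟨r, hr, rfl⟩ := List.mem_map.1 hw
    exact eqW_of_wval π' d hd hs' hbig (hR1 r hr)
  · intro x hx
    refine labG_mono ?_ (hR2 x hx)
    intro r hr
    exact Relation.ReflTransGen.single
      ⟨[], [], toSL r, [], Or.inl (RuleP.rel _ (List.mem_map.2 ⟨r, hr, rfl⟩)), by simp, by simp⟩

/-- There is an algorithm which, given automata, either finds out that they are not an asynchronous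
automatic structure of any group, or computes a finite presentation of the group for which they are
one. -/
theorem compute_presentation : ∃ g : Data → Option (List (List SL)), Computable g ∧
    ∀ d, (g d = none → ¬ IsStr d) ∧ ∀ R, g d = some R → IsStrP ((d.1, R), d) := by
  have hre : REPred fun x : Data × Option (List (List SL)) =>
      (x.2 = none ∧ ¬ IsStr x.1) ∨ ∃ R, x.2 = some R ∧ IsStrP ((x.1.1, R), x.1) := by
    refine RE.or (RE.and (RE.eq Computable.snd (Computable.const none))
      (RE.comp computable_isStr.not.to_re Computable.fst)) ?_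
    refine RE.ex (p := fun (x : Data × Option (List (List SL))) (R : List (List SL)) =>
      x.2 = some R ∧ IsStrP ((x.1.1, R), x.1)) ?_
    refine RE.and (RE.eq (Computable.snd.comp Computable.fst)
      (Computable.option_some.comp Computable.snd)) ?_
    exact RE.comp re_isStrP (f := fun y : (Data × Option (List (List SL))) × List (List SL) =>
      (((y.1.1.1, y.2), y.1.1) : Pres × Data))
      (((Computable.fst.comp (Computable.fst.comp Computable.fst)).pair Computable.snd).pair
        (Computable.fst.comp Computable.fst))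
  obtain ⟨f, hf, h1, h2⟩ := RE.uniformize (r := fun (d : Data) (b : Option (List (List SL))) =>
    (b = none ∧ ¬ IsStr d) ∨ ∃ R, b = some R ∧ IsStrP ((d.1, R), d)) hre
  have htot : ∀ d, (f d).Dom := by
    intro d
    rw [h1]
    by_cases hs : IsStr d
    · obtain ⟨R, hR⟩ := fp_of_structure hs
      exact ⟨some R, Or.inr ⟨R, rfl, hR⟩⟩
    · exact ⟨none, Or.inl ⟨rfl, hs⟩⟩
  refine ⟨fun d => (f d).get (htot d), ?_, ?_⟩
  · exact hf.of_eq fun d => (Part.some_get (htot d)).symm
  · intro d
    have h3 := h2 d _ (Part.get_mem (htot d))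
    constructor
    · intro h4
      simp only at h4
      rw [h4] at h3
      rcases h3 with h3 | ⟨R, h3, _⟩
      · exact h3.2
      · exact absurd h3 (by simp)
    · intro R h4
      simp only at h4
      rw [h4] at h3
      rcases h3 with h3 | ⟨R', h3, h5⟩
      · exact absurd h3.1 (by simp)
      · rw [Option.some.inj h3]
        exact h5

/-- The automata are a structure of some group satisfying the relators of `P`. -/
def QuotP (y : Pres × Data) : Prop :=
  y.2.1 = y.1.1 ∧ DWF y.2 ∧ ∃ (G : Type) (_ : Group G) (π : ℕ → G), IsStructure G π y.2 ∧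
    (∀ a, y.2.1 ≤ a → π a = 1) ∧ ∀ r ∈ y.1.2, wval π r = 1

theorem re_quotP : REPred QuotP := by
  obtain ⟨E, hE1, hE2⟩ := exists_E
  have h1 : REPred fun y : Pres × Data => (y.2.1 = y.1.1) ∧ (IsStr y.2 ∧ ∀ r ∈ y.1.2, E y.2 r []) := by
    refine RE.and (RE.eq (Computable.fst.comp Computable.snd) (Computable.fst.comp Computable.fst))
      (RE.and (RE.comp computable_isStr.to_re Computable.snd) ?_)
    refine RE.all_mem (p := fun (y : Pres × Data) (r : List SL) => E y.2 r [])
      (l := fun y => y.1.2) ?_ (Computable.snd.comp Computable.fst)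
    exact RE.comp hE2 (f := fun z : (Pres × Data) × List SL => (z.1.2, z.2, ([] : List SL)))
      ((Computable.snd.comp Computable.fst).pair (Computable.snd.pair (Computable.const [])))
  refine h1.of_eq ?_
  rintro ⟨P, d⟩
  constructor
  · rintro ⟨h2, ⟨hd, G, _, π, hs⟩, h3⟩
    obtain ⟨π', hs', hbig⟩ := normalise hd hs
    refine ⟨h2, hd, G, inferInstance, π', hs', hbig, fun r hr => ?_⟩
    exact val_eq_of_eqW π' d hs' hbig ((hE1 d hd _ _).1 (h3 r hr))
  · rintro ⟨h2, hd, G, _, π, hs, hbig, h3⟩
    refine ⟨h2, ⟨hd, G, inferInstance, π, hs⟩, fun r hr => ?_⟩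
    exact (hE1 d hd _ _).2 (eqW_of_wval π d hd hs hbig (h3 r hr))

theorem computable_quotP : ComputablePred QuotP := by
  obtain ⟨N, hN1, hN2⟩ := re_neg (fun _ _ => False) (RE.const False)
  apply RE.cp_of_re re_quotP
  have h1 : REPred fun y : Pres × Data => ¬ (y.2.1 = y.1.1 ∧ DWF y.2) :=
    computable_dwf_snd.not.to_re
  refine (RE.or h1 (RE.and computable_dwf_snd.to_re hN1)).of_eq ?_
  rintro ⟨P, d⟩
  by_cases hnd : d.1 = P.1 ∧ DWF d
  swap
  · constructor
    · rintro _ ⟨h2, h3, _⟩
      exact hnd ⟨h2, h3⟩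
    · intro _
      exact Or.inl hnd
  obtain ⟨hn, hd⟩ := hnd
  have h5 : N (P, d) ↔ ¬ QuotP (P, d) := by
    rw [hN2 P d hd]
    constructor
    · rintro h ⟨_, _, G, _, π, hs, hbig, hrel⟩
      rcases h with h | ⟨r, hr, u, v, hu, hv, h1, h2⟩ | ⟨x, hx, u, v, h1, h2⟩
      · exact (bad_iff hd).1 h ⟨hd, G, inferInstance, π, hs⟩
      · have hu' := mem_flang_iff.1 hu
        have hv' := mem_flang_iff.1 hv
        rw [notLR_iff, rel_mult hd none] at h2
        apply h2
        refine (hs.mult none trivial u v).2 ⟨hu', hv', ?_⟩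
        have h3 : wval π (pos u ++ r) = wval π (pos v) := val_eq_of_eqW π d hs hbig h1
        rw [wval_append, wval_pos, wval_pos, hrel r hr] at h3
        simpa [gen] using h3
      · exact h2
    · intro hq
      by_contra hbad
      apply hq
      have hstr : IsStr d := by
        by_contra h
        exact hbad (Or.inl ((bad_iff hd).2 h))
      obtain ⟨_, G, _, π, hs⟩ := hstr
      obtain ⟨π', hs', hbig⟩ := normalise hd hs
      refine ⟨hn, hd, G, inferInstance, π', hs', hbig, fun r hr => ?_⟩
      by_contra h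
      apply hbad
      obtain ⟨u, hu, _⟩ := hs'.onto 1
      obtain ⟨v, hv, hval⟩ := hs'.onto (val π' u * wval π' r)
      refine Or.inr (Or.inl ⟨r, hr, u, v, mem_flang_iff.2 hu, mem_flang_iff.2 hv, ?_, ?_⟩)
      · apply eqW_of_wval π' d hd hs' hbig
        rw [wval_append, wval_pos, wval_pos, hval]
      · rw [notLR_iff, rel_mult hd none]
        intro h1
        have h2 := ((hs'.mult none trivial u v).1 h1).2.2
        apply h
        rw [hval] at h2
        simpa [gen] using h2
  constructor
  · rintro (h | ⟨_, h⟩)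
    · exact absurd ⟨hn, hd⟩ h
    · exact h5.1 h
  · intro h
    exact Or.inr ⟨⟨hn, hd⟩, h5.2 h⟩

/-- If the relations of the automata hold in the presented group, the two groups agree. -/
theorem isStrP_of_quotP {P : Pres} {d : Data} (hq : QuotP (P, d))
    (hsound : ∀ x, InA d.1 x → ∀ u v : List ℕ, ALang (mult d x) u v →
      val (pgen P) u * gen (pgen P) x = val (pgen P) v) : IsStrP (P, d) := by
  obtain ⟨hn, hd, G, _, π, hs, hbig, hrel⟩ := hq
  refine ⟨hn, hd, ?_⟩
  refine transfer π (pgen P) d hd hs hbig (fun a ha => pgen_big (hn ▸ ha)) (pgen_surj P) hsound ?_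
  intro w hw
  exact wval_eqP π P (fun a ha => hbig a (hn ▸ ha)) hrel ((pgen_one_iff P w).1 hw)

theorem quotP_of_isStrP {P : Pres} {d : Data} (h : IsStrP (P, d)) : QuotP (P, d) := by
  obtain ⟨hn, hd, hs⟩ := h
  obtain ⟨G', hG'⟩ : ∃ G' : Type, G' = PGrp P := ⟨_, rfl⟩
  refine ⟨hn, hd, PGrp P, inferInstance, pgen P, hs, fun a ha => pgen_big (hn ▸ ha), ?_⟩
  intro r hr
  refine (pgen_one_iff P r).2 (Relation.ReflTransGen.single
    ⟨[], [], r, [], Or.inl (RuleP.rel r hr), by simp, by simp⟩)

/-- The question for the presented group reduces to finitely many instances of its word problem,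
which are computed from the input. -/
theorem reduce_to_wp : ∃ f : Pres × Data → Option (List (List SL)), Computable f ∧
    ∀ P d, IsStrP (P, d) ↔ ∃ R, f (P, d) = some R ∧ ∀ w ∈ R, wval (pgen P) w = 1 := by
  obtain ⟨g, hg, hg2⟩ := compute_presentation
  obtain ⟨c, hc, hc2⟩ := ComputablePred.computable_iff.1 computable_quotP
  have hc3 : ∀ y, c y = true ↔ QuotP y := fun y => by rw [hc2]
  refine ⟨fun y => bif c y then g y.2 else none, ?_, ?_⟩
  · exact Computable.cond hc (hg.comp Computable.snd) (Computable.const none)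
  · intro P d
    constructor
    · intro h
      have hq := quotP_of_isStrP h
      have hstr : IsStr d := ⟨h.2.1, PGrp P, inferInstance, pgen P, h.2.2⟩
      have hcy : c (P, d) = true := (hc3 _).2 hq
      cases hgd : g d with
      | none => exact absurd hstr ((hg2 d).1 hgd)
      | some R =>
        refine ⟨R, by simp [hcy, hgd], ?_⟩
        intro w hw
        have h1 : IsStrP ((d.1, R), d) := (hg2 d).2 R hgd
        have h2 := quotP_of_isStrP h1
        have h3 : wval (pgen (d.1, R)) w = 1 :=
          (pgen_one_iff (d.1, R) w).2 (Relation.ReflTransGen.single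
            ⟨[], [], w, [], Or.inl (RuleP.rel w hw), by simp, by simp⟩)
        have h4 : EqW d w [] := eqW_of_wval (pgen (d.1, R)) d h1.2.1 h1.2.2
          (fun a ha => pgen_big ha) h3
        exact val_eq_of_eqW (pgen P) d h.2.2 (fun a ha => pgen_big (h.1 ▸ ha)) h4
    · rintro ⟨R, hR, hw⟩
      simp only at hR
      cases hcy : c (P, d) with
      | false => rw [hcy] at hR; exact absurd hR (by simp)
      | true =>
        rw [hcy] at hR
        have hgd : g d = some R := by simpa using hR
        have hq : QuotP (P, d) := (hc3 _).1 hcy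
        have h1 : IsStrP ((d.1, R), d) := (hg2 d).2 R hgd
        refine isStrP_of_quotP hq ?_
        intro x hx u v huv
        have h2 := ((h1.2.2.mult x hx u v).1 huv).2.2
        have h3 : wval (pgen (d.1, R)) (pos u ++ psym x ++ winv (pos v)) = 1 := by
          rw [wval_append, wval_append, wval_pos, wval_psym, wval_winv, wval_pos, h2]
          group
        have h4 := (pgen_one_iff (d.1, R) _).1 h3
        have h5 := wval_eqP (pgen P) (d.1, R) (fun a ha => pgen_big (hq.1 ▸ ha)) hw h4
        rw [wval_append, wval_append, wval_pos, wval_psym, wval_winv, wval_pos] at h5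
        exact mul_inv_eq_one.1 h5

end Pool.Agent.Helper632.AAR
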