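import Pool.Agent.Helper632.AAR.NTA
import Pool.Agent.Helper446.RE

namespace Pool.Agent.Helper632.AAR

open Pool.Agent.Helper446

/-! JOB H1b. The table functions are primitive recursive. -/

theorem primrec_sts : Primrec sts := by
  have h1 : Primrec fun τ : NTA => τ.1 := Primrec.fst
  have h2 : Primrec fun τ : NTA => τ.2.1 := Primrec.fst.comp Primrec.snd
  have h3 : Primrec fun τ : NTA => τ.2.2 := Primrec.snd.comp Primrec.snd
  have h4 : Primrec fun τ : NTA => τ.2.2.map (fun e => e.1) :=
    Primrec.list_map h3 (Primrec.fst.comp Primrec.snd).to₂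
  have h5 : Primrec fun τ : NTA => τ.2.2.map (fun e => e.2.2.2) :=
    Primrec.list_map h3 (Primrec.snd.comp (Primrec.snd.comp (Primrec.snd.comp Primrec.snd))).to₂
  exact Primrec.list_cons.comp h1 (Primrec.list_cons.comp h2 (Primrec.list_append.comp h4 h5))

theorem primrec_comp : Primrec₂ comp := by
  have a1 : Primrec fun p : NTA × NTA => p.1.1 := Primrec.fst.comp Primrec.fst
  have a2 : Primrec fun p : NTA × NTA => p.1.2.1 :=
    Primrec.fst.comp (Primrec.snd.comp Primrec.fst)
  have a3 : Primrec fun p : NTA × NTA => p.1.2.2 :=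
    Primrec.snd.comp (Primrec.snd.comp Primrec.fst)
  have b1 : Primrec fun p : NTA × NTA => p.2.1 := Primrec.fst.comp Primrec.snd
  have b2 : Primrec fun p : NTA × NTA => p.2.2.1 :=
    Primrec.fst.comp (Primrec.snd.comp Primrec.snd)
  have b3 : Primrec fun p : NTA × NTA => p.2.2.2 :=
    Primrec.snd.comp (Primrec.snd.comp Primrec.snd)
  -- projections of arrows
  have e1 : Primrec fun e : Arr => e.1 := Primrec.fst
  have e2 : Primrec fun e : Arr => e.2.1 := Primrec.fst.comp Primrec.snd
  have e3 : Primrec fun e : Arr => e.2.2.1 := Primrec.fst.comp (Primrec.snd.comp Primrec.snd)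
  have e4 : Primrec fun e : Arr => e.2.2.2 := Primrec.snd.comp (Primrec.snd.comp Primrec.snd)
  have s1 : Primrec fun p : NTA × NTA => sts p.1 := primrec_sts.comp Primrec.fst
  have s2 : Primrec fun p : NTA × NTA => sts p.2 := primrec_sts.comp Primrec.snd
  have c1 : Primrec fun p : NTA × NTA => p.1.2.2.flatMap fun e => if e.2.1 = 2 then [] else
      (sts p.2).map fun q => (Nat.pair e.1 q, e.2.1, e.2.2.1, Nat.pair e.2.2.2 q) := by
    refine Primrec.list_flatMap a3 ?_
    show Primrec fun x : (NTA × NTA) × Arr => if x.2.2.1 = 2 then [] else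
      (sts x.1.2).map fun q => (Nat.pair x.2.1 q, x.2.2.1, x.2.2.2.1, Nat.pair x.2.2.2.2 q)
    refine Primrec.ite (Primrec.eq.comp (e2.comp Primrec.snd) (Primrec.const 2))
      (Primrec.const []) ?_
    refine Primrec.list_map (s2.comp Primrec.fst) ?_
    show Primrec fun y : ((NTA × NTA) × Arr) × ℕ =>
      ((Nat.pair y.1.2.1 y.2, y.1.2.2.1, y.1.2.2.2.1, Nat.pair y.1.2.2.2.2 y.2) : Arr)
    have f : Primrec fun y : ((NTA × NTA) × Arr) × ℕ => y.1.2 := Primrec.snd.comp Primrec.fst
    exact (Primrec₂.natPair.comp (e1.comp f) Primrec.snd).pair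
      ((e2.comp f).pair ((e3.comp f).pair (Primrec₂.natPair.comp (e4.comp f) Primrec.snd)))
  have c2 : Primrec fun p : NTA × NTA => p.2.2.2.flatMap fun e => if e.2.1 = 1 then [] else
      (sts p.1).map fun q => (Nat.pair q e.1, e.2.1, e.2.2.1, Nat.pair q e.2.2.2) := by
    refine Primrec.list_flatMap b3 ?_
    show Primrec fun x : (NTA × NTA) × Arr => if x.2.2.1 = 1 then [] else
      (sts x.1.1).map fun q => (Nat.pair q x.2.1, x.2.2.1, x.2.2.2.1, Nat.pair q x.2.2.2.2)
    refine Primrec.ite (Primrec.eq.comp (e2.comp Primrec.snd) (Primrec.const 1))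
      (Primrec.const []) ?_
    refine Primrec.list_map (s1.comp Primrec.fst) ?_
    show Primrec fun y : ((NTA × NTA) × Arr) × ℕ =>
      ((Nat.pair y.2 y.1.2.1, y.1.2.2.1, y.1.2.2.2.1, Nat.pair y.2 y.1.2.2.2.2) : Arr)
    have f : Primrec fun y : ((NTA × NTA) × Arr) × ℕ => y.1.2 := Primrec.snd.comp Primrec.fst
    exact (Primrec₂.natPair.comp Primrec.snd (e1.comp f)).pair
      ((e2.comp f).pair ((e3.comp f).pair (Primrec₂.natPair.comp Primrec.snd (e4.comp f))))
  have key : Primrec₂ fun (e e' : Arr) =>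
      if e.2.1 = 2 ∧ e'.2.1 = 1 ∧ e.2.2.1 = e'.2.2.1 then
        [((Nat.pair e.1 e'.1, 0, none, Nat.pair e.2.2.2 e'.2.2.2) : Arr)] else [] := by
    have f : Primrec fun y : Arr × Arr => y.1 := Primrec.fst
    have g : Primrec fun y : Arr × Arr => y.2 := Primrec.snd
    refine Primrec.ite ?_ ?_ (Primrec.const [])
    · refine PrimrecPred.and (Primrec.eq.comp (e2.comp f) (Primrec.const 2)) ?_
      exact PrimrecPred.and (Primrec.eq.comp (e2.comp g) (Primrec.const 1))
        (Primrec.eq.comp (e3.comp f) (e3.comp g))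
    · refine Primrec.list_cons.comp ?_ (Primrec.const [])
      exact (Primrec₂.natPair.comp (e1.comp f) (e1.comp g)).pair
        ((Primrec.const 0).pair ((Primrec.const none).pair
          (Primrec₂.natPair.comp (e4.comp f) (e4.comp g))))
  have c3 : Primrec fun p : NTA × NTA => p.1.2.2.flatMap fun e => (p.2.2.2.flatMap fun e' =>
      if e.2.1 = 2 ∧ e'.2.1 = 1 ∧ e.2.2.1 = e'.2.2.1 then
        [((Nat.pair e.1 e'.1, 0, none, Nat.pair e.2.2.2 e'.2.2.2) : Arr)] else []) := by
    generalize hF : (fun (e e' : Arr) =>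
      if e.2.1 = 2 ∧ e'.2.1 = 1 ∧ e.2.2.1 = e'.2.2.1 then
        [((Nat.pair e.1 e'.1, 0, none, Nat.pair e.2.2.2 e'.2.2.2) : Arr)] else []) = F at key
    have h1 : Primrec fun p : NTA × NTA => p.1.2.2.flatMap fun e => (p.2.2.2.flatMap fun e' =>
        F e e') := by
      refine Primrec.list_flatMap (g := fun (p : NTA × NTA) (e : Arr) =>
        p.2.2.2.flatMap fun e' => F e e') a3 ?_
      refine Primrec.list_flatMap (f := fun (x : (NTA × NTA) × Arr) => x.1.2.2.2)
        (g := fun (x : (NTA × NTA) × Arr) (e' : Arr) => F x.2 e') (b3.comp Primrec.fst) ?_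
      exact key.comp (Primrec.snd.comp Primrec.fst) Primrec.snd
    subst hF
    exact h1
  exact (Primrec₂.natPair.comp a1 b1).pair ((Primrec₂.natPair.comp a2 b2).pair
    (Primrec.list_append.comp (Primrec.list_append.comp c1 c2) c3))

theorem primrec_chain (h : Primrec copyN) : Primrec₂ chain := by
  show Primrec fun x : ℕ × List NTA => x.2.foldr comp (copyN x.1)
  refine Primrec.list_foldr (f := fun x : ℕ × List NTA => x.2) (g := fun x => copyN x.1)
    (h := fun _ p => comp p.1 p.2) Primrec.snd (h.comp Primrec.fst) ?_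
  exact primrec_comp.comp (Primrec.fst.comp Primrec.snd) (Primrec.snd.comp Primrec.snd)

theorem primrec_line : Primrec (fun x : ℕ × ℕ × List Sym => line x.1 x.2.1 x.2.2) := by
  show Primrec fun x : ℕ × ℕ × List Sym => (List.range x.2.2.length).map
    fun i => ((Nat.pair x.1 i, x.2.1, x.2.2.getD i none, Nat.pair x.1 (i + 1)) : Arr)
  have hx : Primrec fun x : ℕ × ℕ × List Sym => x.2.2 := Primrec.snd.comp Primrec.snd
  refine Primrec.list_map (Primrec.list_range.comp (Primrec.list_length.comp hx)) ?_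
  show Primrec fun y : (ℕ × ℕ × List Sym) × ℕ =>
    ((Nat.pair y.1.1 y.2, y.1.2.1, y.1.2.2.getD y.2 none, Nat.pair y.1.1 (y.2 + 1)) : Arr)
  have f : Primrec fun y : (ℕ × ℕ × List Sym) × ℕ => y.1.1 := Primrec.fst.comp Primrec.fst
  have g : Primrec fun y : (ℕ × ℕ × List Sym) × ℕ => y.1.2.1 :=
    Primrec.fst.comp (Primrec.snd.comp Primrec.fst)
  have k : Primrec fun y : (ℕ × ℕ × List Sym) × ℕ => y.1.2.2 := hx.comp Primrec.fst
  exact (Primrec₂.natPair.comp f Primrec.snd).pair (g.pair
    (((Primrec.list_getD none).comp k Primrec.snd).pair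
      (Primrec₂.natPair.comp f (Primrec.succ.comp Primrec.snd))))

theorem primrec_pref :
    Primrec (fun x : NTA × ℕ × List Sym × List Sym => pref x.1 x.2.1 x.2.2.1 x.2.2.2) := by
  have d1 : Primrec fun x : NTA × ℕ × List Sym × List Sym => x.1.1 :=
    Primrec.fst.comp Primrec.fst
  have d3 : Primrec fun x : NTA × ℕ × List Sym × List Sym => x.1.2.2 :=
    Primrec.snd.comp (Primrec.snd.comp Primrec.fst)
  have q : Primrec fun x : NTA × ℕ × List Sym × List Sym => x.2.1 :=
    Primrec.fst.comp Primrec.snd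
  have X : Primrec fun x : NTA × ℕ × List Sym × List Sym => x.2.2.1 :=
    Primrec.fst.comp (Primrec.snd.comp Primrec.snd)
  have Y : Primrec fun x : NTA × ℕ × List Sym × List Sym => x.2.2.2 :=
    Primrec.snd.comp (Primrec.snd.comp Primrec.snd)
  have e1 : Primrec fun e : Arr => e.1 := Primrec.fst
  have e2 : Primrec fun e : Arr => e.2.1 := Primrec.fst.comp Primrec.snd
  have e3 : Primrec fun e : Arr => e.2.2.1 := Primrec.fst.comp (Primrec.snd.comp Primrec.snd)
  have e4 : Primrec fun e : Arr => e.2.2.2 := Primrec.snd.comp (Primrec.snd.comp Primrec.snd)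
  have c1 : Primrec fun x : NTA × ℕ × List Sym × List Sym =>
      x.1.2.2.flatMap fun e => if e.2.1 = 1 then
      [((Nat.pair 0 e.1, 1, e.2.2.1,
          Nat.pair 1 (Nat.pair e.2.2.2 (Encodable.encode e.2.2.1))) : Arr),
        (Nat.pair 1 (Nat.pair e.2.2.2 (Encodable.encode e.2.2.1)), 2, e.2.2.1,
          Nat.pair 0 e.2.2.2)] else [] := by
    refine Primrec.list_flatMap d3 ?_
    have key : Primrec fun e : Arr => if e.2.1 = 1 then
      [((Nat.pair 0 e.1, 1, e.2.2.1,
          Nat.pair 1 (Nat.pair e.2.2.2 (Encodable.encode e.2.2.1))) : Arr),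
        (Nat.pair 1 (Nat.pair e.2.2.2 (Encodable.encode e.2.2.1)), 2, e.2.2.1,
          Nat.pair 0 e.2.2.2)] else [] := by
      have m : Primrec fun e : Arr => Nat.pair 1 (Nat.pair e.2.2.2 (Encodable.encode e.2.2.1)) :=
        Primrec₂.natPair.comp (Primrec.const 1)
          (Primrec₂.natPair.comp e4 (Primrec.encode.comp e3))
      refine Primrec.ite (Primrec.eq.comp e2 (Primrec.const 1)) ?_ (Primrec.const [])
      refine Primrec.list_cons.comp ?_ (Primrec.list_cons.comp ?_ (Primrec.const []))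
      · exact (Primrec₂.natPair.comp (Primrec.const 0) e1).pair
          ((Primrec.const 1).pair (e3.pair m))
      · exact m.pair ((Primrec.const 2).pair (e3.pair
          (Primrec₂.natPair.comp (Primrec.const 0) e4)))
    exact key.comp Primrec.snd
  have c2 : Primrec fun x : NTA × ℕ × List Sym × List Sym =>
      [((Nat.pair 0 x.2.1, 0, none, Nat.pair 2 0) : Arr),
        (Nat.pair 2 x.2.2.1.length, 0, none, Nat.pair 3 0)] := by
    refine Primrec.list_cons.comp ?_ (Primrec.list_cons.comp ?_ (Primrec.const []))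
    · exact (Primrec₂.natPair.comp (Primrec.const 0) q).pair (Primrec.const _)
    · exact (Primrec₂.natPair.comp (Primrec.const 2) (Primrec.list_length.comp X)).pair
        (Primrec.const _)
  have l1 : Primrec fun x : NTA × ℕ × List Sym × List Sym => line 2 1 x.2.2.1 :=
    primrec_line.comp ((Primrec.const 2).pair ((Primrec.const 1).pair X))
  have l2 : Primrec fun x : NTA × ℕ × List Sym × List Sym => line 3 2 x.2.2.2 :=
    primrec_line.comp ((Primrec.const 3).pair ((Primrec.const 2).pair Y))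
  exact (Primrec₂.natPair.comp (Primrec.const 0) d1).pair
    ((Primrec₂.natPair.comp (Primrec.const 3) (Primrec.list_length.comp Y)).pair
      (Primrec.list_append.comp (Primrec.list_append.comp (Primrec.list_append.comp c1 c2) l1) l2))

end Pool.Agent.Helper632.AAR
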