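import Pool.Agent.Helper632.AAR.NTA
import Pool.Agent.Helper446.RE

namespace Pool.Agent.Helper632.AAR

open Pool.Agent.Helper446

/-! JOB H4. Well-formedness of the input is decidable. -/


section dwf
open Primrec

theorem prim_kind : Primrec₂ kind :=
  Primrec.list_getElem?.comp (Primrec.fst.comp (Primrec.snd.comp Primrec.fst)) Primrec.snd

theorem pp_imp {α : Type*} [Primcodable α] {p q : α → Prop} (hp : PrimrecPred p) (hq : PrimrecPred q) :
    PrimrecPred fun a => p a → q a :=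
  (hp.not.or hq).of_eq fun a => by tauto

theorem pr_exists_lt {α : Type*} [Primcodable α] {R : ℕ → α → Prop} (hR : PrimrecRel R) :
    PrimrecRel fun n y => ∃ x < n, R x y :=
  PrimrecPred.of_eq (hR.exists_mem_list.comp (Primrec.list_range.comp Primrec.fst) Primrec.snd)
    (fun p => by simp)

theorem pr_forall_lt {α : Type*} [Primcodable α] {R : ℕ → α → Prop} (hR : PrimrecRel R) :
    PrimrecRel fun n y => ∀ x < n, R x y :=
  PrimrecPred.of_eq (hR.forall_mem_list.comp (Primrec.list_range.comp Primrec.fst) Primrec.snd)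
    (fun p => by simp)

theorem pp_kind {α : Type*} [Primcodable α] {f : α → AAut} {g : α → ℕ} (hf : Primrec f) (hg : Primrec g)
    (i : Fin 5) : PrimrecPred fun a => kind (f a) (g a) = some i :=
  Primrec.eq.comp (prim_kind.comp hf hg) (Primrec.const _)

theorem pr_fwf : PrimrecRel FWF := by
  have h1 : PrimrecRel fun (e : ℕ × ℕ × ℕ) (n : ℕ) => e.2.1 < n :=
    Primrec.nat_lt.comp (Primrec.fst.comp (Primrec.snd.comp Primrec.fst)) Primrec.snd
  exact h1.forall_mem_list.comp (Primrec.snd.comp (Primrec.snd.comp Primrec.snd)) Primrec.fst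

theorem pr_arrowOK : PrimrecRel fun (e : ℕ × Sym × ℕ) (y : ℕ × AAut) => ArrowOK y.1 y.2 e := by
  have hM : Primrec fun p : (ℕ × Sym × ℕ) × (ℕ × AAut) => p.2.2 := Primrec.snd.comp Primrec.snd
  have hn : Primrec fun p : (ℕ × Sym × ℕ) × (ℕ × AAut) => p.2.1 := Primrec.fst.comp Primrec.snd
  have hs : Primrec fun p : (ℕ × Sym × ℕ) × (ℕ × AAut) => p.1.1 := Primrec.fst.comp Primrec.fst
  have ha : Primrec fun p : (ℕ × Sym × ℕ) × (ℕ × AAut) => p.1.2.1 :=
    Primrec.fst.comp (Primrec.snd.comp Primrec.fst)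
  have ht : Primrec fun p : (ℕ × Sym × ℕ) × (ℕ × AAut) => p.1.2.2 :=
    Primrec.snd.comp (Primrec.snd.comp Primrec.fst)
  have hb : PrimrecPred fun p : (ℕ × Sym × ℕ) × (ℕ × AAut) => ∃ b < p.2.1, p.1.2.1 = some b := by
    have h1 : PrimrecRel fun (b : ℕ) (o : Sym) => o = some b :=
      Primrec.eq.comp Primrec.snd (Primrec.option_some.comp Primrec.fst)
    exact (pr_exists_lt h1).comp hn ha
  have hnone : PrimrecPred fun p : (ℕ × Sym × ℕ) × (ℕ × AAut) => p.1.2.1 = none :=
    Primrec.eq.comp ha (Primrec.const _)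
  have ks := fun i => pp_kind hM hs i
  have kt := fun i => pp_kind hM ht i
  refine PrimrecPred.or (PrimrecPred.and hb (PrimrecPred.or ?_ (PrimrecPred.or ?_ ?_)))
    (PrimrecPred.and hnone (PrimrecPred.or ?_ (PrimrecPred.or ?_ ?_)))
  · exact ((ks 0).or (ks 1)).and ((kt 0).or (kt 1))
  · exact (ks 2).and (kt 2)
  · exact (ks 3).and (kt 3)
  · exact (ks 0).and (kt 2)
  · exact (ks 1).and (kt 3)
  · exact ((ks 2).or (ks 3)).and (kt 4)

theorem pp_start : PrimrecPred fun M : AAut => kind M M.1 = some 0 ∨ kind M M.1 = some 1 :=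
  (pp_kind Primrec.id Primrec.fst 0).or (pp_kind Primrec.id Primrec.fst 1)

theorem kind_lt {M : AAut} {s : ℕ} {i : Fin 5} (h : kind M s = some i) : s < M.2.1.length := by
  unfold kind at h
  exact (List.getElem?_eq_some_iff.mp h).1

theorem pp_accept : PrimrecPred fun M : AAut => ∃! s, kind M s = some 4 := by
  have hlen : Primrec fun M : AAut => M.2.1.length :=
    Primrec.list_length.comp (Primrec.fst.comp Primrec.snd)
  have h1 : PrimrecPred fun M : AAut => ∃ s < M.2.1.length, kind M s = some 4 := by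
    have h2 : PrimrecRel fun (s : ℕ) (M : AAut) => kind M s = some 4 := pp_kind Primrec.snd Primrec.fst 4
    exact (pr_exists_lt h2).comp hlen Primrec.id
  have h3 : PrimrecPred fun M : AAut => ∀ s < M.2.1.length, ∀ t < M.2.1.length,
      kind M s = some 4 → kind M t = some 4 → s = t := by
    have h4 : PrimrecRel fun (t : ℕ) (y : ℕ × AAut) => kind y.2 y.1 = some 4 → kind y.2 t = some 4 → y.1 = t := by
      refine pp_imp (pp_kind (Primrec.snd.comp Primrec.snd) (Primrec.fst.comp Primrec.snd) 4)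
        (pp_imp (pp_kind (Primrec.snd.comp Primrec.snd) Primrec.fst 4) ?_)
      exact Primrec.eq.comp (Primrec.fst.comp Primrec.snd) Primrec.fst
    have h5 : PrimrecRel fun (s : ℕ) (M : AAut) => ∀ t < M.2.1.length,
        kind M s = some 4 → kind M t = some 4 → s = t :=
      (pr_forall_lt h4).comp (hlen.comp Primrec.snd) (Primrec.id)
    exact (pr_forall_lt h5).comp hlen Primrec.id
  refine (h1.and h3).of_eq fun M => ?_
  constructor
  · rintro ⟨⟨s, _, hs⟩, h⟩
    refine ⟨s, hs, fun t ht => h t (kind_lt ht) s (kind_lt hs) ht hs⟩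
  · rintro ⟨s, hs, h⟩
    refine ⟨⟨s, kind_lt hs, hs⟩, fun a _ b _ ha hb => ?_⟩
    rw [h a ha, h b hb]

theorem pp_det : PrimrecPred fun M : AAut =>
    ∀ e ∈ M.2.2, ∀ e' ∈ M.2.2, e.1 = e'.1 → e.2.1 = e'.2.1 → e.2.2 = e'.2.2 := by
  have h1 : PrimrecRel fun (e' e : ℕ × Sym × ℕ) => e.1 = e'.1 → e.2.1 = e'.2.1 → e.2.2 = e'.2.2 := by
    refine pp_imp ?_ (pp_imp ?_ ?_)
    · exact Primrec.eq.comp (Primrec.fst.comp Primrec.snd) (Primrec.fst.comp Primrec.fst)
    · exact Primrec.eq.comp (Primrec.fst.comp (Primrec.snd.comp Primrec.snd))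
        (Primrec.fst.comp (Primrec.snd.comp Primrec.fst))
    · exact Primrec.eq.comp (Primrec.snd.comp (Primrec.snd.comp Primrec.snd))
        (Primrec.snd.comp (Primrec.snd.comp Primrec.fst))
  have h2 : PrimrecRel fun (e : ℕ × Sym × ℕ) (l : List (ℕ × Sym × ℕ)) =>
      ∀ e' ∈ l, e.1 = e'.1 → e.2.1 = e'.2.1 → e.2.2 = e'.2.2 :=
    h1.forall_mem_list.comp Primrec.snd Primrec.fst
  have hl : Primrec fun M : AAut => M.2.2 := Primrec.snd.comp Primrec.snd
  exact h2.forall_mem_list.comp hl hl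

theorem pr_awf : PrimrecRel fun (M : AAut) (n : ℕ) => AWF n M := by
  have h1 : PrimrecPred fun p : AAut × ℕ => ∀ e ∈ p.1.2.2, ArrowOK p.2 p.1 e :=
    pr_arrowOK.forall_mem_list.comp (Primrec.snd.comp (Primrec.snd.comp Primrec.fst))
      (Primrec.pair Primrec.snd Primrec.fst)
  have h2 := ((pp_start.comp (Primrec.fst (α := AAut) (β := ℕ))).and
    (pp_accept.comp (Primrec.fst (α := AAut) (β := ℕ)))).and
    (h1.and (pp_det.comp (Primrec.fst (α := AAut) (β := ℕ))))
  refine PrimrecPred.of_eq h2 fun p => ?_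
  constructor
  · rintro ⟨⟨a, b⟩, c, d⟩; exact ⟨a, b, c, d⟩
  · rintro ⟨a, b, c, d⟩; exact ⟨⟨a, b⟩, c, d⟩

theorem pp_dwf : PrimrecPred DWF := by
  have h1 : PrimrecPred fun d : Data => FWF d.1 d.2.1 := pr_fwf.comp Primrec.fst (Primrec.fst.comp Primrec.snd)
  have h2 : PrimrecPred fun d : Data => AWF d.1 d.2.2.1 :=
    pr_awf.comp (Primrec.fst.comp (Primrec.snd.comp Primrec.snd)) Primrec.fst
  have hl : Primrec fun d : Data => d.2.2.2 := Primrec.snd.comp (Primrec.snd.comp Primrec.snd)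
  have h3 : PrimrecPred fun d : Data => d.2.2.2.length = d.1 :=
    Primrec.eq.comp (Primrec.list_length.comp hl) Primrec.fst
  have h4 : PrimrecPred fun d : Data => ∀ M ∈ d.2.2.2, AWF d.1 M :=
    pr_awf.forall_mem_list.comp hl Primrec.fst
  refine PrimrecPred.of_eq ((h1.and h2).and (h3.and h4)) fun d => ?_
  constructor
  · rintro ⟨⟨a, b⟩, c, d⟩; exact ⟨a, b, c, d⟩
  · rintro ⟨a, b, c, d⟩; exact ⟨⟨a, b⟩, c, d⟩

end dwf

theorem computable_dwf : ComputablePred DWF := pp_dwf.computablePred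

end Pool.Agent.Helper632.AAR
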