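import Pool.Agent.Helper632.AAR.NTA
import Pool.Agent.Helper446.RE
import Pool.Agent.Helper632.AAR.PrimA
import Pool.Agent.Helper632.AAR.PrimB
import Pool.Agent.Helper632.AAR.RunRE
import Pool.Agent.Helper632.AAR.CheckRE
import Pool.Agent.Helper632.AAR.WFComp

namespace Pool.Agent.Helper632.AAR

open Pool.Agent.Helper446

theorem imp_eq {α β : Type} [Primcodable α] [Primcodable β] {f g : α → β} {p : α → Prop}
    (hf : Computable f) (hg : Computable g) (hp : REPred p) :
    REPred fun a => (f a = g a → p a) := by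
  refine (RE.or (RE.ne hf hg) hp).of_eq fun a => ?_
  constructor
  · rintro (h | h) h2
    exacts [absurd h2 h, h]
  · intro h
    by_cases h2 : f a = g a
    exacts [Or.inr (h h2), Or.inl h2]

theorem imp_nm {α β : Type} [Primcodable α] [Primcodable β] {f : α → β} {l : α → List β}
    {p : α → Prop} (hf : Computable f) (hl : Computable l) (hp : REPred p) :
    REPred fun a => (f a ∉ l a → p a) := by
  refine (RE.or (RE.mem_list hf hl) hp).of_eq fun a => ?_
  constructor
  · rintro (h | h) h2
    exacts [absurd h h2, h]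
  · intro h
    by_cases h2 : f a ∈ l a
    exacts [Or.inl h2, Or.inr (h h2)]

theorem primrec_rodL : Primrec₂ rodL := by
  have h1 : Primrec fun x : Data × SLet => rodM (mult x.1 x.2.2) :=
    primrec_rodM.comp (primrec_mult.comp Primrec.fst (Primrec.snd.comp Primrec.snd))
  have h2 : Primrec fun x : Data × SLet => x.2.1 := Primrec.fst.comp Primrec.snd
  refine (Primrec.cond h2 (primrec_inv.comp h1) h1).of_eq fun x => ?_
  obtain ⟨d, b, o⟩ := x
  cases b <;> rfl

theorem primrec_rodW : Primrec₂ rodW := by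
  have h1 : Primrec₂ fun (x : Data × List SLet) (l : SLet) => rodL x.1 l :=
    primrec_rodL.comp (Primrec.fst.comp Primrec.fst) Primrec.snd
  have h2 : Primrec fun x : Data × List SLet => x.2.map (rodL x.1) :=
    Primrec.list_map Primrec.snd h1
  have h3 : Primrec fun x : Data × List SLet => x.1.1 := Primrec.fst.comp Primrec.fst
  exact (primrec_chain primrec_copyN).comp h3 h2

theorem primrec_sinv : Primrec sinv := by
  have h1 : Primrec₂ fun (_ : List SLet) (l : SLet) => (((!l.1, l.2) : SLet)) :=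
    Primrec.pair (Primrec.not.comp (Primrec.fst.comp Primrec.snd)) (Primrec.snd.comp Primrec.snd)
  exact Primrec.list_map Primrec.list_reverse h1

theorem primrec_spos : Primrec spos := by
  have h1 : Primrec₂ fun (_ : List ℕ) (a : ℕ) => (((false, some a) : SLet)) :=
    Primrec.pair (Primrec.const false) (Primrec.option_some.comp Primrec.snd)
  exact Primrec.list_map Primrec.id h1

theorem primrec_ssym : Primrec ssym := by
  have h1 : Primrec₂ fun (_ : Sym) (a : ℕ) => ([((false, some a) : SLet)]) :=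
    Primrec.list_cons.comp (Primrec.pair (Primrec.const false)
      (Primrec.option_some.comp Primrec.snd)) (Primrec.const [])
  refine (Primrec.option_casesOn (Primrec.id (α := Sym)) (Primrec.const []) h1).of_eq fun o => ?_
  cases o <;> rfl

theorem primrec_toList : Primrec (fun o : Option ℕ => o.toList) := by
  have h1 : Primrec₂ fun (_ : Option ℕ) (a : ℕ) => [a] :=
    Primrec.list_cons.comp Primrec.snd (Primrec.const [])
  refine (Primrec.option_casesOn (Primrec.id (α := Option ℕ)) (Primrec.const []) h1).of_eq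
    fun o => ?_
  cases o <;> rfl

section rel

variable {α : Type} [Primcodable α]

theorem re_triv {d : α → Data} {D : α → NTA} {r : α → List SLet} (hd : Computable d)
    (hD : Computable D) (hr : Computable r) : REPred fun a => TrivCheck (d a) (D a) (r a) := by
  have h1 : Computable fun a => rodW (d a) (r a) := primrec_rodW.to_comp.comp hd hr
  have h2 : Computable fun a => copyN (d a).1 := primrec_copyN.to_comp.comp (Computable.fst.comp hd)
  have h3 : Computable fun a => mult (d a) none :=
    primrec_mult.to_comp.comp hd (Computable.const none)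
  exact RE.comp re_checkOK (f := fun a => (rodW (d a) (r a), copyN (d a).1, D a, mult (d a) none))
    (h1.pair (h2.pair (hD.pair h3)))

theorem re_pref {d : α → Data} {D : α → NTA} {q : α → ℕ} {c : α → List ℕ} {b : α → ℕ}
    {c' : α → List ℕ} (hd : Computable d) (hD : Computable D) (hq : Computable q)
    (hc : Computable c) (hb : Computable b) (hc' : Computable c') :
    REPred fun a => PrefCheck (d a) (D a) (q a) (c a) (b a) (c' a) := by
  have e1 : Computable fun a => em (c a) := primrec_em.to_comp.comp hc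
  have e2 : Computable fun a => em (c' a) := primrec_em.to_comp.comp hc'
  have e3 : Computable fun a => (some (b a) : Sym) :: em (c' a) :=
    Computable.list_cons.comp (Computable.option_some.comp hb) e2
  have h0 : Computable fun a => pref (D a) (q a) (some (b a) :: em (c' a)) (em (c a)) :=
    primrec_pref.to_comp.comp (hD.pair (hq.pair (e3.pair e1)))
  have e4 : Computable fun a => spos (c a) := primrec_spos.to_comp.comp hc
  have e5 : Computable fun a => spos (c' a) := primrec_spos.to_comp.comp hc'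
  have e6 : Computable fun a => sinv (spos (c a)) := primrec_sinv.to_comp.comp e4
  have e7 : Computable fun a => ((false, some (b a)) : SLet) :: spos (c' a) :=
    Computable.list_cons.comp ((Computable.const false).pair (Computable.option_some.comp hb)) e5
  have e8 : Computable fun a => sinv (spos (c a)) ++ ((false, some (b a)) : SLet) :: spos (c' a) :=
    Computable.list_append.comp e6 e7
  have h1 : Computable fun a => rodW (d a)
      (sinv (spos (c a)) ++ ((false, some (b a)) : SLet) :: spos (c' a)) :=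
    primrec_rodW.to_comp.comp hd e8
  have h2 : Computable fun a => copyN (d a).1 := primrec_copyN.to_comp.comp (Computable.fst.comp hd)
  have h3 : Computable fun a => mult (d a) none :=
    primrec_mult.to_comp.comp hd (Computable.const none)
  have h4 : Computable fun a => comp (pref (D a) (q a) (some (b a) :: em (c' a)) (em (c a)))
      (rodW (d a) (sinv (spos (c a)) ++ ((false, some (b a)) : SLet) :: spos (c' a))) :=
    primrec_comp.to_comp.comp h0 h1
  exact RE.comp re_checkOK (f := fun a =>
    (comp (pref (D a) (q a) (some (b a) :: em (c' a)) (em (c a)))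
      (rodW (d a) (sinv (spos (c a)) ++ ((false, some (b a)) : SLet) :: spos (c' a))),
      copyN (d a).1, D a, mult (d a) none)) (h4.pair (h2.pair (hD.pair h3)))

theorem re_lab {d : α → Data} {D : α → NTA} {x : α → Option ℕ} (hd : Computable d)
    (hD : Computable D) (hx : Computable x) : REPred fun a => LabOK (d a) (D a) (x a) := by
  have hM : Computable fun a => mult (d a) (x a) := primrec_mult.to_comp.comp hd hx
  have hR : Computable fun a => rodM (mult (d a) (x a)) := primrec_rodM.to_comp.comp hM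
  have hT : Computable fun a => (rodM (mult (d a) (x a))).2.2 :=
    Computable.snd.comp (Computable.snd.comp hR)
  have hA : Computable fun a => (rodM (mult (d a) (x a))).2.1 :=
    Computable.fst.comp (Computable.snd.comp hR)
  unfold LabOK
  refine RE.ex (α := α) (β := List (ℕ × List SLet)) (p := fun a L => ∃ X : List ℕ,
    ((mult (d a) (x a)).1, []) ∈ L ∧
    DeadOK (rodM (mult (d a) (x a))) X ∧
    (∀ p ∈ L, ∀ e ∈ (rodM (mult (d a) (x a))).2.2, e.1 = p.1 → e.2.2.2 ∉ X →
      ∃ p' ∈ L, p'.1 = e.2.2.2 ∧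
        (e.2.1 = 1 → TrivCheck (d a) (D a) (ssym e.2.2.1 ++ p'.2 ++ sinv p.2)) ∧
        (e.2.1 = 2 → TrivCheck (d a) (D a) (p.2 ++ ssym e.2.2.1 ++ sinv p'.2))) ∧
    (∀ p ∈ L, p.1 = (rodM (mult (d a) (x a))).2.1 →
      TrivCheck (d a) (D a) (p.2 ++ sinv (ssym (x a))))) ?_
  refine RE.ex (α := α × List (ℕ × List SLet)) (β := List ℕ) (p := fun y X =>
    ((mult (d y.1) (x y.1)).1, []) ∈ y.2 ∧
    DeadOK (rodM (mult (d y.1) (x y.1))) X ∧
    (∀ p ∈ y.2, ∀ e ∈ (rodM (mult (d y.1) (x y.1))).2.2, e.1 = p.1 → e.2.2.2 ∉ X →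
      ∃ p' ∈ y.2, p'.1 = e.2.2.2 ∧
        (e.2.1 = 1 → TrivCheck (d y.1) (D y.1) (ssym e.2.2.1 ++ p'.2 ++ sinv p.2)) ∧
        (e.2.1 = 2 → TrivCheck (d y.1) (D y.1) (p.2 ++ ssym e.2.2.1 ++ sinv p'.2))) ∧
    (∀ p ∈ y.2, p.1 = (rodM (mult (d y.1) (x y.1))).2.1 →
      TrivCheck (d y.1) (D y.1) (p.2 ++ sinv (ssym (x y.1))))) ?_
  have p1 : Computable (fun z : (α × List (ℕ × List SLet)) × List ℕ => z.1.1) :=
    Computable.fst.comp Computable.fst
  have p2 : Computable (fun z : (α × List (ℕ × List SLet)) × List ℕ => z.1.2) :=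
    Computable.snd.comp Computable.fst
  have p3 : Computable (fun z : (α × List (ℕ × List SLet)) × List ℕ => z.2) := Computable.snd
  refine RE.and ?_ (RE.and ?_ (RE.and ?_ ?_))
  · exact RE.mem_list ((Computable.fst.comp (hM.comp p1)).pair (Computable.const [])) p2
  · exact RE.comp re_deadOK (f := fun z : (α × List (ℕ × List SLet)) × List ℕ =>
      (rodM (mult (d z.1.1) (x z.1.1)), z.2)) ((hR.comp p1).pair p3)
  · refine RE.all_mem (α := (α × List (ℕ × List SLet)) × List ℕ) (β := ℕ × List SLet)
      (p := fun z p => ∀ e ∈ (rodM (mult (d z.1.1) (x z.1.1))).2.2, e.1 = p.1 → e.2.2.2 ∉ z.2 →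
      ∃ p' ∈ z.1.2, p'.1 = e.2.2.2 ∧
        (e.2.1 = 1 → TrivCheck (d z.1.1) (D z.1.1) (ssym e.2.2.1 ++ p'.2 ++ sinv p.2)) ∧
        (e.2.1 = 2 → TrivCheck (d z.1.1) (D z.1.1) (p.2 ++ ssym e.2.2.1 ++ sinv p'.2))) ?_ p2
    refine RE.all_mem (α := ((α × List (ℕ × List SLet)) × List ℕ) × (ℕ × List SLet))
      (β := Arr) (p := fun w e => e.1 = w.2.1 → e.2.2.2 ∉ w.1.2 →
      ∃ p' ∈ w.1.1.2, p'.1 = e.2.2.2 ∧
        (e.2.1 = 1 → TrivCheck (d w.1.1.1) (D w.1.1.1) (ssym e.2.2.1 ++ p'.2 ++ sinv w.2.2)) ∧
        (e.2.1 = 2 → TrivCheck (d w.1.1.1) (D w.1.1.1) (w.2.2 ++ ssym e.2.2.1 ++ sinv p'.2)))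
      ?_ (hT.comp (p1.comp Computable.fst))
    -- v : (z, p), e
    have v1 : Computable (fun v : (((α × List (ℕ × List SLet)) × List ℕ) × (ℕ × List SLet)) × Arr =>
      v.1.1) := Computable.fst.comp Computable.fst
    have v2 : Computable (fun v : (((α × List (ℕ × List SLet)) × List ℕ) × (ℕ × List SLet)) × Arr =>
      v.1.2) := Computable.snd.comp Computable.fst
    have v3 : Computable (fun v : (((α × List (ℕ × List SLet)) × List ℕ) × (ℕ × List SLet)) × Arr =>
      v.2) := Computable.snd
    have v34 := Computable.snd.comp v3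
    have v344 := Computable.snd.comp v34
    refine imp_eq (Computable.fst.comp v3) (Computable.fst.comp v2) ?_
    refine imp_nm (Computable.snd.comp v344) (p3.comp v1) ?_
    refine RE.ex_mem (α := (((α × List (ℕ × List SLet)) × List ℕ) × (ℕ × List SLet)) × Arr)
      (β := ℕ × List SLet) (p := fun v p' => p'.1 = v.2.2.2.2 ∧
        (v.2.2.1 = 1 → TrivCheck (d v.1.1.1.1) (D v.1.1.1.1)
          (ssym v.2.2.2.1 ++ p'.2 ++ sinv v.1.2.2)) ∧
        (v.2.2.1 = 2 → TrivCheck (d v.1.1.1.1) (D v.1.1.1.1)
          (v.1.2.2 ++ ssym v.2.2.2.1 ++ sinv p'.2))) ?_ (p2.comp v1)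
    have f1 : Computable (fun u : ((((α × List (ℕ × List SLet)) × List ℕ) × (ℕ × List SLet)) × Arr)
      × (ℕ × List SLet) => u.1) := Computable.fst
    have f2 : Computable (fun u : ((((α × List (ℕ × List SLet)) × List ℕ) × (ℕ × List SLet)) × Arr)
      × (ℕ × List SLet) => u.2) := Computable.snd
    have hsy : Computable (fun u : ((((α × List (ℕ × List SLet)) × List ℕ) × (ℕ × List SLet)) × Arr)
      × (ℕ × List SLet) => ssym u.1.2.2.2.1) :=
      primrec_ssym.to_comp.comp (Computable.fst.comp (v344.comp f1))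
    have hal : Computable (fun u : ((((α × List (ℕ × List SLet)) × List ℕ) × (ℕ × List SLet)) × Arr)
      × (ℕ × List SLet) => u.1.1.1.1.1) := p1.comp (v1.comp f1)
    refine RE.and (RE.eq (Computable.fst.comp f2) (Computable.snd.comp (v344.comp f1)))
      (RE.and ?_ ?_)
    · refine imp_eq (Computable.fst.comp (v34.comp f1)) (Computable.const 1) ?_
      refine re_triv (hd.comp hal) (hD.comp hal) ?_
      exact Computable.list_append.comp (Computable.list_append.comp hsy (Computable.snd.comp f2))
        (primrec_sinv.to_comp.comp (Computable.snd.comp (v2.comp f1)))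
    · refine imp_eq (Computable.fst.comp (v34.comp f1)) (Computable.const 2) ?_
      refine re_triv (hd.comp hal) (hD.comp hal) ?_
      exact Computable.list_append.comp (Computable.list_append.comp
        (Computable.snd.comp (v2.comp f1)) hsy)
        (primrec_sinv.to_comp.comp (Computable.snd.comp f2))
  · refine RE.all_mem (α := (α × List (ℕ × List SLet)) × List ℕ) (β := ℕ × List SLet)
      (p := fun z p => p.1 = (rodM (mult (d z.1.1) (x z.1.1))).2.1 →
      TrivCheck (d z.1.1) (D z.1.1) (p.2 ++ sinv (ssym (x z.1.1)))) ?_ p2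
    refine imp_eq (Computable.fst.comp Computable.snd) (hA.comp (p1.comp Computable.fst)) ?_
    refine re_triv (hd.comp (p1.comp Computable.fst)) (hD.comp (p1.comp Computable.fst)) ?_
    exact Computable.list_append.comp (Computable.snd.comp Computable.snd)
      (primrec_sinv.to_comp.comp (primrec_ssym.to_comp.comp (hx.comp (p1.comp Computable.fst))))

theorem re_compl {d : α → Data} {D : α → NTA} (hd : Computable d)
    (hD : Computable D) : REPred fun a => ComplOK (d a) (D a) := by
  have hT : Computable fun a => (D a).2.2 := Computable.snd.comp (Computable.snd.comp hD)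
  have hA : Computable fun a => (D a).2.1 := Computable.fst.comp (Computable.snd.comp hD)
  unfold ComplOK
  refine RE.ex (α := α) (β := List (ℕ × List ℕ)) (p := fun a C => ∃ X : List ℕ,
    DeadOK (D a) X ∧ (∃ p ∈ C, p.1 = (D a).1) ∧
    (∀ p ∈ C, Run (D a).2.2 p.1 (em p.2) [] (D a).2.1) ∧
    (∀ p ∈ C, ∀ e ∈ (D a).2.2, e.1 = p.1 → e.2.1 = 1 → e.2.2.1 = none → e.2.2.2 = (D a).2.1 →
      p.2 = []) ∧
    (∀ p ∈ C, ∀ e ∈ (D a).2.2, e.1 = p.1 → e.2.1 = 1 → e.2.2.2 ∉ X →
      ∀ b ∈ e.2.2.1, ∃ p' ∈ C, p'.1 = e.2.2.2 ∧ PrefCheck (d a) (D a) p.1 p.2 b p'.2)) ?_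
  refine RE.ex (α := α × List (ℕ × List ℕ)) (β := List ℕ) (p := fun y X =>
    DeadOK (D y.1) X ∧ (∃ p ∈ y.2, p.1 = (D y.1).1) ∧
    (∀ p ∈ y.2, Run (D y.1).2.2 p.1 (em p.2) [] (D y.1).2.1) ∧
    (∀ p ∈ y.2, ∀ e ∈ (D y.1).2.2, e.1 = p.1 → e.2.1 = 1 → e.2.2.1 = none →
      e.2.2.2 = (D y.1).2.1 → p.2 = []) ∧
    (∀ p ∈ y.2, ∀ e ∈ (D y.1).2.2, e.1 = p.1 → e.2.1 = 1 → e.2.2.2 ∉ X →
      ∀ b ∈ e.2.2.1, ∃ p' ∈ y.2, p'.1 = e.2.2.2 ∧ PrefCheck (d y.1) (D y.1) p.1 p.2 b p'.2)) ?_
  have p1 : Computable (fun z : (α × List (ℕ × List ℕ)) × List ℕ => z.1.1) :=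
    Computable.fst.comp Computable.fst
  have p2 : Computable (fun z : (α × List (ℕ × List ℕ)) × List ℕ => z.1.2) :=
    Computable.snd.comp Computable.fst
  have p3 : Computable (fun z : (α × List (ℕ × List ℕ)) × List ℕ => z.2) := Computable.snd
  refine RE.and ?_ (RE.and ?_ (RE.and ?_ (RE.and ?_ ?_)))
  · exact RE.comp re_deadOK (f := fun z : (α × List (ℕ × List ℕ)) × List ℕ =>
      (D z.1.1, z.2)) ((hD.comp p1).pair p3)
  · refine RE.ex_mem (α := (α × List (ℕ × List ℕ)) × List ℕ) (β := ℕ × List ℕ)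
      (p := fun z p => p.1 = (D z.1.1).1) ?_ p2
    exact RE.eq (Computable.fst.comp Computable.snd)
      (Computable.fst.comp (hD.comp (p1.comp Computable.fst)))
  · refine RE.all_mem (α := (α × List (ℕ × List ℕ)) × List ℕ) (β := ℕ × List ℕ)
      (p := fun z p => Run (D z.1.1).2.2 p.1 (em p.2) [] (D z.1.1).2.1) ?_ p2
    have q1 : Computable (fun u : ((α × List (ℕ × List ℕ)) × List ℕ) × (ℕ × List ℕ) => u.1.1.1) :=
      p1.comp Computable.fst
    exact RE.comp re_run (f := fun u : ((α × List (ℕ × List ℕ)) × List ℕ) × (ℕ × List ℕ) =>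
      ((D u.1.1.1).2.2, u.2.1, em u.2.2, ([] : List Sym), (D u.1.1.1).2.1))
      ((hT.comp q1).pair ((Computable.fst.comp Computable.snd).pair
        ((primrec_em.to_comp.comp (Computable.snd.comp Computable.snd)).pair
          ((Computable.const []).pair (hA.comp q1)))))
  · refine RE.all_mem (α := (α × List (ℕ × List ℕ)) × List ℕ) (β := ℕ × List ℕ)
      (p := fun z p => ∀ e ∈ (D z.1.1).2.2, e.1 = p.1 → e.2.1 = 1 → e.2.2.1 = none →
      e.2.2.2 = (D z.1.1).2.1 → p.2 = []) ?_ p2
    refine RE.all_mem (α := ((α × List (ℕ × List ℕ)) × List ℕ) × (ℕ × List ℕ)) (β := Arr)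
      (p := fun w e => e.1 = w.2.1 → e.2.1 = 1 → e.2.2.1 = none →
      e.2.2.2 = (D w.1.1.1).2.1 → w.2.2 = []) ?_ (hT.comp (p1.comp Computable.fst))
    have v1 : Computable (fun v : (((α × List (ℕ × List ℕ)) × List ℕ) × (ℕ × List ℕ)) × Arr =>
      v.1.1) := Computable.fst.comp Computable.fst
    have v2 : Computable (fun v : (((α × List (ℕ × List ℕ)) × List ℕ) × (ℕ × List ℕ)) × Arr =>
      v.1.2) := Computable.snd.comp Computable.fst
    have v3 : Computable (fun v : (((α × List (ℕ × List ℕ)) × List ℕ) × (ℕ × List ℕ)) × Arr =>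
      v.2) := Computable.snd
    have v34 := Computable.snd.comp v3
    have v344 := Computable.snd.comp v34
    refine imp_eq (Computable.fst.comp v3) (Computable.fst.comp v2) ?_
    refine imp_eq (Computable.fst.comp v34) (Computable.const 1) ?_
    refine imp_eq (Computable.fst.comp v344) (Computable.const none) ?_
    refine imp_eq (Computable.snd.comp v344) (hA.comp (p1.comp v1)) ?_
    exact RE.eq (Computable.snd.comp v2) (Computable.const [])
  · refine RE.all_mem (α := (α × List (ℕ × List ℕ)) × List ℕ) (β := ℕ × List ℕ)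
      (p := fun z p => ∀ e ∈ (D z.1.1).2.2, e.1 = p.1 → e.2.1 = 1 → e.2.2.2 ∉ z.2 →
      ∀ b ∈ e.2.2.1, ∃ p' ∈ z.1.2, p'.1 = e.2.2.2 ∧
        PrefCheck (d z.1.1) (D z.1.1) p.1 p.2 b p'.2) ?_ p2
    refine RE.all_mem (α := ((α × List (ℕ × List ℕ)) × List ℕ) × (ℕ × List ℕ)) (β := Arr)
      (p := fun w e => e.1 = w.2.1 → e.2.1 = 1 → e.2.2.2 ∉ w.1.2 →
      ∀ b ∈ e.2.2.1, ∃ p' ∈ w.1.1.2, p'.1 = e.2.2.2 ∧
        PrefCheck (d w.1.1.1) (D w.1.1.1) w.2.1 w.2.2 b p'.2) ?_ (hT.comp (p1.comp Computable.fst))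
    have v1 : Computable (fun v : (((α × List (ℕ × List ℕ)) × List ℕ) × (ℕ × List ℕ)) × Arr =>
      v.1.1) := Computable.fst.comp Computable.fst
    have v2 : Computable (fun v : (((α × List (ℕ × List ℕ)) × List ℕ) × (ℕ × List ℕ)) × Arr =>
      v.1.2) := Computable.snd.comp Computable.fst
    have v3 : Computable (fun v : (((α × List (ℕ × List ℕ)) × List ℕ) × (ℕ × List ℕ)) × Arr =>
      v.2) := Computable.snd
    have v34 := Computable.snd.comp v3
    have v344 := Computable.snd.comp v34
    refine imp_eq (Computable.fst.comp v3) (Computable.fst.comp v2) ?_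
    refine imp_eq (Computable.fst.comp v34) (Computable.const 1) ?_
    refine imp_nm (Computable.snd.comp v344) (p3.comp v1) ?_
    have hb : Computable (fun v : (((α × List (ℕ × List ℕ)) × List ℕ) × (ℕ × List ℕ)) × Arr =>
      (v.2.2.2.1).toList) := primrec_toList.to_comp.comp (Computable.fst.comp v344)
    have key : REPred (fun v : (((α × List (ℕ × List ℕ)) × List ℕ) × (ℕ × List ℕ)) × Arr =>
        ∀ b ∈ (v.2.2.2.1).toList, ∃ p' ∈ v.1.1.1.2, p'.1 = v.2.2.2.2 ∧
        PrefCheck (d v.1.1.1.1) (D v.1.1.1.1) v.1.2.1 v.1.2.2 b p'.2) := by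
      refine RE.all_mem (α := (((α × List (ℕ × List ℕ)) × List ℕ) × (ℕ × List ℕ)) × Arr) (β := ℕ)
        (p := fun v b => ∃ p' ∈ v.1.1.1.2, p'.1 = v.2.2.2.2 ∧
        PrefCheck (d v.1.1.1.1) (D v.1.1.1.1) v.1.2.1 v.1.2.2 b p'.2) ?_ hb
      refine RE.ex_mem (α := ((((α × List (ℕ × List ℕ)) × List ℕ) × (ℕ × List ℕ)) × Arr) × ℕ)
        (β := ℕ × List ℕ) (p := fun t p' => p'.1 = t.1.2.2.2.2 ∧
        PrefCheck (d t.1.1.1.1.1) (D t.1.1.1.1.1) t.1.1.2.1 t.1.1.2.2 t.2 p'.2) ?_
        (p2.comp (v1.comp Computable.fst))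
      have f1 : Computable (fun u : (((((α × List (ℕ × List ℕ)) × List ℕ) × (ℕ × List ℕ)) × Arr) × ℕ)
        × (ℕ × List ℕ) => u.1.1) := Computable.fst.comp Computable.fst
      have f2 : Computable (fun u : (((((α × List (ℕ × List ℕ)) × List ℕ) × (ℕ × List ℕ)) × Arr) × ℕ)
        × (ℕ × List ℕ) => u.2) := Computable.snd
      have hal := p1.comp (v1.comp f1)
      refine RE.and (RE.eq (Computable.fst.comp f2) (Computable.snd.comp (v344.comp f1))) ?_
      exact re_pref (hd.comp hal) (hD.comp hal) (Computable.fst.comp (v2.comp f1))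
        (Computable.snd.comp (v2.comp f1)) (Computable.snd.comp Computable.fst)
        (Computable.snd.comp f2)
    refine key.of_eq fun v => ?_
    constructor
    · intro h b hb
      exact h b (Option.mem_toList.2 hb)
    · intro h b hb
      exact h b (Option.mem_toList.1 hb)

theorem re_proj {τ₁ τ₂ : α → NTA} (h1 : Computable τ₁) (h2 : Computable τ₂) :
    REPred fun a => ProjIncl (τ₁ a) (τ₂ a) :=
  RE.comp re_projIncl (f := fun a => (τ₁ a, τ₂ a)) (h1.pair h2)

theorem re_check {τ₁ τ₂ D : α → NTA} {M : α → AAut} (h1 : Computable τ₁) (h2 : Computable τ₂)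
    (h3 : Computable D) (h4 : Computable M) :
    REPred fun a => CheckOK (τ₁ a) (τ₂ a) (D a) (M a) :=
  RE.comp re_checkOK (f := fun a => (τ₁ a, τ₂ a, D a, M a)) (h1.pair (h2.pair (h3.pair h4)))

end rel

/-- JOB H5. -/
theorem re_good : REPred Good := by
  unfold Good
  refine RE.and computable_dwf.to_re ?_
  refine RE.ex (α := Data) (β := NTA) (p := fun d D =>
    (∀ e ∈ D.2.2, e.2.1 = 1) ∧
    ProjIncl D (wNTA d.2.1) ∧
    (∀ x ∈ none :: (List.range d.1).map some,
      ProjIncl (rodM (mult d x)) (wNTA d.2.1) ∧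
      ProjIncl (inv (rodM (mult d x))) (wNTA d.2.1) ∧
      ProjIncl (wNTA d.2.1) (comp (rodM (mult d x)) D) ∧
      ProjIncl (wNTA d.2.1) (comp (inv (rodM (mult d x))) D) ∧
      CheckOK (rodM (mult d x)) (inv (rodM (mult d none))) D (mult d x) ∧
      TrivCheck d D [(true, x), (false, none), (false, x)] ∧
      TrivCheck d D [(false, x), (false, none), (true, x)] ∧
      LabOK d D x) ∧
    TrivCheck d D [] ∧
    TrivCheck d D [(true, none)] ∧
    TrivCheck d D [(false, none), (false, none)] ∧
    ComplOK d D) ?_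
  have hd : Computable (fun y : Data × NTA => y.1) := Computable.fst
  have hD : Computable (fun y : Data × NTA => y.2) := Computable.snd
  have hw : Computable (fun y : Data × NTA => wNTA y.1.2.1) :=
    primrec_wNTA.to_comp.comp (Computable.fst.comp (Computable.snd.comp hd))
  refine RE.and ?_ (RE.and (re_proj hD hw) (RE.and ?_ (RE.and (re_triv hd hD (Computable.const _))
    (RE.and (re_triv hd hD (Computable.const _)) (RE.and (re_triv hd hD (Computable.const _))
      (re_compl hd hD))))))
  · refine RE.all_mem (α := Data × NTA) (β := Arr) (p := fun _ e => e.2.1 = 1) ?_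
      (Computable.snd.comp (Computable.snd.comp hD))
    exact RE.eq (Computable.fst.comp (Computable.snd.comp Computable.snd)) (Computable.const 1)
  · have hl : Computable (fun y : Data × NTA =>
        ((none : Option ℕ) :: (List.range y.1.1).map some)) := by
      have h1 : Primrec (fun y : Data × NTA => (List.range y.1.1).map (some : ℕ → Option ℕ)) :=
        Primrec.list_map (Primrec.list_range.comp (Primrec.fst.comp Primrec.fst))
          (Primrec.option_some.comp Primrec.snd)
      exact (Primrec.list_cons.comp (Primrec.const none) h1).to_comp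
    refine RE.all_mem (α := Data × NTA) (β := Option ℕ) (p := fun y x =>
      ProjIncl (rodM (mult y.1 x)) (wNTA y.1.2.1) ∧
      ProjIncl (inv (rodM (mult y.1 x))) (wNTA y.1.2.1) ∧
      ProjIncl (wNTA y.1.2.1) (comp (rodM (mult y.1 x)) y.2) ∧
      ProjIncl (wNTA y.1.2.1) (comp (inv (rodM (mult y.1 x))) y.2) ∧
      CheckOK (rodM (mult y.1 x)) (inv (rodM (mult y.1 none))) y.2 (mult y.1 x) ∧
      TrivCheck y.1 y.2 [(true, x), (false, none), (false, x)] ∧
      TrivCheck y.1 y.2 [(false, x), (false, none), (true, x)] ∧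
      LabOK y.1 y.2 x) ?_ hl
    have gd : Computable (fun u : (Data × NTA) × Option ℕ => u.1.1) := hd.comp Computable.fst
    have gD : Computable (fun u : (Data × NTA) × Option ℕ => u.1.2) := hD.comp Computable.fst
    have gx : Computable (fun u : (Data × NTA) × Option ℕ => u.2) := Computable.snd
    have gw : Computable (fun u : (Data × NTA) × Option ℕ => wNTA u.1.1.2.1) :=
      hw.comp Computable.fst
    have gM : Computable (fun u : (Data × NTA) × Option ℕ => mult u.1.1 u.2) :=
      primrec_mult.to_comp.comp gd gx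
    have gR : Computable (fun u : (Data × NTA) × Option ℕ => rodM (mult u.1.1 u.2)) :=
      primrec_rodM.to_comp.comp gM
    have gI : Computable (fun u : (Data × NTA) × Option ℕ => inv (rodM (mult u.1.1 u.2))) :=
      primrec_inv.to_comp.comp gR
    have gN : Computable (fun u : (Data × NTA) × Option ℕ => inv (rodM (mult u.1.1 none))) :=
      primrec_inv.to_comp.comp (primrec_rodM.to_comp.comp
        (primrec_mult.to_comp.comp gd (Computable.const none)))
    have gl : ∀ (b : Bool) (t : (Data × NTA) × Option ℕ → List SLet), Computable t →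
        Computable (fun u : (Data × NTA) × Option ℕ => ((b, u.2) : SLet) :: t u) := by
      intro b t ht
      exact Computable.list_cons.comp ((Computable.const b).pair gx) ht
    have gn : ∀ (b : Bool) (t : (Data × NTA) × Option ℕ → List SLet), Computable t →
        Computable (fun u : (Data × NTA) × Option ℕ => ((b, none) : SLet) :: t u) := by
      intro b t ht
      exact Computable.list_cons.comp ((Computable.const b).pair (Computable.const none)) ht
    refine RE.and (re_proj gR gw) (RE.and (re_proj gI gw) (RE.and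
      (re_proj gw (primrec_comp.to_comp.comp gR gD)) (RE.and
      (re_proj gw (primrec_comp.to_comp.comp gI gD)) (RE.and
      (re_check gR gN gD gM) (RE.and ?_ (RE.and ?_ (re_lab gd gD gx)))))))
    · exact re_triv gd gD (gl true _ (gn false _ (gl false _ (Computable.const []))))
    · exact re_triv gd gD (gl false _ (gn false _ (gl true _ (Computable.const []))))

end Pool.Agent.Helper632.AAR
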