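import Pool.Agent.Helper632.AAR.NTA
import Pool.Agent.Helper446.RE
import Pool.Agent.Helper632.AAR.PresEq
import Pool.Agent.Helper632.AAR.EqPRE
import Pool.Agent.Helper632.AAR.GoodRE
import Pool.Agent.Helper632.AAR.PrimA
import Pool.Agent.Helper632.AAR.RunRE

namespace Pool.Agent.Helper632.AAR

open Pool.Agent.Helper446



section auxP833

open Pool.Agent.Helper446.RE

theorem aux833_imp {α : Type*} [Primcodable α] {p q : α → Prop} (hp : REPred fun a => ¬ p a)
    (hq : REPred q) : REPred fun a => (p a → q a) :=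
  (RE.or hp hq).of_eq fun a => by
    constructor
    · rintro (h | h) h2
      · exact absurd h2 h
      · exact h
    · intro h
      by_cases h2 : p a
      · exact Or.inr (h h2)
      · exact Or.inl h2

theorem aux833_toSL : Computable toSL := by
  have h1 : Primrec (fun l : SLet => (psym l.2).map fun m => (l.1, m.2)) := by
    have h2 : Primrec (fun l : SLet => (Option.casesOn l.2 [] (fun a => [(l.1, a)]) : List SL)) := by
      refine Primrec.option_casesOn Primrec.snd (Primrec.const []) ?_
      have h3 : Primrec (fun q : SLet × ℕ => ((q.1.1, q.2) : SL)) :=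
        (Primrec.fst.comp Primrec.fst).pair Primrec.snd
      exact (Primrec.list_cons.comp h3 (Primrec.const []))
    refine h2.of_eq (fun l => ?_)
    rcases l with ⟨b, _ | a⟩ <;> rfl
  have h4 : Primrec (fun r : List SLet => r.flatMap fun l => (psym l.2).map fun m => (l.1, m.2)) :=
    Primrec.list_flatMap Primrec.id (h1.comp Primrec.snd)
  exact h4.to_comp

theorem aux833_sinv : Computable sinv := by
  have h1 : Primrec (fun r : List SLet => r.reverse.map fun l => ((!l.1, l.2) : SLet)) := by
    refine Primrec.list_map Primrec.list_reverse ?_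
    exact ((Primrec.not.comp (Primrec.fst.comp Primrec.snd)).pair (Primrec.snd.comp Primrec.snd))
  exact h1.to_comp

theorem aux833_ssym : Computable ssym := by
  have h2 : Primrec (fun l : Sym => (Option.casesOn l [] (fun a => [(false, some a)]) : List SLet)) := by
    refine Primrec.option_casesOn Primrec.id (Primrec.const []) ?_
    have h3 : Primrec (fun q : Sym × ℕ => ((false, some q.2) : SLet)) :=
      (Primrec.const false).pair (Primrec.option_some.comp Primrec.snd)
    exact (Primrec.list_cons.comp h3 (Primrec.const []))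
  refine (h2.of_eq (fun l => ?_)).to_comp
  rcases l with _ | a <;> rfl

theorem aux833_T {α : Type*} [Primcodable α] {P : α → Pres} {r : α → List SLet}
    (hP : Computable P) (hr : Computable r) : REPred fun a => EqP (P a) (toSL (r a)) [] := by
  have h1 : Computable (fun a => (P a, toSL (r a), ([] : List SL))) :=
    hP.pair ((aux833_toSL.comp hr).pair (Computable.const []))
  exact RE.comp re_eqP h1

/-- the main part -/
theorem aux833_labG {α : Type*} [Primcodable α] {P : α → Pres} {τ : α → NTA} {s0 : α → ℕ}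
    {x : α → Option ℕ} (hP : Computable P) (hτ : Computable τ) (hs : Computable s0)
    (hx : Computable x) :
    REPred fun a => ∃ (L : List (ℕ × List SLet)) (X : List ℕ),
    (s0 a, []) ∈ L ∧ DeadOK (τ a) X ∧
    (∀ p ∈ L, ∀ e ∈ (τ a).2.2, e.1 = p.1 → e.2.2.2 ∉ X →
      ∃ p' ∈ L, p'.1 = e.2.2.2 ∧
        (e.2.1 = 1 → EqP (P a) (toSL (ssym e.2.2.1 ++ p'.2 ++ sinv p.2)) []) ∧
        (e.2.1 = 2 → EqP (P a) (toSL (p.2 ++ ssym e.2.2.1 ++ sinv p'.2)) [])) ∧
    (∀ p ∈ L, p.1 = (τ a).2.1 → EqP (P a) (toSL (p.2 ++ sinv (ssym (x a)))) []) := by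
  refine ex (p := fun (a : α) (L : List (ℕ × List SLet)) => ∃ X : List ℕ,
    (s0 a, []) ∈ L ∧ DeadOK (τ a) X ∧
    (∀ p ∈ L, ∀ e ∈ (τ a).2.2, e.1 = p.1 → e.2.2.2 ∉ X →
      ∃ p' ∈ L, p'.1 = e.2.2.2 ∧
        (e.2.1 = 1 → EqP (P a) (toSL (ssym e.2.2.1 ++ p'.2 ++ sinv p.2)) []) ∧
        (e.2.1 = 2 → EqP (P a) (toSL (p.2 ++ ssym e.2.2.1 ++ sinv p'.2)) [])) ∧
    (∀ p ∈ L, p.1 = (τ a).2.1 → EqP (P a) (toSL (p.2 ++ sinv (ssym (x a)))) [])) ?_
  refine ex (p := fun (b : α × List (ℕ × List SLet)) (X : List ℕ) =>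
    (s0 b.1, []) ∈ b.2 ∧ DeadOK (τ b.1) X ∧
    (∀ p ∈ b.2, ∀ e ∈ (τ b.1).2.2, e.1 = p.1 → e.2.2.2 ∉ X →
      ∃ p' ∈ b.2, p'.1 = e.2.2.2 ∧
        (e.2.1 = 1 → EqP (P b.1) (toSL (ssym e.2.2.1 ++ p'.2 ++ sinv p.2)) []) ∧
        (e.2.1 = 2 → EqP (P b.1) (toSL (p.2 ++ ssym e.2.2.1 ++ sinv p'.2)) [])) ∧
    (∀ p ∈ b.2, p.1 = (τ b.1).2.1 → EqP (P b.1) (toSL (p.2 ++ sinv (ssym (x b.1)))) [])) ?_
  -- context c : (α × L) × X
  have ca : Computable (fun c : (α × List (ℕ × List SLet)) × List ℕ => c.1.1) :=
    Computable.fst.comp Computable.fst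
  have cL : Computable (fun c : (α × List (ℕ × List SLet)) × List ℕ => c.1.2) :=
    Computable.snd.comp Computable.fst
  have cX : Computable (fun c : (α × List (ℕ × List SLet)) × List ℕ => c.2) := Computable.snd
  have cτ : Computable (fun c : (α × List (ℕ × List SLet)) × List ℕ => τ c.1.1) := hτ.comp ca
  have cP : Computable (fun c : (α × List (ℕ × List SLet)) × List ℕ => P c.1.1) := hP.comp ca
  have cs : Computable (fun c : (α × List (ℕ × List SLet)) × List ℕ => s0 c.1.1) := hs.comp ca
  have cx : Computable (fun c : (α × List (ℕ × List SLet)) × List ℕ => x c.1.1) := hx.comp ca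
  refine RE.and ?_ (RE.and ?_ (RE.and ?_ ?_))
  · exact mem_list (cs.pair (Computable.const ([] : List SLet))) cL
  · exact RE.comp re_deadOK (cτ.pair cX)
  · refine all_mem (p := fun (c : (α × List (ℕ × List SLet)) × List ℕ) (p : ℕ × List SLet) =>
      ∀ e ∈ (τ c.1.1).2.2, e.1 = p.1 → e.2.2.2 ∉ c.2 →
      ∃ p' ∈ c.1.2, p'.1 = e.2.2.2 ∧
        (e.2.1 = 1 → EqP (P c.1.1) (toSL (ssym e.2.2.1 ++ p'.2 ++ sinv p.2)) []) ∧
        (e.2.1 = 2 → EqP (P c.1.1) (toSL (p.2 ++ ssym e.2.2.1 ++ sinv p'.2)) [])) ?_ cL
    refine all_mem (p := fun (f : ((α × List (ℕ × List SLet)) × List ℕ) × (ℕ × List SLet)) (e : Arr) =>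
      e.1 = f.2.1 → e.2.2.2 ∉ f.1.2 →
      ∃ p' ∈ f.1.1.2, p'.1 = e.2.2.2 ∧
        (e.2.1 = 1 → EqP (P f.1.1.1) (toSL (ssym e.2.2.1 ++ p'.2 ++ sinv f.2.2)) []) ∧
        (e.2.1 = 2 → EqP (P f.1.1.1) (toSL (f.2.2 ++ ssym e.2.2.1 ++ sinv p'.2)) []))
      (l := fun f => (τ f.1.1.1).2.2) ?_
      (Computable.snd.comp (Computable.snd.comp (cτ.comp Computable.fst)))
    -- context g : (c × p) × e
    have gc : Computable (fun g : (((α × List (ℕ × List SLet)) × List ℕ) × (ℕ × List SLet)) × Arr =>
      g.1.1) := Computable.fst.comp Computable.fst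
    have gp : Computable (fun g : (((α × List (ℕ × List SLet)) × List ℕ) × (ℕ × List SLet)) × Arr =>
      g.1.2) := Computable.snd.comp Computable.fst
    have ge : Computable (fun g : (((α × List (ℕ × List SLet)) × List ℕ) × (ℕ × List SLet)) × Arr =>
      g.2) := Computable.snd
    have ge1 := Computable.fst.comp ge
    have ge2 := Computable.snd.comp ge
    have ge21 := Computable.fst.comp ge2
    have ge22 := Computable.snd.comp ge2
    have ge221 := Computable.fst.comp ge22
    have ge222 := Computable.snd.comp ge22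
    have gp1 := Computable.fst.comp gp
    have gp2 := Computable.snd.comp gp
    have gX := cX.comp gc
    have gL := cL.comp gc
    have gP := cP.comp gc
    refine aux833_imp (ne ge1 gp1) (aux833_imp ?_ ?_)
    · refine (mem_list ge222 gX).of_eq (fun g => ?_)
      exact (not_not).symm
    · refine ex_mem (p := fun (g : (((α × List (ℕ × List SLet)) × List ℕ) × (ℕ × List SLet)) × Arr)
        (p' : ℕ × List SLet) => p'.1 = g.2.2.2.2 ∧
        (g.2.2.1 = 1 → EqP (P g.1.1.1.1) (toSL (ssym g.2.2.2.1 ++ p'.2 ++ sinv g.1.2.2)) []) ∧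
        (g.2.2.1 = 2 → EqP (P g.1.1.1.1) (toSL (g.1.2.2 ++ ssym g.2.2.2.1 ++ sinv p'.2)) []))
        ?_ gL
      have hg : Computable (fun k : ((((α × List (ℕ × List SLet)) × List ℕ) × (ℕ × List SLet)) × Arr) ×
        (ℕ × List SLet) => k.1) := Computable.fst
      have hp' : Computable (fun k : ((((α × List (ℕ × List SLet)) × List ℕ) × (ℕ × List SLet)) × Arr) ×
        (ℕ × List SLet) => k.2) := Computable.snd
      have hp'1 := Computable.fst.comp hp'
      have hp'2 := Computable.snd.comp hp'
      have k222 := ge222.comp hg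
      have k21 := ge21.comp hg
      have k221 := ge221.comp hg
      have kp2 := gp2.comp hg
      have kP := gP.comp hg
      have kss := aux833_ssym.comp k221
      refine RE.and (eq hp'1 k222) (RE.and (aux833_imp (ne k21 (Computable.const 1)) ?_)
        (aux833_imp (ne k21 (Computable.const 2)) ?_))
      · refine aux833_T kP ?_
        have a1 := Computable.list_append.comp kss hp'2
        have a2 := aux833_sinv.comp kp2
        exact Computable.list_append.comp a1 a2
      · refine aux833_T kP ?_
        have a1 := Computable.list_append.comp kp2 kss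
        have a2 := aux833_sinv.comp hp'2
        exact Computable.list_append.comp a1 a2
  · refine all_mem (p := fun (c : (α × List (ℕ × List SLet)) × List ℕ) (p : ℕ × List SLet) =>
      p.1 = (τ c.1.1).2.1 → EqP (P c.1.1) (toSL (p.2 ++ sinv (ssym (x c.1.1)))) []) ?_ cL
    have gc : Computable (fun g : ((α × List (ℕ × List SLet)) × List ℕ) × (ℕ × List SLet) =>
      g.1) := Computable.fst
    have gp : Computable (fun g : ((α × List (ℕ × List SLet)) × List ℕ) × (ℕ × List SLet) =>
      g.2) := Computable.snd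
    have gp1 := Computable.fst.comp gp
    have gp2 := Computable.snd.comp gp
    have gt := Computable.fst.comp (Computable.snd.comp (cτ.comp gc))
    have gx := aux833_sinv.comp (aux833_ssym.comp (cx.comp gc))
    refine aux833_imp (ne gp1 gt) (aux833_T (cP.comp gc) ?_)
    exact Computable.list_append.comp gp2 gx

end auxP833

/-- JOB P4: the only target (the theorem above is known). -/
theorem re_goodP (E : Data → List SL → List SL → Prop)
    (hE : REPred (fun x : Data × List SL × List SL => E x.1 x.2.1 x.2.2)) :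
    REPred (fun y : Pres × Data => y.2.1 = y.1.1 ∧ Good y.2 ∧ (∀ r ∈ y.1.2, E y.2 r []) ∧
      ∀ x ∈ (none :: (List.range y.2.1).map some : List (Option ℕ)),
        LabG (fun r => EqP y.1 (toSL r) []) y.2 x) := by
  have h1 : Computable (fun y : Pres × Data => y.1) := Computable.fst
  have h2 : Computable (fun y : Pres × Data => y.2) := Computable.snd
  have h11 := Computable.fst.comp h1
  have h12 := Computable.snd.comp h1
  have h21 := Computable.fst.comp h2
  refine RE.and (RE.eq h21 h11) (RE.and (RE.comp re_good h2) (RE.and ?_ ?_))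
  · refine RE.all_mem (p := fun (y : Pres × Data) (r : List SL) => E y.2 r []) ?_ h12
    have k1 : Computable (fun z : (Pres × Data) × List SL => (z.1.2, z.2, ([] : List SL))) :=
      (h2.comp Computable.fst).pair (Computable.snd.pair (Computable.const []))
    exact RE.comp hE k1
  · refine RE.all_mem (p := fun (y : Pres × Data) (x : Option ℕ) =>
      LabG (fun r => EqP y.1 (toSL r) []) y.2 x) ?_ ?_
    · have z1 : Computable (fun z : (Pres × Data) × Option ℕ => z.1.1) :=
        Computable.fst.comp Computable.fst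
      have z2 : Computable (fun z : (Pres × Data) × Option ℕ => z.1.2) :=
        Computable.snd.comp Computable.fst
      have zx : Computable (fun z : (Pres × Data) × Option ℕ => z.2) := Computable.snd
      have zm : Computable (fun z : (Pres × Data) × Option ℕ => mult z.1.2 z.2) :=
        primrec_mult.to_comp.comp z2 zx
      have zr : Computable (fun z : (Pres × Data) × Option ℕ => rodM (mult z.1.2 z.2)) :=
        primrec_rodM.to_comp.comp zm
      exact aux833_labG z1 zr (Computable.fst.comp zm) zx
    · have p1 : Primrec (fun n : ℕ => (none :: (List.range n).map some : List (Option ℕ))) := by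
        refine Primrec.list_cons.comp (Primrec.const none) ?_
        exact Primrec.list_map Primrec.list_range (Primrec.option_some.comp Primrec.snd)
      exact p1.to_comp.comp h21

end Pool.Agent.Helper632.AAR
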