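import Pool.Agent.Helper632.AAR.NTA
import Pool.Agent.Helper632.AAR.Base

namespace Pool.Agent.Helper632.AAR

theorem g2b_slval_nil {G : Type*} [Group G] (π : ℕ → G) : slval π [] = 1 := rfl

theorem g2b_slval_append {G : Type*} [Group G] (π : ℕ → G) (r r' : List SLet) :
    slval π (r ++ r') = slval π r * slval π r' := by
  unfold slval
  rw [List.map_append, List.prod_append]

theorem g2b_slval_sinv {G : Type*} [Group G] (π : ℕ → G) (r : List SLet) :
    slval π (sinv r) = (slval π r)⁻¹ := by
  induction r with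
  | nil => simp [sinv, slval]
  | cons l r ih =>
    have h1 : sinv (l :: r) = sinv r ++ [(!l.1, l.2)] := by
      simp [sinv]
    have h2 : slval π (l :: r) = slval π [l] * slval π r := g2b_slval_append π [l] r
    rw [h1, g2b_slval_append, ih, h2, mul_inv_rev]
    congr 1
    obtain ⟨b, o⟩ := l
    cases b <;> simp [slval]

theorem g2b_slval_ssym {G : Type*} [Group G] (π : ℕ → G) (s : Sym) :
    slval π (ssym s) = gen π s := by
  cases s with
  | none => simp [ssym, slval, gen]
  | some a => simp [ssym, slval, gen]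

theorem g2b_sval_cons {G : Type*} [Group G] (π : ℕ → G) (s : Sym) (U : List Sym) :
    sval π (s :: U) = gen π s * sval π U := by
  unfold sval
  rw [List.map_cons, List.prod_cons]
  cases s with
  | none => simp [gen]
  | some a => simp [gen]

theorem g2b_sval_append {G : Type*} [Group G] (π : ℕ → G) (U V : List Sym) :
    sval π (U ++ V) = sval π U * sval π V := by
  unfold sval
  rw [List.map_append, List.prod_append]

theorem g2b_slval_flatMap {G : Type*} [Group G] (π : ℕ → G) (U : List Sym) :
    slval π (U.flatMap ssym) = sval π U := by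
  induction U with
  | nil => simp [slval, sval]
  | cons s U ih =>
    rw [List.flatMap_cons, g2b_slval_append, ih, g2b_slval_ssym, g2b_sval_cons]

theorem g2b_sval_em {G : Type*} [Group G] (π : ℕ → G) (u : List ℕ) :
    sval π (em u) = val π u := by
  unfold sval val em
  simp [Function.comp_def]

theorem g2b_inA_append {n : ℕ} {r r' : List SLet} (h : ∀ l ∈ r, InA n l.2)
    (h' : ∀ l ∈ r', InA n l.2) : ∀ l ∈ r ++ r', InA n l.2 := by
  intro l hl
  rcases List.mem_append.mp hl with h1 | h1
  · exact h l h1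
  · exact h' l h1

theorem g2b_inA_sinv {n : ℕ} {r : List SLet} (h : ∀ l ∈ r, InA n l.2) :
    ∀ l ∈ sinv r, InA n l.2 := by
  intro l hl
  unfold sinv at hl
  rw [List.mem_map] at hl
  obtain ⟨l', hl', rfl⟩ := hl
  exact h l' (List.mem_reverse.mp hl')

theorem g2b_inA_ssym {n : ℕ} {s : Sym} (h : ∀ b, s = some b → b < n) :
    ∀ l ∈ ssym s, InA n l.2 := by
  intro l hl
  cases s with
  | none => simp [ssym] at hl
  | some a =>
    simp only [ssym, List.mem_singleton] at hl
    subst hl
    exact h a rfl

theorem g2b_inA_flatMap {n : ℕ} {U : List Sym} (h : ∀ b, some b ∈ U → b < n) :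
    ∀ l ∈ U.flatMap ssym, InA n l.2 := by
  intro l hl
  rw [List.mem_flatMap] at hl
  obtain ⟨s, hs, hl⟩ := hl
  exact g2b_inA_ssym (fun b hb => h b (hb ▸ hs)) l hl

theorem g2b_run_syms {T : List Arr} {n : ℕ} (hT : ∀ e ∈ T, ∀ b, e.2.2.1 = some b → b < n)
    {s t : ℕ} {U V : List Sym} (h : Run T s U V t) :
    (∀ b, some b ∈ U → b < n) ∧ (∀ b, some b ∈ V → b < n) := by
  induction h with
  | nil s => exact ⟨by simp, by simp⟩
  | eps he _ ih => exact ih
  | left he _ ih =>
    refine ⟨fun b hb => ?_, ih.2⟩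
    rcases List.mem_cons.mp hb with h1 | h1
    · exact hT _ he b h1.symm
    · exact ih.1 b h1
  | right he _ ih =>
    refine ⟨ih.1, fun b hb => ?_⟩
    rcases List.mem_cons.mp hb with h1 | h1
    · exact hT _ he b h1.symm
    · exact ih.2 b h1

/-- JOB G2b. -/
theorem labOK_of {G : Type*} [Group G] (π : ℕ → G) (d : Data) (hd : DWF d)
    (hs : IsStructure G π d) (D : NTA)
    (hT : ∀ r : List SLet, (∀ l ∈ r, InA d.1 l.2) → slval π r = 1 → TrivCheck d D r)
    (x : Option ℕ) (hx : InA d.1 x) : LabOK d D x := by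
  classical
  have hM : AWF d.1 (mult d x) := by
    cases x with
    | none => exact hd.eps
    | some a =>
      have ha : a < d.2.2.2.length := by
        rw [hd.len]
        exact hx
      apply hd.mults
      simp only [mult]
      rw [List.getD_eq_getElem _ _ ha]
      exact List.getElem_mem ha
  have hrel : ∀ U V, Rel (rodM (mult d x)) U V → sval π U * gen π x = sval π V := by
    intro U V h
    have h1 := (rel_rodM hM).mp h
    obtain ⟨u, v, rfl, rfl, -, -⟩ := acc_em hM h1
    have h2 := (hs.mult x hx u v).mp h1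
    rw [g2b_sval_em, g2b_sval_em]
    exact h2.2.2
  have htag : ∀ e ∈ (rodM (mult d x)).2.2, e.2.1 = 1 ∨ e.2.1 = 2 := by
    intro e he
    unfold rodM at he
    simp only [List.mem_map] at he
    obtain ⟨e', -, rfl⟩ := he
    simp only
    split_ifs
    · exact Or.inl rfl
    · exact Or.inr rfl
  have hsym : ∀ e ∈ (rodM (mult d x)).2.2, ∀ b, e.2.2.1 = some b → b < d.1 := by
    intro e he b hb
    unfold rodM at he
    simp only [List.mem_map] at he
    obtain ⟨e', he', rfl⟩ := he
    simp only at hb
    rcases hM.arrows e' he' with ⟨⟨c, hc, hc'⟩, -⟩ | ⟨h1, -⟩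
    · rw [hb] at hc'
      obtain rfl := Option.some.inj hc'
      exact hc
    · rw [hb] at h1
      exact absurd h1 (by simp)
  obtain ⟨X, hX, hXc⟩ := dead_complete (rodM (mult d x)) (fun e he => Or.inr (htag e he))
  have hstart : (rodM (mult d x)).1 = (mult d x).1 := rfl
  set τ := rodM (mult d x) with hτ
  have hrelRun : ∀ {U V : List Sym}, Run τ.2.2 τ.1 U V τ.2.1 → sval π U * gen π x = sval π V :=
    fun {U V} h => hrel U V h
  -- access pairs
  obtain ⟨f, hf0, hf⟩ : ∃ f : ℕ → List Sym × List Sym, f τ.1 = ([], []) ∧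
      ∀ s, (∃ U V, Run τ.2.2 τ.1 U V s) → Run τ.2.2 τ.1 (f s).1 (f s).2 s := by
    refine ⟨fun s => if s = τ.1 then ([], []) else
      if h : ∃ p : List Sym × List Sym, Run τ.2.2 τ.1 p.1 p.2 s then h.choose else ([], []),
      by simp, ?_⟩
    rintro s ⟨U, V, h⟩
    by_cases h1 : s = τ.1
    · subst h1
      simp only [if_true]
      exact Run.nil _
    · have h2 : ∃ p : List Sym × List Sym, Run τ.2.2 τ.1 p.1 p.2 s := ⟨(U, V), h⟩
      simp only [if_neg h1, dif_pos h2]
      exact h2.choose_spec
  set lab : ℕ → List SLet := fun s => sinv ((f s).1.flatMap ssym) ++ (f s).2.flatMap ssym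
    with hlab
  have hlabval : ∀ s, slval π (lab s) = (sval π (f s).1)⁻¹ * sval π (f s).2 := by
    intro s
    simp only [hlab]
    rw [g2b_slval_append, g2b_slval_sinv, g2b_slval_flatMap, g2b_slval_flatMap]
  have hlabin : ∀ s, (∃ U V, Run τ.2.2 τ.1 U V s) → ∀ l ∈ lab s, InA d.1 l.2 := by
    intro s h
    have h1 := g2b_run_syms hsym (hf s h)
    exact g2b_inA_append (g2b_inA_sinv (g2b_inA_flatMap h1.1)) (g2b_inA_flatMap h1.2)
  -- value of labels from completions
  have hval : ∀ s U V U2 V2, Run τ.2.2 τ.1 U V s → Run τ.2.2 s U2 V2 τ.2.1 →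
      (sval π U)⁻¹ * sval π V = sval π U2 * gen π x * (sval π V2)⁻¹ := by
    intro s U V U2 V2 h1 h2
    have h3 := hrelRun (run_append h1 h2)
    rw [g2b_sval_append, g2b_sval_append] at h3
    rw [inv_mul_eq_iff_eq_mul, ← mul_assoc, eq_mul_inv_iff_mul_eq, ← h3]
    group
  set L : List (ℕ × List SLet) := ((sts τ).filter (fun s => decide (∃ U V,
    Run τ.2.2 τ.1 U V s))).map (fun s => (s, lab s)) with hL
  have hmemL : ∀ p : ℕ × List SLet, p ∈ L ↔ p.1 ∈ sts τ ∧ (∃ U V, Run τ.2.2 τ.1 U V p.1) ∧
      p.2 = lab p.1 := by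
    intro p
    simp only [hL, List.mem_map, List.mem_filter, decide_eq_true_eq]
    constructor
    · rintro ⟨s, ⟨h1, h2⟩, rfl⟩
      exact ⟨h1, h2, rfl⟩
    · rintro ⟨h1, h2, h3⟩
      exact ⟨p.1, ⟨h1, h2⟩, by rw [← h3]⟩
  refine ⟨L, X, ?_, hX, ?_, ?_⟩
  · rw [hmemL]
    refine ⟨?_, ⟨[], [], Run.nil _⟩, ?_⟩
    · simp only [sts]
      exact List.mem_cons.mpr (Or.inl hstart.symm)
    · simp only [hlab]
      rw [← hstart, hf0]
      simp [sinv]
  · intro p hp e he hep heX
    obtain ⟨hp1, hpacc, hp2⟩ := (hmemL p).mp hp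
    have hrun := hf p.1 hpacc
    -- completion of the target
    obtain ⟨U2, V2, h2⟩ := hXc e.2.2.2 (List.mem_map.mpr ⟨e, he, rfl⟩) heX
    have hstst : e.2.2.2 ∈ sts τ := by
      simp only [sts]
      refine List.mem_cons_of_mem _ (List.mem_cons_of_mem _ (List.mem_append_right _ ?_))
      exact List.mem_map.mpr ⟨e, he, rfl⟩
    obtain ⟨es, etag, eb, et⟩ := e
    simp only at hep he hstst h2 ⊢
    subst hep
    rcases htag _ he with htg | htg
    · simp only at htg
      subst htg
      have hr1 : Run τ.2.2 τ.1 ((f p.1).1 ++ [eb]) ((f p.1).2 ++ []) et :=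
        run_append hrun (Run.left he (Run.nil _))
      rw [List.append_nil] at hr1
      have hacct : ∃ U V, Run τ.2.2 τ.1 U V et := ⟨_, _, hr1⟩
      refine ⟨(et, lab et), (hmemL _).mpr ⟨hstst, hacct, rfl⟩, rfl, ?_, ?_⟩
      · intro _
        apply hT
        · refine g2b_inA_append (g2b_inA_append (g2b_inA_ssym fun b hb => hsym _ he b hb)
            (hlabin et hacct)) (g2b_inA_sinv ?_)
          rw [hp2]
          exact hlabin p.1 hpacc
        · rw [g2b_slval_append, g2b_slval_append, g2b_slval_sinv, hp2, g2b_slval_ssym, hlabval,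
            hlabval]
          have h3 := hval et _ _ U2 V2 hr1 h2
          have h4 := hval et _ _ U2 V2 (hf et hacct) h2
          rw [h4, ← h3, g2b_sval_append]
          have h5 : sval π [eb] = gen π eb := by
            rw [g2b_sval_cons]
            simp [sval]
          rw [h5]
          group
      · intro h
        exact absurd h (by norm_num)
    · simp only at htg
      subst htg
      have hr1 : Run τ.2.2 τ.1 ((f p.1).1 ++ []) ((f p.1).2 ++ [eb]) et :=
        run_append hrun (Run.right he (Run.nil _))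
      rw [List.append_nil] at hr1
      have hacct : ∃ U V, Run τ.2.2 τ.1 U V et := ⟨_, _, hr1⟩
      refine ⟨(et, lab et), (hmemL _).mpr ⟨hstst, hacct, rfl⟩, rfl, ?_, ?_⟩
      · intro h
        exact absurd h (by norm_num)
      · intro _
        apply hT
        · refine g2b_inA_append (g2b_inA_append ?_ (g2b_inA_ssym fun b hb => hsym _ he b hb))
            (g2b_inA_sinv (hlabin et hacct))
          rw [hp2]
          exact hlabin p.1 hpacc
        · rw [g2b_slval_append, g2b_slval_append, g2b_slval_sinv, hp2, g2b_slval_ssym, hlabval,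
            hlabval]
          have h3 := hval et _ _ U2 V2 hr1 h2
          have h4 := hval et _ _ U2 V2 (hf et hacct) h2
          rw [h4, ← h3, g2b_sval_append]
          have h5 : sval π [eb] = gen π eb := by
            rw [g2b_sval_cons]
            simp [sval]
          rw [h5]
          group
  · intro p hp hpe
    obtain ⟨hp1, hpacc, hp2⟩ := (hmemL p).mp hp
    have hrun := hf p.1 hpacc
    have hrun' : Run τ.2.2 τ.1 (f p.1).1 (f p.1).2 τ.2.1 := by
      have := hrun
      rw [hpe] at this ⊢
      exact this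
    apply hT
    · refine g2b_inA_append ?_ (g2b_inA_sinv (g2b_inA_ssym fun b hb => ?_))
      · rw [hp2]
        exact hlabin p.1 hpacc
      · subst hb
        exact hx
    · rw [g2b_slval_append, g2b_slval_sinv, g2b_slval_ssym, hp2, hlabval, ← hrelRun hrun']
      group

end Pool.Agent.Helper632.AAR
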