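import Pool.Agent.Helper632.AAR.Yes2
import Pool.Agent.Helper632.AAR.Lab
import Pool.Agent.Helper632.AAR.PresEq

namespace Pool.Agent.Helper632.AAR

/-- A labelling exists, for any predicate satisfied by the words of value `1`. -/
theorem labG_of {G : Type*} [Group G] (π : ℕ → G) (d : Data) (hd : DWF d)
    (hs : IsStructure G π d) (T : List SLet → Prop)
    (hT : ∀ r : List SLet, (∀ l ∈ r, InA d.1 l.2) → slval π r = 1 → T r)
    (x : Option ℕ) (hx : InA d.1 x) : LabG T d x := by
  classical
  have hM : AWF d.1 (mult d x) := by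
    cases x with
    | none => exact hd.eps
    | some a =>
      have ha : a < d.2.2.2.length := by
        rw [hd.len]
        exact hx
      apply hd.mults
      simp only [mult]
      rw [List.getD_eq_getElem _ _ ha]
      exact List.getElem_mem ha
  have hrel : ∀ U V, Rel (rodM (mult d x)) U V → sval π U * gen π x = sval π V := by
    intro U V h
    have h1 := (rel_rodM hM).mp h
    obtain ⟨u, v, rfl, rfl, -, -⟩ := acc_em hM h1
    have h2 := (hs.mult x hx u v).mp h1
    rw [g2b_sval_em, g2b_sval_em]
    exact h2.2.2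
  have htag : ∀ e ∈ (rodM (mult d x)).2.2, e.2.1 = 1 ∨ e.2.1 = 2 := by
    intro e he
    unfold rodM at he
    simp only [List.mem_map] at he
    obtain ⟨e', -, rfl⟩ := he
    simp only
    split_ifs
    · exact Or.inl rfl
    · exact Or.inr rfl
  have hsym : ∀ e ∈ (rodM (mult d x)).2.2, ∀ b, e.2.2.1 = some b → b < d.1 := by
    intro e he b hb
    unfold rodM at he
    simp only [List.mem_map] at he
    obtain ⟨e', he', rfl⟩ := he
    simp only at hb
    rcases hM.arrows e' he' with ⟨⟨c, hc, hc'⟩, -⟩ | ⟨h1, -⟩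
    · rw [hb] at hc'
      obtain rfl := Option.some.inj hc'
      exact hc
    · rw [hb] at h1
      exact absurd h1 (by simp)
  obtain ⟨X, hX, hXc⟩ := dead_complete (rodM (mult d x)) (fun e he => Or.inr (htag e he))
  have hstart : (rodM (mult d x)).1 = (mult d x).1 := rfl
  set τ := rodM (mult d x) with hτ
  have hrelRun : ∀ {U V : List Sym}, Run τ.2.2 τ.1 U V τ.2.1 → sval π U * gen π x = sval π V :=
    fun {U V} h => hrel U V h
  -- access pairs
  obtain ⟨f, hf0, hf⟩ : ∃ f : ℕ → List Sym × List Sym, f τ.1 = ([], []) ∧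
      ∀ s, (∃ U V, Run τ.2.2 τ.1 U V s) → Run τ.2.2 τ.1 (f s).1 (f s).2 s := by
    refine ⟨fun s => if s = τ.1 then ([], []) else
      if h : ∃ p : List Sym × List Sym, Run τ.2.2 τ.1 p.1 p.2 s then h.choose else ([], []),
      by simp, ?_⟩
    rintro s ⟨U, V, h⟩
    by_cases h1 : s = τ.1
    · subst h1
      simp only [if_true]
      exact Run.nil _
    · have h2 : ∃ p : List Sym × List Sym, Run τ.2.2 τ.1 p.1 p.2 s := ⟨(U, V), h⟩
      simp only [if_neg h1, dif_pos h2]
      exact h2.choose_spec
  set lab : ℕ → List SLet := fun s => sinv ((f s).1.flatMap ssym) ++ (f s).2.flatMap ssym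
    with hlab
  have hlabval : ∀ s, slval π (lab s) = (sval π (f s).1)⁻¹ * sval π (f s).2 := by
    intro s
    simp only [hlab]
    rw [g2b_slval_append, g2b_slval_sinv, g2b_slval_flatMap, g2b_slval_flatMap]
  have hlabin : ∀ s, (∃ U V, Run τ.2.2 τ.1 U V s) → ∀ l ∈ lab s, InA d.1 l.2 := by
    intro s h
    have h1 := g2b_run_syms hsym (hf s h)
    exact g2b_inA_append (g2b_inA_sinv (g2b_inA_flatMap h1.1)) (g2b_inA_flatMap h1.2)
  -- value of labels from completions
  have hval : ∀ s U V U2 V2, Run τ.2.2 τ.1 U V s → Run τ.2.2 s U2 V2 τ.2.1 →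
      (sval π U)⁻¹ * sval π V = sval π U2 * gen π x * (sval π V2)⁻¹ := by
    intro s U V U2 V2 h1 h2
    have h3 := hrelRun (run_append h1 h2)
    rw [g2b_sval_append, g2b_sval_append] at h3
    rw [inv_mul_eq_iff_eq_mul, ← mul_assoc, eq_mul_inv_iff_mul_eq, ← h3]
    group
  set L : List (ℕ × List SLet) := ((sts τ).filter (fun s => decide (∃ U V,
    Run τ.2.2 τ.1 U V s))).map (fun s => (s, lab s)) with hL
  have hmemL : ∀ p : ℕ × List SLet, p ∈ L ↔ p.1 ∈ sts τ ∧ (∃ U V, Run τ.2.2 τ.1 U V p.1) ∧
      p.2 = lab p.1 := by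
    intro p
    simp only [hL, List.mem_map, List.mem_filter, decide_eq_true_eq]
    constructor
    · rintro ⟨s, ⟨h1, h2⟩, rfl⟩
      exact ⟨h1, h2, rfl⟩
    · rintro ⟨h1, h2, h3⟩
      exact ⟨p.1, ⟨h1, h2⟩, by rw [← h3]⟩
  refine ⟨L, X, ?_, hX, ?_, ?_⟩
  · rw [hmemL]
    refine ⟨?_, ⟨[], [], Run.nil _⟩, ?_⟩
    · simp only [sts]
      exact List.mem_cons.mpr (Or.inl hstart.symm)
    · simp only [hlab]
      rw [← hstart, hf0]
      simp [sinv]
  · intro p hp e he hep heX
    obtain ⟨hp1, hpacc, hp2⟩ := (hmemL p).mp hp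
    have hrun := hf p.1 hpacc
    -- completion of the target
    obtain ⟨U2, V2, h2⟩ := hXc e.2.2.2 (List.mem_map.mpr ⟨e, he, rfl⟩) heX
    have hstst : e.2.2.2 ∈ sts τ := by
      simp only [sts]
      refine List.mem_cons_of_mem _ (List.mem_cons_of_mem _ (List.mem_append_right _ ?_))
      exact List.mem_map.mpr ⟨e, he, rfl⟩
    obtain ⟨es, etag, eb, et⟩ := e
    simp only at hep he hstst h2 ⊢
    subst hep
    rcases htag _ he with htg | htg
    · simp only at htg
      subst htg
      have hr1 : Run τ.2.2 τ.1 ((f p.1).1 ++ [eb]) ((f p.1).2 ++ []) et :=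
        run_append hrun (Run.left he (Run.nil _))
      rw [List.append_nil] at hr1
      have hacct : ∃ U V, Run τ.2.2 τ.1 U V et := ⟨_, _, hr1⟩
      refine ⟨(et, lab et), (hmemL _).mpr ⟨hstst, hacct, rfl⟩, rfl, ?_, ?_⟩
      · intro _
        apply hT
        · refine g2b_inA_append (g2b_inA_append (g2b_inA_ssym fun b hb => hsym _ he b hb)
            (hlabin et hacct)) (g2b_inA_sinv ?_)
          rw [hp2]
          exact hlabin p.1 hpacc
        · rw [g2b_slval_append, g2b_slval_append, g2b_slval_sinv, hp2, g2b_slval_ssym, hlabval,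
            hlabval]
          have h3 := hval et _ _ U2 V2 hr1 h2
          have h4 := hval et _ _ U2 V2 (hf et hacct) h2
          rw [h4, ← h3, g2b_sval_append]
          have h5 : sval π [eb] = gen π eb := by
            rw [g2b_sval_cons]
            simp [sval]
          rw [h5]
          group
      · intro h
        exact absurd h (by norm_num)
    · simp only at htg
      subst htg
      have hr1 : Run τ.2.2 τ.1 ((f p.1).1 ++ []) ((f p.1).2 ++ [eb]) et :=
        run_append hrun (Run.right he (Run.nil _))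
      rw [List.append_nil] at hr1
      have hacct : ∃ U V, Run τ.2.2 τ.1 U V et := ⟨_, _, hr1⟩
      refine ⟨(et, lab et), (hmemL _).mpr ⟨hstst, hacct, rfl⟩, rfl, ?_, ?_⟩
      · intro h
        exact absurd h (by norm_num)
      · intro _
        apply hT
        · refine g2b_inA_append (g2b_inA_append ?_ (g2b_inA_ssym fun b hb => hsym _ he b hb))
            (g2b_inA_sinv (hlabin et hacct))
          rw [hp2]
          exact hlabin p.1 hpacc
        · rw [g2b_slval_append, g2b_slval_append, g2b_slval_sinv, hp2, g2b_slval_ssym, hlabval,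
            hlabval]
          have h3 := hval et _ _ U2 V2 hr1 h2
          have h4 := hval et _ _ U2 V2 (hf et hacct) h2
          rw [h4, ← h3, g2b_sval_append]
          have h5 : sval π [eb] = gen π eb := by
            rw [g2b_sval_cons]
            simp [sval]
          rw [h5]
          group
  · intro p hp hpe
    obtain ⟨hp1, hpacc, hp2⟩ := (hmemL p).mp hp
    have hrun := hf p.1 hpacc
    have hrun' : Run τ.2.2 τ.1 (f p.1).1 (f p.1).2 τ.2.1 := by
      have := hrun
      rw [hpe] at this ⊢
      exact this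
    apply hT
    · refine g2b_inA_append ?_ (g2b_inA_sinv (g2b_inA_ssym fun b hb => ?_))
      · rw [hp2]
        exact hlabin p.1 hpacc
      · subst hb
        exact hx
    · rw [g2b_slval_append, g2b_slval_sinv, g2b_slval_ssym, hp2, hlabval, ← hrelRun hrun']
      group



/-- Soundness of `M_x` from the labels. -/
theorem labG_sound {G : Type*} [Group G] (π : ℕ → G) {d : Data} (T : List SLet → Prop)
    (x : Option ℕ) (hT : ∀ r, T r → slval π r = 1) {L : List (ℕ × List SLet)} {X : List ℕ}
    (hX : DeadOK (rodM (mult d x)) X)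
    (h1 : ∀ p ∈ L, ∀ e ∈ (rodM (mult d x)).2.2, e.1 = p.1 → e.2.2.2 ∉ X →
      ∃ p' ∈ L, p'.1 = e.2.2.2 ∧
        (e.2.1 = 1 → T (ssym e.2.2.1 ++ p'.2 ++ sinv p.2)) ∧
        (e.2.1 = 2 → T (p.2 ++ ssym e.2.2.1 ++ sinv p'.2)))
    (h2 : ∀ p ∈ L, p.1 = (rodM (mult d x)).2.1 → T (p.2 ++ sinv (ssym x)))
    {s t : ℕ} {U V : List Sym} (h : Run (rodM (mult d x)).2.2 s U V t)
    (ht : t = (rodM (mult d x)).2.1) :
    ∀ p ∈ L, p.1 = s → sval π U * gen π x = slval π p.2 * sval π V := by
  induction h with
  | nil s =>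
    intro p hp hs
    have := hT _ (h2 p hp (by rw [hs, ht]))
    rw [slval_append, slval_sinv, slval_ssym, mul_inv_eq_one] at this
    simp [sval, this]
  | @eps s t r b U V he _ ih =>
    intro p hp hs
    have := rodM_tag he
    simp at this
  | @left s t r b U V he hrun ih =>
    intro p hp hs
    have htX : t ∉ X := by
      intro hx
      have := dead_sound hX hx U V
      rw [← ht] at this
      exact this hrun
    obtain ⟨p', hp', h3, h4, _⟩ := h1 p hp _ he hs.symm htX
    have h5 := hT _ (h4 rfl)
    rw [slval_append, slval_append, slval_sinv, slval_ssym, mul_inv_eq_one] at h5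
    have h6 := ih ht p' hp' h3
    have h7 : sval π (b :: U) = gen π b * sval π U := by
      cases b <;> simp [sval, gen]
    rw [h7, mul_assoc, h6, ← h5, mul_assoc]
  | @right s t r b U V he hrun ih =>
    intro p hp hs
    have htX : t ∉ X := by
      intro hx
      have := dead_sound hX hx U V
      rw [← ht] at this
      exact this hrun
    obtain ⟨p', hp', h3, _, h4⟩ := h1 p hp _ he hs.symm htX
    have h5 := hT _ (h4 rfl)
    rw [slval_append, slval_append, slval_sinv, slval_ssym, mul_inv_eq_one] at h5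
    have h6 := ih ht p' hp' h3
    have h7 : sval π (b :: V) = gen π b * sval π V := by
      cases b <;> simp [sval, gen]
    rw [h7, h6, ← h5, mul_assoc]

theorem labG_sound' {G : Type*} [Group G] (π : ℕ → G) {d : Data} (hd : DWF d)
    {T : List SLet → Prop} {x : Option ℕ} (hT : ∀ r, T r → slval π r = 1) (h : LabG T d x)
    {u v : List ℕ} (huv : ALang (mult d x) u v) : val π u * gen π x = val π v := by
  obtain ⟨L, X, hL1, hL2, hL3, hL4⟩ := h
  have hr : Rel (rodM (mult d x)) (em u) (em v) := (rel_mult hd x).2 huv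
  have := labG_sound π T x hT hL2 hL3 hL4 hr rfl _ hL1 rfl
  rw [sval_em', sval_em', slval_nil, one_mul] at this
  exact this

theorem wval_append {G : Type*} [Group G] (π : ℕ → G) (w w' : List SL) :
    wval π (w ++ w') = wval π w * wval π w' := by simp [wval]

theorem wval_toSL {G : Type*} [Group G] (π : ℕ → G) (r : List SLet) :
    wval π (toSL r) = slval π r := by
  induction r with
  | nil => simp [wval, toSL, slval]
  | cons l r ih =>
    have h1 : toSL (l :: r) = ((psym l.2).map fun m => (l.1, m.2)) ++ toSL r := by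
      simp [toSL]
    rw [h1, wval_append, ih, slval_cons]
    congr 1
    obtain ⟨b, o⟩ := l
    cases o <;> cases b <;> simp [psym, wval, gen]

theorem wval_pos {G : Type*} [Group G] (π : ℕ → G) (u : List ℕ) : wval π (pos u) = val π u := by
  unfold wval pos val
  rw [List.map_map]
  rfl

theorem wval_psym {G : Type*} [Group G] (π : ℕ → G) (x : Option ℕ) :
    wval π (psym x) = gen π x := by
  cases x <;> simp [wval, psym, gen]

theorem wval_winv {G : Type*} [Group G] (π : ℕ → G) (w : List SL) :
    wval π (winv w) = (wval π w)⁻¹ := by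
  induction w with
  | nil => simp [wval, winv]
  | cons l w ih =>
    have h1 : winv (l :: w) = winv w ++ [(!l.1, l.2)] := by simp [winv]
    have h2 : wval π (l :: w) = wval π [l] * wval π w := wval_append π [l] w
    rw [h1, wval_append, ih, h2, mul_inv_rev]
    congr 1
    obtain ⟨b, a⟩ := l
    cases b <;> simp [wval]

/-- Normalise the generators outside the alphabet. -/
theorem normalise {G : Type*} [Group G] {π : ℕ → G} {d : Data} (hd : DWF d)
    (hs : IsStructure G π d) : ∃ π' : ℕ → G, IsStructure G π' d ∧ ∀ a, d.1 ≤ a → π' a = 1 := by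
  classical
  let π' : ℕ → G := fun a => if a < d.1 then π a else 1
  have hval : ∀ w : List ℕ, (∀ a ∈ w, a < d.1) → val π' w = val π w := by
    intro w hw
    unfold val
    congr 1
    apply List.map_congr_left
    intro a ha
    simp [π', hw a ha]
  have hgen : ∀ y, InA d.1 y → gen π' y = gen π y := by
    intro y hy
    cases y with
    | none => rfl
    | some a => have : a < d.1 := hy; simp [gen, π', this]
  refine ⟨π', ⟨?_, ?_, ?_⟩, ?_⟩
  · intro g
    obtain ⟨w, hw, hg⟩ := hs.gen g
    exact ⟨w, hw, by rw [hval w hw, hg]⟩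
  · intro g
    obtain ⟨w, hw, hg⟩ := hs.onto g
    exact ⟨w, hw, by rw [hval w (flang_letters hd.W hw), hg]⟩
  · intro y hy a b
    rw [hs.mult y hy a b]
    constructor
    · rintro ⟨k1, k2, k3⟩
      refine ⟨k1, k2, ?_⟩
      rw [hval a (flang_letters hd.W k1), hval b (flang_letters hd.W k2), hgen y hy, k3]
    · rintro ⟨k1, k2, k3⟩
      refine ⟨k1, k2, ?_⟩
      rw [← hval a (flang_letters hd.W k1), ← hval b (flang_letters hd.W k2),
        ← hgen y hy, k3]
  · intro a ha
    simp [π', Nat.not_lt.2 ha]

end Pool.Agent.Helper632.AAR
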