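import Pool.Agent.Helper632.AAR.NTA
import Pool.Agent.Helper632.AAR.No

namespace Pool.Agent.Helper632.AAR

/-! JOB I3. -/

theorem Run.trans' {T : List Arr} {s t r : ℕ} {U V U' V' : List Sym} (h : Run T s U V t)
    (h' : Run T t U' V' r) : Run T s (U ++ U') (V ++ V') r := by
  induction h with
  | nil s => exact h'
  | eps he _ ih => exact Run.eps he (ih h')
  | left he _ ih => exact Run.left he (ih h')
  | right he _ ih => exact Run.right he (ih h')

theorem Run.snoc0 {T : List Arr} {s t r : ℕ} {b : Sym} {U V : List Sym} (h : Run T s U V t)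
    (he : (t, 0, b, r) ∈ T) : Run T s U V r := by
  have := h.trans' (Run.eps he (Run.nil r))
  simpa using this

theorem Run.snoc1 {T : List Arr} {s t r : ℕ} {b : Sym} {U V : List Sym} (h : Run T s U V t)
    (he : (t, 1, b, r) ∈ T) : Run T s (U ++ [b]) V r := by
  have := h.trans' (Run.left he (Run.nil r))
  simpa using this

theorem Run.snoc2 {T : List Arr} {s t r : ℕ} {b : Sym} {U V : List Sym} (h : Run T s U V t)
    (he : (t, 2, b, r) ∈ T) : Run T s U (V ++ [b]) r := by
  have := h.trans' (Run.right he (Run.nil r))
  simpa using this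

theorem mem_sts_target {τ : NTA} {e : Arr} (he : e ∈ τ.2.2) : e.2.2.2 ∈ sts τ := by
  unfold sts
  refine List.mem_cons_of_mem _ (List.mem_cons_of_mem _ (List.mem_append_right _ ?_))
  exact List.mem_map_of_mem (f := fun e : Arr => e.2.2.2) he

theorem mem_sts_start {τ : NTA} : τ.1 ∈ sts τ := by
  unfold sts
  exact List.mem_cons_self

theorem mem_sts_source {τ : NTA} {e : Arr} (he : e ∈ τ.2.2) : e.1 ∈ sts τ := by
  unfold sts
  refine List.mem_cons_of_mem _ (List.mem_cons_of_mem _ (List.mem_append_left _ ?_))
  exact List.mem_map_of_mem (f := fun e : Arr => e.1) he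

theorem drop_cons_get {U U' : List Sym} {b : Sym} {i : ℕ} (h : U.drop i = b :: U') :
    U[i]? = some b ∧ U.drop (i + 1) = U' := by
  constructor
  · have : (U.drop i)[0]? = some b := by rw [h]; rfl
    rw [List.getElem?_drop] at this
    simpa using this
  · rw [← List.drop_drop, h]
    rfl

theorem take_succ_get {U : List Sym} {b : Sym} {i : ℕ} (h : U[i]? = some b) :
    U.take (i + 1) = U.take i ++ [b] ∧ i + 1 ≤ U.length := by
  obtain ⟨hi, hb⟩ := List.getElem?_eq_some_iff.1 h
  refine ⟨?_, hi⟩
  rw [List.take_add_one, h]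
  rfl

theorem notL_iff {τ : NTA} {U : List Sym} : NotL τ U ↔ ¬ ∃ V, Rel τ U V := by
  classical
  constructor
  · rintro ⟨S, h0, h1, h2⟩ ⟨V, hV⟩
    have key : ∀ {s : ℕ} {U' V' : List Sym} {t : ℕ}, Run τ.2.2 s U' V' t → ∀ i : ℕ,
        U.drop i = U' → i + U'.length = U.length → (s, i) ∈ S → (t, U.length) ∈ S := by
      intro s U' V' t h
      induction h with
      | nil s =>
        intro i hi hl hS
        have : i = U.length := by simpa using hl
        rw [← this]; exact hS
      | eps he _ ih =>
        intro i hi hl hS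
        exact ih i hi hl ((h2 _ hS _ he rfl).1 (Or.inl rfl))
      | left he _ ih =>
        intro i hi hl hS
        obtain ⟨hg, hd⟩ := drop_cons_get hi
        refine ih (i + 1) hd ?_ ((h2 _ hS _ he rfl).2 rfl hg)
        simp only [List.length_cons] at hl
        omega
      | right he _ ih =>
        intro i hi hl hS
        exact ih i hi hl ((h2 _ hS _ he rfl).1 (Or.inr rfl))
    exact h1 (key hV 0 rfl (by simp) h0)
  · intro hno
    refine ⟨((sts τ).product (List.range (U.length + 1))).filter
      (fun p => decide (∃ V, Run τ.2.2 τ.1 (U.take p.2) V p.1)), ?_, ?_, ?_⟩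
    · rw [List.mem_filter, List.pair_mem_product]
      refine ⟨⟨mem_sts_start, by simp⟩, ?_⟩
      exact decide_eq_true ⟨[], by simpa using Run.nil _⟩
    · intro h
      rw [List.mem_filter] at h
      obtain ⟨V, hV⟩ := of_decide_eq_true h.2
      apply hno
      refine ⟨V, ?_⟩
      have e : U.take U.length = U := List.take_length
      simp only [e] at hV
      exact hV
    · rintro ⟨s, i⟩ hp e he hes
      rw [List.mem_filter, List.pair_mem_product] at hp
      obtain ⟨⟨hs, hi⟩, hr⟩ := hp
      obtain ⟨V, hV⟩ := of_decide_eq_true hr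
      obtain ⟨a, tag, b, t⟩ := e
      simp only at hes hV
      subst hes
      refine ⟨?_, ?_⟩
      · intro htag
        rw [List.mem_filter, List.pair_mem_product]
        refine ⟨⟨mem_sts_target he, hi⟩, decide_eq_true ?_⟩
        simp only at htag ⊢
        rcases htag with h | h
        · subst h
          exact ⟨V, hV.snoc0 he⟩
        · subst h
          exact ⟨_, hV.snoc2 he⟩
      · intro htag hg
        simp only at htag hg
        subst htag
        obtain ⟨h3, h4⟩ := take_succ_get hg
        rw [List.mem_filter, List.pair_mem_product]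
        refine ⟨⟨mem_sts_target he, by simp only [List.mem_range]; omega⟩, decide_eq_true ?_⟩
        simp only
        rw [h3]
        exact ⟨V, hV.snoc1 he⟩

theorem notLR_iff {τ : NTA} {U V : List Sym} : NotLR τ U V ↔ ¬ Rel τ U V := by
  classical
  constructor
  · rintro ⟨S, h0, h1, h2⟩ hV
    have key : ∀ {s : ℕ} {U' V' : List Sym} {t : ℕ}, Run τ.2.2 s U' V' t → ∀ i j : ℕ,
        U.drop i = U' → i + U'.length = U.length → V.drop j = V' → j + V'.length = V.length →
        (s, i, j) ∈ S → (t, U.length, V.length) ∈ S := by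
      intro s U' V' t h
      induction h with
      | nil s =>
        intro i j hi hl hj hl' hS
        have e1 : i = U.length := by simpa using hl
        have e2 : j = V.length := by simpa using hl'
        rw [← e1, ← e2]; exact hS
      | eps he _ ih =>
        intro i j hi hl hj hl' hS
        exact ih i j hi hl hj hl' ((h2 _ hS _ he rfl).1 rfl)
      | left he _ ih =>
        intro i j hi hl hj hl' hS
        obtain ⟨hg, hd⟩ := drop_cons_get hi
        refine ih (i + 1) j hd ?_ hj hl' ((h2 _ hS _ he rfl).2.1 rfl hg)
        simp only [List.length_cons] at hl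
        omega
      | right he _ ih =>
        intro i j hi hl hj hl' hS
        obtain ⟨hg, hd⟩ := drop_cons_get hj
        refine ih i (j + 1) hi hl hd ?_ ((h2 _ hS _ he rfl).2.2 rfl hg)
        simp only [List.length_cons] at hl'
        omega
    exact h1 (key hV 0 0 rfl (by simp) rfl (by simp) h0)
  · intro hno
    refine ⟨((sts τ).product ((List.range (U.length + 1)).product
      (List.range (V.length + 1)))).filter
      (fun p => decide (Run τ.2.2 τ.1 (U.take p.2.1) (V.take p.2.2) p.1)), ?_, ?_, ?_⟩
    · rw [List.mem_filter, List.pair_mem_product, List.pair_mem_product]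
      refine ⟨⟨mem_sts_start, by simp, by simp⟩, ?_⟩
      exact decide_eq_true (by simpa using Run.nil _)
    · intro h
      rw [List.mem_filter] at h
      have hV := of_decide_eq_true h.2
      apply hno
      have e : U.take U.length = U := List.take_length
      have e' : V.take V.length = V := List.take_length
      simp only [e, e'] at hV
      exact hV
    · rintro ⟨s, i, j⟩ hp e he hes
      rw [List.mem_filter, List.pair_mem_product, List.pair_mem_product] at hp
      obtain ⟨⟨hs, hi, hj⟩, hr⟩ := hp
      have hV := of_decide_eq_true hr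
      obtain ⟨a, tag, b, t⟩ := e
      simp only at hes hV
      subst hes
      refine ⟨?_, ?_, ?_⟩
      · intro htag
        simp only at htag
        subst htag
        rw [List.mem_filter, List.pair_mem_product, List.pair_mem_product]
        exact ⟨⟨mem_sts_target he, hi, hj⟩, decide_eq_true (hV.snoc0 he)⟩
      · intro htag hg
        simp only at htag hg
        subst htag
        obtain ⟨h3, h4⟩ := take_succ_get hg
        rw [List.mem_filter, List.pair_mem_product, List.pair_mem_product]
        refine ⟨⟨mem_sts_target he, by simp only [List.mem_range]; omega, hj⟩, decide_eq_true ?_⟩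
        simp only
        rw [h3]
        exact hV.snoc1 he
      · intro htag hg
        simp only at htag hg
        subst htag
        obtain ⟨h3, h4⟩ := take_succ_get hg
        rw [List.mem_filter, List.pair_mem_product, List.pair_mem_product]
        refine ⟨⟨mem_sts_target he, hi, by simp only [List.mem_range]; omega⟩, decide_eq_true ?_⟩
        simp only
        rw [h3]
        exact hV.snoc2 he

theorem emptyOK_sound {τ : NTA} (h : EmptyOK τ) : ¬ ∃ U V, Rel τ U V := by
  obtain ⟨X, ⟨h1, h2⟩, h3⟩ := h
  rintro ⟨U, V, hUV⟩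
  have key : ∀ {s : ℕ} {U' V' : List Sym} {t : ℕ}, Run τ.2.2 s U' V' t → s ∈ X → t ∈ X := by
    intro s U' V' t h
    induction h with
    | nil s => exact id
    | eps he _ ih => exact fun hs => ih (h2 _ he hs)
    | left he _ ih => exact fun hs => ih (h2 _ he hs)
    | right he _ ih => exact fun hs => ih (h2 _ he hs)
  exact h1 (key hUV h3)

/-- The version of `emptyOK_iff` that is true: arrows with a tag greater than `2` are never
used by a run, but `DeadOK` asks for closure under them. -/
theorem emptyOK_iff_of_tags {τ : NTA} (hτ : ∀ e ∈ τ.2.2, e.2.1 ≤ 2) :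
    EmptyOK τ ↔ ¬ ∃ U V, Rel τ U V := by
  classical
  refine ⟨emptyOK_sound, fun hno => ?_⟩
  refine ⟨(sts τ).filter (fun s => decide (¬ ∃ U V, Run τ.2.2 s U V τ.2.1)), ⟨?_, ?_⟩, ?_⟩
  · intro h
    rw [List.mem_filter] at h
    exact of_decide_eq_true h.2 ⟨[], [], Run.nil _⟩
  · rintro ⟨s, tag, b, t⟩ he hs
    rw [List.mem_filter] at hs ⊢
    refine ⟨mem_sts_target he, decide_eq_true ?_⟩
    rintro ⟨U, V, hUV⟩
    have h1 := of_decide_eq_true hs.2
    have htag : tag ≤ 2 := hτ _ he
    have h3 : tag = 0 ∨ tag = 1 ∨ tag = 2 := by omega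
    rcases h3 with h | h | h
    · subst h
      exact h1 ⟨U, V, Run.eps he hUV⟩
    · subst h
      exact h1 ⟨_, V, Run.left he hUV⟩
    · subst h
      exact h1 ⟨U, _, Run.right he hUV⟩
  · rw [List.mem_filter]
    exact ⟨mem_sts_start, decide_eq_true hno⟩

/-- Counterexample to `emptyOK_iff` without the hypothesis on the tags. -/
theorem emptyOK_iff_false : ¬ ∀ τ : NTA, EmptyOK τ ↔ ¬ ∃ U V, Rel τ U V := by
  intro h
  have h1 : ¬ ∃ U V, Rel ((0, 1, [(0, 3, none, 1)]) : NTA) U V := by
    rintro ⟨U, V, hUV⟩
    unfold Rel at hUV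
    simp only at hUV
    generalize hs : (0 : ℕ) = s at hUV
    generalize ht : (1 : ℕ) = t at hUV
    cases hUV with
    | nil => omega
    | eps he _ => simp at he
    | left he _ => simp at he
    | right he _ => simp at he
  obtain ⟨X, ⟨h2, h3⟩, h4⟩ := (h _).2 h1
  exact h2 (h3 (0, 3, none, 1) (by simp) h4)

/-- The instance used in `Bad`. -/
theorem emptyOK_wNTA_iff {W : FAut} : EmptyOK (wNTA W) ↔ ¬ ∃ U V, Rel (wNTA W) U V := by
  apply emptyOK_iff_of_tags
  intro e he
  simp only [wNTA, List.mem_append, List.mem_map] at he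
  rcases he with ⟨x, -, rfl⟩ | ⟨x, -, rfl⟩
  · exact Nat.le_succ 1
  · exact Nat.le_succ 1


end Pool.Agent.Helper632.AAR
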