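import Pool.Agent.Helper632.AAR.NTA
import Pool.Agent.Helper632.AAR.No

namespace Pool.Agent.Helper632.AAR

/-! the congruence -/

theorem Step.symm {d : Data} {w w' : List SL} (h : Step d w w') : Step d w' w := by
  obtain ⟨p, q, l, r, hr, h1, h2⟩ := h
  exact ⟨p, q, r, l, hr.symm, h2, h1⟩

theorem Step.append {d : Data} {w w' : List SL} (h : Step d w w') (a b : List SL) :
    Step d (a ++ w ++ b) (a ++ w' ++ b) := by
  obtain ⟨p, q, l, r, hr, h1, h2⟩ := h
  exact ⟨a ++ p, q ++ b, l, r, hr, by simp [h1], by simp [h2]⟩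

theorem EqW.symm {d : Data} {w w' : List SL} (h : EqW d w w') : EqW d w' w := by
  unfold EqW at *
  induction h with
  | refl => exact Relation.ReflTransGen.refl
  | tail _ h2 ih => exact Relation.ReflTransGen.head (Step.symm h2) ih

theorem EqW.append {d : Data} {w w' : List SL} (h : EqW d w w') (a b : List SL) :
    EqW d (a ++ w ++ b) (a ++ w' ++ b) := by
  unfold EqW at *
  induction h with
  | refl => exact Relation.ReflTransGen.refl
  | tail _ h2 ih => exact Relation.ReflTransGen.tail ih (Step.append h2 a b)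

theorem EqW.of_rule {d : Data} {w w' : List SL} (h : Rule d w w') : EqW d w w' :=
  Relation.ReflTransGen.single ⟨[], [], w, w', Or.inl h, by simp, by simp⟩

/-- the congruence defining the group -/
def eqCon (d : Data) : Con (FreeMonoid SL) where
  r := fun a b => EqW d (FreeMonoid.toList a) (FreeMonoid.toList b)
  iseqv := ⟨fun _ => Relation.ReflTransGen.refl, fun h => EqW.symm h,
    fun h h' => Relation.ReflTransGen.trans h h'⟩
  mul' := by
    intro a b c e h1 h2
    have e1 := EqW.append h1 [] (FreeMonoid.toList c)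
    have e2 := EqW.append h2 (FreeMonoid.toList b) []
    simp only [List.nil_append, List.append_nil] at e1 e2
    rw [FreeMonoid.toList_mul, FreeMonoid.toList_mul]
    exact Relation.ReflTransGen.trans e1 e2

/-- the group of `d` -/
abbrev Grp (d : Data) : Type := (eqCon d).Quotient

/-- the class of a signed word -/
def cls (d : Data) (w : List SL) : Grp d := ((FreeMonoid.ofList w : FreeMonoid SL) : Grp d)

theorem cls_append (d : Data) (w w' : List SL) : cls d (w ++ w') = cls d w * cls d w' := rfl

theorem cls_nil (d : Data) : cls d [] = 1 := rfl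

theorem cls_eq {d : Data} {w w' : List SL} : cls d w = cls d w' ↔ EqW d w w' :=
  (eqCon d).eq

theorem cls_surj (d : Data) (g : Grp d) : ∃ w, cls d w = g := by
  induction g using Con.induction_on with
  | H x => exact ⟨FreeMonoid.toList x, rfl⟩

theorem cls_cancel (d : Data) (s : Bool) (a : ℕ) : cls d [(s, a)] * cls d [(!s, a)] = 1 := by
  rw [← cls_append, ← cls_nil]
  exact cls_eq.2 (EqW.of_rule (Rule.cancel s a))

theorem isUnit_letter (d : Data) (l : SL) : IsUnit (cls d [l]) := by
  obtain ⟨s, a⟩ := l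
  refine ⟨⟨cls d [(s, a)], cls d [(!s, a)], cls_cancel d s a, ?_⟩, rfl⟩
  have := cls_cancel d (!s) a
  rwa [Bool.not_not] at this

theorem isUnit_cls (d : Data) (w : List SL) : IsUnit (cls d w) := by
  induction w with
  | nil => rw [cls_nil]; exact isUnit_one
  | cons l w ih =>
    have : cls d (l :: w) = cls d [l] * cls d w := cls_append d [l] w
    rw [this]
    exact (isUnit_letter d l).mul ih

theorem letters_lt {n : ℕ} {W : FAut} (hW : FWF n W) {s t : ℕ} {u : List ℕ}
    (h : FPath W s u t) : ∀ a ∈ u, a < n := by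
  induction h with
  | nil => simp
  | cons h1 _ ih =>
    intro a ha
    rcases List.mem_cons.1 ha with rfl | ha
    · exact hW _ h1
    · exact ih a ha

/-- the generators -/
def gpi (d : Data) (a : ℕ) : Grp d := cls d [(false, a)]

theorem val_gpi (d : Data) (u : List ℕ) : val (gpi d) u = cls d (pos u) := by
  induction u with
  | nil => rfl
  | cons a u ih =>
    have h1 : cls d (pos (a :: u)) = cls d [(false, a)] * cls d (pos u) :=
      cls_append d [(false, a)] (pos u)
    have h2 : val (gpi d) (a :: u) = gpi d a * val (gpi d) u := by simp [val]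
    rw [h1, h2, ih]
    rfl

theorem gen_gpi (d : Data) (x : Option ℕ) : AAR.gen (gpi d) x = cls d (psym x) := by
  cases x <;> rfl

/-- JOB I1. -/
theorem structure_of_conditions (d : Data) (hd : DWF d) (h0 : (FLang d.2.1).Nonempty)
    (h1 : ∀ x, InA d.1 x → ∀ u v, ALang (mult d x) u v → u ∈ FLang d.2.1 ∧ v ∈ FLang d.2.1)
    (h2 : ∀ x, InA d.1 x → ∀ u ∈ FLang d.2.1,
      (∃ v, ALang (mult d x) u v) ∧ ∃ v, ALang (mult d x) v u)
    (h3 : ∀ x, InA d.1 x → ∀ u ∈ FLang d.2.1, ∀ v ∈ FLang d.2.1,
      EqW d (pos u ++ psym x) (pos v) → ALang (mult d x) u v) :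
    ∃ (G : Type) (_ : Group G) (π : ℕ → G), IsStructure G π d := by
  have hunit : ∀ g : Grp d, IsUnit g := by
    intro g
    obtain ⟨w, rfl⟩ := cls_surj d g
    exact isUnit_cls d w
  have hmul : ∀ x, InA d.1 x → ∀ u v, ALang (mult d x) u v →
      cls d (pos u) * cls d (psym x) = cls d (pos v) := by
    intro x hx u v h
    rw [← cls_append]
    exact cls_eq.2 (EqW.of_rule (Rule.mult x u v hx h))
  -- right multiplication by letters preserves the image of the language
  have hletter : ∀ (l : SL) (u : List ℕ), u ∈ FLang d.2.1 →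
      ∃ v ∈ FLang d.2.1, cls d (pos u) * cls d [l] = cls d (pos v) := by
    rintro ⟨s, a⟩ u hu
    by_cases ha : a < d.1
    · cases s with
      | false =>
        obtain ⟨⟨v, hv⟩, -⟩ := h2 (some a) ha u hu
        exact ⟨v, (h1 (some a) ha _ _ hv).2, hmul (some a) ha u v hv⟩
      | true =>
        obtain ⟨-, v, hv⟩ := h2 (some a) ha u hu
        refine ⟨v, (h1 (some a) ha _ _ hv).1, ?_⟩
        rw [← hmul (some a) ha v u hv, mul_assoc]
        have : cls d (psym (some a)) * cls d [(true, a)] = 1 := cls_cancel d false a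
        rw [this, mul_one]
    · refine ⟨u, hu, ?_⟩
      have : cls d [(s, a)] = 1 := by
        rw [← cls_nil]
        exact cls_eq.2 (EqW.of_rule (Rule.big s a (not_lt.1 ha)))
      rw [this, mul_one]
  have hword : ∀ (w : List SL) (u : List ℕ), u ∈ FLang d.2.1 →
      ∃ v ∈ FLang d.2.1, cls d (pos u) * cls d w = cls d (pos v) := by
    intro w
    induction w with
    | nil => exact fun u hu => ⟨u, hu, by rw [cls_nil, mul_one]⟩
    | cons l w ih =>
      intro u hu
      obtain ⟨v, hv, hv2⟩ := hletter l u hu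
      obtain ⟨z, hz, hz2⟩ := ih v hv
      refine ⟨z, hz, ?_⟩
      have : cls d (l :: w) = cls d [l] * cls d w := cls_append d [l] w
      rw [this, ← mul_assoc, hv2, hz2]
  have honto : ∀ g : Grp d, ∃ u ∈ FLang d.2.1, val (gpi d) u = g := by
    intro g
    obtain ⟨u0, hu0⟩ := h0
    obtain ⟨i, hi⟩ := hunit (cls d (pos u0))
    obtain ⟨w, hw⟩ := cls_surj d (((i⁻¹ : (Grp d)ˣ) : Grp d) * g)
    obtain ⟨v, hv, hv2⟩ := hword w u0 hu0
    refine ⟨v, hv, ?_⟩
    rw [val_gpi, ← hv2, hw, ← hi, ← mul_assoc, Units.mul_inv, one_mul]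
  refine ⟨Grp d, groupOfIsUnit hunit, gpi d, @IsStructure.mk _ (groupOfIsUnit hunit) _ _ ?_ ?_ ?_⟩
  · intro g
    obtain ⟨u, ⟨f, _, hp⟩, hu⟩ := honto g
    exact ⟨u, letters_lt hd.W hp, hu⟩
  · exact honto
  · intro x hx u v
    constructor
    · intro h
      refine ⟨(h1 x hx u v h).1, (h1 x hx u v h).2, ?_⟩
      have := hmul x hx u v h
      rw [← val_gpi, ← val_gpi, ← gen_gpi] at this
      exact this
    · rintro ⟨hu, hv, h⟩
      apply h3 x hx u hu v hv
      apply cls_eq.1
      rw [cls_append, ← val_gpi, ← val_gpi, ← gen_gpi]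
      exact h

/-- JOB I1, part 2. In a group for which `d` is a structure, equal words have equal values. -/
theorem val_eq_of_eqW {G : Type*} [Group G] (π : ℕ → G) (d : Data)
    (hs : IsStructure G π d) (hbig : ∀ a, d.1 ≤ a → π a = 1) {w w' : List SL} (h : EqW d w w') :
    (w.map fun l => if l.1 then (π l.2)⁻¹ else π l.2).prod =
      (w'.map fun l => if l.1 then (π l.2)⁻¹ else π l.2).prod := by
  have hpos : ∀ u : List ℕ, ((pos u).map fun l : SL => if l.1 then (π l.2)⁻¹ else π l.2).prod
      = val π u := by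
    intro u
    unfold pos val
    rw [List.map_map]
    rfl
  have hrule : ∀ l r : List SL, Rule d l r →
      (l.map fun l => if l.1 then (π l.2)⁻¹ else π l.2).prod =
      (r.map fun l => if l.1 then (π l.2)⁻¹ else π l.2).prod := by
    intro l r hlr
    cases hlr with
    | cancel s a => cases s <;> simp
    | big s a ha => cases s <;> simp [hbig a ha]
    | mult x u v hx hA =>
      have h1 := ((hs.mult x hx u v).1 hA).2.2
      rw [List.map_append, List.prod_append, hpos, hpos, ← h1]
      cases x <;> simp [psym, AAR.gen]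
  induction h with
  | refl => rfl
  | tail _ h2 ih =>
    rw [ih]
    obtain ⟨p, q, l, r, hr, e1, e2⟩ := h2
    rw [e1, e2]
    simp only [List.map_append, List.prod_append]
    rcases hr with hr | hr
    · rw [hrule _ _ hr]
    · rw [← hrule _ _ hr]

end Pool.Agent.Helper632.AAR
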