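import Pool.Agent.Helper632.AAR.Yes3
import Pool.Agent.Helper632.AAR.NoGroup
import Pool.Agent.Helper632.AAR.NoCert
import Pool.Agent.Helper632.AAR.BadRE
import Pool.Agent.Helper632.AAR.EqRE
import Pool.Agent.Helper632.AAR.GoodRE
import Pool.Agent.Helper632.AAR.WFComp

/-!
The main theorem.
-/

namespace Pool.Agent.Helper632.AAR

open Pool.Agent.Helper446

/-- `d` is well formed and is an asynchronous automatic structure for some group. -/
def IsStr (d : Data) : Prop :=
  DWF d ∧ ∃ (G : Type) (_ : Group G) (π : ℕ → G), IsStructure G π d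

theorem good_iff (d : Data) : Good d ↔ IsStr d := by
  constructor
  · intro h
    exact ⟨h.1, structure_of_good h⟩
  · rintro ⟨hd, G, _, π, hs⟩
    exact good_of_structure hd hs

theorem mem_flang_iff {d : Data} {u : List ℕ} :
    Rel (wNTA d.2.1) (em u) [] ↔ u ∈ FLang d.2.1 := by
  rw [rel_wNTA]
  constructor
  · rintro ⟨_, v, hv, h⟩
    rw [em_inj h]; exact hv
  · intro h
    exact ⟨rfl, u, h, rfl⟩

theorem notL_wNTA {d : Data} {u : List ℕ} : NotL (wNTA d.2.1) (em u) ↔ u ∉ FLang d.2.1 := by
  rw [notL_iff, ← mem_flang_iff]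
  constructor
  · intro h h'
    exact h ⟨_, h'⟩
  · rintro h ⟨V, hV⟩
    have := (rel_wNTA.1 hV).1
    subst this
    exact h hV

theorem notL_rodM {d : Data} (hd : DWF d) {x : Option ℕ} {u : List ℕ} :
    NotL (rodM (mult d x)) (em u) ↔ ¬ ∃ v, ALang (mult d x) u v := by
  rw [notL_iff]
  apply not_congr
  constructor
  · rintro ⟨V, hV⟩
    obtain ⟨u', v, _, rfl, _⟩ := acc_em (awf_mult hd x) ((rel_rodM (awf_mult hd x)).1 hV)
    exact ⟨v, (rel_mult hd x).1 hV⟩
  · rintro ⟨v, hv⟩
    exact ⟨em v, (rel_mult hd x).2 hv⟩

theorem notL_inv {d : Data} (hd : DWF d) {x : Option ℕ} {u : List ℕ} :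
    NotL (inv (rodM (mult d x))) (em u) ↔ ¬ ∃ v, ALang (mult d x) v u := by
  rw [notL_iff]
  apply not_congr
  constructor
  · rintro ⟨V, hV⟩
    rw [rel_inv] at hV
    obtain ⟨v, u', rfl, _, _⟩ := acc_em (awf_mult hd x) ((rel_rodM (awf_mult hd x)).1 hV)
    exact ⟨v, (rel_mult hd x).1 hV⟩
  · rintro ⟨v, hv⟩
    exact ⟨em v, rel_inv.2 ((rel_mult hd x).2 hv)⟩

/-- For well-formed data, `Bad` says exactly that there is no structure. -/
theorem bad_iff {d : Data} (hd : DWF d) : Bad d ↔ ¬ IsStr d := by
  constructor
  · rintro hbad ⟨_, G, _, π, hs⟩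
    rcases hbad with h | ⟨x, hx, u, v, h⟩
    · rw [emptyOK_wNTA_iff] at h
      obtain ⟨u, hu, _⟩ := hs.onto 1
      exact h ⟨_, _, mem_flang_iff.2 hu⟩
    · rw [mem_rng] at hx
      rcases h with ⟨h1, h2⟩ | ⟨h1, h2⟩ | ⟨h1, h2, h3, h4⟩
      · have h1' := (hs.mult x hx u v).1 ((rel_mult hd x).1 h1)
        rcases h2 with h2 | h2
        · exact notL_wNTA.1 h2 h1'.1
        · exact notL_wNTA.1 h2 h1'.2.1
      · have h1' := mem_flang_iff.1 h1
        rcases h2 with h2 | h2
        · apply (notL_rodM hd).1 h2
          obtain ⟨w, hw, hg⟩ := hs.onto (val π u * gen π x)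
          exact ⟨w, (hs.mult x hx u w).2 ⟨h1', hw, hg.symm⟩⟩
        · apply (notL_inv hd).1 h2
          obtain ⟨w, hw, hg⟩ := hs.onto (val π u * (gen π x)⁻¹)
          exact ⟨w, (hs.mult x hx w u).2 ⟨hw, h1', by rw [hg]; group⟩⟩
      · rw [notLR_iff, rel_mult hd x] at h3
        apply h3
        -- normalise the generators outside the alphabet
        let π' : ℕ → G := fun a => if a < d.1 then π a else 1
        have hval : ∀ w : List ℕ, (∀ a ∈ w, a < d.1) → val π' w = val π w := by
          intro w hw
          unfold val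
          congr 1
          apply List.map_congr_left
          intro a ha
          simp [π', hw a ha]
        have hgen : ∀ y, InA d.1 y → gen π' y = gen π y := by
          intro y hy
          cases y with
          | none => rfl
          | some a => have : a < d.1 := hy; simp [gen, π', this]
        have hs' : IsStructure G π' d := by
          refine ⟨?_, ?_, ?_⟩
          · intro g
            obtain ⟨w, hw, hg⟩ := hs.gen g
            exact ⟨w, hw, by rw [hval w hw, hg]⟩
          · intro g
            obtain ⟨w, hw, hg⟩ := hs.onto g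
            exact ⟨w, hw, by rw [hval w (flang_letters hd.W hw), hg]⟩
          · intro y hy a b
            rw [hs.mult y hy a b]
            constructor
            · rintro ⟨k1, k2, k3⟩
              refine ⟨k1, k2, ?_⟩
              rw [hval a (flang_letters hd.W k1), hval b (flang_letters hd.W k2), hgen y hy, k3]
            · rintro ⟨k1, k2, k3⟩
              refine ⟨k1, k2, ?_⟩
              rw [← hval a (flang_letters hd.W k1), ← hval b (flang_letters hd.W k2),
                ← hgen y hy, k3]
        have hu := mem_flang_iff.1 h1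
        have hv := mem_flang_iff.1 h2
        have h5 := val_eq_of_eqW π' d hs' (by intro a ha; simp [π', Nat.not_lt.2 ha]) h4
        refine (hs'.mult x hx u v).2 ⟨hu, hv, ?_⟩
        have hpos : ∀ w : List ℕ,
            ((pos w).map fun l : SL => if l.1 then (π' l.2)⁻¹ else π' l.2).prod = val π' w := by
          intro w
          unfold pos val
          rw [List.map_map]
          rfl
        rw [List.map_append, List.prod_append, hpos, hpos] at h5
        rw [← h5]
        congr 1
        cases x <;> simp [psym, gen]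
  · intro h
    by_contra hbad
    apply h
    refine ⟨hd, structure_of_conditions d hd ?_ ?_ ?_ ?_⟩
    · by_contra hne
      apply hbad
      left
      rw [emptyOK_wNTA_iff]
      rintro ⟨U, V, hUV⟩
      rw [rel_wNTA] at hUV
      obtain ⟨_, u, hu, _⟩ := hUV
      exact hne ⟨u, hu⟩
    · intro x hx u v huv
      by_contra hcon
      apply hbad
      refine Or.inr ⟨x, mem_rng.2 hx, u, v, Or.inl ⟨(rel_mult hd x).2 huv, ?_⟩⟩
      rw [notL_wNTA, notL_wNTA]
      by_cases h1 : u ∈ FLang d.2.1
      · right; intro h2; exact hcon ⟨h1, h2⟩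
      · left; exact h1
    · intro x hx u hu
      by_contra hcon
      apply hbad
      refine Or.inr ⟨x, mem_rng.2 hx, u, [], Or.inr (Or.inl ⟨mem_flang_iff.2 hu, ?_⟩)⟩
      rw [notL_rodM hd, notL_inv hd]
      by_cases h1 : ∃ v, ALang (mult d x) u v
      · right; intro h2; exact hcon ⟨h1, h2⟩
      · left; exact h1
    · intro x hx u hu v hv h4
      by_contra hcon
      apply hbad
      refine Or.inr ⟨x, mem_rng.2 hx, u, v, Or.inr (Or.inr ⟨mem_flang_iff.2 hu,
        mem_flang_iff.2 hv, ?_, h4⟩)⟩
      rw [notLR_iff, rel_mult hd x]; exact hcon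

/-- There is an algorithm which decides whether a collection of automata is an asynchronous
automatic structure of some group. -/
theorem computable_isStr : ComputablePred IsStr := by
  have hrun := re_run
  obtain ⟨E, hE1, hE2⟩ := re_eqW re_run (fun h => re_reflTransGen h)
    (fun hM U V => rel_rodM hM) primrec_em primrec_rodM primrec_mult
  have hbad := re_bad E hE2
  apply RE.cp_of_re
  · exact re_good.of_eq fun d => good_iff d
  · have h1 : REPred fun d : Data => ¬ DWF d := computable_dwf.not.to_re
    have h2 := RE.or h1 (RE.and computable_dwf.to_re hbad)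
    refine h2.of_eq fun d => ?_
    by_cases hd : DWF d
    · rw [← bad_iff hd]
      unfold Bad
      simp only [hd, not_true_eq_false, true_and, false_or]
      constructor
      · rintro (h | ⟨x, hx, u, v, h⟩)
        · exact Or.inl h
        · refine Or.inr ⟨x, hx, u, v, ?_⟩
          rcases h with h | h | ⟨h3, h4, h5, h6⟩
          · exact Or.inl h
          · exact Or.inr (Or.inl h)
          · exact Or.inr (Or.inr ⟨h3, h4, h5, (hE1 d hd _ _).1 h6⟩)
      · rintro (h | ⟨x, hx, u, v, h⟩)
        · exact Or.inl h
        · refine Or.inr ⟨x, hx, u, v, ?_⟩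
          rcases h with h | h | ⟨h3, h4, h5, h6⟩
          · exact Or.inl h
          · exact Or.inr (Or.inl h)
          · exact Or.inr (Or.inr ⟨h3, h4, h5, (hE1 d hd _ _).2 h6⟩)
    · simp only [hd, not_false_eq_true, true_or, true_iff]
      intro h
      exact hd h.1

end Pool.Agent.Helper632.AAR
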