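import Pool.Agent.Helper632.AAR.Defs

/-!
Nondeterministic two-tape machines, given by tables, and the finite checks.
-/

namespace Pool.Agent.Helper632.AAR

/-- An arrow: source, tag (`0` silent, `1` reads the left tape, `2` reads the right tape),
symbol, target. -/
abbrev Arr := ℕ × ℕ × Sym × ℕ

/-- A nondeterministic two-tape machine: start state, accept state, arrows. -/
abbrev NTA := ℕ × ℕ × List Arr

/-- `Run T s U V t`: some path from `s` to `t` reads `U` on the left and `V` on the right tape. -/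
inductive Run (T : List Arr) : ℕ → List Sym → List Sym → ℕ → Prop
  | nil (s : ℕ) : Run T s [] [] s
  | eps {s t r : ℕ} {b : Sym} {U V : List Sym} : (s, 0, b, t) ∈ T → Run T t U V r → Run T s U V r
  | left {s t r : ℕ} {b : Sym} {U V : List Sym} : (s, 1, b, t) ∈ T → Run T t U V r →
      Run T s (b :: U) V r
  | right {s t r : ℕ} {b : Sym} {U V : List Sym} : (s, 2, b, t) ∈ T → Run T t U V r →
      Run T s U (b :: V) r

/-- The relation accepted by a two-tape machine. -/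
def Rel (τ : NTA) (U V : List Sym) : Prop := Run τ.2.2 τ.1 U V τ.2.1

/-! ### Machines -/

/-- Exchange the two tapes. -/
def inv (τ : NTA) : NTA :=
  (τ.1, τ.2.1, τ.2.2.map fun e => (e.1, (if e.2.1 = 1 then 2 else if e.2.1 = 2 then 1 else e.2.1),
    e.2.2.1, e.2.2.2))

/-- The states of a machine. -/
def sts (τ : NTA) : List ℕ :=
  τ.1 :: τ.2.1 :: (τ.2.2.map (fun e => e.1) ++ τ.2.2.map (fun e => e.2.2.2))

/-- Composition of two machines: the right tape of the first is the left tape of the second. -/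
def comp (τ₁ τ₂ : NTA) : NTA :=
  (Nat.pair τ₁.1 τ₂.1, Nat.pair τ₁.2.1 τ₂.2.1,
    (τ₁.2.2.flatMap fun e => if e.2.1 = 2 then [] else
      (sts τ₂).map fun q => (Nat.pair e.1 q, e.2.1, e.2.2.1, Nat.pair e.2.2.2 q)) ++
    (τ₂.2.2.flatMap fun e => if e.2.1 = 1 then [] else
      (sts τ₁).map fun q => (Nat.pair q e.1, e.2.1, e.2.2.1, Nat.pair q e.2.2.2)) ++
    (τ₁.2.2.flatMap fun e => (τ₂.2.2.flatMap fun e' =>
      if e.2.1 = 2 ∧ e'.2.1 = 1 ∧ e.2.2.1 = e'.2.2.1 then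
        [(Nat.pair e.1 e'.1, 0, none, Nat.pair e.2.2.2 e'.2.2.2)] else [])))

/-- The machine accepting the pairs `(U, U)`, `U` a word in the symbols `none`, `some b`, `b < n`. -/
def copyN (n : ℕ) : NTA :=
  (0, 0, (0, 1, none, 1) :: (1, 2, none, 0) ::
    ((List.range n).map fun b => (0, 1, some b, b + 2)) ++
    ((List.range n).map fun b => (b + 2, 2, some b, 0)))

/-- The asynchronous automaton `M` as a two-tape machine. -/
def rodM (M : AAut) : NTA :=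
  (M.1, M.2.1.idxOf 4, M.2.2.map fun e =>
    (e.1, (if kind M e.1 = some 0 ∨ kind M e.1 = some 3 then 1 else 2), e.2.1, e.2.2))

/-- The finite state automaton `W` as a machine which reads a word of `L(W)`, followed by the
end symbol, on the left tape, and nothing on the right tape. -/
def wNTA (W : FAut) : NTA :=
  (W.1 + 1, 0, (W.2.2.map fun e => (e.1 + 1, 1, some e.2.1, e.2.2 + 1)) ++
    (W.2.1.map fun f => (f + 1, 1, none, 0)))

/-- A sequence of machines, composed. -/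
def chain (n : ℕ) (l : List NTA) : NTA := l.foldr comp (copyN n)

/-- A straight line from `(k, 0)` to `(k, X.length)` reading `X` on the tape `tag`. -/
def line (k tag : ℕ) (X : List Sym) : List Arr :=
  (List.range X.length).map fun i => (Nat.pair k i, tag, X.getD i none, Nat.pair k (i + 1))

/-- The machine accepting the pairs `(p X, p Y)` where the word `p` leads from the start
state of `D` to `q`. -/
def pref (D : NTA) (q : ℕ) (X Y : List Sym) : NTA :=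
  (Nat.pair 0 D.1, Nat.pair 3 Y.length,
    (D.2.2.flatMap fun e => if e.2.1 = 1 then
      [(Nat.pair 0 e.1, 1, e.2.2.1, Nat.pair 1 (Nat.pair e.2.2.2 (Encodable.encode e.2.2.1))),
        (Nat.pair 1 (Nat.pair e.2.2.2 (Encodable.encode e.2.2.1)), 2, e.2.2.1,
          Nat.pair 0 e.2.2.2)] else []) ++
    [(Nat.pair 0 q, 0, none, Nat.pair 2 0), (Nat.pair 2 X.length, 0, none, Nat.pair 3 0)] ++
    line 2 1 X ++ line 3 2 Y)

/-! ### The inclusion check -/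

/-- States of the two rods, of `D`, and the buffers (what the second rod still has to read,
what the first rod still has to write). -/
abbrev Cfg := ℕ × ℕ × ℕ × List Sym × List Sym

/-- Closure conditions for hopeless configurations. -/
def Closed2 (τ₁ τ₂ D : NTA) (N : List Cfg) (c : Cfg) : Prop :=
  (∀ e ∈ τ₁.2.2, e.1 = c.1 → (e.2.1 = 0 ∨ e.2.1 = 1) → (e.2.2.2, c.2) ∈ N) ∧
  (∀ e ∈ τ₂.2.2, e.1 = c.2.1 → (e.2.1 = 0 ∨ e.2.1 = 2) → (c.1, e.2.2.2, c.2.2) ∈ N) ∧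
  (∀ e ∈ τ₁.2.2, e.1 = c.1 → e.2.1 = 2 → c.2.2.2.2.head? = some e.2.2.1 →
    (e.2.2.2, c.2.1, c.2.2.1, c.2.2.2.1, c.2.2.2.2.tail) ∈ N) ∧
  (∀ e ∈ τ₂.2.2, e.1 = c.2.1 → e.2.1 = 1 → c.2.2.2.1.head? = some e.2.2.1 →
    (c.1, e.2.2.2, c.2.2.1, c.2.2.2.1.tail, c.2.2.2.2) ∈ N) ∧
  (c.2.2.2.1 = [] → c.2.2.2.2 = [] → ∀ e ∈ τ₁.2.2, e.1 = c.1 → e.2.1 = 2 →
    ∀ e' ∈ τ₂.2.2, e'.1 = c.2.1 → e'.2.1 = 1 → e'.2.2.1 = e.2.2.1 →
    ∀ g ∈ D.2.2, g.1 = c.2.2.1 → g.2.1 = 1 → g.2.2.1 = e.2.2.1 →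
    (e.2.2.2, e'.2.2.2, g.2.2.2, [], []) ∈ N) ∧
  ¬ (c.1 = τ₁.2.1 ∧ c.2.1 = τ₂.2.1 ∧ c.2.2.1 = D.2.1 ∧ c.2.2.2.1 = [] ∧ c.2.2.2.2 = [])

/-- The configuration `c` (with the conclusion in the state `s`) has been dealt with. -/
def Ok (I : List (ℕ × Cfg)) (N : List Cfg) (s : ℕ) (c : Cfg) : Prop := (s, c) ∈ I ∨ c ∈ N

/-- Closure conditions for the configurations in which the conclusion is still running. -/
def Closed1 (τ₁ τ₂ D : NTA) (M : AAut) (I : List (ℕ × Cfg)) (N : List Cfg) (s : ℕ) (c : Cfg) :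
    Prop :=
  (∀ e ∈ τ₁.2.2, e.1 = c.1 → e.2.1 = 0 → Ok I N s (e.2.2.2, c.2)) ∧
  (∀ e ∈ τ₂.2.2, e.1 = c.2.1 → e.2.1 = 0 → Ok I N s (c.1, e.2.2.2, c.2.2)) ∧
  (∀ e ∈ τ₁.2.2, e.1 = c.1 → e.2.1 = 2 → c.2.2.2.2.head? = some e.2.2.1 →
    Ok I N s (e.2.2.2, c.2.1, c.2.2.1, c.2.2.2.1, c.2.2.2.2.tail)) ∧
  (∀ e ∈ τ₂.2.2, e.1 = c.2.1 → e.2.1 = 1 → c.2.2.2.1.head? = some e.2.2.1 →
    Ok I N s (c.1, e.2.2.2, c.2.2.1, c.2.2.2.1.tail, c.2.2.2.2)) ∧
  (c.2.2.2.2 = [] → ∀ e ∈ τ₁.2.2, e.1 = c.1 → e.2.1 = 2 →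
    ∀ g ∈ D.2.2, g.1 = c.2.2.1 → g.2.1 = 1 → g.2.2.1 = e.2.2.1 →
    Ok I N s (e.2.2.2, c.2.1, g.2.2.2, c.2.2.2.1 ++ [e.2.2.1], [])) ∧
  (c.2.2.2.1 = [] → ∀ e ∈ τ₂.2.2, e.1 = c.2.1 → e.2.1 = 1 →
    ∀ g ∈ D.2.2, g.1 = c.2.2.1 → g.2.1 = 1 → g.2.2.1 = e.2.2.1 →
    Ok I N s (c.1, e.2.2.2, g.2.2.2, [], c.2.2.2.2 ++ [e.2.2.1])) ∧
  (readsL M s → ∀ e ∈ τ₁.2.2, e.1 = c.1 → e.2.1 = 1 →
    ((∃ m ∈ M.2.2, m.1 = s ∧ m.2.1 = e.2.2.1 ∧ (m.2.2, e.2.2.2, c.2) ∈ I) ∨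
      (e.2.2.2, c.2) ∈ N)) ∧
  (readsR M s → ∀ e ∈ τ₂.2.2, e.1 = c.2.1 → e.2.1 = 2 →
    ((∃ m ∈ M.2.2, m.1 = s ∧ m.2.1 = e.2.2.1 ∧ (m.2.2, c.1, e.2.2.2, c.2.2) ∈ I) ∨
      (c.1, e.2.2.2, c.2.2) ∈ N))

/-- A finite certificate for: if `(U, W)` is accepted by `τ₁`, `W` by `D` and `(W, V)` by `τ₂`,
then `(U, V)` is accepted by `M`. -/
def CheckOK (τ₁ τ₂ D : NTA) (M : AAut) : Prop :=
  ∃ (I : List (ℕ × Cfg)) (N : List Cfg),
    (M.1, τ₁.1, τ₂.1, D.1, [], []) ∈ I ∧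
    (∀ c ∈ N, Closed2 τ₁ τ₂ D N c) ∧
    (∀ p ∈ I, Closed1 τ₁ τ₂ D M I N p.1 p.2)

/-! ### The projection check -/

/-- A finite certificate for: if `(U, V)` is accepted by `τ₁`, then `(U, V')` is accepted by `τ₂`
for some `V'`. -/
def ProjIncl (τ₁ τ₂ : NTA) : Prop :=
  ∃ L : List (ℕ × List ℕ),
    (∃ p ∈ L, p.1 = τ₁.1 ∧ ∀ s ∈ p.2, ∃ V, Run τ₂.2.2 τ₂.1 [] V s) ∧
    (∀ p ∈ L, ∀ e ∈ τ₁.2.2, e.1 = p.1 →
      ((e.2.1 = 0 ∨ e.2.1 = 2) → (e.2.2.2, p.2) ∈ L) ∧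
      (e.2.1 = 1 → ∃ p' ∈ L, p'.1 = e.2.2.2 ∧
        ∀ s' ∈ p'.2, ∃ s ∈ p.2, ∃ V, Run τ₂.2.2 s [e.2.2.1] V s')) ∧
    (∀ p ∈ L, p.1 = τ₁.2.1 → τ₂.2.1 ∈ p.2)

/-- A list of states from which the accept state cannot be reached. -/
def DeadOK (τ : NTA) (X : List ℕ) : Prop :=
  τ.2.1 ∉ X ∧ ∀ e ∈ τ.2.2, e.1 ∈ X → e.2.2.2 ∈ X

/-! ### The certificate for a structure -/

/-- Signed letters: `(false, o)` stands for `x`, `(true, o)` for `x⁻¹`, where `x` is the element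
`o` of `A ∪ {ε}`. -/
abbrev SLet := Bool × Option ℕ

/-- The machine of a signed letter. -/
def rodL (d : Data) (l : SLet) : NTA := if l.1 then inv (rodM (mult d l.2)) else rodM (mult d l.2)

/-- The machine of a signed word. -/
def rodW (d : Data) (r : List SLet) : NTA := chain d.1 (r.map (rodL d))

/-- The formal inverse of a signed word. -/
def sinv (r : List SLet) : List SLet := r.reverse.map fun l => (!l.1, l.2)

/-- The signed word of a word. -/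
def spos (u : List ℕ) : List SLet := u.map fun a => (false, some a)

/-- The signed word of a symbol. -/
def ssym : Sym → List SLet
  | none => []
  | some a => [(false, some a)]

/-- The signed word `r` acts trivially on the words in the language of `D` modulo `M_ε`. -/
def TrivCheck (d : Data) (D : NTA) (r : List SLet) : Prop :=
  CheckOK (rodW d r) (copyN d.1) D (mult d none)

/-- A labelling of the states of `M_x` by signed words. -/
def LabOK (d : Data) (D : NTA) (x : Option ℕ) : Prop :=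
  ∃ (L : List (ℕ × List SLet)) (X : List ℕ),
    ((mult d x).1, []) ∈ L ∧ DeadOK (rodM (mult d x)) X ∧
    (∀ p ∈ L, ∀ e ∈ (rodM (mult d x)).2.2, e.1 = p.1 → e.2.2.2 ∉ X →
      ∃ p' ∈ L, p'.1 = e.2.2.2 ∧
        (e.2.1 = 1 → TrivCheck d D (ssym e.2.2.1 ++ p'.2 ++ sinv p.2)) ∧
        (e.2.1 = 2 → TrivCheck d D (p.2 ++ ssym e.2.2.1 ++ sinv p'.2))) ∧
    (∀ p ∈ L, p.1 = (rodM (mult d x)).2.1 → TrivCheck d D (p.2 ++ sinv (ssym x)))

/-- The prefix check. -/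
def PrefCheck (d : Data) (D : NTA) (q : ℕ) (c : List ℕ) (a : ℕ) (c' : List ℕ) : Prop :=
  CheckOK (comp (pref D q (some a :: em c') (em c)) (rodW d (sinv (spos c) ++ (false, some a) ::
    spos c'))) (copyN d.1) D (mult d none)

/-- Completions of the states of `D`. -/
def ComplOK (d : Data) (D : NTA) : Prop :=
  ∃ (C : List (ℕ × List ℕ)) (X : List ℕ),
    DeadOK D X ∧ (∃ p ∈ C, p.1 = D.1) ∧
    (∀ p ∈ C, Run D.2.2 p.1 (em p.2) [] D.2.1) ∧
    (∀ p ∈ C, ∀ e ∈ D.2.2, e.1 = p.1 → e.2.1 = 1 → e.2.2.1 = none → e.2.2.2 = D.2.1 →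
      p.2 = []) ∧
    (∀ p ∈ C, ∀ e ∈ D.2.2, e.1 = p.1 → e.2.1 = 1 → e.2.2.2 ∉ X →
      ∀ a ∈ e.2.2.1, ∃ p' ∈ C, p'.1 = e.2.2.2 ∧ PrefCheck d D p.1 p.2 a p'.2)

/-- The complete certificate: a finite automaton `D` for a sublanguage of `L(W)`, and checks. -/
def Good (d : Data) : Prop :=
  DWF d ∧ ∃ D : NTA,
    (∀ e ∈ D.2.2, e.2.1 = 1) ∧
    ProjIncl D (wNTA d.2.1) ∧
    (∀ x ∈ none :: (List.range d.1).map some,
      ProjIncl (rodM (mult d x)) (wNTA d.2.1) ∧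
      ProjIncl (inv (rodM (mult d x))) (wNTA d.2.1) ∧
      ProjIncl (wNTA d.2.1) (comp (rodM (mult d x)) D) ∧
      ProjIncl (wNTA d.2.1) (comp (inv (rodM (mult d x))) D) ∧
      CheckOK (rodM (mult d x)) (inv (rodM (mult d none))) D (mult d x) ∧
      TrivCheck d D [(true, x), (false, none), (false, x)] ∧
      TrivCheck d D [(false, x), (false, none), (true, x)] ∧
      LabOK d D x) ∧
    TrivCheck d D [] ∧
    TrivCheck d D [(true, none)] ∧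
    TrivCheck d D [(false, none), (false, none)] ∧
    ComplOK d D

end Pool.Agent.Helper632.AAR
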