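import Pool.Agent.Helper632.AAR.NTA
import Pool.Agent.Helper446.RE

namespace Pool.Agent.Helper632.AAR

open Pool.Agent.Helper446

/-- JOB P7. -/
theorem partrec_of_re {α : Type} [Primcodable α] {Y N : α → Prop} (hY : REPred Y)
    (hN : REPred N) : ∃ f : α →. Bool, Partrec f ∧ ∀ a, (Y a → ¬ N a → f a = Part.some true) ∧
      (N a → ¬ Y a → f a = Part.some false) := by
  have hr : REPred fun x : α × Bool => (x.2 = true ∧ Y x.1) ∨ (x.2 = false ∧ N x.1) :=
    RE.or (RE.and (RE.eq Computable.snd (Computable.const true)) (RE.comp hY Computable.fst))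
      (RE.and (RE.eq Computable.snd (Computable.const false)) (RE.comp hN Computable.fst))
  obtain ⟨f, hf, h1, h2⟩ :=
    RE.uniformize (r := fun (a : α) (b : Bool) => (b = true ∧ Y a) ∨ (b = false ∧ N a)) hr
  refine ⟨f, hf, fun a => ⟨fun hy hn => ?_, fun hn hy => ?_⟩⟩
  · have hd : (f a).Dom := (h1 a).2 ⟨true, Or.inl ⟨rfl, hy⟩⟩
    rcases h2 a _ (Part.get_mem hd) with h3 | h3
    · exact Part.eq_some_iff.2 (by rw [← h3.1]; exact Part.get_mem hd)
    · exact absurd h3.2 hn
  · have hd : (f a).Dom := (h1 a).2 ⟨false, Or.inr ⟨rfl, hn⟩⟩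
    rcases h2 a _ (Part.get_mem hd) with h3 | h3
    · exact absurd h3.2 hy
    · exact Part.eq_some_iff.2 (by rw [← h3.1]; exact Part.get_mem hd)

/-- JOB P7, part 2. -/
theorem re_of_partrec {α : Type} [Primcodable α] {f : α →. Bool} (hf : Partrec f) (b : Bool) :
    REPred (fun a => b ∈ f a) := by
  have h1 : REPred fun x : α × Bool => x.2 = b := RE.eq Computable.snd (Computable.const b)
  have h2 : Partrec fun a => (f a).bind fun c => Part.assert (c = b) fun _ => Part.some () :=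
    Partrec.bind hf h1
  refine h2.dom_re.of_eq fun a => ?_
  constructor
  · intro hd
    obtain ⟨y, hy⟩ := Part.dom_iff_mem.1 hd
    obtain ⟨c, hc, hc2⟩ := Part.mem_bind_iff.1 hy
    obtain ⟨hcb, -⟩ := Part.mem_assert_iff.1 hc2
    exact hcb ▸ hc
  · intro hb
    refine Part.dom_iff_mem.2 ⟨(), Part.mem_bind_iff.2 ⟨b, hb, ?_⟩⟩
    exact Part.mem_assert_iff.2 ⟨rfl, Part.mem_some _⟩

end Pool.Agent.Helper632.AAR
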