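import Pool.Agent.Helper632.AAR.Defs

/-!
Finite presentations.
-/

namespace Pool.Agent.Helper632.AAR

/-- A finite presentation: the number `n` of generators `0, ..., n - 1` and the list of relators;
a relator is a word in signed letters, `(false, a)` stands for `a` and `(true, a)` for `a⁻¹`. -/
abbrev Pres := ℕ × List (List (Bool × ℕ))

/-- The element of the free group on `{0, ..., n - 1}` given by a word of signed letters
(letters outside the alphabet are ignored). -/
def freeVal (n : ℕ) (w : List (Bool × ℕ)) : FreeGroup (Fin n) :=
  (w.map fun l => if h : l.2 < n then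
    (if l.1 then (FreeGroup.of ⟨l.2, h⟩)⁻¹ else FreeGroup.of ⟨l.2, h⟩) else 1).prod

/-- The group presented by `P`. -/
abbrev PGrp (P : Pres) : Type := PresentedGroup {x | ∃ r ∈ P.2, x = freeVal P.1 r}

/-- The generators of the group presented by `P`. -/
def pgen (P : Pres) (a : ℕ) : PGrp P := if h : a < P.1 then PresentedGroup.of ⟨a, h⟩ else 1

/-- The value of a word of signed letters in a group. -/
def wval {G : Type*} [Group G] (π : ℕ → G) (w : List (Bool × ℕ)) : G :=
  (w.map fun l => if l.1 then (π l.2)⁻¹ else π l.2).prod

end Pool.Agent.Helper632.AAR
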