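import Pool.Agent.Helper632.AAR.NTA
import Pool.Agent.Helper632.AAR.PresEq

namespace Pool.Agent.Helper632.AAR

theorem wval_appendP {G : Type*} [Group G] (π : ℕ → G) (u v : List SL) :
    wval π (u ++ v) = wval π u * wval π v := by
  simp [wval]

theorem wval_rule {G : Type*} [Group G] (π : ℕ → G) (P : Pres) (hbig : ∀ a, P.1 ≤ a → π a = 1)
    (hrel : ∀ r ∈ P.2, wval π r = 1) {l r : List SL} (h : RuleP P l r) :
    wval π l = wval π r := by
  cases h with
  | cancel s a => cases s <;> simp [wval]
  | big s a ha => simp [wval, hbig a ha]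
  | rel r hr => rw [hrel _ hr]; simp [wval]

/-- JOB P1, part 1. -/
theorem wval_eqP {G : Type*} [Group G] (π : ℕ → G) (P : Pres) (hbig : ∀ a, P.1 ≤ a → π a = 1)
    (hrel : ∀ r ∈ P.2, wval π r = 1) {w w' : List SL} (h : EqP P w w') :
    wval π w = wval π w' := by
  induction h with
  | refl => rfl
  | tail _ hs ih =>
    obtain ⟨p, q, l, r, hlr, h1, h2⟩ := hs
    rw [ih, h1, h2, wval_appendP, wval_appendP, wval_appendP, wval_appendP]
    rcases hlr with h | h
    · rw [wval_rule π P hbig hrel h]
    · rw [wval_rule π P hbig hrel h]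

theorem eqP_symm {P : Pres} {w w' : List SL} (h : EqP P w w') : EqP P w' w := by
  induction h with
  | refl => exact Relation.ReflTransGen.refl
  | tail _ hs ih =>
    obtain ⟨p, q, l, r, hlr, h1, h2⟩ := hs
    exact Relation.ReflTransGen.head ⟨p, q, r, l, hlr.symm, h2, h1⟩ ih

theorem eqP_left {P : Pres} {w w' : List SL} (x : List SL) (h : EqP P w w') :
    EqP P (x ++ w) (x ++ w') := by
  induction h with
  | refl => exact Relation.ReflTransGen.refl
  | tail _ hs ih =>
    obtain ⟨p, q, l, r, hlr, h1, h2⟩ := hs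
    exact ih.tail ⟨x ++ p, q, l, r, hlr, by rw [h1]; simp, by rw [h2]; simp⟩

theorem eqP_right {P : Pres} {w w' : List SL} (x : List SL) (h : EqP P w w') :
    EqP P (w ++ x) (w' ++ x) := by
  induction h with
  | refl => exact Relation.ReflTransGen.refl
  | tail _ hs ih =>
    obtain ⟨p, q, l, r, hlr, h1, h2⟩ := hs
    exact ih.tail ⟨p, q ++ x, l, r, hlr, by rw [h1]; simp, by rw [h2]; simp⟩

theorem eqP_rule {P : Pres} {l r : List SL} (h : RuleP P l r) : EqP P l r :=
  Relation.ReflTransGen.single ⟨[], [], l, r, Or.inl h, by simp, by simp⟩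

/-- the congruence -/
def conP (P : Pres) : Con (FreeMonoid SL) where
  r a b := EqP P a.toList b.toList
  iseqv := ⟨fun _ => Relation.ReflTransGen.refl, fun h => eqP_symm h, fun h h' => h.trans h'⟩
  mul' := by
    intro a b c d h1 h2
    show EqP P (a * c).toList (b * d).toList
    rw [FreeMonoid.toList_mul, FreeMonoid.toList_mul]
    exact (eqP_right _ h1).trans (eqP_left _ h2)

/-- the class of a word -/
def clsP (P : Pres) (w : List SL) : (conP P).Quotient := ((FreeMonoid.ofList w : FreeMonoid SL) : (conP P).Quotient)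

theorem clsP_append (P : Pres) (u v : List SL) : clsP P (u ++ v) = clsP P u * clsP P v := by
  unfold clsP
  rw [FreeMonoid.ofList_append, Con.coe_mul]

theorem clsP_nil (P : Pres) : clsP P [] = 1 := rfl

theorem clsP_eq {P : Pres} {u v : List SL} : clsP P u = clsP P v ↔ EqP P u v := by
  unfold clsP
  rw [Con.eq]
  rfl

/-- the unit of a letter -/
def uP (P : Pres) (a : ℕ) : ((conP P).Quotient)ˣ where
  val := clsP P [(false, a)]
  inv := clsP P [(true, a)]
  val_inv := by
    rw [← clsP_append, ← clsP_nil]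
    exact clsP_eq.2 (eqP_rule (RuleP.cancel false a))
  inv_val := by
    rw [← clsP_append, ← clsP_nil]
    exact clsP_eq.2 (eqP_rule (RuleP.cancel true a))

theorem lift_freeVal (P : Pres) (w : List SL) :
    ((FreeGroup.lift (fun i : Fin P.1 => uP P i.1) (freeVal P.1 w) : ((conP P).Quotient)ˣ) :
      (conP P).Quotient) = clsP P w := by
  induction w with
  | nil => simp [freeVal, clsP_nil]
  | cons l w ih =>
    have e : freeVal P.1 (l :: w) = (if h : l.2 < P.1 then
      (if l.1 then (FreeGroup.of ⟨l.2, h⟩)⁻¹ else FreeGroup.of ⟨l.2, h⟩) else 1) * freeVal P.1 w := by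
      unfold freeVal
      rw [List.map_cons, List.prod_cons]
    rw [e, map_mul, Units.val_mul, ih, show l :: w = [l] ++ w from rfl, clsP_append]
    congr 1
    obtain ⟨s, a⟩ := l
    by_cases h : a < P.1
    · simp only [h, dite_true]
      cases s
      · simp [uP]
      · simp [uP]
    · simp only [h, dite_false, map_one, Units.val_one]
      rw [← clsP_nil]
      exact (clsP_eq.2 (eqP_rule (RuleP.big s a (not_lt.1 h)))).symm

theorem wval_pgen (P : Pres) (w : List SL) :
    wval (pgen P) w = PresentedGroup.mk {x | ∃ r ∈ P.2, x = freeVal P.1 r} (freeVal P.1 w) := by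
  induction w with
  | nil =>
    have e : freeVal P.1 [] = 1 := rfl
    rw [e, map_one]
    rfl
  | cons l w ih =>
    have e : freeVal P.1 (l :: w) = (if h : l.2 < P.1 then
      (if l.1 then (FreeGroup.of ⟨l.2, h⟩)⁻¹ else FreeGroup.of ⟨l.2, h⟩) else 1) * freeVal P.1 w := by
      unfold freeVal
      rw [List.map_cons, List.prod_cons]
    have e2 : wval (pgen P) (l :: w) = (if l.1 then (pgen P l.2)⁻¹ else pgen P l.2) *
        wval (pgen P) w := by
      unfold wval
      rw [List.map_cons, List.prod_cons]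
    rw [e, e2, map_mul, ih]
    congr 1
    obtain ⟨s, a⟩ := l
    unfold pgen
    by_cases h : a < P.1
    · simp only [h, dite_true]
      cases s
      · simp [PresentedGroup.of]
      · simp [PresentedGroup.of]
    · simp [h]

/-- JOB P1, part 2. -/
theorem pgen_eq_iff (P : Pres) (w w' : List SL) :
    wval (pgen P) w = wval (pgen P) w' ↔ EqP P w w' := by
  constructor
  · intro h
    rw [wval_pgen, wval_pgen] at h
    have hrel : ∀ r ∈ {x | ∃ r ∈ P.2, x = freeVal P.1 r},
        FreeGroup.lift (fun i : Fin P.1 => uP P i.1) r = 1 := by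
      rintro _ ⟨r, hr, rfl⟩
      apply Units.ext
      rw [lift_freeVal, Units.val_one, ← clsP_nil]
      exact clsP_eq.2 (eqP_rule (RuleP.rel r hr))
    have h2 := congrArg (PresentedGroup.toGroup hrel) h
    have h3 : FreeGroup.lift (fun i : Fin P.1 => uP P i.1) (freeVal P.1 w) =
        FreeGroup.lift (fun i : Fin P.1 => uP P i.1) (freeVal P.1 w') := h2
    have h4 := congrArg (fun u : ((conP P).Quotient)ˣ => (u : (conP P).Quotient)) h3
    simp only [lift_freeVal] at h4
    exact clsP_eq.1 h4
  · intro h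
    refine wval_eqP (pgen P) P ?_ ?_ h
    · intro a ha
      unfold pgen
      rw [dif_neg (not_lt.2 ha)]
    · intro r hr
      rw [wval_pgen]
      exact (QuotientGroup.eq_one_iff _).2 (Subgroup.subset_normalClosure ⟨r, hr, rfl⟩)

theorem freeVal_append (n : ℕ) (u v : List SL) : freeVal n (u ++ v) = freeVal n u * freeVal n v := by
  simp [freeVal]

theorem freeVal_surj (n : ℕ) (x : FreeGroup (Fin n)) : ∃ w, freeVal n w = x := by
  induction x using FreeGroup.induction_on with
  | C1 => exact ⟨[], rfl⟩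
  | of i => exact ⟨[(false, i.1)], by simp [freeVal]⟩
  | inv_of i _ => exact ⟨[(true, i.1)], by simp [freeVal]⟩
  | mul x y hx hy =>
    obtain ⟨u, rfl⟩ := hx
    obtain ⟨v, rfl⟩ := hy
    exact ⟨u ++ v, freeVal_append n u v⟩

/-- JOB P1, part 3. -/
theorem pgen_surj (P : Pres) (g : PGrp P) : ∃ w, wval (pgen P) w = g := by
  obtain ⟨x, hx⟩ := QuotientGroup.mk_surjective g
  obtain ⟨w, hw⟩ := freeVal_surj P.1 x
  refine ⟨w, ?_⟩
  rw [wval_pgen, hw]
  exact hx

end Pool.Agent.Helper632.AAR
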