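import Pool.Agent.Helper632.AAR.PresMain
import Pool.Agent.Helper632.AAR.EqPRE
import Pool.Agent.Helper632.AAR.BadPRE
import Pool.Agent.Helper632.AAR.GoodPRE
import Pool.Agent.Helper632.AAR.PartDec

/-!
Decidability for presented groups.
-/

namespace Pool.Agent.Helper632.AAR

open Pool.Agent.Helper446

/-- `y = (P, d)`: the data `d` are an asynchronous automatic structure for the group presented
by `P`, with respect to its generators. -/
def IsStrP (y : Pres × Data) : Prop :=
  y.2.1 = y.1.1 ∧ DWF y.2 ∧ IsStructure (PGrp y.1) (pgen y.1) y.2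

theorem exists_E : ∃ E : Data → List SL → List SL → Prop,
    (∀ d, DWF d → ∀ w w', E d w w' ↔ EqW d w w') ∧
    REPred (fun x : Data × List SL × List SL => E x.1 x.2.1 x.2.2) :=
  re_eqW re_run (fun h => re_reflTransGen h) (fun hM U V => rel_rodM hM) primrec_em primrec_rodM
    primrec_mult

theorem re_isStrP : REPred IsStrP := by
  obtain ⟨E, hE1, hE2⟩ := exists_E
  refine (re_goodP E hE2).of_eq ?_
  rintro ⟨P, d⟩
  have h := goodP_iff P d
  unfold IsStrP
  rw [← h]
  unfold GoodP
  constructor
  · rintro ⟨h1, h2, h3, h4⟩
    exact ⟨h1, h2, fun r hr => (hE1 d h2.1 _ _).1 (h3 r hr), h4⟩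
  · rintro ⟨h1, h2, h3, h4⟩
    exact ⟨h1, h2, fun r hr => (hE1 d h2.1 _ _).2 (h3 r hr), h4⟩

/-- The negative side, for a r.e. predicate `NT` of nontriviality. -/
theorem re_neg (NT : Pres → List SL → Prop) (hNT : REPred (fun x : Pres × List SL => NT x.1 x.2)) :
    ∃ N : Pres × Data → Prop, REPred N ∧ ∀ P d, DWF d → (N (P, d) ↔ BadP P (NT P) d) := by
  obtain ⟨E, hE1, hE2⟩ := exists_E
  refine ⟨_, re_badP E _ NT hE2 (re_bad E hE2) hNT, ?_⟩
  intro P d hd
  unfold BadP Bad
  simp only [hE1 d hd]

theorem computable_dwf_snd : ComputablePred fun y : Pres × Data => y.2.1 = y.1.1 ∧ DWF y.2 := by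
  have h1 : ComputablePred fun y : Pres × Data => y.2.1 = y.1.1 :=
    RE.cp_eq (Computable.fst.comp Computable.snd) (Computable.fst.comp Computable.fst)
  have h2 : ComputablePred fun y : Pres × Data => DWF y.2 :=
    RE.cp_comp computable_dwf Computable.snd
  apply RE.cp_of_re
  · exact RE.and h1.to_re h2.to_re
  · refine (RE.or h1.not.to_re h2.not.to_re).of_eq fun y => ?_
    tauto

/-- Given a solution of the word problem for all presentations in a class `S`, there is an
algorithm deciding whether given automata are an asynchronous automatic structure for the group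
given by a presentation in `S`. -/
theorem decide_relative (S : Set Pres) (wp : Pres × List SL →. Bool) (hwp : Partrec wp)
    (h : ∀ P ∈ S, ∀ w, ∃ b : Bool, wp (P, w) = Part.some b ∧ (b = true ↔ wval (pgen P) w = 1)) :
    ∃ f : Pres × Data →. Bool, Partrec f ∧ ∀ P ∈ S, ∀ d, d.1 = P.1 → DWF d →
      ∃ b : Bool, f (P, d) = Part.some b ∧ (b = true ↔ IsStructure (PGrp P) (pgen P) d) := by
  obtain ⟨N, hN1, hN2⟩ := re_neg (fun P w => false ∈ wp (P, w)) (re_of_partrec hwp false)
  obtain ⟨f, hf1, hf2⟩ := partrec_of_re re_isStrP hN1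
  refine ⟨f, hf1, ?_⟩
  intro P hP d hn hd
  have hnt : ∀ w, (fun w => false ∈ wp (P, w)) w ↔ wval (pgen P) w ≠ 1 := by
    intro w
    show false ∈ wp (P, w) ↔ _
    obtain ⟨b, hb, hb'⟩ := h P hP w
    rw [hb, Part.mem_some_iff, ne_eq, ← hb']
    cases b <;> simp
  have hbad := badP_iff P _ hnt d hn hd
  rw [← hN2 P d hd] at hbad
  by_cases hs : IsStructure (PGrp P) (pgen P) d
  · have := (hf2 (P, d)).1 ⟨hn, hd, hs⟩ (by rw [hbad]; exact not_not.2 hs)
    exact ⟨true, this, by simp [hs]⟩
  · have := (hf2 (P, d)).2 (hbad.2 hs) (by rintro ⟨_, _, h3⟩; exact hs h3)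
    exact ⟨false, this, by simp [hs]⟩

/-- The word problem of a group with an asynchronous automatic structure is decidable. -/
theorem wp_of_structure (P : Pres) (d : Data) (hn : d.1 = P.1) (hd : DWF d)
    (hs : IsStructure (PGrp P) (pgen P) d) :
    ComputablePred fun w : List SL => wval (pgen P) w = 1 := by
  obtain ⟨E, hE1, hE2⟩ := exists_E
  have hbigP : ∀ a, d.1 ≤ a → pgen P a = 1 := fun a ha => pgen_big (hn ▸ ha)
  have hd1 : Computable fun _ : List SL => d := Computable.const d
  apply RE.cp_of_re
  · have h1 : REPred fun w : List SL => E d w [] :=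
      RE.comp hE2 (f := fun w : List SL => (d, w, ([] : List SL)))
        (hd1.pair (Computable.id.pair (Computable.const [])))
    refine h1.of_eq fun w => ?_
    rw [hE1 d hd]
    constructor
    · intro h
      exact val_eq_of_eqW (pgen P) d hs hbigP h
    · intro h
      exact eqW_of_wval (pgen P) d hd hs hbigP h
  · have hpos : Primrec pos := primrec_posB
    have hem := primrec_em.to_comp
    have h1 : REPred fun w : List SL => ∃ p : List ℕ × List ℕ,
        Rel (wNTA d.2.1) (em p.1) [] ∧ Rel (wNTA d.2.1) (em p.2) [] ∧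
        E d (pos p.1 ++ w) (pos p.2) ∧ NotLR (rodM (mult d none)) (em p.1) (em p.2) := by
      refine RE.ex (p := fun (w : List SL) (p : List ℕ × List ℕ) =>
        Rel (wNTA d.2.1) (em p.1) [] ∧ Rel (wNTA d.2.1) (em p.2) [] ∧
        E d (pos p.1 ++ w) (pos p.2) ∧ NotLR (rodM (mult d none)) (em p.1) (em p.2)) ?_
      have c1 : Computable fun x : List SL × List ℕ × List ℕ => em x.2.1 :=
        hem.comp (Computable.fst.comp Computable.snd)
      have c2 : Computable fun x : List SL × List ℕ × List ℕ => em x.2.2 :=
        hem.comp (Computable.snd.comp Computable.snd)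
      refine RE.and ?_ (RE.and ?_ (RE.and ?_ ?_))
      · exact RE.comp re_run (f := fun x : List SL × List ℕ × List ℕ =>
          ((wNTA d.2.1).2.2, (wNTA d.2.1).1, em x.2.1, ([] : List Sym), (wNTA d.2.1).2.1))
          ((Computable.const _).pair ((Computable.const _).pair (c1.pair
            ((Computable.const _).pair (Computable.const _)))))
      · exact RE.comp re_run (f := fun x : List SL × List ℕ × List ℕ =>
          ((wNTA d.2.1).2.2, (wNTA d.2.1).1, em x.2.2, ([] : List Sym), (wNTA d.2.1).2.1))
          ((Computable.const _).pair ((Computable.const _).pair (c2.pair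
            ((Computable.const _).pair (Computable.const _)))))
      · exact RE.comp hE2 (f := fun x : List SL × List ℕ × List ℕ =>
          (d, pos x.2.1 ++ x.1, pos x.2.2))
          ((Computable.const _).pair ((Primrec.list_append.to_comp.comp
            (hpos.to_comp.comp (Computable.fst.comp Computable.snd)) Computable.fst).pair
            (hpos.to_comp.comp (Computable.snd.comp Computable.snd))))
      · exact RE.comp re_notLR (f := fun x : List SL × List ℕ × List ℕ =>
          (rodM (mult d none), em x.2.1, em x.2.2))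
          ((Computable.const _).pair (c1.pair c2))
    refine h1.of_eq fun w => ?_
    constructor
    · rintro ⟨⟨u, v⟩, hu, hv, h2, h3⟩ h4
      have hu' := mem_flang_iff.1 hu
      have hv' := mem_flang_iff.1 hv
      rw [notLR_iff, rel_mult hd none] at h3
      apply h3
      refine (hs.mult none trivial u v).2 ⟨hu', hv', ?_⟩
      have h5 : wval (pgen P) (pos u ++ w) = wval (pgen P) (pos v) :=
        val_eq_of_eqW (pgen P) d hs hbigP ((hE1 d hd _ _).1 h2)
      rw [wval_append, wval_pos, wval_pos, h4] at h5
      simpa [gen] using h5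
    · intro h
      obtain ⟨u, hu, _⟩ := hs.onto 1
      obtain ⟨v, hv, hval⟩ := hs.onto (val (pgen P) u * wval (pgen P) w)
      refine ⟨(u, v), mem_flang_iff.2 hu, mem_flang_iff.2 hv, ?_, ?_⟩
      · rw [hE1 d hd]
        apply eqW_of_wval (pgen P) d hd hs hbigP
        rw [wval_append, wval_pos, wval_pos, hval]
      · rw [notLR_iff, rel_mult hd none]
        intro h1
        have h2 := ((hs.mult none trivial u v).1 h1).2.2
        apply h
        rw [hval] at h2
        simpa [gen] using h2

/-- For every fixed finitely presented group it is decidable whether given automata are an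
asynchronous automatic structure for it. -/
theorem computable_fixed (P : Pres) : ComputablePred fun d : Data => IsStrP (P, d) := by
  classical
  by_cases hex : ∃ d, IsStrP (P, d)
  · obtain ⟨d₀, hn₀, hd₀, hs₀⟩ := hex
    have hwp := wp_of_structure P d₀ hn₀ hd₀ hs₀
    have hNT : REPred (fun x : Pres × List SL => ¬ wval (pgen P) x.2 = 1) :=
      RE.comp hwp.not.to_re Computable.snd
    obtain ⟨N, hN1, hN2⟩ := re_neg (fun _ w => ¬ wval (pgen P) w = 1) hNT
    apply RE.cp_of_re
    · exact RE.comp re_isStrP (f := fun d : Data => (P, d)) ((Computable.const P).pair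
        Computable.id)
    · have h1 : REPred fun d : Data => ¬ (d.1 = P.1 ∧ DWF d) :=
        RE.comp computable_dwf_snd.not.to_re (f := fun d : Data => (P, d))
          ((Computable.const P).pair Computable.id)
      have h2 : REPred fun d : Data => d.1 = P.1 ∧ DWF d :=
        RE.comp computable_dwf_snd.to_re (f := fun d : Data => (P, d))
          ((Computable.const P).pair Computable.id)
      have h3 : REPred fun d : Data => N (P, d) :=
        RE.comp hN1 (f := fun d : Data => (P, d)) ((Computable.const P).pair Computable.id)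
      refine (RE.or h1 (RE.and h2 h3)).of_eq fun d => ?_
      by_cases hd : d.1 = P.1 ∧ DWF d
      · have h4 := badP_iff P (fun w => ¬ wval (pgen P) w = 1) (fun w => Iff.rfl) d hd.1 hd.2
        rw [hN2 P d hd.2, h4]
        unfold IsStrP
        constructor
        · rintro (h5 | ⟨_, h5⟩)
          · exact absurd hd h5
          · rintro ⟨_, _, h6⟩
            exact h5 h6
        · intro h5
          exact Or.inr ⟨hd, fun h6 => h5 ⟨hd.1, hd.2, h6⟩⟩
      · constructor
        · rintro _ ⟨h5, h6, _⟩
          exact hd ⟨h5, h6⟩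
        · intro _
          exact Or.inl hd
  · have h : (fun d : Data => IsStrP (P, d)) = fun _ => False := by
      funext d
      exact propext ⟨fun h => hex ⟨d, h⟩, False.elim⟩
    rw [h]
    exact ComputablePred.computable_iff.2 ⟨fun _ => false, Computable.const false, by simp⟩

end Pool.Agent.Helper632.AAR
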