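import Pool.Agent.Helper632.AAR.NTA
import Pool.Agent.Helper632.AAR.Base
import Pool.Agent.Helper632.AAR.PresEq

namespace Pool.Agent.Helper632.AAR

theorem EqW.symm' {d : Data} {w w' : List SL} (h : EqW d w w') : EqW d w' w := by
  induction h with
  | refl => exact Relation.ReflTransGen.refl
  | tail _ hs ih =>
    obtain ⟨p, q, l, r, hr, e1, e2⟩ := hs
    exact Relation.ReflTransGen.head ⟨p, q, r, l, hr.symm, e2, e1⟩ ih

theorem EqW.trans' {d : Data} {w w' w'' : List SL} (h : EqW d w w') (h' : EqW d w' w'') : EqW d w w'' :=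
  Relation.ReflTransGen.trans h h'

theorem EqW.refl' {d : Data} (w : List SL) : EqW d w w := Relation.ReflTransGen.refl

theorem EqW.congr' {d : Data} {w w' : List SL} (h : EqW d w w') (p q : List SL) :
    EqW d (p ++ w ++ q) (p ++ w' ++ q) := by
  induction h with
  | refl => exact Relation.ReflTransGen.refl
  | tail _ hs ih =>
    obtain ⟨p', q', l, r, hr, e1, e2⟩ := hs
    refine Relation.ReflTransGen.tail ih ⟨p ++ p', q' ++ q, l, r, hr, ?_, ?_⟩
    · rw [e1]; simp [List.append_assoc]
    · rw [e2]; simp [List.append_assoc]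

theorem EqW.of_rule {d : Data} {l r : List SL} (h : Rule d l r) : EqW d l r :=
  Relation.ReflTransGen.single ⟨[], [], l, r, Or.inl h, by simp, by simp⟩

/-- chains of words following a word of signed letters -/
inductive Ch (d : Data) : List ℕ → List SL → List ℕ → Prop
  | nil (u : List ℕ) : Ch d u [] u
  | posi {u v w : List ℕ} {a : ℕ} {r : List SL} : a < d.1 → ALang (mult d (some a)) u v → Ch d v r w →
      Ch d u ((false, a) :: r) w
  | negi {u v w : List ℕ} {a : ℕ} {r : List SL} : a < d.1 → ALang (mult d (some a)) v u → Ch d v r w →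
      Ch d u ((true, a) :: r) w
  | big {u w : List ℕ} {s : Bool} {a : ℕ} {r : List SL} : d.1 ≤ a → Ch d u r w → Ch d u ((s, a) :: r) w

theorem ch_exists {G : Type*} [Group G] (π : ℕ → G) (d : Data) (hs : IsStructure G π d) (r : List SL) :
    ∀ u ∈ FLang d.2.1, ∃ w ∈ FLang d.2.1, Ch d u r w := by
  induction r with
  | nil => intro u hu; exact ⟨u, hu, Ch.nil u⟩
  | cons x r ih =>
    intro u hu
    obtain ⟨s, a⟩ := x
    by_cases ha : a < d.1
    · cases s with
      | false =>
        obtain ⟨v, hv, hval⟩ := hs.onto (val π u * π a)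
        obtain ⟨w, hw, hc⟩ := ih v hv
        refine ⟨w, hw, Ch.posi ha ?_ hc⟩
        exact (hs.mult (some a) ha u v).mpr ⟨hu, hv, hval.symm⟩
      | true =>
        obtain ⟨v, hv, hval⟩ := hs.onto (val π u * (π a)⁻¹)
        obtain ⟨w, hw, hc⟩ := ih v hv
        refine ⟨w, hw, Ch.negi ha ?_ hc⟩
        refine (hs.mult (some a) ha v u).mpr ⟨hv, hu, ?_⟩
        show val π v * π a = val π u
        rw [hval, inv_mul_cancel_right]
    · obtain ⟨w, hw, hc⟩ := ih u hu
      exact ⟨w, hw, Ch.big (not_lt.mp ha) hc⟩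

theorem wval_nil {G : Type*} [Group G] (π : ℕ → G) : wval π [] = 1 := rfl

theorem wval_cons {G : Type*} [Group G] (π : ℕ → G) (x : SL) (r : List SL) :
    wval π (x :: r) = (if x.1 then (π x.2)⁻¹ else π x.2) * wval π r := by
  unfold wval
  rw [List.map_cons, List.prod_cons]

theorem wval_append {G : Type*} [Group G] (π : ℕ → G) (r r' : List SL) :
    wval π (r ++ r') = wval π r * wval π r' := by
  unfold wval
  rw [List.map_append, List.prod_append]

theorem wval_winv {G : Type*} [Group G] (π : ℕ → G) (r : List SL) : wval π (winv r) = (wval π r)⁻¹ := by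
  induction r with
  | nil => simp [winv, wval]
  | cons x r ih =>
    have e : winv (x :: r) = winv r ++ [(!x.1, x.2)] := by simp [winv]
    rw [e, wval_append, ih, wval_cons, wval_cons, wval_nil, mul_inv_rev]
    obtain ⟨s, a⟩ := x
    cases s <;> simp

theorem wval_pos {G : Type*} [Group G] (π : ℕ → G) (u : List ℕ) : wval π (pos u) = val π u := by
  induction u with
  | nil => rfl
  | cons a u ih =>
    have e : pos (a :: u) = (false, a) :: pos u := rfl
    have e2 : val π (a :: u) = π a * val π u := by simp [val]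
    rw [e, e2, wval_cons, ih]
    simp

theorem wval_psym {G : Type*} [Group G] (π : ℕ → G) (x : Option ℕ) : wval π (psym x) = gen π x := by
  cases x with
  | none => rfl
  | some a => simp [psym, wval, gen]

theorem ch_val {H : Type*} [Group H] (ρ : ℕ → H) (d : Data) (hbig' : ∀ a, d.1 ≤ a → ρ a = 1)
    (h1 : ∀ x, InA d.1 x → ∀ u v, ALang (mult d x) u v → val ρ u * gen ρ x = val ρ v)
    {u w : List ℕ} {r : List SL} (h : Ch d u r w) : val ρ w = val ρ u * wval ρ r := by
  induction h with
  | nil u => rw [wval_nil, mul_one]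
  | posi ha hA _ ih =>
    have h2 := h1 (some _) ha _ _ hA
    rw [ih, wval_cons, ← h2, mul_assoc]
    rfl
  | negi ha hA _ ih =>
    have h2 := h1 (some _) ha _ _ hA
    rw [ih, wval_cons, ← h2]
    simp [gen, mul_assoc]
  | big ha _ ih =>
    rw [ih, wval_cons, hbig' _ ha]
    simp

theorem ch_eqW {d : Data} {u w : List ℕ} {r : List SL} (h : Ch d u r w) : EqW d (pos u ++ r) (pos w) := by
  induction h with
  | nil u => rw [List.append_nil]; exact EqW.refl' _
  | @posi u v w a r ha hA _ ih =>
    have h1 : EqW d (pos u ++ [(false, a)]) (pos v) := EqW.of_rule (Rule.mult (some a) u v ha hA)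
    have h2 := h1.congr' [] r
    simp only [List.nil_append, List.append_assoc, List.singleton_append] at h2
    exact h2.trans' ih
  | @negi u v w a r ha hA _ ih =>
    have h1 : EqW d (pos v ++ [(false, a)]) (pos u) := EqW.of_rule (Rule.mult (some a) v u ha hA)
    have h2 := h1.symm'.congr' [] ((true, a) :: r)
    have h3 : EqW d [(false, a), (true, a)] [] := EqW.of_rule (Rule.cancel false a)
    have h4 := h3.congr' (pos v) r
    simp only [List.nil_append, List.append_assoc, List.cons_append, List.append_nil] at h2 h4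
    exact (h2.trans' h4).trans' ih
  | @big u w s a r ha _ ih =>
    have h1 : EqW d [(s, a)] [] := EqW.of_rule (Rule.big s a ha)
    have h2 := h1.congr' (pos u) r
    simp only [List.append_assoc, List.cons_append, List.nil_append, List.append_nil] at h2
    exact h2.trans' ih

theorem winv_cancel (d : Data) (p : List SL) : EqW d (winv p ++ p) [] := by
  induction p with
  | nil => exact EqW.refl' _
  | cons x p ih =>
    have e : winv (x :: p) = winv p ++ [(!x.1, x.2)] := by simp [winv]
    have h1 : EqW d [(!x.1, x.2), x] [] := by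
      have := EqW.of_rule (Rule.cancel (d := d) (!x.1) x.2)
      rwa [Bool.not_not] at this
    have h2 := h1.congr' (winv p) p
    rw [e]
    simp only [List.append_assoc, List.cons_append, List.nil_append, List.append_nil] at h2 ⊢
    exact h2.trans' ih

/-- JOB P3. Transfer of a structure from `G` to `H`. -/
theorem transfer {G H : Type*} [Group G] [Group H] (π : ℕ → G) (ρ : ℕ → H) (d : Data)
    (hd : DWF d) (hs : IsStructure G π d) (hbig : ∀ a, d.1 ≤ a → π a = 1)
    (hbig' : ∀ a, d.1 ≤ a → ρ a = 1) (hgen : ∀ h : H, ∃ w, wval ρ w = h)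
    (h1 : ∀ x, InA d.1 x → ∀ u v, ALang (mult d x) u v → val ρ u * gen ρ x = val ρ v)
    (h2 : ∀ w, wval ρ w = 1 → wval π w = 1) : IsStructure H ρ d := by
  have key1 : ∀ w, wval π w = 1 ↔ wval ρ w = 1 := by
    intro w
    refine ⟨fun hw => ?_, h2 w⟩
    obtain ⟨u0, hu0, -⟩ := hs.onto 1
    obtain ⟨uk, huk, hc⟩ := ch_exists π d hs w u0 hu0
    have hπ := ch_val π d hbig (fun x hx u v hA => ((hs.mult x hx u v).mp hA).2.2) hc
    have hρ := ch_val ρ d hbig' h1 hc
    rw [hw, mul_one] at hπ
    have hA : ALang (mult d none) uk u0 := (hs.mult none trivial uk u0).mpr ⟨huk, hu0, by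
      show val π uk * 1 = val π u0
      rw [mul_one, hπ]⟩
    have h3 : val ρ uk * 1 = val ρ u0 := h1 none trivial uk u0 hA
    rw [mul_one, hρ] at h3
    exact mul_eq_left.mp h3
  have key : ∀ w w', wval π w = wval π w' ↔ wval ρ w = wval ρ w' := by
    intro w w'
    have h3 := key1 (w ++ winv w')
    rw [wval_append, wval_append, wval_winv, wval_winv, mul_inv_eq_one, mul_inv_eq_one] at h3
    exact h3
  refine ⟨?_, ?_, ?_⟩
  · intro h
    obtain ⟨w, hw⟩ := hgen h
    obtain ⟨u, hu, hval⟩ := hs.gen (wval π w)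
    refine ⟨u, hu, ?_⟩
    rw [← wval_pos] at hval ⊢
    rw [← hw]
    exact (key _ _).mp hval
  · intro h
    obtain ⟨w, hw⟩ := hgen h
    obtain ⟨u, hu, hval⟩ := hs.onto (wval π w)
    refine ⟨u, hu, ?_⟩
    rw [← wval_pos] at hval ⊢
    rw [← hw]
    exact (key _ _).mp hval
  · intro x hx u v
    rw [hs.mult x hx u v]
    have h3 := key (pos u ++ psym x) (pos v)
    rw [wval_append, wval_append, wval_pos, wval_pos, wval_pos, wval_pos, wval_psym, wval_psym] at h3
    rw [h3]

/-- JOB P3, part 2. In a structure, words with the same value are equal by rewriting. -/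
theorem eqW_of_wval {G : Type*} [Group G] (π : ℕ → G) (d : Data) (hd : DWF d)
    (hs : IsStructure G π d) (hbig : ∀ a, d.1 ≤ a → π a = 1) {w w' : List SL}
    (h : wval π w = wval π w') : EqW d w w' := by
  obtain ⟨u0, hu0, -⟩ := hs.onto 1
  obtain ⟨uk, huk, hc⟩ := ch_exists π d hs w u0 hu0
  obtain ⟨ul, hul, hc'⟩ := ch_exists π d hs w' u0 hu0
  have hm := fun x hx u v hA => ((hs.mult x hx u v).mp hA).2.2
  have h1 := ch_val π d hbig hm hc
  have h2 := ch_val π d hbig hm hc'
  have hA : ALang (mult d none) uk ul := (hs.mult none trivial uk ul).mpr ⟨huk, hul, by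
    show val π uk * 1 = val π ul
    rw [mul_one, h1, h2, h]⟩
  have h3 : EqW d (pos uk) (pos ul) := by
    have := EqW.of_rule (Rule.mult (d := d) none uk ul trivial hA)
    simpa [psym] using this
  have h4 : EqW d (pos u0 ++ w) (pos u0 ++ w') := (ch_eqW hc).trans' (h3.trans' (ch_eqW hc').symm')
  have h5 := h4.congr' (winv (pos u0)) []
  have h6 : ∀ r : List SL, EqW d (winv (pos u0) ++ (pos u0 ++ r) ++ []) r := by
    intro r
    have := (winv_cancel d (pos u0)).congr' [] r
    simpa [List.append_assoc] using this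
  exact ((h6 w).symm'.trans' h5).trans' (h6 w')

end Pool.Agent.Helper632.AAR
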