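import Pool.Agent.Helper632.AAR.Main
import Pool.Agent.Helper632.AAR.LabGen
import Pool.Agent.Helper632.AAR.PresA
import Pool.Agent.Helper632.AAR.Transfer

/-!
Structures for a presented group.
-/

namespace Pool.Agent.Helper632.AAR

open Pool.Agent.Helper446

theorem pgen_big {P : Pres} {a : ℕ} (h : P.1 ≤ a) : pgen P a = 1 := by
  unfold pgen
  rw [dif_neg (Nat.not_lt.2 h)]

theorem pgen_one_iff (P : Pres) (w : List SL) : wval (pgen P) w = 1 ↔ EqP P w [] := by
  have := pgen_eq_iff P w []
  rwa [show wval (pgen P) [] = 1 from rfl] at this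

theorem goodP_iff (P : Pres) (d : Data) :
    GoodP P d ↔ d.1 = P.1 ∧ DWF d ∧ IsStructure (PGrp P) (pgen P) d := by
  constructor
  · rintro ⟨hn, hg, hrel, hlab⟩
    refine ⟨hn, hg.1, ?_⟩
    obtain ⟨G, _, π, hs⟩ := structure_of_good hg
    obtain ⟨π', hs', hbig⟩ := normalise hg.1 hs
    refine transfer π' (pgen P) d hg.1 hs' hbig (fun a ha => pgen_big (hn ▸ ha)) (pgen_surj P)
      ?_ ?_
    · intro x hx u v huv
      refine labG_sound' (pgen P) hg.1 ?_ (hlab x (mem_rng.2 hx)) huv
      intro r hr
      rw [← wval_toSL]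
      exact (pgen_one_iff P _).2 hr
    · intro w hw
      have h1 := wval_eqP π' P (fun a ha => hbig a (hn ▸ ha)) ?_ ((pgen_one_iff P w).1 hw)
      · exact h1
      · intro r hr
        exact val_eq_of_eqW π' d hs' hbig (hrel r hr)
  · rintro ⟨hn, hd, hs⟩
    refine ⟨hn, good_of_structure hd hs, ?_, ?_⟩
    · intro r hr
      refine eqW_of_wval (pgen P) d hd hs (fun a ha => pgen_big (hn ▸ ha)) ?_
      have h1 : EqP P r [] := Relation.ReflTransGen.single
        ⟨[], [], r, [], Or.inl (RuleP.rel r hr), by simp, by simp⟩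
      exact (pgen_eq_iff P r []).2 h1
    · intro x hx
      refine labG_of (pgen P) d hd hs _ ?_ x (mem_rng.1 hx)
      intro r _ hr
      rw [← wval_toSL] at hr
      exact (pgen_one_iff P _).1 hr

theorem badP_iff (P : Pres) (nt : List SL → Prop) (hnt : ∀ w, nt w ↔ wval (pgen P) w ≠ 1)
    (d : Data) (hn : d.1 = P.1) (hd : DWF d) :
    BadP P nt d ↔ ¬ IsStructure (PGrp P) (pgen P) d := by
  have hbigP : ∀ a, d.1 ≤ a → pgen P a = 1 := fun a ha => pgen_big (hn ▸ ha)
  constructor
  · rintro h hs
    rcases h with h | ⟨r, hr, u, v, hu, hv, h1, h2⟩ | ⟨x, hx, u, v, h1, h2⟩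
    · exact (bad_iff hd).1 h ⟨hd, PGrp P, inferInstance, pgen P, hs⟩
    · have hu' := mem_flang_iff.1 hu
      have hv' := mem_flang_iff.1 hv
      rw [notLR_iff, rel_mult hd none] at h2
      apply h2
      refine (hs.mult none trivial u v).2 ⟨hu', hv', ?_⟩
      have h3 : wval (pgen P) (pos u ++ r) = wval (pgen P) (pos v) :=
        val_eq_of_eqW (pgen P) d hs hbigP h1
      rw [wval_append, wval_pos, wval_pos] at h3
      have h4 : EqP P r [] := Relation.ReflTransGen.single
        ⟨[], [], r, [], Or.inl (RuleP.rel r hr), by simp, by simp⟩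
      rw [(pgen_one_iff P r).2 h4] at h3
      simpa [gen] using h3
    · rw [hnt] at h2
      apply h2
      rw [mem_rng] at hx
      have h3 := ((hs.mult x hx u v).1 ((rel_mult hd x).1 h1)).2.2
      rw [wval_append, wval_append, wval_pos, wval_psym, wval_winv, wval_pos, h3]
      group
  · intro hns
    by_contra hbad
    apply hns
    have hstr : IsStr d := by
      by_contra h
      exact hbad (Or.inl ((bad_iff hd).2 h))
    obtain ⟨_, G, _, π, hs⟩ := hstr
    obtain ⟨π', hs', hbig⟩ := normalise hd hs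
    refine transfer π' (pgen P) d hd hs' hbig hbigP (pgen_surj P) ?_ ?_
    · intro x hx u v huv
      by_contra h
      apply hbad
      refine Or.inr (Or.inr ⟨x, mem_rng.2 hx, u, v, (rel_mult hd x).2 huv, ?_⟩)
      rw [hnt]
      intro h1
      apply h
      rw [wval_append, wval_append, wval_pos, wval_psym, wval_winv, wval_pos,
        mul_inv_eq_one] at h1
      exact h1
    · intro w hw
      refine wval_eqP π' P (fun a ha => hbig a (hn ▸ ha)) ?_ ((pgen_one_iff P w).1 hw)
      intro r hr
      by_contra h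
      apply hbad
      obtain ⟨u, hu, _⟩ := hs'.onto 1
      obtain ⟨v, hv, hval⟩ := hs'.onto (val π' u * wval π' r)
      refine Or.inr (Or.inl ⟨r, hr, u, v, mem_flang_iff.2 hu, mem_flang_iff.2 hv, ?_, ?_⟩)
      · apply eqW_of_wval π' d hd hs' hbig
        rw [wval_append, wval_pos, wval_pos, hval]
      · rw [notLR_iff, rel_mult hd none]
        intro h1
        have h2 := ((hs'.mult none trivial u v).1 h1).2.2
        apply h
        rw [hval] at h2
        simpa [gen] using h2

end Pool.Agent.Helper632.AAR
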