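import Pool.Agent.Helper632.AAR.NTA
import Pool.Agent.Helper446.RE
import Pool.Agent.Helper632.AAR.Pres

namespace Pool.Agent.Helper632.AAR

open Pool.Agent.Helper446

/-- The automaton accepting only the pair of empty words. -/
def mTriv : AAut := (0, [0, 2, 4], [(0, none, 1), (1, none, 2)])

/-- The data with `L(W) = {ε}` and `L(M_x) = {(ε, ε)}` over an alphabet of size `n`. -/
def dTriv (n : ℕ) : Data := (n, (0, [0], []), mTriv, List.replicate n mTriv)

theorem auxT_kind0 : kind mTriv 0 = some 0 := rfl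

theorem auxT_kind1 : kind mTriv 1 = some 2 := rfl

theorem auxT_kind2 : kind mTriv 2 = some 4 := rfl

theorem auxT_awf (n : ℕ) : AWF n mTriv := by
  refine ⟨Or.inl rfl, ⟨2, rfl, ?_⟩, ?_, ?_⟩
  · intro s hs
    match s, hs with
    | 0, h => exact absurd h (by decide)
    | 1, h => exact absurd h (by decide)
    | 2, _ => rfl
    | (s + 3), h =>
      exfalso
      have : kind mTriv (s + 3) = none := rfl
      rw [this] at h
      simp at h
  · intro e he
    simp only [mTriv, List.mem_cons, List.not_mem_nil, or_false] at he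
    rcases he with rfl | rfl
    · exact Or.inr ⟨rfl, Or.inl ⟨rfl, rfl⟩⟩
    · exact Or.inr ⟨rfl, Or.inr (Or.inr ⟨Or.inl rfl, rfl⟩)⟩
  · intro e he e' he' h1 _
    simp only [mTriv, List.mem_cons, List.not_mem_nil, or_false] at he he'
    rcases he with rfl | rfl <;> rcases he' with rfl | rfl
    · rfl
    · simp at h1
    · simp at h1
    · rfl

theorem auxT_acc2 {s : ℕ} {U V : List Sym} (h : Acc mTriv s U V) :
    (s = 2 → U = [] ∧ V = []) ∧ (s = 1 → U = [] ∧ V = [none]) ∧
      (s = 0 → U = [none] ∧ V = [none]) := by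
  induction h with
  | done hk =>
    refine ⟨fun _ => ⟨rfl, rfl⟩, ?_, ?_⟩
    · rintro rfl
      exact absurd hk (by decide)
    · rintro rfl
      exact absurd hk (by decide)
  | left hr ha _ ih =>
    simp only [mTriv, List.mem_cons, List.not_mem_nil, or_false, Prod.mk.injEq] at ha
    refine ⟨?_, ?_, ?_⟩
    · rintro rfl
      rcases ha with ⟨h, -⟩ | ⟨h, -⟩ <;> omega
    · rintro rfl
      rcases hr with h | h <;> exact absurd h (by decide)
    · rintro rfl
      rcases ha with ⟨-, rfl, rfl⟩ | ⟨h, -⟩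
      · obtain ⟨rfl, rfl⟩ := ih.2.1 rfl
        exact ⟨rfl, rfl⟩
      · omega
  | right hr ha _ ih =>
    simp only [mTriv, List.mem_cons, List.not_mem_nil, or_false, Prod.mk.injEq] at ha
    refine ⟨?_, ?_, ?_⟩
    · rintro rfl
      rcases ha with ⟨h, -⟩ | ⟨h, -⟩ <;> omega
    · rintro rfl
      rcases ha with ⟨h, -⟩ | ⟨-, rfl, rfl⟩
      · omega
      · obtain ⟨rfl, rfl⟩ := ih.1 rfl
        exact ⟨rfl, rfl⟩
    · rintro rfl
      rcases hr with h | h <;> exact absurd h (by decide)

theorem auxT_em {u : List ℕ} (h : em u = [none]) : u = [] := by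
  cases u with
  | nil => rfl
  | cons a u => simp [em] at h

theorem auxT_alang (u v : List ℕ) : ALang mTriv u v ↔ u = [] ∧ v = [] := by
  constructor
  · intro h
    obtain ⟨h1, h2⟩ := (auxT_acc2 h).2.2 rfl
    exact ⟨auxT_em h1, auxT_em h2⟩
  · rintro ⟨rfl, rfl⟩
    show Acc mTriv 0 [none] [none]
    refine Acc.left (t := 1) (Or.inl rfl) (by simp [mTriv]) ?_
    refine Acc.right (t := 2) (Or.inr rfl) (by simp [mTriv]) ?_
    exact Acc.done rfl

theorem auxT_flang (u : List ℕ) : u ∈ FLang ((0, [0], []) : FAut) ↔ u = [] := by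
  constructor
  · rintro ⟨f, -, hf⟩
    cases hf with
    | nil => rfl
    | cons h _ => simp at h
  · rintro rfl
    exact ⟨0, by simp, FPath.nil 0⟩

theorem auxT_mult (n : ℕ) (x : Option ℕ) : mult (dTriv n) x = mTriv := by
  cases x with
  | none => rfl
  | some x =>
    show (List.replicate n mTriv).getD x mTriv = mTriv
    rw [List.getD_eq_getElem?_getD, List.getElem?_replicate]
    split_ifs <;> rfl

/-- JOB P9, part 1. -/
theorem dwf_dTriv (n : ℕ) : DWF (dTriv n) := by
  refine ⟨?_, auxT_awf n, List.length_replicate, ?_⟩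
  · intro e he
    simp [dTriv] at he
  · intro M hM
    have : M = mTriv := List.eq_of_mem_replicate hM
    rw [this]
    exact auxT_awf n

/-- JOB P9, part 2. -/
theorem isStructure_dTriv_iff (n : ℕ) {G : Type*} [Group G] (π : ℕ → G) :
    IsStructure G π (dTriv n) ↔ ∀ g : G, g = 1 := by
  constructor
  · intro h g
    obtain ⟨u, hu, hg⟩ := h.onto g
    have hu' : u = [] := (auxT_flang u).1 hu
    rw [hu'] at hg
    rw [← hg]
    rfl
  · intro h
    refine ⟨?_, ?_, ?_⟩
    · intro g
      exact ⟨[], by simp, by rw [h g]; rfl⟩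
    · intro g
      exact ⟨[], (auxT_flang []).2 rfl, by rw [h g]; rfl⟩
    · intro x _ u v
      rw [auxT_mult, auxT_alang]
      have h1 : u ∈ FLang (dTriv n).2.1 ↔ u = [] := auxT_flang u
      have h2 : v ∈ FLang (dTriv n).2.1 ↔ v = [] := auxT_flang v
      rw [h1, h2]
      constructor
      · rintro ⟨h3, h4⟩
        exact ⟨h3, h4, by rw [h (val π u * AAR.gen π x), h (val π v)]⟩
      · rintro ⟨h3, h4, -⟩
        exact ⟨h3, h4⟩

/-- JOB P9, part 3. -/
theorem primrec_dTriv : Primrec dTriv := by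
  have h1 : Primrec fun n : ℕ => (List.range n).map fun _ => mTriv :=
    Primrec.list_map Primrec.list_range (Primrec.const mTriv)
  have h2 : Primrec fun n : ℕ => List.replicate n mTriv := by
    refine h1.of_eq fun n => ?_
    rw [List.map_const', List.length_range]
  exact Primrec.id.pair ((Primrec.const ((0, [0], []) : FAut)).pair
    ((Primrec.const mTriv).pair h2))

/-- JOB P9, part 4. -/
theorem triviality_reduction
    (h : ComputablePred fun y : Pres × Data =>
      y.2.1 = y.1.1 ∧ DWF y.2 ∧ IsStructure (PGrp y.1) (pgen y.1) y.2) :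
    ComputablePred fun P : Pres => ∀ g : PGrp P, g = 1 := by
  have h1 : Computable fun P : Pres => (P, dTriv P.1) :=
    (Primrec.id.pair (primrec_dTriv.comp Primrec.fst)).to_comp
  refine (RE.cp_comp h h1).of_eq fun P => ?_
  show ((dTriv P.1).1 = P.1 ∧ DWF (dTriv P.1) ∧ IsStructure (PGrp P) (pgen P) (dTriv P.1)) ↔ _
  rw [isStructure_dTriv_iff]
  constructor
  · rintro ⟨-, -, h2⟩
    exact h2
  · intro h2
    exact ⟨rfl, dwf_dTriv _, h2⟩

end Pool.Agent.Helper632.AAR
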