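import Pool.Agent.Helper632.AAR.PresDecide

/-!
The group is determined by the automata.
-/

namespace Pool.Agent.Helper632.AAR

theorem normalise' {G : Type*} [Group G] {π : ℕ → G} {d : Data} (hd : DWF d)
    (hs : IsStructure G π d) : ∃ π' : ℕ → G, IsStructure G π' d ∧ (∀ a, d.1 ≤ a → π' a = 1) ∧
      ∀ a < d.1, π' a = π a := by
  classical
  let π' : ℕ → G := fun a => if a < d.1 then π a else 1
  have hval : ∀ w : List ℕ, (∀ a ∈ w, a < d.1) → val π' w = val π w := by
    intro w hw
    unfold val
    congr 1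
    apply List.map_congr_left
    intro a ha
    simp [π', hw a ha]
  have hgen : ∀ y, InA d.1 y → gen π' y = gen π y := by
    intro y hy
    cases y with
    | none => rfl
    | some a => have : a < d.1 := hy; simp [gen, π', this]
  refine ⟨π', ⟨?_, ?_, ?_⟩, ?_, ?_⟩
  · intro g
    obtain ⟨w, hw, hg⟩ := hs.gen g
    exact ⟨w, hw, by rw [hval w hw, hg]⟩
  · intro g
    obtain ⟨w, hw, hg⟩ := hs.onto g
    exact ⟨w, hw, by rw [hval w (flang_letters hd.W hw), hg]⟩
  · intro y hy a b
    rw [hs.mult y hy a b]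
    constructor
    · rintro ⟨k1, k2, k3⟩
      refine ⟨k1, k2, ?_⟩
      rw [hval a (flang_letters hd.W k1), hval b (flang_letters hd.W k2), hgen y hy, k3]
    · rintro ⟨k1, k2, k3⟩
      refine ⟨k1, k2, ?_⟩
      rw [← hval a (flang_letters hd.W k1), ← hval b (flang_letters hd.W k2),
        ← hgen y hy, k3]
  · intro a ha
    simp [π', Nat.not_lt.2 ha]
  · intro a ha
    simp [π', ha]

theorem wval_iff {G : Type*} [Group G] {π : ℕ → G} {d : Data} (hd : DWF d)
    (hs : IsStructure G π d) (hbig : ∀ a, d.1 ≤ a → π a = 1) (w w' : List SL) :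
    wval π w = wval π w' ↔ EqW d w w' :=
  ⟨fun h => eqW_of_wval π d hd hs hbig h, fun h => val_eq_of_eqW π d hs hbig h⟩

/-- Two groups for which the same automata are an asynchronous automatic structure are isomorphic,
by an isomorphism matching the generators. -/
theorem unique_group {G H : Type*} [Group G] [Group H] {π : ℕ → G} {ρ : ℕ → H} {d : Data}
    (hd : DWF d) (hs : IsStructure G π d) (hs' : IsStructure H ρ d) :
    ∃ e : G ≃* H, ∀ a < d.1, e (π a) = ρ a := by
  obtain ⟨π', h1, h2, h3⟩ := normalise' hd hs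
  obtain ⟨ρ', k1, k2, k3⟩ := normalise' hd hs'
  have hG : ∀ g : G, ∃ w, wval π' w = g := by
    intro g
    obtain ⟨u, _, hu⟩ := h1.onto g
    exact ⟨pos u, by rw [wval_pos, hu]⟩
  have hH : ∀ g : H, ∃ w, wval ρ' w = g := by
    intro g
    obtain ⟨u, _, hu⟩ := k1.onto g
    exact ⟨pos u, by rw [wval_pos, hu]⟩
  have key : ∀ w w', wval π' w = wval π' w' ↔ wval ρ' w = wval ρ' w' := by
    intro w w'
    rw [wval_iff hd h1 h2, wval_iff hd k1 k2]
  choose f hf using hG
  have hfw : ∀ w, wval ρ' (f (wval π' w)) = wval ρ' w := fun w => (key _ _).1 (hf _)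
  let φ : G →* H :=
    { toFun := fun g => wval ρ' (f g)
      map_one' := by
        have := hfw []
        exact this
      map_mul' := by
        intro a b
        show wval ρ' (f (a * b)) = wval ρ' (f a) * wval ρ' (f b)
        rw [← wval_append]
        apply (key _ _).1
        rw [hf, wval_append, hf, hf] }
  have hφ : ∀ w, φ (wval π' w) = wval ρ' w := hfw
  refine ⟨MulEquiv.ofBijective φ ⟨?_, ?_⟩, ?_⟩
  · intro a b hab
    rw [← hf a, ← hf b]
    apply (key _ _).2
    exact hab
  · intro h
    obtain ⟨w, hw⟩ := hH h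
    exact ⟨wval π' w, by rw [hφ, hw]⟩
  · intro a ha
    have := hφ [(false, a)]
    have e1 : wval π' [(false, a)] = π' a := by simp [wval]
    have e2 : wval ρ' [(false, a)] = ρ' a := by simp [wval]
    rw [e1, e2, h3 a ha, k3 a ha] at this
    exact this

end Pool.Agent.Helper632.AAR
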