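import Pool.Agent.Helper632.AAR.Base

/-!
A certificate gives a structure.
-/

namespace Pool.Agent.Helper632.AAR

theorem awf_mult {d : Data} (hd : DWF d) (o : Option ℕ) : AWF d.1 (mult d o) := by
  cases o with
  | none => exact hd.eps
  | some a =>
    show AWF d.1 (d.2.2.2.getD a d.2.2.1)
    by_cases h : a < d.2.2.2.length
    · rw [List.getD_eq_getElem _ _ h]
      exact hd.mults _ (List.getElem_mem h)
    · rw [List.getD_eq_default _ _ (by omega)]
      exact hd.eps

theorem mult_big {d : Data} (hd : DWF d) {a : ℕ} (ha : d.1 ≤ a) : mult d (some a) = mult d none := by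
  show d.2.2.2.getD a d.2.2.1 = d.2.2.1
  rw [List.getD_eq_default]
  rw [hd.len]; exact ha

theorem rel_mult {d : Data} (hd : DWF d) (o : Option ℕ) {u v : List ℕ} :
    Rel (rodM (mult d o)) (em u) (em v) ↔ ALang (mult d o) u v :=
  rel_rodM (awf_mult hd o)

theorem em_inj {u v : List ℕ} (h : em u = em v) : u = v := by
  unfold em at h
  have h1 := List.append_inj_left' h rfl
  exact List.map_injective_iff.2 (Option.some_injective _) h1

theorem rel_rodL {d : Data} (hd : DWF d) (l : SLet) {u v : List ℕ} :
    Rel (rodL d l) (em u) (em v) ↔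
      if l.1 then ALang (mult d l.2) v u else ALang (mult d l.2) u v := by
  unfold rodL
  by_cases h : l.1 = true
  · simp only [h, if_true]
    rw [rel_inv]; exact rel_mult hd _
  · simp only [h]
    exact rel_mult hd _

/-- words in `L(W)` have letters in the alphabet -/
theorem fpath_letters {n : ℕ} {W : FAut} (hW : FWF n W) {s t : ℕ} {u : List ℕ}
    (h : FPath W s u t) : ∀ a ∈ u, a < n := by
  induction h with
  | nil s => simp
  | cons he _ ih =>
    intro a ha
    rcases List.mem_cons.1 ha with rfl | ha
    · exact hW _ he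
    · exact ih a ha

theorem flang_letters {n : ℕ} {W : FAut} (hW : FWF n W) {u : List ℕ} (h : u ∈ FLang W) :
    ∀ a ∈ u, a < n := by
  obtain ⟨f, _, hp⟩ := h
  exact fpath_letters hW hp

/-- the relation of `M_x` -/
def MR (d : Data) (o : Option ℕ) (u v : List ℕ) : Prop := ALang (mult d o) u v

/-- the language of `D` -/
def DL (D : NTA) : Set (List ℕ) := {w | Rel D (em w) []}

theorem chain_to_rel {d : Data} (hd : DWF d) :
    ∀ (r : List SLet) (u v : List ℕ), (∀ a ∈ v, a < d.1) → ChainRel (MR d) r u v →
      Rel (rodW d r) (em u) (em v)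
  | [], u, v, hv, h => by
    have h' : u = v := h
    subst h'
    show Rel (copyN d.1) _ _
    rw [rel_copyN]
    refine ⟨rfl, ?_⟩
    intro b hb
    unfold em at hb
    simp only [List.mem_append, List.mem_map, List.mem_singleton] at hb
    rcases hb with ⟨a, ha, hab⟩ | hb
    · cases hab; exact hv _ ha
    · cases hb
  | l :: r, u, v, hv, h => by
    obtain ⟨w, h1, h2⟩ := h
    show Rel (comp (rodL d l) (rodW d r)) _ _
    rw [rel_comp]
    exact ⟨em w, (rel_rodL hd l).2 h1, chain_to_rel hd r w v hv h2⟩

theorem rel_copy_em {n : ℕ} {u : List ℕ} (hu : ∀ a ∈ u, a < n) : Rel (copyN n) (em u) (em u) := by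
  rw [rel_copyN]
  refine ⟨rfl, ?_⟩
  intro b hb
  unfold em at hb
  simp only [List.mem_append, List.mem_map, List.mem_singleton] at hb
  rcases hb with ⟨a, ha, hab⟩ | hb
  · cases hab; exact hu _ ha
  · cases hb

theorem triv_of_check {d : Data} (hd : DWF d) {D : NTA} (hD1 : ∀ e ∈ D.2.2, e.2.1 = 1)
    (hDn : ∀ w ∈ DL D, ∀ a ∈ w, a < d.1) {r : List SLet} (h : TrivCheck d D r) :
    Triv (DL D) (MR d) r := by
  intro w₀ w₁ _ h1 hc
  exact check_sound (awf_mult hd none) h (chain_to_rel hd r w₀ w₁ (hDn _ h1) hc)
    (rel_copy_em (hDn _ h1)) h1 hD1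

theorem slval_nil {G : Type*} [Group G] (π : ℕ → G) : slval π [] = 1 := rfl

theorem slval_cons {G : Type*} [Group G] (π : ℕ → G) (l : SLet) (r : List SLet) :
    slval π (l :: r) = (if l.1 then (gen π l.2)⁻¹ else gen π l.2) * slval π r := by
  simp [slval]

theorem slval_sinv {G : Type*} [Group G] (π : ℕ → G) (r : List SLet) :
    slval π (sinv r) = (slval π r)⁻¹ := by
  induction r with
  | nil => simp [sinv, slval]
  | cons l r ih =>
    have : sinv (l :: r) = sinv r ++ [(!l.1, l.2)] := by simp [sinv]
    rw [this, slval_append, ih, slval_cons, slval_cons, slval_nil, mul_one, mul_inv_rev]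
    congr 1
    cases l.1 <;> simp

theorem slval_spos {G : Type*} [Group G] (π : ℕ → G) (u : List ℕ) :
    slval π (spos u) = val π u := by
  unfold slval spos val
  rw [List.map_map]
  congr 1

theorem slval_ssym {G : Type*} [Group G] (π : ℕ → G) (x : Option ℕ) :
    slval π (ssym x) = gen π x := by
  cases x with
  | none => rfl
  | some a => simp [slval, ssym, gen]

end Pool.Agent.Helper632.AAR
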