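import Pool.Agent.Helper632.AAR.Yes1

/-!
A certificate gives a structure: the main proof.
-/

namespace Pool.Agent.Helper632.AAR

theorem sval_em' {G : Type*} [Group G] (π : ℕ → G) (u : List ℕ) : sval π (em u) = val π u := by
  unfold sval em val
  simp [List.map_map, Function.comp_def]

theorem mem_rng {n : ℕ} {x : Option ℕ} :
    x ∈ (none :: (List.range n).map some : List (Option ℕ)) ↔ InA n x := by
  cases x with
  | none => simp [InA]
  | some a => simp [InA]

theorem rodM_tag {M : AAut} {e : Arr} (he : e ∈ (rodM M).2.2) : e.2.1 = 1 ∨ e.2.1 = 2 := by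
  unfold rodM at he
  simp only [List.mem_map] at he
  obtain ⟨m, _, rfl⟩ := he
  by_cases h : kind M m.1 = some 0 ∨ kind M m.1 = some 3
  · left; simp [h]
  · right; simp [h]

/-- Soundness of `M_x` from the labels. -/
theorem lab_sound {G : Type*} [Group G] (π : ℕ → G) {d : Data} {D : NTA} (x : Option ℕ)
    (hT : ∀ r, TrivCheck d D r → slval π r = 1) {L : List (ℕ × List SLet)} {X : List ℕ}
    (hX : DeadOK (rodM (mult d x)) X)
    (h1 : ∀ p ∈ L, ∀ e ∈ (rodM (mult d x)).2.2, e.1 = p.1 → e.2.2.2 ∉ X →
      ∃ p' ∈ L, p'.1 = e.2.2.2 ∧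
        (e.2.1 = 1 → TrivCheck d D (ssym e.2.2.1 ++ p'.2 ++ sinv p.2)) ∧
        (e.2.1 = 2 → TrivCheck d D (p.2 ++ ssym e.2.2.1 ++ sinv p'.2)))
    (h2 : ∀ p ∈ L, p.1 = (rodM (mult d x)).2.1 → TrivCheck d D (p.2 ++ sinv (ssym x)))
    {s t : ℕ} {U V : List Sym} (h : Run (rodM (mult d x)).2.2 s U V t)
    (ht : t = (rodM (mult d x)).2.1) :
    ∀ p ∈ L, p.1 = s → sval π U * gen π x = slval π p.2 * sval π V := by
  induction h with
  | nil s =>
    intro p hp hs
    have := hT _ (h2 p hp (by rw [hs, ht]))
    rw [slval_append, slval_sinv, slval_ssym, mul_inv_eq_one] at this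
    simp [sval, this]
  | @eps s t r b U V he _ ih =>
    intro p hp hs
    have := rodM_tag he
    simp at this
  | @left s t r b U V he hrun ih =>
    intro p hp hs
    have htX : t ∉ X := by
      intro hx
      have := dead_sound hX hx U V
      rw [← ht] at this
      exact this hrun
    obtain ⟨p', hp', h3, h4, _⟩ := h1 p hp _ he hs.symm htX
    have h5 := hT _ (h4 rfl)
    rw [slval_append, slval_append, slval_sinv, slval_ssym, mul_inv_eq_one] at h5
    have h6 := ih ht p' hp' h3
    have h7 : sval π (b :: U) = gen π b * sval π U := by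
      cases b <;> simp [sval, gen]
    rw [h7, mul_assoc, h6, ← h5, mul_assoc]
  | @right s t r b U V he hrun ih =>
    intro p hp hs
    have htX : t ∉ X := by
      intro hx
      have := dead_sound hX hx U V
      rw [← ht] at this
      exact this hrun
    obtain ⟨p', hp', h3, _, h4⟩ := h1 p hp _ he hs.symm htX
    have h5 := hT _ (h4 rfl)
    rw [slval_append, slval_append, slval_sinv, slval_ssym, mul_inv_eq_one] at h5
    have h6 := ih ht p' hp' h3
    have h7 : sval π (b :: V) = gen π b * sval π V := by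
      cases b <;> simp [sval, gen]
    rw [h7, h6, ← h5, mul_assoc]

theorem runD_split {T : List Arr} (hT : ∀ e ∈ T, e.2.1 = 1) {s r : ℕ} {b : Sym} {U : List Sym}
    (h : Run T s (b :: U) [] r) : ∃ t, (s, 1, b, t) ∈ T ∧ Run T t U [] r := by
  generalize hA : b :: U = A at h
  generalize hB : ([] : List Sym) = B at h
  cases h with
  | nil s => cases hA
  | eps he _ => have := hT _ he; simp at this
  | left he h' =>
    cases hA; subst hB
    exact ⟨_, he, h'⟩
  | right he _ => have := hT _ he; simp at this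

theorem runD_nil' {T : List Arr} (hT : ∀ e ∈ T, e.2.1 = 1) {s r : ℕ}
    (h : Run T s [] [] r) : s = r := by
  generalize hA : ([] : List Sym) = A at h
  cases h with
  | nil s => rfl
  | eps he _ => have := hT _ he; simp at this
  | left he h' => cases hA
  | right he _ => have := hT _ he; simp at this

theorem structure_of_good {d : Data} (h : Good d) :
    ∃ (G : Type) (_ : Group G) (π : ℕ → G), IsStructure G π d := by
  obtain ⟨hd, D, hD1, hDW, hx, ht0, ht1, ht2, C, X, hX, ⟨p0, hp0, hp01⟩, hC1, hC2, hC3⟩ := h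
  have hx' : ∀ x, InA d.1 x → _ := fun x hxn => hx x (mem_rng.2 hxn)
  -- languages
  have hDL : ∀ w ∈ DL D, w ∈ FLang d.2.1 := by
    intro w hw
    obtain ⟨V', hV'⟩ := proj_sound hDW hw
    rw [rel_wNTA] at hV'
    obtain ⟨_, u, hu, hwu⟩ := hV'
    rw [em_inj hwu]; exact hu
  have hDn : ∀ w ∈ DL D, ∀ a ∈ w, a < d.1 := fun w hw => flang_letters hd.W (hDL w hw)
  have hb : ∀ x, InA d.1 x → ∀ u v, MR d x u v → u ∈ FLang d.2.1 ∧ v ∈ FLang d.2.1 := by
    intro x hxn u v huv
    obtain ⟨k1, k2, -⟩ := hx' x hxn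
    constructor
    · obtain ⟨V', hV'⟩ := proj_sound k1 ((rel_mult hd x).2 huv)
      rw [rel_wNTA] at hV'
      obtain ⟨_, u', hu, hwu⟩ := hV'
      rw [em_inj hwu]; exact hu
    · obtain ⟨V', hV'⟩ := proj_sound k2 (rel_inv.2 ((rel_mult hd x).2 huv))
      rw [rel_wNTA] at hV'
      obtain ⟨_, u', hu, hwu⟩ := hV'
      rw [em_inj hwu]; exact hu
  have hDnil : ∀ {s t : ℕ} {U V : List Sym}, Run D.2.2 s U V t → V = [] := by
    intro s t U V h
    induction h with
    | nil s => rfl
    | eps he _ _ => have := hD1 _ he; simp at this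
    | left _ _ ih => exact ih
    | right he _ _ => have := hD1 _ he; simp at this
  have hc : ∀ x, InA d.1 x → ∀ u ∈ FLang d.2.1,
      (∃ w ∈ DL D, MR d x u w) ∧ ∃ w ∈ DL D, MR d x w u := by
    intro x hxn u hu
    obtain ⟨-, -, k1, k2, -⟩ := hx' x hxn
    have hu' : Rel (wNTA d.2.1) (em u) [] := rel_wNTA.2 ⟨rfl, u, hu, rfl⟩
    constructor
    · obtain ⟨V', hV'⟩ := proj_sound k1 hu'
      rw [rel_comp] at hV'
      obtain ⟨W, hW1, hW2⟩ := hV'
      have hV : V' = [] := hDnil hW2
      subst hV
      obtain ⟨u1, w, hu1, hw, _, _⟩ := acc_em (awf_mult hd x) ((rel_rodM (awf_mult hd x)).1 hW1)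
      subst hw
      exact ⟨w, hW2, (rel_mult hd x).1 hW1⟩
    · obtain ⟨V', hV'⟩ := proj_sound k2 hu'
      rw [rel_comp] at hV'
      obtain ⟨W, hW1, hW2⟩ := hV'
      have hV : V' = [] := hDnil hW2
      subst hV
      rw [rel_inv] at hW1
      obtain ⟨w, u1, hw, hu1, _, _⟩ := acc_em (awf_mult hd x) ((rel_rodM (awf_mult hd x)).1 hW1)
      subst hw
      exact ⟨w, hW2, (rel_mult hd x).1 hW1⟩
  have hdd : ∀ x, InA d.1 x → ∀ u v w, w ∈ DL D → MR d x u w → MR d none v w → MR d x u v := by
    intro x hxn u v w hw h1 h2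
    obtain ⟨-, -, -, -, k, -⟩ := hx' x hxn
    exact check_sound (awf_mult hd x) k ((rel_mult hd x).2 h1)
      (rel_inv.2 ((rel_mult hd none).2 h2)) hw hD1
  have hT' : ∀ {r}, TrivCheck d D r → Triv (DL D) (MR d) r := fun h => triv_of_check hd hD1 hDn h
  have hMRbig : ∀ {a}, d.1 ≤ a → MR d (some a) = MR d none := by
    intro a ha
    funext u v
    unfold MR
    rw [mult_big hd ha]
  -- triviality for all letters
  have hLR : ∀ (s : Bool) (a : ℕ) (r : List SLet), d.1 ≤ a → ∀ u v,
      ChainRel (MR d) ((s, some a) :: r) u v ↔ ChainRel (MR d) ((s, none) :: r) u v := by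
    intro s a r ha u v
    unfold ChainRel
    rw [hMRbig ha]
  have h3 : ∀ o, Triv (DL D) (MR d) [(true, o), (false, none), (false, o)] := by
    intro o
    cases o with
    | none => exact hT' (hx' none trivial).2.2.2.2.2.1
    | some a =>
      by_cases ha : a < d.1
      · exact hT' (hx' (some a) ha).2.2.2.2.2.1
      · have hT0 := hT' (hx' none trivial).2.2.2.2.2.1
        intro w₀ w₁ hw0 hw1 hc
        apply hT0 w₀ w₁ hw0 hw1
        unfold ChainRel at hc ⊢
        unfold ChainRel at hc ⊢
        unfold ChainRel at hc ⊢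
        rw [hMRbig (by omega)] at hc
        exact hc
  have h4 : ∀ o, Triv (DL D) (MR d) [(false, o), (false, none), (true, o)] := by
    intro o
    cases o with
    | none => exact hT' (hx' none trivial).2.2.2.2.2.2.1
    | some a =>
      by_cases ha : a < d.1
      · exact hT' (hx' (some a) ha).2.2.2.2.2.2.1
      · have hT0 := hT' (hx' none trivial).2.2.2.2.2.2.1
        intro w₀ w₁ hw0 hw1 hc
        apply hT0 w₀ w₁ hw0 hw1
        unfold ChainRel at hc ⊢
        unfold ChainRel at hc ⊢
        unfold ChainRel at hc ⊢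
        rw [hMRbig (by omega)] at hc
        exact hc
  have hc' : ∀ o, ∀ w ∈ DL D, (∃ w' ∈ DL D, MR d o w w') ∧ ∃ w' ∈ DL D, MR d o w' w := by
    intro o w hw
    cases o with
    | none => exact hc none trivial w (hDL w hw)
    | some a =>
      by_cases ha : a < d.1
      · exact hc (some a) ha w (hDL w hw)
      · rw [hMRbig (by omega)]
        exact hc none trivial w (hDL w hw)
  have hbase : p0.2 ∈ DL D := by
    have := hC1 p0 hp0
    rw [hp01] at this
    exact this
  obtain ⟨G, _, π, Y, act, cl, hA1, hA2, hclR, hsurj, hgen, hact, htriv⟩ :=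
    exists_action (DL D) (MR d) ⟨_, hbase⟩ hc' (hT' ht0) (hT' ht1) (hT' ht2) h3 h4
  have hTT : ∀ r, TrivCheck d D r → slval π r = 1 := fun r hr => htriv r (hT' hr)
  -- soundness
  have hsound : ∀ x, InA d.1 x → ∀ u v, MR d x u v → val π u * gen π x = val π v := by
    intro x hxn u v huv
    obtain ⟨-, -, -, -, -, -, -, L, X', hL1, hL2, hL3, hL4⟩ := hx' x hxn
    have hr : Rel (rodM (mult d x)) (em u) (em v) := (rel_mult hd x).2 huv
    have := lab_sound π x hTT hL2 hL3 hL4 hr rfl _ hL1 rfl
    rw [sval_em', sval_em', slval_nil, one_mul] at this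
    exact this
  have hpibig : ∀ a, d.1 ≤ a → π a = 1 := by
    intro a ha
    have : slval π [(false, some a)] = 1 := by
      apply htriv
      intro w₀ w₁ hw0 hw1 hch
      unfold ChainRel at hch
      obtain ⟨w, h1, h2⟩ := hch
      unfold ChainRel at h2
      subst h2
      simpa [hMRbig ha] using h1
    simpa [slval, gen] using this
  have hsound' : ∀ o u v, MR d o u v → val π u * gen π o = val π v := by
    intro o u v huv
    cases o with
    | none => exact hsound none trivial u v huv
    | some a =>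
      by_cases ha : a < d.1
      · exact hsound (some a) ha u v huv
      · rw [hMRbig (by omega)] at huv
        have := hsound none trivial u v huv
        simpa [gen, hpibig a (by omega)] using this
  -- following a chain
  have hfollow : ∀ (r : List SLet) (w : List ℕ), w ∈ DL D → ∃ w' ∈ DL D,
      ChainRel (MR d) r w w' ∧ cl w' = act (cl w) (slval π r) ∧
        val π w' = val π w * slval π r := by
    intro r
    induction r with
    | nil =>
      intro w hw
      exact ⟨w, hw, rfl, by rw [slval_nil, hA1], by rw [slval_nil, mul_one]⟩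
    | cons l r ih =>
      intro w hw
      obtain ⟨⟨w1, hw1, hr1⟩, ⟨w2, hw2, hr2⟩⟩ := hc' l.2 w hw
      by_cases hl : l.1 = true
      · obtain ⟨w', hw', hch, hcl', hval⟩ := ih w2 hw2
        refine ⟨w', hw', ⟨w2, by simpa [hl] using hr2, hch⟩, ?_, ?_⟩
        · have h5 := hact l.2 w2 hw2 w hw hr2
          rw [hcl', slval_cons, ← h5, hA2]
          congr 1
          simp [hl]
        · have h5 := hsound' l.2 w2 w hr2
          rw [hval, slval_cons, ← h5]
          simp [hl]
      · obtain ⟨w', hw', hch, hcl', hval⟩ := ih w1 hw1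
        refine ⟨w', hw', ⟨w1, by simpa [hl] using hr1, hch⟩, ?_, ?_⟩
        · have h5 := hact l.2 w hw w1 hw1 hr1
          rw [hcl', slval_cons, ← h5, hA2]
          congr 1
          simp [hl]
        · have h5 := hsound' l.2 w w1 hr1
          rw [hval, slval_cons, ← h5]
          simp [hl, mul_assoc]
  -- the prefix induction
  set c0 := p0.2 with hc0
  have hpre : ∀ (u p : List ℕ) (q : ℕ × List ℕ), q ∈ C → Run D.2.2 D.1 (p.map some) [] q.1 →
      Run D.2.2 q.1 (em u) [] D.2.1 →
      cl (p ++ q.2) = act (cl c0) ((val π c0)⁻¹ * val π (p ++ q.2)) →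
      cl (p ++ u) = act (cl c0) ((val π c0)⁻¹ * val π (p ++ u)) := by
    intro u
    induction u with
    | nil =>
      intro p q hq hp hu hcl
      have h5 : em [] = ([none] : List Sym) := rfl
      rw [h5] at hu
      obtain ⟨t, ht, hrest⟩ := runD_split hD1 hu
      have h6 := runD_nil' hD1 hrest
      subst h6
      have h7 : q.2 = [] := hC2 q hq _ ht rfl rfl rfl rfl
      rw [h7] at hcl
      exact hcl
    | cons a u ih =>
      intro p q hq hp hu hcl
      have h5 : em (a :: u) = some a :: em u := rfl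
      rw [h5] at hu
      obtain ⟨t, ht, hrest⟩ := runD_split hD1 hu
      have htX : t ∉ X := fun hx => dead_sound hX hx _ _ hrest
      obtain ⟨q', hq', hq't, hpc⟩ := hC3 q hq _ ht rfl rfl htX a rfl
      have hq't' : q'.1 = t := hq't
      -- words
      have hemapp : ∀ (x y : List ℕ), em (x ++ y) = x.map some ++ em y := by
        intro x y; simp [em]
      have hw0 : p ++ q.2 ∈ DL D := by
        show Run _ _ _ _ _
        rw [hemapp]
        have := run_append hp (hC1 q hq)
        simpa using this
      have hstep : Run D.2.2 D.1 ((p ++ [a]).map some) [] t := by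
        have := run_append hp (Run.left ht (Run.nil t))
        simpa using this
      have hw1 : (p ++ [a]) ++ q'.2 ∈ DL D := by
        show Run _ _ _ _ _
        rw [hemapp]
        have h8 := hC1 q' hq'
        rw [hq't'] at h8
        have := run_append hstep h8
        simpa using this
      obtain ⟨wk, hwk, hch, hclk, hvalk⟩ := hfollow (sinv (spos q.2) ++ (false, some a) ::
        spos q'.2) (p ++ q.2) hw0
      have hrel1 : Rel (pref D q.1 (some a :: em q'.2) (em q.2)) (em ((p ++ [a]) ++ q'.2))
          (em (p ++ q.2)) := by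
        rw [rel_pref hD1]
        refine ⟨p.map some, hp, ?_, ?_⟩
        · rw [hemapp]; simp
        · rw [hemapp]
      have hrel2 := chain_to_rel hd _ _ _ (hDn wk hwk) hch
      have hal : ALang (mult d none) ((p ++ [a]) ++ q'.2) wk :=
        check_sound (awf_mult hd none) hpc (rel_comp.2 ⟨_, hrel1, hrel2⟩)
          (rel_copy_em (hDn wk hwk)) hwk hD1
      have hcl2 : cl ((p ++ [a]) ++ q'.2) = cl wk := (hclR _ hw1 _ hwk).2 hal
      have hval2 : val π ((p ++ [a]) ++ q'.2) = val π wk := by
        have := hsound none trivial _ _ hal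
        simpa [gen] using this
      have h9 : cl ((p ++ [a]) ++ q'.2) =
          act (cl c0) ((val π c0)⁻¹ * val π ((p ++ [a]) ++ q'.2)) := by
        rw [hcl2, hclk, hcl, hA2, hval2, hvalk]
        congr 1
        group
      have h10 := ih (p ++ [a]) q' hq' (by rw [hq't']; exact hstep) (by rw [hq't']; exact hrest) h9
      simpa using h10
  have hclD : ∀ w ∈ DL D, cl w = act (cl c0) ((val π c0)⁻¹ * val π w) := by
    intro w hw
    have h5 := hpre w [] p0 hp0 (by rw [hp01]; exact Run.nil _) (by rw [hp01]; exact hw)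
      (by simp [← hc0, hA1])
    simpa using h5
  have hfaith : ∀ w ∈ DL D, ∀ w' ∈ DL D, val π w = val π w' → MR d none w w' := by
    intro w hw w' hw' h
    apply (hclR w hw w' hw').1
    rw [hclD w hw, hclD w' hw', h]
  have honto : ∀ g : G, ∃ u ∈ FLang d.2.1, val π u = g := by
    intro g
    obtain ⟨r, hr⟩ := hgen ((val π c0)⁻¹ * g)
    obtain ⟨w', hw', _, _, hval⟩ := hfollow r c0 hbase
    refine ⟨w', hDL w' hw', ?_⟩
    rw [hval, hr]; group
  refine ⟨G, inferInstance, π, ⟨?_, honto, ?_⟩⟩
  · intro g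
    obtain ⟨u, hu, hg⟩ := honto g
    exact ⟨u, flang_letters hd.W hu, hg⟩
  · intro x hxn u v
    constructor
    · intro huv
      obtain ⟨h5, h6⟩ := hb x hxn u v huv
      exact ⟨h5, h6, hsound x hxn u v huv⟩
    · rintro ⟨hu, hv, hval⟩
      obtain ⟨⟨w', hw', h5⟩, _⟩ := hc x hxn u hu
      obtain ⟨⟨w, hw, h6⟩, _⟩ := hc none trivial v hv
      have h7 : val π w' = val π w := by
        rw [← hsound x hxn u w' h5, hval]
        have := hsound none trivial v w h6
        simpa [gen] using this
      have h8 : MR d x u w := hdd x hxn u w w' hw' h5 (hfaith w hw w' hw' h7.symm)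
      exact hdd x hxn u v w hw h8 h6

end Pool.Agent.Helper632.AAR
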