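import Pool.Agent.Helper632.AAR.Yes2
import Pool.Agent.Helper632.AAR.Compl
import Pool.Agent.Helper632.AAR.Lab

/-!
A structure has a certificate.
-/

namespace Pool.Agent.Helper632.AAR

theorem sval_app {G : Type*} [Group G] (π : ℕ → G) (U V : List Sym) :
    sval π (U ++ V) = sval π U * sval π V := by simp [sval]

section
variable {G : Type*} [Group G] {π : ℕ → G} {d : Data}

theorem rodM_val (hd : DWF d) (hs : IsStructure G π d) {x : Option ℕ} (hx : InA d.1 x)
    {U V : List Sym} (h : Acc (mult d x) (mult d x).1 U V) :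
    ∃ u v, U = em u ∧ V = em v ∧ u ∈ FLang d.2.1 ∧ v ∈ FLang d.2.1 ∧
      val π u * gen π x = val π v := by
  obtain ⟨u, v, rfl, rfl, _, _⟩ := acc_em (awf_mult hd x) h
  obtain ⟨h1, h2, h3⟩ := (hs.mult x hx u v).1 h
  exact ⟨u, v, rfl, rfl, h1, h2, h3⟩

theorem rodM_val' (hd : DWF d) (hs : IsStructure G π d) {x : Option ℕ} (hx : InA d.1 x)
    {U V : List Sym} (h : Acc (mult d x) (mult d x).1 U V) :
    sval π U * gen π x = sval π V := by
  obtain ⟨u, v, rfl, rfl, _, _, h3⟩ := rodM_val hd hs hx h
  rw [sval_em', sval_em']; exact h3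

theorem rodL_val (hd : DWF d) (hs : IsStructure G π d) {l : SLet} (hl : InA d.1 l.2)
    {U V : List Sym} (h : Rel (rodL d l) U V) :
    ∃ u v, U = em u ∧ V = em v ∧ u ∈ FLang d.2.1 ∧ v ∈ FLang d.2.1 ∧
      val π u * (if l.1 then (gen π l.2)⁻¹ else gen π l.2) = val π v := by
  unfold rodL at h
  by_cases hb : l.1 = true
  · simp only [hb, if_true] at h ⊢
    rw [rel_inv] at h
    obtain ⟨u, v, rfl, rfl, h1, h2, h3⟩ :=
      rodM_val hd hs hl ((rel_rodM (awf_mult hd _)).1 h)
    exact ⟨v, u, rfl, rfl, h2, h1, by rw [← h3]; group⟩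
  · simp only [hb] at h ⊢
    obtain ⟨u, v, rfl, rfl, h1, h2, h3⟩ :=
      rodM_val hd hs hl ((rel_rodM (awf_mult hd _)).1 h)
    exact ⟨u, v, rfl, rfl, h1, h2, by simpa using h3⟩

theorem rodW_val (hd : DWF d) (hs : IsStructure G π d) :
    ∀ (r : List SLet), (∀ l ∈ r, InA d.1 l.2) → ∀ {U V : List Sym}, Rel (rodW d r) U V →
      sval π U * slval π r = sval π V
  | [], _, U, V, h => by
    have h' : Rel (copyN d.1) U V := h
    rw [rel_copyN] at h'
    rw [h'.1]; simp [slval]
  | l :: r, hr, U, V, h => by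
    have h' : Rel (comp (rodL d l) (rodW d r)) U V := h
    rw [rel_comp] at h'
    obtain ⟨W, h1, h2⟩ := h'
    obtain ⟨u, w, rfl, rfl, _, _, h3⟩ := rodL_val hd hs (hr l (by simp)) h1
    have h4 := rodW_val hd hs r (fun l hl => hr l (by simp [hl])) h2
    rw [slval_cons, ← h4, sval_em', sval_em', ← h3, mul_assoc]

theorem rodW_left (hd : DWF d) (hs : IsStructure G π d) {r : List SLet}
    (hr : ∀ l ∈ r, InA d.1 l.2) {U : List Sym} {w : List ℕ} (hw : w ∈ FLang d.2.1)
    (h : Rel (rodW d r) U (em w)) : ∃ u ∈ FLang d.2.1, U = em u := by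
  cases r with
  | nil =>
    have h' : Rel (copyN d.1) U (em w) := h
    rw [rel_copyN] at h'
    exact ⟨w, hw, h'.1⟩
  | cons l r =>
    have h' : Rel (comp (rodL d l) (rodW d r)) U (em w) := h
    rw [rel_comp] at h'
    obtain ⟨W, h1, h2⟩ := h'
    obtain ⟨u, w', rfl, rfl, hu, _, h3⟩ := rodL_val hd hs (hr l (by simp)) h1
    exact ⟨u, hu, rfl⟩

theorem inA_sinv {n : ℕ} {r : List SLet} (h : ∀ l ∈ r, InA n l.2) : ∀ l ∈ sinv r, InA n l.2 := by
  intro l hl
  unfold sinv at hl
  simp only [List.mem_map, List.mem_reverse] at hl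
  obtain ⟨m, hm, rfl⟩ := hl
  exact h m hm

theorem inA_spos {n : ℕ} {u : List ℕ} (h : ∀ a ∈ u, a < n) : ∀ l ∈ spos u, InA n l.2 := by
  intro l hl
  unfold spos at hl
  simp only [List.mem_map] at hl
  obtain ⟨a, ha, rfl⟩ := hl
  exact h a ha

theorem good_of_structure (hd : DWF d) (hs : IsStructure G π d) : Good d := by
  obtain ⟨D, hD1, hDW, hDonto, hdep⟩ := exists_D π d.2.1 (exc_finite π d hd hs)
  have hcopy : ∀ U V, Rel (copyN d.1) U V → sval π U * 1 = sval π V := by
    intro U V h
    rw [rel_copyN] at h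
    rw [h.1, mul_one]
  have heps : ∀ U V, Acc (mult d none) (mult d none).1 U V → sval π U * 1 = sval π V := by
    intro U V h
    have := rodM_val' hd hs (x := none) trivial h
    simpa [gen] using this
  have hDnil : ∀ {s t : ℕ} {U V : List Sym}, Run D.2.2 s U V t → V = [] := by
    intro s t U V h
    induction h with
    | nil s => rfl
    | eps he _ _ => have := hD1 _ he; simp at this
    | left _ _ ih => exact ih
    | right he _ _ => have := hD1 _ he; simp at this
  have hT : ∀ r : List SLet, (∀ l ∈ r, InA d.1 l.2) → slval π r = 1 → TrivCheck d D r := by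
    intro r hr hr1
    refine check_complete π (awf_mult hd none) (slval π r) 1 1
      (fun U V h => rodW_val hd hs r hr h) hcopy heps hD1 hdep ?_
    intro U W V h1 h2 h3
    rw [rel_copyN] at h2
    obtain ⟨hWV, _⟩ := h2
    subst hWV
    obtain ⟨w, hw, rfl⟩ := hDW W h3
    obtain ⟨u, hu, rfl⟩ := rodW_left hd hs hr hw h1
    have h4 := rodW_val hd hs r hr h1
    rw [hr1, mul_one, sval_em', sval_em'] at h4
    exact (hs.mult none trivial u w).2 ⟨hu, hw, by simpa [gen] using h4⟩
  have hDonto' : ∀ g : G, ∃ w, w ∈ FLang d.2.1 ∧ val π w = g ∧ Rel D (em w) [] := by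
    intro g
    obtain ⟨u, hu, hg⟩ := hs.onto g
    obtain ⟨w, hw, h1, h2⟩ := hDonto u hu
    exact ⟨w, hw, by rw [h1, hg], h2⟩
  refine ⟨hd, D, hD1, ?_, ?_, ?_, ?_, ?_, ?_⟩
  · apply proj_complete
    intro U V h
    have hV := hDnil h
    subst hV
    obtain ⟨w, hw, rfl⟩ := hDW U h
    exact ⟨[], rel_wNTA.2 ⟨rfl, w, hw, rfl⟩⟩
  · intro x hx
    rw [mem_rng] at hx
    refine ⟨?_, ?_, ?_, ?_, ?_, ?_, ?_, labOK_of π d hd hs D hT x hx⟩
    · apply proj_complete
      intro U V h
      obtain ⟨u, v, rfl, rfl, hu, hv, _⟩ := rodM_val hd hs hx ((rel_rodM (awf_mult hd x)).1 h)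
      exact ⟨[], rel_wNTA.2 ⟨rfl, u, hu, rfl⟩⟩
    · apply proj_complete
      intro U V h
      rw [rel_inv] at h
      obtain ⟨u, v, rfl, rfl, hu, hv, _⟩ := rodM_val hd hs hx ((rel_rodM (awf_mult hd x)).1 h)
      exact ⟨[], rel_wNTA.2 ⟨rfl, v, hv, rfl⟩⟩
    · apply proj_complete
      intro U V h
      rw [rel_wNTA] at h
      obtain ⟨_, u, hu, rfl⟩ := h
      obtain ⟨w, hw, hg, hDw⟩ := hDonto' (val π u * gen π x)
      refine ⟨[], rel_comp.2 ⟨em w, (rel_mult hd x).2 ?_, hDw⟩⟩
      exact (hs.mult x hx u w).2 ⟨hu, hw, hg.symm⟩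
    · apply proj_complete
      intro U V h
      rw [rel_wNTA] at h
      obtain ⟨_, u, hu, rfl⟩ := h
      obtain ⟨w, hw, hg, hDw⟩ := hDonto' (val π u * (gen π x)⁻¹)
      refine ⟨[], rel_comp.2 ⟨em w, rel_inv.2 ((rel_mult hd x).2 ?_), hDw⟩⟩
      exact (hs.mult x hx w u).2 ⟨hw, hu, by rw [hg]; group⟩
    · refine check_complete π (awf_mult hd x) (gen π x) 1 (gen π x)
        (fun U V h => rodM_val' hd hs hx ((rel_rodM (awf_mult hd x)).1 h)) ?_
        (fun U V h => rodM_val' hd hs hx h) hD1 hdep ?_
      · intro U V h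
        rw [rel_inv] at h
        have := heps V U ((rel_rodM (awf_mult hd none)).1 h)
        rw [mul_one] at this ⊢
        exact this.symm
      · intro U W V h1 h2 h3
        obtain ⟨u, w, rfl, rfl, hu, hw, hval⟩ :=
          rodM_val hd hs hx ((rel_rodM (awf_mult hd x)).1 h1)
        rw [rel_inv] at h2
        obtain ⟨v, w', rfl, hww, hv, hw', hval'⟩ :=
          rodM_val hd hs (x := none) trivial ((rel_rodM (awf_mult hd none)).1 h2)
        rw [em_inj hww] at hval
        refine (hs.mult x hx u v).2 ⟨hu, hv, ?_⟩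
        rw [hval, ← hval']; simp [gen]
    · apply hT
      · intro l hl
        simp only [List.mem_cons, List.not_mem_nil, or_false] at hl
        rcases hl with rfl | rfl | rfl
        · exact hx
        · exact trivial
        · exact hx
      · simp [slval, gen]
    · apply hT
      · intro l hl
        simp only [List.mem_cons, List.not_mem_nil, or_false] at hl
        rcases hl with rfl | rfl | rfl
        · exact hx
        · exact trivial
        · exact hx
      · simp [slval, gen]
  · exact hT [] (by simp) rfl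
  · apply hT
    · intro l hl
      simp only [List.mem_cons, List.not_mem_nil, or_false] at hl
      subst hl; exact trivial
    · simp [slval, gen]
  · apply hT
    · intro l hl
      simp only [List.mem_cons, List.not_mem_nil, or_false] at hl
      rcases hl with rfl | rfl <;> exact trivial
    · simp [slval, gen]
  · apply complOK_of d hd D hD1 hDW
    · obtain ⟨w, _, _, h⟩ := hDonto' 1
      exact ⟨_, h⟩
    · intro q c a c' hc hc' ha hrun _ hacc
      have hz : ∀ l ∈ sinv (spos c) ++ (false, some a) :: spos c', InA d.1 l.2 := by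
        intro l hl
        rcases List.mem_append.1 hl with h | h
        · exact inA_sinv (inA_spos hc) l h
        · rcases List.mem_cons.1 h with rfl | h
          · exact ha
          · exact inA_spos hc' l h
      have hzval : slval π (sinv (spos c) ++ (false, some a) :: spos c') =
          (val π c)⁻¹ * (π a * val π c') := by
        rw [slval_append, slval_sinv, slval_spos, slval_cons, slval_spos]
        simp [gen]
      have hX : sval π (some a :: em c') = π a * val π c' := by
        have : (some a :: em c' : List Sym) = [some a] ++ em c' := rfl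
        rw [this, sval_app, sval_em']
        simp [sval]
      have key : ∀ U V, Rel (comp (pref D q (some a :: em c') (em c))
          (rodW d (sinv (spos c) ++ (false, some a) :: spos c'))) U V →
          sval π U * 1 = sval π V := by
        intro U V h
        rw [rel_comp] at h
        obtain ⟨W, h1, h2⟩ := h
        rw [rel_pref hD1] at h1
        obtain ⟨P, _, rfl, rfl⟩ := h1
        have h3 := rodW_val hd hs _ hz h2
        rw [← h3, sval_app, sval_app, hX, sval_em', hzval]
        group
      refine check_complete π (awf_mult hd none) 1 1 1 key hcopy heps hD1 hdep ?_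
      intro U W V h1 h2 h3
      have h4 := key U W h1
      rw [rel_copyN] at h2
      obtain ⟨hWV, _⟩ := h2
      subst hWV
      obtain ⟨w, hw, rfl⟩ := hDW W h3
      rw [rel_comp] at h1
      obtain ⟨W', h1, _⟩ := h1
      rw [rel_pref hD1] at h1
      obtain ⟨P, hP, hU, _⟩ := h1
      have h5 := hacc P hP
      rw [← hU] at h5
      obtain ⟨u, hu, rfl⟩ := hDW U h5
      rw [mul_one, sval_em', sval_em'] at h4
      exact (hs.mult none trivial u w).2 ⟨hu, hw, by simpa [gen] using h4⟩

end

end Pool.Agent.Helper632.AAR
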